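import Pool.Agent.BEO.Alg

/-!
# EAD: the algorithm

The input is as in `Pool/Agent/BEO/Alg.lean`: the pairs (code of a flag, code of the other flag of its corner). The corners
at a vertex `v` are numbered along the rotation from a base flag; the dart `i` at `v` lies between the corners `i - 1` and
`i`. A chord is coded by `(v, (i, j))`, `i < j`: it joins the corners `i` and `j` at `v` and passes over the darts
`i + 1, ..., j`. A candidate is a list of chords. The new map is given as a new input.
-/

set_option autoImplicit false

namespace Pool.Agent.EAD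

open Pool.Agent.BEO

/-- codes of chords: the vertex and the two corners -/
abbrev Cc : Type := ℕ × (ℕ × ℕ)

/-- is the length odd? -/
def odl {X : Type} (l : List X) : Bool := decide (l.length % 2 = 1)

/-- the flag of the next corner -/
def rtc (l : Inp) (p : Pt) : Pt := sd (look l p p)

/-- one step along the rotation -/
def ost (s : (Inp × (ℕ × Pt)) × List (ℕ × Pt)) : (Inp × (ℕ × Pt)) × List (ℕ × Pt) :=
  ((s.1.1, (s.1.2.1 + 1, rtc s.1.1 s.1.2.2)), s.2 ++ [s.1.2])

/-- the first flags of the rotation starting with `p`, with their numbers, as many as `m` has elements -/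
def orb (l : Inp) (m : List Pt) (p : Pt) : List (ℕ × Pt) := (ost^[m.length] ((l, (0, p)), [])).2

/-- the vertices -/
def vtc (l : Inp) : List ℕ := ddp ((fl l).map Prod.fst)

/-- the darts at `v`, as flags -/
def drt (l : Inp) (v : ℕ) : List Pt := (fl l).filter fun p => decide (p.1 = v) && p.2.2

/-- the degree of `v` -/
def dgc (l : Inp) (v : ℕ) : ℕ := (drt l v).length

/-- the base flag of `v` -/
def bsc (l : Inp) (v : ℕ) : Pt := (drt l v).headD (0, (0, false))

/-- the corners at `v` in cyclic order: number and flag -/
def rlc (l : Inp) (v : ℕ) : List (ℕ × Pt) := orb l (drt l v) (bsc l v)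

/-- the chords at `v`: code and the flags of the two corners -/
def chv (l : Inp) (v : ℕ) : List (Cc × (Pt × Pt)) := (rlc l v).flatMap fun q =>
  ((rlc l v).filter fun q' => decide (q.1 + 1 ≤ q'.1)).map fun q' => ((v, (q.1, q'.1)), (q.2, q'.2))

/-- does the chord pass over the dart `i`? -/
def cvr (x : Cc) (i : ℕ) : Bool := decide (x.2.1 + 1 ≤ i) && decide (i ≤ x.2.2)

/-- the label of the chord `x` with respect to the closed walks through the edges `es` -/
def lbc (l : Inp) (es : List Ec) (x : Cc) : List Bool := es.map fun e =>
  odl ((rlc l x.1).filter fun q => cvr x q.1 && par (zl l e) (ek q.2))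

/-- the arcs: the faces of the two ends, the code and the label -/
def arC (l : Inp) (es : List Ec) : List ((Pt × Pt) × (Cc × List Bool)) := (vtc l).flatMap fun v =>
  (chv l v).flatMap fun x =>
    [((fcl l x.2.1, fcl l x.2.2), (x.1, lbc l es x.1)), ((fcl l x.2.2, fcl l x.2.1), (x.1, lbc l es x.1))]

section generic

variable {X C : Type} [DecidableEq X]

/-- the arcs of the graph of states: a point, a label and a parity -/
def arX (k : ℕ) (A : List ((X × X) × (C × List Bool))) :
    List (((X × (List Bool × Bool)) × (X × (List Bool × Bool))) × C) :=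
  A.flatMap fun a => (bvs k).flatMap fun v => [false, true].map fun b =>
    (((a.1.1, (v, b)), (a.1.2, (xo v a.2.2, !b))), a.2.1)

/-- the first steps from `x` -/
def inX (A : List ((X × X) × (C × List Bool))) (x : X) : List ((X × (List Bool × Bool)) × List C) :=
  (A.filter fun a => decide (a.1.1 = x)).map fun a => ((a.1.2, (a.2.2, true)), [a.2.1])

/-- the canonical walks -/
def wkX (k : ℕ) (A : List ((X × X) × (C × List Bool))) : List (List C) :=
  A.flatMap fun a => (bfs (arX k A) (inX A a.1.1)).map Prod.snd

end generic

/-- the candidates -/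
def cdC (k T : ℕ) (l : Inp) : List (List Cc) :=
  (tup ((fl l).map ek) k).flatMap fun es => cds (wkX k (arC l es)) T

/-- is the number of chords at `v` over both darts `i` and `j` odd? -/
def ivc (c : List Cc) (v i j : ℕ) : Bool := odl (c.filter fun x => decide (x.1 = v) && (cvr x i && cvr x j))

/-- the new position of the dart `i` at `v` -/
def psc (l : Inp) (c : List Cc) (v i : ℕ) : ℕ :=
  ((rlc l v).filter fun q => !decide (q.1 = i) && xor (decide (q.1 + 1 ≤ i)) (ivc c v q.1 i)).length

/-- the flag of the dart `q` in the corner towards the next dart of the new map -/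
def ofc (c : List Cc) (v : ℕ) (q : ℕ × Pt) : Pt := if ivc c v q.1 q.1 then sd q.2 else q.2

/-- the corners of the new map at `v` -/
def nwv (l : Inp) (c : List Cc) (v : ℕ) : List (Pt × Pt) := (rlc l v).flatMap fun q => (rlc l v).flatMap fun q' =>
  if decide (psc l c v q'.1 = psc l c v q.1 + 1) ||
      (decide (psc l c v q'.1 = 0) && decide (psc l c v q.1 + 1 = dgc l v)) then
    [(ofc c v q, sd (ofc c v q')), (sd (ofc c v q'), ofc c v q)]
  else []

/-- the new map -/
def nwi (l : Inp) (c : List Cc) : Inp := (vtc l).flatMap fun v => nwv l c v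

/-- pairs of darts at `v` with the same new position -/
def bdv (l : Inp) (c : List Cc) (v : ℕ) : List (ℕ × Pt) := (rlc l v).flatMap fun q =>
  (rlc l v).filter fun q' => !decide (q'.1 = q.1) && decide (psc l c v q'.1 = psc l c v q.1)

/-- do different darts have different new positions? -/
def vld (l : Inp) (c : List Cc) : Bool := ((vtc l).flatMap fun v => bdv l c v).isEmpty

/-- the largest number of faces of an orientable candidate -/
def bsC (k T : ℕ) (l : Inp) : ℕ :=
  ((cdC k T l).map fun c => if vld l c && isO (nwi l c) [] then nF (nwi l c) [] else 0).foldl max 0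

/-- the algorithm -/
def algC (k T : ℕ) (l : Inp) : ℕ := (2 + nE l - (nV l + bsC k T l)) / 2

end Pool.Agent.EAD
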