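import Pool.Agent.EAD.AInv
import Pool.Agent.BEO.FacS
import Pool.Agent.BEO.TreS

/-!
# EAD-AArc: the arcs

The codes of the faces, of the chords and of their labels.
-/

set_option autoImplicit false

open Finset
open scoped Classical

namespace Pool.Agent.EAD

open Pool.Agent.BEO
open Pool.Agent.Helper35.OG hiding F2 dg

variable {n : ℕ} {G : SimpleGraph (Fin n)}

theorem exists_phi {S : GMap G} {l : Inp} (h : Codes S l) :
    ∃ φ : S.Face → Pt, (∀ p, φ (S.face p) = fcl l (cod p)) ∧ ∀ F F', φ F = φ F' → F = F' := by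
  have hs : ∀ F : S.Face, ∃ p, S.face p = F := fun F => face_surj S F
  choose g hg using hs
  refine ⟨fun F => fcl l (cod (g F)), ?_, ?_⟩
  · intro p
    show fcl l (cod (g (S.face p))) = fcl l (cod p)
    rw [fcl_iff h]
    exact hg _
  · intro F F' hF
    have h1 : fcl l (cod (g F)) = fcl l (cod (g F')) := hF
    rw [fcl_iff h, hg, hg] at h1
    exact h1

private theorem aa_chv {S : GMap G} {l : Inp} (h : Codes S l) {b : Fin n → Flag G}
    (hbc : ∀ v : Fin n, bsc l v = cod (b v)) (v : Fin n) (x : Cc × (Pt × Pt)) :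
    x ∈ chv l (v : ℕ) ↔ ∃ i j, i < (nb G v).card ∧ j < (nb G v).card ∧ i < j ∧
      x = (((v : ℕ), (i, j)), (cod (cf S b v i), cod (cf S b v j))) := by
  unfold chv
  rw [rlc_eq h hbc v, List.mem_flatMap]
  constructor
  · rintro ⟨q, hq, hx⟩
    rw [List.mem_map] at hq hx
    obtain ⟨i, hi, rfl⟩ := hq
    obtain ⟨q', hq', rfl⟩ := hx
    rw [List.mem_filter, List.mem_map] at hq'
    obtain ⟨⟨j, hj, rfl⟩, hij⟩ := hq'
    rw [List.mem_range] at hi hj
    have hij' : i + 1 ≤ j := of_decide_eq_true hij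
    exact ⟨i, j, hi, hj, hij', rfl⟩
  · rintro ⟨i, j, hi, hj, hij, rfl⟩
    refine ⟨(i, cod (cf S b v i)), List.mem_map.2 ⟨i, List.mem_range.2 hi, rfl⟩, ?_⟩
    rw [List.mem_map]
    refine ⟨(j, cod (cf S b v j)), ?_, rfl⟩
    rw [List.mem_filter, List.mem_map]
    exact ⟨⟨j, List.mem_range.2 hj, rfl⟩, decide_eq_true hij⟩

theorem mem_arC {S : GMap G} {l : Inp} (h : Codes S l) (hG : G.Connected) (hn : 2 ≤ n) {b : Fin n → Flag G}
    (hbc : ∀ v : Fin n, bsc l v = cod (b v)) {P : Cor S.Face (Fin n)} (hd : ∀ v, P.d v = (nb G v).card)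
    (hf : ∀ v i, i < P.d v → P.fc v i = S.face (cf S b v i)) (φ : S.Face → Pt)
    (hφ : ∀ p, φ (S.face p) = fcl l (cod p)) (es : List Ec) (x : (Pt × Pt) × (Cc × List Bool)) :
    x ∈ arC l es ↔ ∃ e : Ch P,
      x = ((φ (P.fc e.vx e.lo), φ (P.fc e.vx e.hi)), (ccd e, lbc l es (ccd e))) ∨
      x = ((φ (P.fc e.vx e.hi), φ (P.fc e.vx e.lo)), (ccd e, lbc l es (ccd e))) := by
  unfold arC
  rw [List.mem_flatMap]
  constructor
  · rintro ⟨v, hv, hx⟩
    rw [mem_vtc h hG hn] at hv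
    obtain ⟨v, rfl⟩ := hv
    rw [List.mem_flatMap] at hx
    obtain ⟨y, hy, hx⟩ := hx
    obtain ⟨i, j, hi, hj, hij, rfl⟩ := (aa_chv h hbc v y).1 hy
    have hi' : i < P.d v := by rw [hd]; exact hi
    have hj' : j < P.d v := by rw [hd]; exact hj
    refine ⟨⟨⟨v, (⟨i, hi'⟩, ⟨j, hj'⟩)⟩, hij⟩, ?_⟩
    show x = ((φ (P.fc v i), φ (P.fc v j)), (((v : ℕ), (i, j)), lbc l es ((v : ℕ), (i, j)))) ∨
      x = ((φ (P.fc v j), φ (P.fc v i)), (((v : ℕ), (i, j)), lbc l es ((v : ℕ), (i, j))))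
    rw [hf v i hi', hf v j hj', hφ, hφ]
    rw [List.mem_cons, List.mem_singleton] at hx
    exact hx
  · rintro ⟨⟨⟨v, ⟨i, j⟩⟩, hij⟩, hx⟩
    have hij' : (i : ℕ) < (j : ℕ) := hij
    refine ⟨(v : ℕ), (mem_vtc h hG hn _).2 ⟨v, rfl⟩, ?_⟩
    rw [List.mem_flatMap]
    refine ⟨(((v : ℕ), ((i : ℕ), (j : ℕ))), (cod (cf S b v i), cod (cf S b v j))),
      (aa_chv h hbc v _).2 ⟨i, j, by rw [← hd]; exact i.2, by rw [← hd]; exact j.2, hij', rfl⟩, ?_⟩
    have hx' : x = ((φ (P.fc v i), φ (P.fc v j)), (((v : ℕ), ((i : ℕ), (j : ℕ))),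
          lbc l es ((v : ℕ), ((i : ℕ), (j : ℕ))))) ∨
        x = ((φ (P.fc v j), φ (P.fc v i)), (((v : ℕ), ((i : ℕ), (j : ℕ))),
          lbc l es ((v : ℕ), ((i : ℕ), (j : ℕ))))) := hx
    rw [hf v i i.2, hf v j j.2, hφ, hφ] at hx'
    rw [List.mem_cons, List.mem_singleton]
    exact hx'

/-- one component of a label -/
def lbf (l : Inp) (x : Ec) (a : Cc) : Bool := odl ((rlc l a.1).filter fun q => cvr a q.1 && par (zl l x) (ek q.2))

theorem lbc_eq (l : Inp) (es : List Ec) (a : Cc) : lbc l es a = es.map fun x => lbf l x a := rfl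

private theorem aa_odl {X : Type} (w : List X) :
    (if odl w = true then (1 : F2) else 0) = ((w.length : ℕ) : F2) := by
  unfold odl
  rcases Nat.mod_two_eq_zero_or_one w.length with h | h
  · have h2 : ((w.length : ℕ) : F2) = 0 := by
      rw [ZMod.natCast_eq_zero_iff_even]
      exact Nat.even_iff.mpr h
    rw [h2, if_neg]
    rw [decide_eq_true_eq]
    omega
  · have h2 : ((w.length : ℕ) : F2) = 1 := by
      rw [ZMod.natCast_eq_one_iff_odd]
      exact Nat.odd_iff.mpr h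
    rw [h2, if_pos]
    rw [decide_eq_true_eq]
    exact h

private theorem aa_len (r : ℕ → Bool) (d : ℕ) : ((((List.range d).filter r).length : ℕ) : F2) =
    ∑ i ∈ Finset.range d, (if r i = true then (1 : F2) else 0) := by
  induction d with
  | zero => simp
  | succ d ih =>
    rw [List.range_succ, List.filter_append, List.length_append, Nat.cast_add, ih, Finset.sum_range_succ]
    congr 1
    by_cases hr : r d = true
    · rw [if_pos hr, List.filter_cons_of_pos hr]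
      simp
    · rw [if_neg hr, List.filter_cons_of_neg hr]
      simp

theorem lbf_eq {S : GMap G} {l : Inp} (h : Codes S l) (hG : G.Connected) (hn : 2 ≤ n) {b : Fin n → Flag G}
    (hbc : ∀ v : Fin n, bsc l v = cod (b v)) {P : Cor S.Face (Fin n)} (hd : ∀ v, P.d v = (nb G v).card) (e : Ch P)
    (e' : G.edgeSet) : (if lbf l (ec e') (ccd e) = true then (1 : F2) else 0) =
      (cc S b e.vx e.lo + cc S b e.vx e.hi) ⟨pc (zl l (ec e')), zc_mem h hG hn e'⟩ := by
  obtain ⟨⟨v, ⟨i, j⟩⟩, hij⟩ := e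
  have hij' : (i : ℕ) < (j : ℕ) := hij
  have hj : (j : ℕ) < (nb G v).card := by rw [← hd]; exact j.2
  show (if lbf l (ec e') ((v : ℕ), ((i : ℕ), (j : ℕ))) = true then (1 : F2) else 0) =
    (∑ t ∈ Icc 1 (i : ℕ), pc (zl l (ec e')) (ed (cf S b v t))) +
      ∑ t ∈ Icc 1 (j : ℕ), pc (zl l (ec e')) (ed (cf S b v t))
  unfold lbf
  rw [aa_odl, rlc_eq h hbc v, List.filter_map, List.length_map, aa_len]
  have h1 : ∀ t, (if ((fun q : ℕ × Pt => cvr ((v : ℕ), ((i : ℕ), (j : ℕ))) q.1 && par (zl l (ec e')) (ek q.2)) ∘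
      fun t => (t, cod (cf S b v t))) t = true then (1 : F2) else 0) =
      if (i : ℕ) < t ∧ t ≤ (j : ℕ) then pc (zl l (ec e')) (ed (cf S b v t)) else 0 := by
    intro t
    show (if (decide ((i : ℕ) + 1 ≤ t) && decide (t ≤ (j : ℕ)) && par (zl l (ec e')) (ek (cod (cf S b v t)))) = true
      then (1 : F2) else 0) = _
    rw [ek_cod]
    unfold pc
    by_cases h2 : (i : ℕ) < t ∧ t ≤ (j : ℕ)
    · rw [if_pos h2, decide_eq_true (show (i : ℕ) + 1 ≤ t from h2.1), decide_eq_true h2.2]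
      simp
    · rw [if_neg h2, if_neg]
      intro h3
      rw [Bool.and_eq_true, Bool.and_eq_true, decide_eq_true_eq, decide_eq_true_eq] at h3
      exact h2 h3.1
  rw [Finset.sum_congr rfl fun t _ => h1 t, ← Finset.sum_filter]
  have h3 : (Finset.range (nb G v).card).filter (fun t => (i : ℕ) < t ∧ t ≤ (j : ℕ)) = Ioc (i : ℕ) (j : ℕ) := by
    ext t
    rw [mem_filter, mem_Ioc, Finset.mem_range]
    constructor
    · exact fun h => h.2
    · exact fun h => ⟨by omega, h⟩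
  have h4 : ∀ m : ℕ, Icc 1 m = Ioc 0 m := by
    intro m
    ext t
    rw [mem_Icc, mem_Ioc]
    omega
  rw [h3, h4, h4, ← Finset.sum_Ioc_consecutive _ (Nat.zero_le _) hij'.le, ← add_assoc,
    CharTwo.add_self_eq_zero, zero_add]

end Pool.Agent.EAD
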