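import Pool.Agent.EAD.XCfgA

/-!
# EAD-XCfgB: closed walks and even sets of pairs of faces

PLAN. `nullR`: by induction a walk `w` of `RG S.P` from `F` to `G` gives a list `l` of chords with
`l.map (fun e => s(D.s e, D.t e)) = w.edges` and `DW D.s D.t F G l` (`RG_iff`); then
`(w.edges.map (cl S)).sum = (l.map D.a).sum` (`cl_eq`), which is 0 by `D.wide`. `clsR`: lift `χ` to `nu`
(`exists_lift` with `mu := ∅`); `∑ e ∈ nu, D.a e` vanishes on `D.z F` for every `F`: `D.inc`, the number of
ends at `F` is `dg χ F`, even (`s_ne_t`: a chord has at most one end at `F`). So it is in `D.H` (the functionals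
vanishing on all `D.z F`). `card_mu_evb`: the same for a set of chords: `Ev` iff all degrees of the pairs are even.
-/

set_option autoImplicit false

open Finset
open scoped Classical

namespace Pool.Agent.EAD

open Pool.Agent.BEO hiding Cfg Frame

variable {k : ℕ} {Φ Vt Z : Type} [Fintype Φ] [Fintype Vt] [AddCommGroup Z] [Module F2 Z]

variable (S : Sys k Φ Vt Z)

private theorem xb_key (nu : Finset (Ch S.P)) (F : Φ) :
    ∑ e ∈ nu, ((if S.D.s e = F then (1 : F2) else 0) + (if S.D.t e = F then 1 else 0)) =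
      ((nu.filter fun e => F ∈ s(S.D.s e, S.D.t e)).card : F2) := by
  rw [card_filter, Nat.cast_sum]
  refine sum_congr rfl fun e _ => ?_
  have h := s_ne_t S e
  by_cases h1 : S.D.s e = F
  · have h2 : S.D.t e ≠ F := fun h' => h (h1.trans h'.symm)
    rw [if_pos h1, if_neg h2, if_pos (by rw [Sym2.mem_iff]; exact Or.inl h1.symm), add_zero,
      Nat.cast_one]
  · by_cases h2 : S.D.t e = F
    · rw [if_neg h1, if_pos h2, if_pos (by rw [Sym2.mem_iff]; exact Or.inr h2.symm), zero_add,
        Nat.cast_one]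
    · rw [if_neg h1, if_neg h2, if_neg (by
        rw [Sym2.mem_iff]
        rintro (h3 | h3)
        exacts [h1 h3.symm, h2 h3.symm]), add_zero, Nat.cast_zero]

private theorem xb_walk {F G : Φ} (w : (RG S.P).Walk F G) :
    ∃ l : List (Ch S.P), DW S.D.s S.D.t F G l ∧ l.length = w.length ∧
      (l.map S.D.a).sum = (w.edges.map (cl S)).sum := by
  induction w with
  | nil => exact ⟨[], DW.nil _, rfl, rfl⟩
  | @cons a b c h w ih =>
    obtain ⟨l, h1, h2, h3⟩ := ih
    obtain ⟨e, he⟩ := (RG_iff S a b).1 h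
    refine ⟨e :: l, DW.cons a b c e l (Sym2.eq_iff.1 he) h1, ?_, ?_⟩
    · rw [List.length_cons, SimpleGraph.Walk.length_cons, h2]
    · rw [SimpleGraph.Walk.edges_cons, List.map_cons, List.map_cons, List.sum_cons, List.sum_cons,
        ← he, cl_eq, h3]

theorem nullR (v : Φ) (w : (RG S.P).Walk v v) (h : w.length ≤ 6) : (w.edges.map (cl S)).sum = 0 := by
  obtain ⟨l, h1, h2, h3⟩ := xb_walk S w
  rw [← h3]
  exact S.D.wide v l h1 (h2 ▸ h)

theorem clsR (χ : Finset (Sym2 Φ)) (h : ∀ e ∈ χ, e ∈ (RG S.P).edgeSet) (hev : ∀ v, Even (dg χ v)) :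
    ∑ e ∈ χ, cl S e ∈ S.D.H := by
  obtain ⟨nu, hn1, hn2, -, hn4, -⟩ := exists_lift S ∅ (fun e he => absurd he (notMem_empty e)) χ h
  rw [← hn4]
  have hE : Ev S.D.s S.D.t nu := by
    intro F
    rw [xb_key]
    have hc : (nu.filter fun e => F ∈ s(S.D.s e, S.D.t e)).card = dg χ F := by
      unfold dg
      refine card_bij (fun e _ => s(S.D.s e, S.D.t e)) ?_ ?_ ?_
      · intro e he
        rw [mem_filter] at he ⊢
        exact ⟨(hn2 _).2 ⟨e, he.1, rfl⟩, he.2⟩
      · intro e he e' he' hee
        exact hn1 e (mem_filter.1 he).1 e' (mem_filter.1 he').1 hee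
      · intro x hx
        rw [mem_filter] at hx
        obtain ⟨e, he, hex⟩ := (hn2 x).1 hx.1
        exact ⟨e, mem_filter.2 ⟨he, by rw [hex]; exact hx.2⟩, hex⟩
    rw [hc]
    exact ZMod.natCast_eq_zero_iff_even.2 (hev F)
  intro F
  rw [LinearMap.sum_apply]
  exact (S.D.ev_iff nu).1 hE F

theorem ev_gr (lam : Finset (Ch S.P)) (hp : NoPar S lam) (h : Ev S.D.s S.D.t lam) (v : Φ) :
    Even (nb (S.D.gr lam) v).card := by
  have h1 := h v
  rw [xb_key] at h1
  have h2 : Even (lam.filter fun e => v ∈ s(S.D.s e, S.D.t e)).card :=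
    ZMod.natCast_eq_zero_iff_even.1 h1
  have hex : ∀ u ∈ nb (S.D.gr lam) v, ∃ e ∈ lam, s(S.D.s e, S.D.t e) = s(v, u) := by
    intro u hu
    unfold nb at hu
    obtain ⟨-, e, he, h3⟩ := (mem_filter.1 hu).2
    exact ⟨e, he, Sym2.eq_iff.2 h3⟩
  have hc : (nb (S.D.gr lam) v).card = (lam.filter fun e => v ∈ s(S.D.s e, S.D.t e)).card := by
    refine card_bij (fun u hu => Classical.choose (hex u hu)) ?_ ?_ ?_
    · intro u hu
      have h3 := Classical.choose_spec (hex u hu)
      refine mem_filter.2 ⟨h3.1, ?_⟩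
      rw [h3.2]
      exact Sym2.mem_mk_left v u
    · intro u hu u' hu' huu
      have h3 := (Classical.choose_spec (hex u hu)).2
      have h4 := (Classical.choose_spec (hex u' hu')).2
      have huu' : Classical.choose (hex u hu) = Classical.choose (hex u' hu') := huu
      rw [huu', h4] at h3
      exact (Sym2.congr_right.1 h3).symm
    · intro e he
      obtain ⟨he1, he2⟩ := mem_filter.1 he
      have h5 := s_ne_t S e
      have key : ∀ u, s(S.D.s e, S.D.t e) = s(v, u) → v ≠ u → ∃ (u' : Φ) (hu : u' ∈ nb (S.D.gr lam) v),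
          Classical.choose (hex u' hu) = e := by
        intro u hu hvu
        have hm : u ∈ nb (S.D.gr lam) v := by
          unfold nb
          exact mem_filter.2 ⟨mem_univ _, hvu, e, he1, Sym2.eq_iff.1 hu⟩
        refine ⟨u, hm, ?_⟩
        have h3 := Classical.choose_spec (hex u hm)
        exact hp _ h3.1 e he1 (h3.2.trans hu.symm)
      rw [Sym2.mem_iff] at he2
      rcases he2 with he2 | he2
      · refine key (S.D.t e) (by rw [he2]) ?_
        rw [he2]
        exact h5
      · refine key (S.D.s e) (by rw [he2]; exact Sym2.eq_swap) ?_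
        rw [he2]
        exact h5.symm
  rw [hc]
  exact h2

end Pool.Agent.EAD
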