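import Pool.Agent.EAD.Defs
import Pool.Agent.BEO.Base

/-!
# EAD: extremal realizable sets (definitions)
-/

set_option autoImplicit false

open Finset
open scoped Classical

namespace Pool.Agent.EAD

open Pool.Agent.BEO

variable {k : ℕ} {Φ Vt Z : Type} [Fintype Φ] [Fintype Vt] [AddCommGroup Z] [Module F2 Z]

/-- the four arc condition at `v` -/
def RealAt (P : Cor Φ Vt) (lam : Finset (Ch P)) (v : Vt) : Prop :=
  ∀ l m n, 0 < l → l < m → m < n → n < P.d v → ¬ (Odd (cnt lam v 0 l m n) ∧ Odd (cnt lam v l m n (P.d v)))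

/-- the number of faces of the chords of `lam` -/
noncomputable def act (S : Sys k Φ Vt Z) (lam : Finset (Ch S.P)) : ℕ := (vs (S.D.gr lam)).card

/-- `lam` is realizable and admissible of least rank, then with the fewest faces, then with the fewest chords; `mu` is a
smallest admissible subset. -/
structure Ext (S : Sys k Φ Vt Z) (lam mu : Finset (Ch S.P)) : Prop where
  real : Real S.P lam
  adm : S.D.Adm lam
  opt : ∀ lam', Real S.P lam' → S.D.Adm lam' → S.D.rkN lam ≤ S.D.rkN lam'
  few : ∀ lam', Real S.P lam' → S.D.Adm lam' → S.D.rkN lam' ≤ S.D.rkN lam → act S lam ≤ act S lam'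
  small : ∀ lam', Real S.P lam' → S.D.Adm lam' → S.D.rkN lam' ≤ S.D.rkN lam → act S lam' ≤ act S lam →
    lam.card ≤ lam'.card
  sub : mu ⊆ lam
  admM : S.D.Adm mu
  smallM : ∀ mu', mu' ⊆ lam → S.D.Adm mu' → mu.card ≤ mu'.card

/-- no two chords of `lam` have the same two faces -/
def NoPar (S : Sys k Φ Vt Z) (lam : Finset (Ch S.P)) : Prop :=
  ∀ e ∈ lam, ∀ e' ∈ lam, s(S.D.s e, S.D.t e) = s(S.D.s e', S.D.t e') → e = e'

/-- number of elements at `v` of a list of chords -/
noncomputable def mv {P : Cor Φ Vt} (l : List (Ch P)) (v : Vt) : ℕ := l.countP fun e => decide (e.vx = v)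

/-- number of ends at `F` of a list of chords -/
noncomputable def mf (S : Sys k Φ Vt Z) (l : List (Ch S.P)) (F : Φ) : ℕ :=
  (l.countP fun e => decide (S.D.s e = F)) + l.countP fun e => decide (S.D.t e = F)

/-- the chords of `lam` without those at the faces of `T` -/
noncomputable def delF (S : Sys k Φ Vt Z) (lam : Finset (Ch S.P)) (T : Finset Φ) : Finset (Ch S.P) :=
  lam.filter fun e => S.D.s e ∉ T ∧ S.D.t e ∉ T

end Pool.Agent.EAD
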