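import Pool.Agent.EAD.XCfgB
import Pool.Agent.BEO.Pull

/-!
# EAD-NTw: deleting an even number of twins

`twin_del`: by `wide` the classes of the chords at the members of `T` differ from those at `x` by functionals `d y`
which do not depend on the other face; so the form changes by `f ⊗ d + d ⊗ f` with `f` the value of the form at `z x`,
and the rank does not increase (`rank_pull`).
-/

set_option autoImplicit false

open Finset
open scoped Classical

namespace Pool.Agent.EAD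

open Pool.Agent.BEO hiding Cfg Frame

variable {k : ℕ} {Φ Vt Z : Type} [Fintype Φ] [Fintype Vt] [AddCommGroup Z] [Module F2 Z] [Module.Finite F2 Z]

omit [Module.Finite F2 Z] in
private theorem nt_adj (S : Sys k Φ Vt Z) (lam : Finset (Ch S.P)) (F G : Φ) :
    (S.D.gr lam).Adj F G ↔ ∃ e ∈ lam, s(S.D.s e, S.D.t e) = s(F, G) := by
  rw [← SimpleGraph.mem_edgeSet]
  exact gr_mem S lam s(F, G)

omit [Module.Finite F2 Z] in
private theorem nt_nb (S : Sys k Φ Vt Z) (lam : Finset (Ch S.P)) (F G : Φ) :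
    G ∈ nb (S.D.gr lam) F ↔ (S.D.gr lam).Adj F G := by
  unfold nb
  rw [mem_filter]
  exact ⟨fun h => h.2, fun h => ⟨mem_univ _, h⟩⟩

omit [Module.Finite F2 Z] in
private theorem nt_sum (S : Sys k Φ Vt Z) (lam : Finset (Ch S.P)) (hp : NoPar S lam) (x : Φ) (T : Finset Φ)
    (h : ∀ y ∈ T, ∀ u, (S.D.gr lam).Adj y u ↔ (S.D.gr lam).Adj x u) (g : (Z →ₗ[F2] F2) → F2) :
    ∑ e ∈ lam.filter (fun e => S.D.s e ∈ T ∨ S.D.t e ∈ T), g (S.D.a e) =
      ∑ y ∈ T, ∑ u ∈ nb (S.D.gr lam) x, g (cl S s(y, u)) := by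
  have h1 : (lam.filter (fun e => S.D.s e ∈ T ∨ S.D.t e ∈ T)).image (fun e => s(S.D.s e, S.D.t e)) =
      (T ×ˢ nb (S.D.gr lam) x).image fun p => s(p.1, p.2) := by
    ext e'
    rw [mem_image, mem_image]
    constructor
    · rintro ⟨e, he, rfl⟩
      obtain ⟨he1, he2⟩ := mem_filter.1 he
      rcases he2 with he2 | he2
      · refine ⟨(S.D.s e, S.D.t e), mem_product.2 ⟨he2, (nt_nb S lam _ _).2 ?_⟩, rfl⟩
        exact (h _ he2 _).1 ((nt_adj S lam _ _).2 ⟨e, he1, rfl⟩)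
      · refine ⟨(S.D.t e, S.D.s e), mem_product.2 ⟨he2, (nt_nb S lam _ _).2 ?_⟩, Sym2.eq_swap⟩
        exact (h _ he2 _).1 ((nt_adj S lam _ _).2 ⟨e, he1, Sym2.eq_swap⟩)
    · rintro ⟨⟨y, u⟩, hyu, rfl⟩
      obtain ⟨hy, hu⟩ := mem_product.1 hyu
      obtain ⟨e, he, he2⟩ := (nt_adj S lam _ _).1 ((h y hy u).2 ((nt_nb S lam _ _).1 hu))
      refine ⟨e, mem_filter.2 ⟨he, ?_⟩, he2⟩
      rcases Sym2.eq_iff.1 he2 with ⟨h3, -⟩ | ⟨-, h3⟩
      · left
        rw [h3]
        exact hy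
      · right
        rw [h3]
        exact hy
  have h2 : ∀ y ∈ T, y ∉ nb (S.D.gr lam) x := by
    intro y hy hy2
    exact (S.D.gr lam).loopless.irrefl x ((h y hy x).1 ((nt_nb S lam _ _).1 hy2).symm)
  calc ∑ e ∈ lam.filter (fun e => S.D.s e ∈ T ∨ S.D.t e ∈ T), g (S.D.a e) =
        ∑ e ∈ lam.filter (fun e => S.D.s e ∈ T ∨ S.D.t e ∈ T), g (cl S s(S.D.s e, S.D.t e)) :=
        sum_congr rfl fun e _ => by rw [cl_eq]
    _ = ∑ e' ∈ (lam.filter (fun e => S.D.s e ∈ T ∨ S.D.t e ∈ T)).image (fun e => s(S.D.s e, S.D.t e)),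
          g (cl S e') := by
        rw [sum_image]
        intro e he e' he' hee
        exact hp e (mem_filter.1 he).1 e' (mem_filter.1 he').1 hee
    _ = ∑ e' ∈ (T ×ˢ nb (S.D.gr lam) x).image (fun p => s(p.1, p.2)), g (cl S e') := by rw [h1]
    _ = ∑ p ∈ T ×ˢ nb (S.D.gr lam) x, g (cl S s(p.1, p.2)) := by
        rw [sum_image]
        rintro ⟨y, u⟩ hyu ⟨y', u'⟩ hyu' he
        obtain ⟨hy, hu⟩ := mem_product.1 hyu
        obtain ⟨hy', hu'⟩ := mem_product.1 hyu'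
        rcases Sym2.eq_iff.1 he with ⟨h3, h4⟩ | ⟨h3, h4⟩
        · exact Prod.ext h3 h4
        · exfalso
          apply h2 y hy
          have h5 : y = u' := h3
          rw [h5]
          exact hu'
    _ = ∑ y ∈ T, ∑ u ∈ nb (S.D.gr lam) x, g (cl S s(y, u)) := sum_product _ _ _

omit [Module.Finite F2 Z] in
private theorem nt_f (S : Sys k Φ Vt Z) (lam : Finset (Ch S.P)) (hp : NoPar S lam) (x : Φ) (w : Z) :
    S.D.N lam (S.D.z x) w = ∑ u ∈ nb (S.D.gr lam) x, cl S s(x, u) w := by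
  have h1 := nt_sum S lam hp x {x} (fun y hy u => by rw [mem_singleton.1 hy]) (fun φ => φ w)
  rw [sum_singleton] at h1
  rw [← h1, Dat.N_apply, S.D.symm, Dat.J_z, zero_add, sum_filter]
  refine sum_congr rfl fun e _ => ?_
  rw [S.D.inc]
  have hne := s_ne_t S e
  by_cases h2 : S.D.s e = x
  · have h3 : S.D.t e ≠ x := fun h => hne (h2.trans h.symm)
    rw [if_pos h2, if_neg h3, if_pos (Or.inl (mem_singleton.2 h2)), add_zero, one_mul]
  · by_cases h3 : S.D.t e = x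
    · rw [if_neg h2, if_pos h3, if_pos (Or.inr (mem_singleton.2 h3)), zero_add, one_mul]
    · rw [if_neg h2, if_neg h3, if_neg, add_zero, zero_mul]
      rintro (h4 | h4)
      · exact h2 (mem_singleton.1 h4)
      · exact h3 (mem_singleton.1 h4)

private theorem nt_char {a b c d : F2} (h : a + (b + (c + (d + 0))) = 0) : b = a + (c + d) := by
  revert a b c d
  decide

omit [Module.Finite F2 Z] in
private theorem nt_d (S : Sys k Φ Vt Z) (lam : Finset (Ch S.P)) (x : Φ) (T : Finset Φ)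
    (h : ∀ y ∈ T, ∀ u, (S.D.gr lam).Adj y u ↔ (S.D.gr lam).Adj x u) :
    ∃ d : Φ → (Z →ₗ[F2] F2), ∀ y ∈ T, ∀ u ∈ nb (S.D.gr lam) x, cl S s(y, u) = cl S s(x, u) + d y := by
  rcases (nb (S.D.gr lam) x).eq_empty_or_nonempty with h0 | ⟨u0, hu0⟩
  · refine ⟨fun _ => 0, fun y _ u hu => ?_⟩
    rw [h0] at hu
    exact absurd hu (notMem_empty u)
  · refine ⟨fun y => cl S s(y, u0) + cl S s(u0, x), fun y hy u hu => ?_⟩
    rw [nt_nb] at hu hu0
    have hle := gr_le S lam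
    have a1 : (RG S.P).Adj x u := hle hu
    have a2 : (RG S.P).Adj u y := hle (((h y hy u).2 hu).symm)
    have a3 : (RG S.P).Adj y u0 := hle ((h y hy u0).2 hu0)
    have a4 : (RG S.P).Adj u0 x := hle hu0.symm
    have h1 := nullR S x (SimpleGraph.Walk.cons a1 (SimpleGraph.Walk.cons a2 (SimpleGraph.Walk.cons a3
      (SimpleGraph.Walk.cons a4 SimpleGraph.Walk.nil)))) (by simp)
    simp only [SimpleGraph.Walk.edges_cons, SimpleGraph.Walk.edges_nil, List.map_cons, List.map_nil,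
      List.sum_cons, List.sum_nil] at h1
    rw [Sym2.eq_swap (a := y) (b := u)]
    refine LinearMap.ext fun w => ?_
    exact nt_char (LinearMap.congr_fun h1 w)

private theorem nt_alg {ι κ : Type} (T : Finset ι) (n : Finset κ) (hT : Even T.card) (hn : Even n.card)
    (b b' : κ → F2) (d d' : ι → F2) :
    ∑ y ∈ T, ∑ u ∈ n, (b u + d y) * (b' u + d' y) =
      (∑ u ∈ n, b u) * (∑ y ∈ T, d' y) + (∑ y ∈ T, d y) * (∑ u ∈ n, b' u) := by
  have h1 : (T.card : F2) = 0 := ZMod.natCast_eq_zero_iff_even.2 hT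
  have h2 : (n.card : F2) = 0 := ZMod.natCast_eq_zero_iff_even.2 hn
  have h3 : ∀ y ∈ T, ∑ u ∈ n, (b u + d y) * (b' u + d' y) =
      ∑ u ∈ n, b u * b' u + (∑ u ∈ n, b u) * d' y + d y * (∑ u ∈ n, b' u) := by
    intro y _
    have h4 : ∀ u ∈ n, (b u + d y) * (b' u + d' y) = b u * b' u + b u * d' y + d y * b' u + d y * d' y :=
      fun u _ => by ring
    rw [sum_congr rfl h4, sum_add_distrib, sum_add_distrib, sum_add_distrib, sum_const, nsmul_eq_mul, h2,
      zero_mul, add_zero, sum_mul, mul_sum]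
  rw [sum_congr rfl h3, sum_add_distrib, sum_add_distrib, sum_const, nsmul_eq_mul, h1, zero_mul, zero_add,
    mul_sum, sum_mul]

omit [Module.Finite F2 Z] in
private theorem nt_key {S : Sys k Φ Vt Z} {lam : Finset (Ch S.P)} (hadm : S.D.Adm lam) (hp : NoPar S lam) (x : Φ)
    (T : Finset Φ) (hT : Even T.card) (h : ∀ y ∈ T, ∀ u, (S.D.gr lam).Adj y u ↔ (S.D.gr lam).Adj x u) :
    ∃ y : Z →ₗ[F2] F2, ∀ u v, S.D.N (delF S lam T) u v =
      S.D.N lam u v + S.D.N lam (S.D.z x) u * y v + y u * S.D.N lam (S.D.z x) v := by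
  obtain ⟨d, hd⟩ := nt_d S lam x T h
  refine ⟨∑ y ∈ T, d y, fun u v => ?_⟩
  have hn : Even (nb (S.D.gr lam) x).card := ev_gr S lam hp (S.D.ev_of_adm lam hadm) x
  have h1 : ∑ e ∈ lam.filter (fun e => S.D.s e ∈ T ∨ S.D.t e ∈ T), S.D.a e u * S.D.a e v =
      S.D.N lam (S.D.z x) u * (∑ y ∈ T, d y) v + (∑ y ∈ T, d y) u * S.D.N lam (S.D.z x) v := by
    rw [nt_sum S lam hp x T h (fun φ => φ u * φ v), nt_f S lam hp, nt_f S lam hp, LinearMap.sum_apply,
      LinearMap.sum_apply, ← nt_alg T _ hT hn]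
    refine sum_congr rfl fun y hy => sum_congr rfl fun w hw => ?_
    rw [hd y hy w hw]
    rfl
  have h2 : ∑ e ∈ lam, S.D.a e u * S.D.a e v = ∑ e ∈ delF S lam T, S.D.a e u * S.D.a e v +
      ∑ e ∈ lam.filter (fun e => S.D.s e ∈ T ∨ S.D.t e ∈ T), S.D.a e u * S.D.a e v := by
    unfold delF
    rw [← sum_filter_add_sum_filter_not lam (fun e => S.D.s e ∉ T ∧ S.D.t e ∉ T)]
    congr 1
    refine sum_congr (filter_congr fun e _ => ?_) fun _ _ => rfl
    tauto
  have h3 : ∀ t : F2, t + t = 0 := fun t => CharTwo.add_self_eq_zero t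
  rw [Dat.N_apply, Dat.N_apply S.D lam u v, h2, h1]
  generalize S.D.N lam (S.D.z x) u * (∑ y ∈ T, d y) v = p
  generalize (∑ y ∈ T, d y) u * S.D.N lam (S.D.z x) v = r
  generalize S.D.J u v = j
  generalize ∑ e ∈ delF S lam T, S.D.a e u * S.D.a e v = t
  revert p r j t
  decide

/-- deleting an even number of twins of a face -/
theorem twin_del {S : Sys k Φ Vt Z} {lam : Finset (Ch S.P)} (hadm : S.D.Adm lam) (hp : NoPar S lam) (x : Φ)
    (T : Finset Φ) (hT : Even T.card) (h : ∀ y ∈ T, ∀ u, (S.D.gr lam).Adj y u ↔ (S.D.gr lam).Adj x u) :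
    S.D.Adm (delF S lam T) ∧ S.D.rkN (delF S lam T) ≤ S.D.rkN lam := by
  obtain ⟨y, hy⟩ := nt_key hadm hp x T hT h
  refine ⟨fun w => ?_, ?_⟩
  · rw [hy, hadm w, zero_add, mul_comm]
    exact CharTwo.add_self_eq_zero _
  · exact rank_pull (S.D.N lam) hadm (S.D.z x) y (S.D.N (delF S lam T)) hy

end Pool.Agent.EAD
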