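import Pool.Agent.EAD.NReal
import Pool.Agent.EAD.NF
import Pool.Agent.EAD.NTw

/-!
# EAD-ExtS: the linear part
-/
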