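import Pool.Agent.EAD.YLeg
import Pool.Agent.EAD.ExtS
import Pool.Agent.BEO.Repl

/-!
# EAD-YRep: replacing a leg

A leg of an extremal set of chords may be replaced by a walk with the same ends, class and parity, not longer, whose
chords are alone at their vertices: the new set is extremal too.
-/

set_option autoImplicit false

open Finset
open scoped Classical

namespace Pool.Agent.EAD

open Pool.Agent.BEO

variable {k : ℕ} {Φ Vt Z : Type} [Fintype Φ] [Fintype Vt] [AddCommGroup Z] [Module F2 Z] [Module.Finite F2 Z]

variable {S : Sys k Φ Vt Z} {lam mu : Finset (Ch S.P)} {F G : Φ} {P : List (Ch S.P)}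

private theorem yr_uniq {α : Type} (p : α → Bool) (l : List α) (h : l.countP p = 1) {a b : α} (ha : a ∈ l)
    (hb : b ∈ l) (h1 : p a = true) (h2 : p b = true) : a = b := by
  rw [List.countP_eq_length_filter] at h
  obtain ⟨x, hx⟩ := List.length_eq_one_iff.1 h
  have h3 : a ∈ l.filter p := List.mem_filter.2 ⟨ha, h1⟩
  have h4 : b ∈ l.filter p := List.mem_filter.2 ⟨hb, h2⟩
  rw [hx, List.mem_singleton] at h3 h4
  rw [h3, h4]

private theorem yr_odd {E : Type} [Fintype E] (l : List E) (h : l.Nodup) : oddE l = l.toFinset := by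
  ext e
  unfold oddE
  rw [mem_filter, List.mem_toFinset]
  constructor
  · rintro ⟨_, h1⟩
    by_contra h2
    rw [List.count_eq_zero_of_not_mem h2] at h1
    omega
  · intro h1
    refine ⟨mem_univ _, ?_⟩
    rw [List.count_eq_one_of_mem h h1]

private theorem yr_flat {α : Type} (l : List α) : (l.map fun x => [x]).flatten = l := by
  induction l with
  | nil => rfl
  | cons a l ih => rw [List.map_cons, List.flatten_cons, ih, List.singleton_append]

private theorem yr_first {Ψ E : Type} {s t : E → Ψ} {F G : Ψ} {l : List E} (h : DW s t F G l) (hne : l ≠ []) :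
    ∃ e ∈ l, s e = F ∨ t e = F := by
  cases h with
  | nil => exact absurd rfl hne
  | cons _ X _ e l he hl => exact ⟨e, List.mem_cons_self, he.elim (fun h => Or.inl h.1) (fun h => Or.inr h.2)⟩

omit [Module.Finite F2 Z] in
private theorem yr_vs (ν : Finset (Ch S.P)) (X : Φ) :
    X ∈ vs (S.D.gr ν) ↔ ∃ e ∈ ν, S.D.s e = X ∨ S.D.t e = X := by
  unfold vs
  rw [mem_filter]
  constructor
  · rintro ⟨_, Y, _, e, he, h | h⟩
    · exact ⟨e, he, Or.inl h.1⟩
    · exact ⟨e, he, Or.inr h.2⟩
  · rintro ⟨e, he, h⟩
    refine ⟨mem_univ _, ?_⟩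
    have h1 := s_ne_t S e
    rcases h with h | h
    · exact ⟨S.D.t e, by rw [← h]; exact h1, e, he, Or.inl ⟨h, rfl⟩⟩
    · exact ⟨S.D.s e, by rw [← h]; exact h1.symm, e, he, Or.inr ⟨rfl, h⟩⟩

/-- the rank after the replacement -/
private theorem yr_rank (h : Ext S lam mu) (hl : Leg S lam mu F G P) (c : List (Ch S.P))
    (hne : c ≠ []) (hlen : c.length ≤ P.length) (hpar : (c.length + P.length) % 2 = 0)
    (hcls : (c.map S.D.a).sum = (P.map S.D.a).sum) (hnd : c.Nodup) (hdj : ∀ e ∈ c, e ∈ lam → e ∈ P) :
    S.D.Adm ((lam.filter fun e => e ∉ P) ∪ c.toFinset) ∧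
      S.D.rkN ((lam.filter fun e => e ∉ P) ∪ c.toFinset) ≤ S.D.rkN lam := by
  let lam0 := lam.filter fun e => e ∉ P
  let σ := lam0.equivFin.symm
  have hσ : ∀ i, (σ i).1 ∈ lam ∧ (σ i).1 ∉ P := fun i => mem_filter.1 (σ i).2
  have hσs : ∀ e, e ∈ lam → e ∉ P → ∃ i, (σ i).1 = e := fun e he hP =>
    ⟨lam0.equivFin ⟨e, mem_filter.2 ⟨he, hP⟩⟩, by simp [σ]⟩
  have hσi : ∀ i j, (σ i).1 = (σ j).1 → i = j := fun i j hij => σ.injective (Subtype.ext hij)
  let L : LegSys S.D.s S.D.t lam (lam0.card + 1) :=
    { src := Fin.cons F fun i => S.D.s (σ i).1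
      tgt := Fin.cons G fun i => S.D.t (σ i).1
      w := Fin.cons P fun i => [(σ i).1]
      dw := by
        intro i
        refine Fin.cases ?_ (fun i => ?_) i
        · exact hl.dw
        · exact DW.single _
      ne := by
        intro i
        refine Fin.cases ?_ (fun i => ?_) i
        · exact hl.ne
        · exact List.cons_ne_nil _ _
      nd := by
        intro i
        refine Fin.cases ?_ (fun i => ?_) i
        · exact hl.nodup
        · exact List.nodup_singleton _
      dj := by
        intro i j
        refine Fin.cases ?_ (fun i => ?_) i <;> refine Fin.cases ?_ (fun j => ?_) j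
        · intro h1
          exact absurd rfl h1
        · intro _ e he he'
          rw [Fin.cons_zero] at he
          rw [Fin.cons_succ, List.mem_singleton] at he'
          rw [he'] at he
          exact (hσ j).2 he
        · intro _ e he he'
          rw [Fin.cons_zero] at he'
          rw [Fin.cons_succ, List.mem_singleton] at he
          rw [he] at he'
          exact (hσ i).2 he'
        · intro h1 e he he'
          rw [Fin.cons_succ, List.mem_singleton] at he he'
          exact h1 (congrArg Fin.succ (hσi i j (he.symm.trans he')))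
      cov := by
        intro e
        constructor
        · intro he
          by_cases h1 : e ∈ P
          · exact ⟨0, h1⟩
          · obtain ⟨i, hi⟩ := hσs e he h1
            refine ⟨i.succ, ?_⟩
            rw [Fin.cons_succ, List.mem_singleton]
            exact hi.symm
        · rintro ⟨i, hi⟩
          revert hi
          refine Fin.cases ?_ (fun i => ?_) i
          · intro hi
            exact hl.sub e hi
          · intro hi
            rw [Fin.cons_succ, List.mem_singleton] at hi
            rw [hi]
            exact (hσ i).1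
      un := by
        intro ν hν hev i
        refine Fin.cases ?_ (fun i => ?_) i
        · exact leg_un hl ν hν hev
        · by_cases h1 : (σ i).1 ∈ ν
          · left
            intro e he
            rw [Fin.cons_succ, List.mem_singleton] at he
            rwa [he]
          · right
            intro e he
            rw [Fin.cons_succ, List.mem_singleton] at he
            rwa [he] }
  let w' : Fin (lam0.card + 1) → List (Ch S.P) := Fin.cons c fun i => [(σ i).1]
  have key := S.D.repl_legs lam h.adm (lam0.card + 1) L w'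
    (by
      intro i
      refine Fin.cases ?_ (fun i => ?_) i
      · exact hne
      · exact List.cons_ne_nil _ _)
    (by
      intro i
      refine Fin.cases ?_ (fun i => ?_) i
      · exact hlen
      · exact le_refl _)
    (by
      intro i
      refine Fin.cases ?_ (fun i => ?_) i
      · exact hpar
      · show ([(σ i).1].length + [(σ i).1].length) % 2 = 0
        rw [List.length_singleton])
    (by
      intro i
      refine Fin.cases ?_ (fun i => ?_) i
      · exact hcls
      · rfl)
  have hfl : (List.ofFn w').flatten = c ++ List.ofFn fun i => (σ i).1 := by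
    rw [List.ofFn_succ, List.flatten_cons]
    have h1 : (List.ofFn fun i : Fin lam0.card => w' i.succ) = (List.ofFn fun i => (σ i).1).map fun x => [x] := by
      rw [List.map_ofFn]
      rfl
    rw [h1, yr_flat]
    rfl
  have hnd2 : (c ++ List.ofFn fun i => (σ i).1).Nodup := by
    rw [List.nodup_append]
    refine ⟨hnd, List.nodup_ofFn.2 fun i j hij => hσi i j hij, ?_⟩
    intro e he e' he' hee
    rw [List.mem_ofFn] at he'
    obtain ⟨i, hi⟩ := he'
    have h1 : e = (σ i).1 := hee.trans hi.symm
    rw [h1] at he
    exact (hσ i).2 (hdj _ he (hσ i).1)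
  have hset : oddE (List.ofFn w').flatten = (lam.filter fun e => e ∉ P) ∪ c.toFinset := by
    rw [hfl, yr_odd _ hnd2]
    ext e
    rw [List.mem_toFinset, List.mem_append, mem_union, List.mem_toFinset, or_comm]
    apply or_congr_left
    rw [List.mem_ofFn, mem_filter]
    constructor
    · rintro ⟨i, hi⟩
      rw [← hi]
      exact hσ i
    · rintro ⟨h1, h2⟩
      exact hσs e h1 h2
  rw [hset] at key
  exact key

theorem replace (h : Ext S lam mu) (hl : Leg S lam mu F G P) (c : List (Ch S.P)) (hc : DW S.D.s S.D.t F G c)
    (hne : c ≠ []) (hlen : c.length ≤ P.length) (hpar : (c.length + P.length) % 2 = 0)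
    (hcls : (c.map S.D.a).sum = (P.map S.D.a).sum) (hf : Free lam P c) :
    c.Nodup ∧ (∀ e ∈ c, e ∈ lam → e ∈ P) ∧ ∃ mu', Ext S ((lam.filter fun e => e ∉ P) ∪ c.toFinset) mu' := by
  -- no repetitions
  have hnd : c.Nodup := by
    rw [List.nodup_iff_count_le_one]
    intro a
    by_cases ha : a ∈ c
    · rw [← (hf a ha).1]
      unfold List.count
      refine List.countP_mono_left fun x _ hx => ?_
      rw [beq_iff_eq] at hx
      rw [hx]
      exact decide_eq_true rfl
    · rw [List.count_eq_zero_of_not_mem ha]
      exact Nat.zero_le _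
  have hdj : ∀ e ∈ c, e ∈ lam → e ∈ P := by
    intro e he hel
    by_contra h1
    exact (hf e he).2 e hel h1 rfl
  refine ⟨hnd, hdj, ?_⟩
  obtain ⟨hadm, hrk⟩ := yr_rank h hl c hne hlen hpar hcls hnd hdj
  -- realizable
  have hreal : Real S.P ((lam.filter fun e => e ∉ P) ∪ c.toFinset) := by
    intro v
    show RealAt S.P _ v
    by_cases h1 : ∃ e ∈ c, e.vx = v
    · obtain ⟨e, he, hv⟩ := h1
      refine realAt_star e.lo ?_
      intro e' he' hv' _
      left
      rw [mem_union, mem_filter, List.mem_toFinset] at he'
      rcases he' with ⟨h2, h3⟩ | h2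
      · exact absurd (hv'.trans hv.symm) ((hf e he).2 e' h2 h3)
      · have h3 := yr_uniq _ c (hf e he).1 h2 he (decide_eq_true (hv'.trans hv.symm)) (decide_eq_true rfl)
        rw [h3]
    · by_cases h2 : ∃ e ∈ P, e.vx = v
      · obtain ⟨e, he, hv⟩ := h2
        refine realAt_star 0 ?_
        intro e' he' hv' _
        exfalso
        rw [mem_union, mem_filter, List.mem_toFinset] at he'
        rcases he' with ⟨h3, h4⟩ | h3
        · rw [hl.priv e he e' h3 (hv'.trans hv.symm)] at h4
          exact h4 he
        · exact h1 ⟨e', h3, hv'⟩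
      · refine realAt_congr ?_ (h.real v)
        intro e hv _
        rw [mem_union, mem_filter, List.mem_toFinset]
        constructor
        · intro h3
          exact Or.inl ⟨h3, fun h4 => h2 ⟨e, h4, hv⟩⟩
        · rintro (h3 | h3)
          · exact h3.1
          · exact absurd ⟨e, h3, hv⟩ h1
  -- the active faces
  obtain ⟨H, a1, a2, a3, a4, a5⟩ := leg_inner hl
  obtain ⟨H', b1, b2⟩ := walk_faces hc hne
  have hact : act S ((lam.filter fun e => e ∉ P) ∪ c.toFinset) ≤ act S lam := by
    have c1 : vs (S.D.gr ((lam.filter fun e => e ∉ P) ∪ c.toFinset)) ⊆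
        H' ∪ (vs (S.D.gr (lam.filter fun e => e ∉ P)) ∪ {F, G}) := by
      intro X hX
      rw [yr_vs] at hX
      obtain ⟨e, he, hX⟩ := hX
      rw [mem_union, List.mem_toFinset] at he
      rw [mem_union, mem_union, yr_vs, mem_insert, mem_singleton]
      rcases he with he | he
      · exact Or.inr (Or.inl ⟨e, he, hX⟩)
      · obtain ⟨b3, b4⟩ := b2 e he
        rcases hX with hX | hX
        · rw [hX] at b3
          rcases b3 with b3 | b3 | b3
          · exact Or.inr (Or.inr (Or.inl b3))
          · exact Or.inr (Or.inr (Or.inr b3))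
          · exact Or.inl b3
        · rw [hX] at b4
          rcases b4 with b4 | b4 | b4
          · exact Or.inr (Or.inr (Or.inl b4))
          · exact Or.inr (Or.inr (Or.inr b4))
          · exact Or.inl b4
    have c2 : H ∪ (vs (S.D.gr (lam.filter fun e => e ∉ P)) ∪ {F, G}) ⊆ vs (S.D.gr lam) := by
      intro X hX
      rw [mem_union, mem_union, yr_vs, mem_insert, mem_singleton] at hX
      rw [yr_vs]
      rcases hX with hX | ⟨e, he, hX⟩ | hX | hX
      · obtain ⟨e, he, h1⟩ := a4 X hX
        exact ⟨e, hl.sub e he, h1⟩
      · exact ⟨e, (mem_filter.1 he).1, hX⟩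
      · obtain ⟨e, he, h1⟩ := yr_first hl.dw hl.ne
        rw [hX]
        exact ⟨e, hl.sub e he, h1⟩
      · obtain ⟨e, he, h1⟩ := yr_first hl.dw.reverse (fun h2 => hl.ne (List.reverse_eq_nil_iff.1 h2))
        rw [hX]
        exact ⟨e, hl.sub e (List.mem_reverse.1 he), h1⟩
    have c3 : Disjoint H (vs (S.D.gr (lam.filter fun e => e ∉ P)) ∪ {F, G}) := by
      rw [Finset.disjoint_left]
      intro X hX hX'
      rw [mem_union, yr_vs, mem_insert, mem_singleton] at hX'
      rcases hX' with ⟨e, he, h1⟩ | h1 | h1
      · exact (mem_filter.1 he).2 (a5 X hX e (mem_filter.1 he).1 h1)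
      · rw [h1] at hX
        exact a2 hX
      · rw [h1] at hX
        exact a3 hX
    have c4 := Finset.card_le_card c1
    have c5 := Finset.card_le_card c2
    rw [Finset.card_union_of_disjoint c3] at c5
    have c6 := Finset.card_union_le H' (vs (S.D.gr (lam.filter fun e => e ∉ P)) ∪ {F, G})
    unfold act
    omega
  have hcard : ((lam.filter fun e => e ∉ P) ∪ c.toFinset).card ≤ lam.card := by
    have c1 := Finset.card_union_le (lam.filter fun e => e ∉ P) c.toFinset
    have c2 := List.toFinset_card_le c
    have c3 : (lam.filter fun e => e ∉ P).card + P.length = lam.card := by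
      rw [← List.toFinset_card_of_nodup hl.nodup, ← Finset.card_union_of_disjoint]
      · congr 1
        ext e
        rw [mem_union, mem_filter, List.mem_toFinset]
        constructor
        · rintro (h1 | h1)
          · exact h1.1
          · exact hl.sub e h1
        · intro h1
          by_cases h2 : e ∈ P
          · exact Or.inr h2
          · exact Or.inl ⟨h1, h2⟩
      · rw [Finset.disjoint_left]
        intro e he he'
        exact (mem_filter.1 he).2 (List.mem_toFinset.1 he')
    omega
  obtain ⟨mu', hm1, hm2⟩ := Finset.exists_min_image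
    (((lam.filter fun e => e ∉ P) ∪ c.toFinset).powerset.filter fun nu => S.D.Adm nu) Finset.card
    ⟨_, mem_filter.2 ⟨Finset.mem_powerset_self _, hadm⟩⟩
  rw [mem_filter, mem_powerset] at hm1
  refine ⟨mu', hreal, hadm, ?_, ?_, ?_, hm1.1, hm1.2, ?_⟩
  · intro nu h1 h2
    exact hrk.trans (h.opt nu h1 h2)
  · intro nu h1 h2 h3
    exact hact.trans (h.few nu h1 h2 (h3.trans hrk))
  · intro nu h1 h2 h3 h4
    exact hcard.trans (h.small nu h1 h2 (h3.trans hrk) (h4.trans hact))
  · intro nu h1 h2
    exact hm2 nu (mem_filter.2 ⟨mem_powerset.2 h1, h2⟩)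

end Pool.Agent.EAD
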