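import Pool.Agent.EAD.Defs

/-!
# EAD: canonical walks (definition)
-/

set_option autoImplicit false

open Finset
open scoped Classical

namespace Pool.Agent.EAD

open Pool.Agent.BEO

/-- Canonical walks: for every walk `w` there is one in `W` with the same ends, class and parity, not longer. -/
def Canon {k : ℕ} {Φ Vt Z : Type} [Fintype Φ] [Fintype Vt] [AddCommGroup Z] [Module F2 Z] (S : Sys k Φ Vt Z)
    (W : Set (List (Ch S.P))) : Prop :=
  ∀ (F G : Φ) (w : List (Ch S.P)), DW S.D.s S.D.t F G w → w ≠ [] → ∃ w' ∈ W, DW S.D.s S.D.t F G w' ∧ w' ≠ [] ∧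
    w'.length ≤ w.length ∧ (w'.length + w.length) % 2 = 0 ∧ (w'.map S.D.a).sum = (w.map S.D.a).sum

end Pool.Agent.EAD
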