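import Pool.Agent.EAD.ExtD
import Pool.Agent.EAD.Opt0

/-!
# EAD-YDef: definitions for the last step
-/

set_option autoImplicit false

open Finset
open scoped Classical

namespace Pool.Agent.EAD

open Pool.Agent.BEO

variable {k : ℕ} {Φ Vt Z : Type} [Fintype Φ] [Fintype Vt] [AddCommGroup Z] [Module F2 Z]

/-- chords of `lam` which are not in `mu` or share their vertex with another chord of `lam` -/
noncomputable def badC (S : Sys k Φ Vt Z) (lam mu : Finset (Ch S.P)) : Finset (Ch S.P) :=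
  lam.filter fun e => e ∉ mu ∨ ∃ e' ∈ lam, e' ≠ e ∧ e'.vx = e.vx

/-- the number of chords of `lam` at the face `F` -/
noncomputable def dgF (S : Sys k Φ Vt Z) (lam : Finset (Ch S.P)) (F : Φ) : ℕ :=
  (lam.filter fun e => S.D.s e = F ∨ S.D.t e = F).card

/-- `lam` is the disjoint union of the members of `ls`, which are walks in `W` -/
structure Dec (S : Sys k Φ Vt Z) (W : Set (List (Ch S.P))) (lam : Finset (Ch S.P)) (ls : List (List (Ch S.P))) :
    Prop where
  mem : ∀ w ∈ ls, w ∈ W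
  walk : ∀ w ∈ ls, ∃ F G, DW S.D.s S.D.t F G w
  ne : ∀ w ∈ ls, w ≠ []
  nodup : ls.flatten.Nodup
  cov : ∀ e, e ∈ lam ↔ e ∈ ls.flatten

/-- a good walk: not closed, no bad chords, all faces of degree two -/
structure GdP (S : Sys k Φ Vt Z) (lam mu : Finset (Ch S.P)) (w : List (Ch S.P)) : Prop where
  op : ∃ F G, F ≠ G ∧ DW S.D.s S.D.t F G w
  nb : ∀ e ∈ w, e ∉ badC S lam mu
  deg : ∀ e ∈ w, dgF S lam (S.D.s e) = 2 ∧ dgF S lam (S.D.t e) = 2

/-- two walks have an end of degree two in common -/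
def Jn (S : Sys k Φ Vt Z) (lam : Finset (Ch S.P)) (w w' : List (Ch S.P)) : Prop :=
  ∃ F, dgF S lam F = 2 ∧ (w.countP fun e => decide (S.D.s e = F ∨ S.D.t e = F)) = 1 ∧
    (w'.countP fun e => decide (S.D.s e = F ∨ S.D.t e = F)) = 1

/-- a leg of `lam`: a walk with private chords of `mu` and faces of degree two -/
structure Leg (S : Sys k Φ Vt Z) (lam mu : Finset (Ch S.P)) (F G : Φ) (P : List (Ch S.P)) : Prop where
  dw : DW S.D.s S.D.t F G P
  ne : P ≠ []
  nodup : P.Nodup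
  sub : ∀ e ∈ P, e ∈ lam
  subM : ∀ e ∈ P, e ∈ mu
  deg : ∀ e ∈ P, dgF S lam (S.D.s e) = 2 ∧ dgF S lam (S.D.t e) = 2
  priv : ∀ e ∈ P, ∀ e' ∈ lam, e'.vx = e.vx → e' = e

/-- the walk `c` can replace `P`: at the vertex of every chord of `c` there is no other chord of `c` and no chord of `lam`
outside `P` -/
def Free {P : Cor Φ Vt} (lam : Finset (Ch P)) (p c : List (Ch P)) : Prop :=
  ∀ e ∈ c, (c.countP fun e' => decide (e'.vx = e.vx)) = 1 ∧ ∀ e' ∈ lam, e' ∉ p → e'.vx ≠ e.vx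

end Pool.Agent.EAD
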