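import Pool.Agent.BEO.Base

/-!
# EAD: configurations and frames

As `BEO/Base.lean`, without the twin rule; `R` is the graph of the pairs of faces with a common vertex.
-/

set_option autoImplicit false

open Finset
open scoped Classical

namespace Pool.Agent.EAD

open Pool.Agent.BEO hiding Cfg Frame

/-- The configuration attached to an extremal set. -/
structure Cfg (k : ℕ) (V Q : Type) [Fintype V] [AddCommGroup Q] [Module F2 Q] where
  /-- the graph of the extremal set -/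
  L : SimpleGraph V
  /-- its smallest subset with the same class -/
  M : SimpleGraph V
  /-- the pairs of faces with a common vertex -/
  R : SimpleGraph V
  le : M ≤ L
  leR : L ≤ R
  /-- the class of an edge -/
  a : Sym2 V → Q
  /-- the classes of cycles -/
  H : Submodule F2 Q
  evL : ∀ v, Even (nb L v).card
  evM : ∀ v, Even (nb M v).card
  nullR : ∀ (v : V) (w : R.Walk v v), w.length ≤ 6 → (w.edges.map a).sum = 0
  clsR : ∀ χ : Finset (Sym2 V), (∀ e ∈ χ, e ∈ R.edgeSet) → (∀ v, Even (dg χ v)) → ∑ e ∈ χ, a e ∈ H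
  finH : Module.Finite F2 H
  dimH : Module.finrank F2 H ≤ k
  mn : ∀ χ : Finset (Sym2 V), (∀ e ∈ χ, e ∈ L.edgeSet) → (∀ v, Even (dg χ v)) → ∑ e ∈ χ, a e = 0 →
    (χ.filter fun e => e ∈ M.edgeSet).card ≤ (χ.filter fun e => e ∉ M.edgeSet).card
  mnR : ∀ χ : Finset (Sym2 V), (∀ e ∈ χ, e ∈ R.edgeSet) → (∀ v, Even (dg χ v)) → ∑ e ∈ χ, a e = 0 →
    (χ.filter fun e => e ∈ M.edgeSet).card ≤ (χ.filter fun e => e ∉ M.edgeSet).card + 13 * k
  clLM : ∑ e ∈ es L, a e = ∑ e ∈ es M, a e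
  rk : Module.finrank F2 (rowSp L) ≤ k + (es M).card
  lb : ∀ L' : SimpleGraph V, L' ≤ L → (∀ v, Even (nb L' v).card) → ∑ e ∈ es L', a e = ∑ e ∈ es M, a e →
    (es M).card ≤ Module.finrank F2 (rowSp L') + 12 * k

namespace Cfg

variable {k : ℕ} {V Q : Type} [Fintype V] [AddCommGroup Q] [Module F2 Q] (c : Cfg k V Q)

theorem cls (χ : Finset (Sym2 V)) (h : ∀ e ∈ χ, e ∈ c.L.edgeSet) (h' : ∀ v, Even (dg χ v)) :
    ∑ e ∈ χ, c.a e ∈ c.H :=
  c.clsR χ (fun e he => SimpleGraph.edgeSet_mono c.leR (h e he)) h'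

theorem null (v : V) (w : c.L.Walk v v) (h : w.length ≤ 6) : (w.edges.map c.a).sum = 0 := by
  have h1 := c.nullR v (w.mapLe c.leR) (by simpa using h)
  rwa [SimpleGraph.Walk.edges_mapLe_eq_edges] at h1

end Cfg

/-- The decomposition of `M` into a bounded set `B` and `m` paths `x j 0, ..., x j (n j + 1)` whose ends are in `B` and
whose inner vertices have degree two in `M`; short walks of `R` between inner vertices do not jump. -/
structure Frame {k : ℕ} {V Q : Type} [Fintype V] [AddCommGroup Q] [Module F2 Q] (C : ℕ) (c : Cfg k V Q) where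
  /-- the number of segments -/
  m : ℕ
  /-- the number of inner vertices -/
  n : Fin m → ℕ
  /-- the vertices of the segments -/
  x : Fin m → ℕ → V
  /-- the exceptional vertices -/
  B : Finset V
  hm : m ≤ C
  hB : B.card ≤ C
  e0 : ∀ j, x j 0 ∈ B
  e1 : ∀ j, x j (n j + 1) ∈ B
  notB : ∀ j l, 1 ≤ l → l ≤ n j → x j l ∉ B
  inj : ∀ j l j' l', 1 ≤ l → l ≤ n j → 1 ≤ l' → l' ≤ n j' → x j l = x j' l' → j = j' ∧ l = l'
  cov : ∀ v, v ∈ vs c.M → v ∈ B ∨ ∃ j l, 1 ≤ l ∧ l ≤ n j ∧ v = x j l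
  adj : ∀ j l, 1 ≤ l → l ≤ n j → ∀ w, c.M.Adj (x j l) w ↔ (w = x j (l - 1) ∨ w = x j (l + 1))
  ne : ∀ j l, 1 ≤ l → l ≤ n j → x j (l - 1) ≠ x j (l + 1)
  farR : ∀ j l j' l', 1 ≤ l → l ≤ n j → 1 ≤ l' → l' ≤ n j' → ∀ w : c.R.Walk (x j l) (x j' l'),
    w.length ≤ 6 → Near c.M w.length (x j l) (x j' l')

namespace Frame

variable {k C : ℕ} {V Q : Type} [Fintype V] [AddCommGroup Q] [Module F2 Q] {c : Cfg k V Q} (f : Frame C c)

theorem far (j : Fin f.m) (l : ℕ) (j' : Fin f.m) (l' : ℕ) (h1 : 1 ≤ l) (h2 : l ≤ f.n j) (h3 : 1 ≤ l')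
    (h4 : l' ≤ f.n j') (w : (c.L \ c.M).Walk (f.x j l) (f.x j' l')) (h : w.length ≤ 4) :
    Near c.M w.length (f.x j l) (f.x j' l') := by
  have h5 := f.farR j l j' l' h1 h2 h3 h4 (w.mapLe (sdiff_le.trans c.leR)) (by simp; omega)
  simpa using h5

/-- the inner vertices of the segments -/
def X0 : Set V := {v | ∃ j l, 1 ≤ l ∧ l ≤ f.n j ∧ v = f.x j l}

/-- the vectors of the row space which vanish on all inner vertices except the first ones -/
noncomputable def K : Submodule F2 (V → F2) where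
  carrier := {r | r ∈ rowSp c.L ∧ ∀ j l, 2 ≤ l → l ≤ f.n j → r (f.x j l) = 0}
  add_mem' := by
    rintro r s ⟨h1, h2⟩ ⟨h3, h4⟩
    refine ⟨Submodule.add_mem _ h1 h3, ?_⟩
    intro j l hl hl'
    rw [Pi.add_apply, h2 j l hl hl', h4 j l hl hl', add_zero]
  zero_mem' := ⟨Submodule.zero_mem _, fun _ _ _ _ => rfl⟩
  smul_mem' := by
    rintro t r ⟨h1, h2⟩
    refine ⟨Submodule.smul_mem _ t h1, ?_⟩
    intro j l hl hl'
    rw [Pi.smul_apply, h2 j l hl hl', smul_zero]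

/-- The four types of a trace: `{i}`, `{i, i + 1}`, `{i - 1, i + 1}`, `{i - 1, i, i + 1}`. -/
def Ty (τ : Fin 4) (i l : ℕ) : Prop :=
  (τ = 0 ∧ l = i) ∨ (τ = 1 ∧ (l = i ∨ l = i + 1)) ∨ (τ = 2 ∧ (l + 1 = i ∨ l = i + 1)) ∨
    (τ = 3 ∧ (l + 1 = i ∨ l = i ∨ l = i + 1))

/-- `y` is outside `M` and its neighbours among the inner vertices are those of type `τ` at position `i` of the
segment `j`, deep inside the segment. -/
def Tr (τ : Fin 4) (j : Fin f.m) (i : ℕ) (y : V) : Prop :=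
  y ∉ vs c.M ∧ 18 ≤ i ∧ i + 18 ≤ f.n j ∧
    ∀ j' l, 1 ≤ l → l ≤ f.n j' → (c.L.Adj y (f.x j' l) ↔ (j' = j ∧ Ty τ i l))

/-- the sum of the rows of `x j (i - 1)`, `x j (i - 3)`, ... -/
noncomputable def alt (j : Fin f.m) (i : ℕ) (u : V) : F2 :=
  ∑ l ∈ (range i).filter (fun l => 1 ≤ l ∧ (l + i) % 2 = 1), row c.L (f.x j l) u

/-- The vector of `K` attached to `y`. -/
noncomputable def rv (τ : Fin 4) (j : Fin f.m) (i : ℕ) (y : V) (u : V) : F2 :=
  row c.L y u + (if τ = 0 ∨ τ = 3 then f.alt j i u else 0) +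
    (if τ = 1 then ∑ l ∈ Icc 1 i, row c.L (f.x j l) u else 0) +
    (if τ = 2 ∨ τ = 3 then row c.L (f.x j i) u else 0)

end Frame

end Pool.Agent.EAD
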