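import Pool.Agent.EAD.ExtD
import Pool.Agent.EAD.CBase
import Pool.Agent.BEO.DatB

/-!
# EAD-XDef: definitions: faces with a common vertex, classes of pairs of faces
-/

set_option autoImplicit false

open Finset
open scoped Classical

namespace Pool.Agent.EAD

open Pool.Agent.BEO hiding Cfg Frame

variable {k : ℕ} {Φ Vt Z : Type} [Fintype Φ] [Fintype Vt] [AddCommGroup Z] [Module F2 Z]

/-- two different faces with a common vertex -/
def RG (P : Cor Φ Vt) : SimpleGraph Φ where
  Adj F G := F ≠ G ∧ ∃ v, On P v F ∧ On P v G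
  symm := ⟨fun _ _ h => ⟨h.1.symm, h.2.imp fun _ h' => ⟨h'.2, h'.1⟩⟩⟩
  loopless := ⟨fun _ h => h.1 rfl⟩

/-- the class of a pair of faces with a common vertex -/
noncomputable def cl (S : Sys k Φ Vt Z) (e' : Sym2 Φ) : Z →ₗ[F2] F2 :=
  if h : ∃ e : Ch S.P, s(S.D.s e, S.D.t e) = e' then S.D.a (Classical.choose h) else 0

/-- active faces outside `mu` -/
noncomputable def Yf (S : Sys k Φ Vt Z) (lam mu : Finset (Ch S.P)) : Finset Φ :=
  univ.filter fun y => y ∈ vs (S.D.gr lam) ∧ y ∉ vs (S.D.gr mu)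

end Pool.Agent.EAD
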