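import Pool.Agent.EAD.XE2

/-!
# EAD-KOff: away from a few vertices the chords form a star
-/

set_option autoImplicit false

open Finset
open scoped Classical

namespace Pool.Agent.EAD

open Pool.Agent.BEO hiding Cfg Frame

variable {k : ℕ} {Φ Vt Z : Type} [Fintype Φ] [Fintype Vt] [AddCommGroup Z] [Module F2 Z] [Module.Finite F2 Z]

variable {S : Sys k Φ Vt Z} {lam mu : Finset (Ch S.P)}

theorem real_off {N : ℕ} {E2 : Finset Φ} (hE : E2S S lam mu N E2) (Hb : Finset Φ) (VH : Finset Vt)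
    (hub : ∀ p ∈ E2, ∀ q ∈ E2, (S.D.gr lam).Adj p q → ∀ v, On S.P v p → On S.P v q →
      (∀ v', On S.P v' p → On S.P v' q → v' = v) → p ∈ Hb ∨ q ∈ Hb ∨ v ∈ VH)
    (v : Vt) (hv : v ∉ VH) (h1 : ∀ p ∈ Hb, ∀ q ∈ Hb, On S.P v p → On S.P v q → p = q)
    (y : Φ) (hy : y ∈ Yf S lam mu) (hyv : On S.P v y) (lam' : Finset (Ch S.P)) (hs : lam' ⊆ lam) :
    RealAt S.P lam' v := by
  have key : ∀ e ∈ lam, e.vx = v → e.Long →
      (e.lo < S.P.d v ∧ On S.P v (S.P.fc v e.lo) ∧ S.P.fc v e.lo ∈ Hb) ∨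
      (e.hi < S.P.d v ∧ On S.P v (S.P.fc v e.hi) ∧ S.P.fc v e.hi ∈ Hb) := by
    intro e he hev hlong
    have hlh : e.lo < e.hi := e.2
    have hlo : e.lo < S.P.d e.vx := e.1.2.1.2
    have hhi : e.hi < S.P.d e.vx := e.1.2.2.2
    subst hev
    have hs1 : S.D.s e = S.P.fc e.vx e.lo := S.hs e
    have ht1 : S.D.t e = S.P.fc e.vx e.hi := S.ht e
    have hne : S.P.fc e.vx e.lo ≠ S.P.fc e.vx e.hi := fun h => by
      have := S.P.inj e.vx e.lo e.hi hlo hhi h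
      omega
    have hadj : (S.D.gr lam).Adj (S.P.fc e.vx e.lo) (S.P.fc e.vx e.hi) := ⟨hne, e, he, Or.inl ⟨hs1, ht1⟩⟩
    have op : On S.P e.vx (S.P.fc e.vx e.lo) := ⟨e.lo, hlo, rfl⟩
    have oq : On S.P e.vx (S.P.fc e.vx e.hi) := ⟨e.hi, hhi, rfl⟩
    have hp := hE.priv e.vx y hy hyv _ _ op oq hadj
    have hq := hE.priv e.vx y hy hyv _ _ oq op hadj.symm
    rcases hub _ hp _ hq hadj e.vx op oq (fun v' h1' h2' => by
      by_contra hv'
      exact hlong (S.pol.two e.vx v' _ _ (Ne.symm hv') hne op oq h1' h2' e.lo e.hi hlo hhi rfl rfl)) with h | h | h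
    · exact Or.inl ⟨hlo, op, h⟩
    · exact Or.inr ⟨hhi, oq, h⟩
    · exact absurd h hv
  by_cases hh : ∃ j, j < S.P.d v ∧ S.P.fc v j ∈ Hb
  · obtain ⟨j, hj, hjb⟩ := hh
    refine realAt_star j fun e he hev hlong => ?_
    rcases key e (hs he) hev hlong with ⟨h1', h2', h3'⟩ | ⟨h1', h2', h3'⟩
    · exact Or.inl (S.P.inj v _ _ h1' hj (h1 _ h3' _ hjb h2' ⟨j, hj, rfl⟩))
    · exact Or.inr (S.P.inj v _ _ h1' hj (h1 _ h3' _ hjb h2' ⟨j, hj, rfl⟩))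
  · refine realAt_star 0 fun e he hev hlong => ?_
    rcases key e (hs he) hev hlong with ⟨h1', _, h3'⟩ | ⟨h1', _, h3'⟩
    · exact absurd ⟨_, h1', h3'⟩ hh
    · exact absurd ⟨_, h1', h3'⟩ hh

end Pool.Agent.EAD
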