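import Pool.Agent.EAD.Opt0
import Pool.Agent.EAD.YSh
import Pool.Agent.EAD.YDec

/-!
# EAD-Opt: an optimal realizable set is a sum of a bounded number of canonical walks
-/

set_option autoImplicit false

open Finset
open scoped Classical

namespace Pool.Agent.EAD

open Pool.Agent.BEO

private theorem odd_flat {E : Type} [Fintype E] (l : List E) (hl : l.Nodup) (lam : Finset E)
    (h : ∀ e, e ∈ lam ↔ e ∈ l) : oddE l = lam := by
  ext e
  unfold oddE
  rw [mem_filter, h e]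
  constructor
  · rintro ⟨-, h1⟩
    by_contra h2
    rw [List.count_eq_zero_of_not_mem h2] at h1
    omega
  · intro h1
    refine ⟨mem_univ _, ?_⟩
    rw [List.count_eq_one_of_mem hl h1]

theorem exists_optW (k : ℕ) : ∃ T : ℕ, ∀ (Φ Vt Z : Type) [Fintype Φ] [Fintype Vt] [AddCommGroup Z] [Module F2 Z]
    [Module.Finite F2 Z] (S : Sys k Φ Vt Z) (W : Set (List (Ch S.P))), Canon S W →
    ∃ l : List (List (Ch S.P)), l.length ≤ T ∧ (∀ w ∈ l, w ∈ W) ∧ S.D.Adm (oddE l.flatten) ∧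
      Real S.P (oddE l.flatten) ∧
      ∀ lam, S.D.Adm lam → Real S.P lam → S.D.rkN (oddE l.flatten) ≤ S.D.rkN lam := by
  obtain ⟨S0, hS⟩ := shorten k
  refine ⟨S0, ?_⟩
  intro Φ Vt Z _ _ _ _ _ S W hW
  have key : ∀ N : ℕ, ∀ (lam mu : Finset (Ch S.P)) (ls : List (List (Ch S.P))), Ext S lam mu →
      Dec S W lam ls → ls.length ≤ N →
      ∃ lam mu ls, Ext S lam mu ∧ Dec S W lam ls ∧ ls.length ≤ S0 := by
    intro N
    induction N with
    | zero =>
      intro lam mu ls h1 h2 h3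
      exact ⟨lam, mu, ls, h1, h2, by omega⟩
    | succ N ih =>
      intro lam mu ls h1 h2 h3
      by_cases h4 : ls.length ≤ S0
      · exact ⟨lam, mu, ls, h1, h2, h4⟩
      · obtain ⟨lam', mu', ls', h5, h6, h7⟩ := hS Φ Vt Z S W lam mu ls hW h1 h2 (by omega)
        exact ih lam' mu' ls' h5 h6 (by omega)
  obtain ⟨lam0, mu0, ls0, h1, h2⟩ := exists_dec S W hW
  obtain ⟨lam, mu, ls, hE, hD, hlen⟩ := key ls0.length lam0 mu0 ls0 h1 h2 le_rfl
  have hodd : oddE ls.flatten = lam := odd_flat _ hD.nodup lam hD.cov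
  refine ⟨ls, hlen, hD.mem, ?_, ?_, ?_⟩
  · rw [hodd]
    exact hE.adm
  · rw [hodd]
    exact hE.real
  · intro lam' h3 h4
    rw [hodd]
    exact hE.opt lam' h4 h3

end Pool.Agent.EAD
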