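import Pool.Agent.EAD.Map

/-!
# EAD-LDef: maps described by the positions and the signs of the darts (definitions)

At every vertex `v` the darts are numbered `0, ..., d - 1` in the cyclic order of `S` from the base flag (dart `x` is the
dart of `cf S b v x`, it lies between the corners `x - 1` and `x`). A new map is given by the position `pos v x` of the
dart `x` and by the sign `sg v x` (true if the dart is reversed).
-/

set_option autoImplicit false

open Finset
open scoped Classical

namespace Pool.Agent.EAD

open Pool.Agent.BEO
open Pool.Agent.Helper35.OG hiding F2 dg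

/-- `pos v` is a numbering of the darts at `v`. -/
structure PS {V : Type} [Fintype V] (G : SimpleGraph V) (pos : V → ℕ → ℕ) : Prop where
  lt : ∀ v i, i < (nb G v).card → pos v i < (nb G v).card
  inj : ∀ v i j, i < (nb G v).card → j < (nb G v).card → pos v i = pos v j → i = j

/-- the flag by which the dart `x` at `v` is left in the new map; the dart is entered by the other side -/
def outF {V : Type} {G : SimpleGraph V} (S : GMap G) (b : V → Flag G) (sg : V → ℕ → Bool) (v : V) (x : ℕ) : Flag G :=
  if sg v x then side (cf S b v x) else cf S b v x

/-- The new map `T` has the positions `pos` and the signs `sg`. -/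
def IsMk {V : Type} [Fintype V] {G : SimpleGraph V} (S : GMap G) (b : V → Flag G) (pos : V → ℕ → ℕ)
    (sg : V → ℕ → Bool) (T : GMap G) : Prop :=
  ∀ v x y, x < (nb G v).card → y < (nb G v).card → pos v y = (pos v x + 1) % (nb G v).card →
    T.nxt (outF S b sg v x) = side (outF S b sg v y)

/-- comparison of the order of the darts `l` and `m` in the two maps, sign on the diagonal -/
def cmp (pos : ℕ → ℕ) (sg : ℕ → Bool) (l m : ℕ) : F2 :=
  if l = m then (if sg l then 1 else 0) else (if m < l then 1 else 0) + (if pos m < pos l then 1 else 0)

section chords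

variable {Φ Vt : Type} {P : Cor Φ Vt}

/-- number of chords of `lam` at `v` over the dart `l` and over the dart `m` -/
noncomputable def ovr (lam : Finset (Ch P)) (v : Vt) (l m : ℕ) : ℕ :=
  (lam.filter fun e => e.vx = v ∧ e.lo < l ∧ l ≤ e.hi ∧ e.lo < m ∧ m ≤ e.hi).card

/-- `m` comes before `l` in the new order -/
def bef (lam : Finset (Ch P)) (v : Vt) (l m : ℕ) : Prop := ¬ (m < l ↔ Odd (ovr lam v l m))

/-- the new position of the dart `l` at `v` -/
noncomputable def posN (lam : Finset (Ch P)) (v : Vt) (l : ℕ) : ℕ :=
  ((range (P.d v)).filter fun m => m ≠ l ∧ bef lam v l m).card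

/-- the new sign of the dart `l` at `v` -/
noncomputable def sgN (lam : Finset (Ch P)) (v : Vt) (l : ℕ) : Bool := decide (Odd (ovr lam v l l))

end chords

end Pool.Agent.EAD
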