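import Pool.Agent.EAD.Map

/-!
# EAD-LRot: the flags at a vertex

The flags at a vertex are the orbit of one of them under the rotation, and the other sides; the period is the degree.
-/

set_option autoImplicit false

open Finset
open scoped Classical

namespace Pool.Agent.EAD

open Pool.Agent.BEO
open Pool.Agent.Helper35.OG hiding F2 dg

variable {V : Type} {G : SimpleGraph V}

theorem rot_fst (S : GMap G) (p : Flag G) : (rot S p).1.fst = p.1.fst := by
  unfold rot
  rw [side_fst, S.nxt_fst]

theorem rot_iter_fst (S : GMap G) (i : ℕ) (p : Flag G) : ((rot S)^[i] p).1.fst = p.1.fst := by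
  induction i with
  | zero => rfl
  | succ i ih => rw [Function.iterate_succ_apply', rot_fst, ih]

theorem cf_fst (S : GMap G) {b : V → Flag G} (hb : IsBase b) (v : V) (i : ℕ) : (cf S b v i).1.fst = v := by
  unfold cf
  rw [rot_iter_fst, hb]

theorem cf_zero (S : GMap G) (b : V → Flag G) (v : V) : cf S b v 0 = b v := rfl

theorem cf_succ (S : GMap G) (b : V → Flag G) (v : V) (i : ℕ) : cf S b v (i + 1) = side (S.nxt (cf S b v i)) := by
  unfold cf
  rw [Function.iterate_succ_apply']
  rfl

theorem nxt_cf (S : GMap G) (b : V → Flag G) (v : V) (i : ℕ) : S.nxt (cf S b v i) = side (cf S b v (i + 1)) := by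
  rw [cf_succ, side_side]

theorem nxt_side_cf (S : GMap G) (b : V → Flag G) (v : V) (i : ℕ) :
    S.nxt (side (cf S b v (i + 1))) = cf S b v i := by
  rw [← nxt_cf, S.nxt_nxt]

theorem rot_inj (S : GMap G) : Function.Injective (rot S) := by
  intro p q h
  have h1 : S.nxt p = S.nxt q := by
    have h2 := congrArg side h
    unfold rot at h2
    rwa [side_side, side_side] at h2
  exact nxt_inj S h1

/-- The two orientations at a vertex are different. -/
theorem side_ne_rot (S : GMap G) (m : ℕ) (p : Flag G) : side p ≠ (rot S)^[m] p := by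
  have key : ∀ m : ℕ, (∀ p : Flag G, side p ≠ (rot S)^[m] p) ∧ ∀ p : Flag G, side p ≠ (rot S)^[m + 1] p := by
    intro m
    induction m with
    | zero =>
      refine ⟨fun p => side_ne p, fun p h => S.nxt_ne p ?_⟩
      rw [Function.iterate_succ_apply, Function.iterate_zero_apply] at h
      have h2 := congrArg side h
      unfold rot at h2
      rw [side_side, side_side] at h2
      exact h2.symm
    | succ m ih =>
      refine ⟨ih.2, fun p h => ih.1 (rot S p) ?_⟩
      rw [Function.iterate_succ_apply'] at h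
      have h1 : side p = side (S.nxt ((rot S)^[m + 1] p)) := h
      have h2 : p = S.nxt ((rot S)^[m + 1] p) := by
        have h3 := congrArg side h1
        rwa [side_side, side_side] at h3
      have h4 : S.nxt p = (rot S)^[m + 1] p := by
        have h5 := congrArg S.nxt h2
        rwa [S.nxt_nxt] at h5
      show side (side (S.nxt p)) = (rot S)^[m] (rot S p)
      rw [side_side, h4, Function.iterate_succ_apply]
  exact (key m).1 p

theorem cf_ne_side (S : GMap G) (b : V → Flag G) (v : V) (i j : ℕ) : cf S b v i ≠ side (cf S b v j) := by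
  unfold cf
  intro h
  rcases le_total j i with h1 | h1
  · obtain ⟨m, rfl⟩ := Nat.exists_eq_add_of_le h1
    apply side_ne_rot S m ((rot S)^[j] (b v))
    rw [← h, add_comm j m, Function.iterate_add_apply]
  · obtain ⟨m, rfl⟩ := Nat.exists_eq_add_of_le h1
    apply side_ne_rot S m ((rot S)^[i] (b v))
    have h2 := congrArg side h
    rw [side_side] at h2
    rw [h2, add_comm i m, Function.iterate_add_apply]

private theorem lrot_cover (S : GMap G) (p : Flag G) (N : ℕ) (hN : 0 < N) (hp : (rot S)^[N] p = p) (q : Flag G)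
    (hq : q.1.fst = p.1.fst) : ∃ i, i < N ∧ (q = (rot S)^[i] p ∨ q = side ((rot S)^[i] p)) := by
  have k1 : ∀ q : Flag G, (∃ i, i < N ∧ (q = (rot S)^[i] p ∨ q = side ((rot S)^[i] p))) →
      ∃ i, i < N ∧ (side q = (rot S)^[i] p ∨ side q = side ((rot S)^[i] p)) := by
    rintro q ⟨i, hi, h | h⟩
    · exact ⟨i, hi, Or.inr (congrArg side h)⟩
    · refine ⟨i, hi, Or.inl ?_⟩
      rw [h, side_side]
  have k2 : ∀ i, ∃ j, j < N ∧ (rot S)^[j] p = (rot S)^[i + 1] p ∨ N ≤ i := by
    intro i
    rcases Nat.lt_trichotomy (i + 1) N with h | h | h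
    · exact ⟨i + 1, Or.inl ⟨h, rfl⟩⟩
    · refine ⟨0, Or.inl ⟨hN, ?_⟩⟩
      rw [h, hp]
      rfl
    · exact ⟨0, Or.inr (by omega)⟩
  have k3 : ∀ q : Flag G, (∃ i, i < N ∧ (q = (rot S)^[i] p ∨ q = side ((rot S)^[i] p))) →
      ∃ i, i < N ∧ (S.nxt q = (rot S)^[i] p ∨ S.nxt q = side ((rot S)^[i] p)) := by
    rintro q ⟨i, hi, h | h⟩
    · obtain ⟨j, ⟨hj, h1⟩ | h1⟩ := k2 i
      · refine ⟨j, hj, Or.inr ?_⟩
        rw [h1, h, Function.iterate_succ_apply']
        show _ = side (side (S.nxt _))
        rw [side_side]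
      · omega
    · have k4 : ∀ m, (rot S)^[i] p = (rot S)^[m + 1] p → S.nxt q = (rot S)^[m] p := by
        intro m hm
        rw [h, hm, Function.iterate_succ_apply']
        show S.nxt (side (side (S.nxt _))) = _
        rw [side_side, S.nxt_nxt]
      rcases Nat.eq_zero_or_pos i with h0 | h0
      · refine ⟨N - 1, Nat.sub_lt hN one_pos, Or.inl (k4 _ ?_)⟩
        have h5 : N - 1 + 1 = N := by omega
        rw [h0, h5, hp]
        rfl
      · refine ⟨i - 1, by omega, Or.inl (k4 _ ?_)⟩
        have h5 : i - 1 + 1 = i := by omega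
        rw [h5]
  have h := vertex_const S (fun q => ∃ i, i < N ∧ (q = (rot S)^[i] p ∨ q = side ((rot S)^[i] p)))
    (fun q => propext ⟨fun h => by simpa only [S.nxt_nxt] using k3 _ h, k3 q⟩)
    (fun q => propext ⟨fun h => by simpa only [side_side] using k1 _ h, k1 q⟩) hq
  rw [h]
  exact ⟨0, hN, Or.inl rfl⟩

private theorem lrot_dart (S : GMap G) (p : Flag G) (i j : ℕ) (h : ((rot S)^[i] p).1 = ((rot S)^[j] p).1) :
    (rot S)^[i] p = (rot S)^[j] p := by
  have h1 : (rot S)^[i] p ≠ side ((rot S)^[j] p) := by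
    intro h
    rcases le_total j i with h1 | h1
    · obtain ⟨m, rfl⟩ := Nat.exists_eq_add_of_le h1
      apply side_ne_rot S m ((rot S)^[j] p)
      rw [← h, add_comm j m, Function.iterate_add_apply]
    · obtain ⟨m, rfl⟩ := Nat.exists_eq_add_of_le h1
      apply side_ne_rot S m ((rot S)^[i] p)
      have h2 := congrArg side h
      rw [side_side] at h2
      rw [h2, add_comm i m, Function.iterate_add_apply]
  generalize (rot S)^[i] p = x at h h1 ⊢
  generalize (rot S)^[j] p = y at h h1 ⊢
  obtain ⟨d, s⟩ := x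
  obtain ⟨d', s'⟩ := y
  simp only at h
  subst h
  unfold side at h1
  cases s <;> cases s' <;> simp_all

/-- The flags at the vertex of `p`: the orbit of `p` under the rotation and its sides; the period is the degree. -/
theorem rot_orbit [Fintype V] (S : GMap G) (p : Flag G) :
    (rot S)^[(nb G p.1.fst).card] p = p ∧
      (∀ i j, i < (nb G p.1.fst).card → j < (nb G p.1.fst).card → (rot S)^[i] p = (rot S)^[j] p → i = j) ∧
      ∀ q : Flag G, q.1.fst = p.1.fst →
        ∃ i, i < (nb G p.1.fst).card ∧ (q = (rot S)^[i] p ∨ q = side ((rot S)^[i] p)) := by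
  have hN : 0 < Function.minimalPeriod (rot S) p :=
    Function.minimalPeriod_pos_of_mem_periodicPts ((rot_inj S).mem_periodicPts p)
  have hp : (rot S)^[Function.minimalPeriod (rot S) p] p = p := Function.iterate_minimalPeriod
  have hinj : ∀ i j, i < Function.minimalPeriod (rot S) p → j < Function.minimalPeriod (rot S) p →
      (rot S)^[i] p = (rot S)^[j] p → i = j := fun i j hi hj h =>
    Function.iterate_injOn_Iio_minimalPeriod (Set.mem_Iio.2 hi) (Set.mem_Iio.2 hj) h
  have hcov := lrot_cover S p (Function.minimalPeriod (rot S) p) hN hp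
  have hcard : (range (Function.minimalPeriod (rot S) p)).card = (nb G p.1.fst).card := by
    apply Finset.card_bij (fun i _ => ((rot S)^[i] p).1.snd)
    · intro i _
      unfold nb
      rw [mem_filter]
      refine ⟨mem_univ _, ?_⟩
      have h := ((rot S)^[i] p).1.adj
      rwa [rot_iter_fst] at h
    · intro i hi j hj h
      apply hinj i j (mem_range.1 hi) (mem_range.1 hj)
      apply lrot_dart
      apply SimpleGraph.Dart.ext
      exact Prod.ext ((rot_iter_fst S i p).trans (rot_iter_fst S j p).symm) h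
    · intro w hw
      unfold nb at hw
      rw [mem_filter] at hw
      obtain ⟨i, hi, h⟩ := hcov ((⟨(p.1.fst, w), hw.2⟩ : G.Dart), true) rfl
      refine ⟨i, mem_range.2 hi, ?_⟩
      have h1 : ((⟨(p.1.fst, w), hw.2⟩ : G.Dart)) = ((rot S)^[i] p).1 := by
        rcases h with h | h
        · exact congrArg Prod.fst h
        · exact congrArg Prod.fst h
      rw [← h1]
  rw [card_range] at hcard
  rw [hcard] at hp hinj hcov
  exact ⟨hp, hinj, hcov⟩

theorem cf_period [Fintype V] (S : GMap G) {b : V → Flag G} (hb : IsBase b) (v : V) (i : ℕ) :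
    cf S b v (i + (nb G v).card) = cf S b v i := by
  have h := (rot_orbit S (b v)).1
  rw [hb v] at h
  unfold cf
  rw [Function.iterate_add_apply, h]

theorem cf_mod [Fintype V] (S : GMap G) {b : V → Flag G} (hb : IsBase b) (v : V) (i : ℕ) :
    cf S b v (i % (nb G v).card) = cf S b v i := by
  conv_rhs => rw [← Nat.mod_add_div i (nb G v).card]
  generalize i % (nb G v).card = r
  generalize i / (nb G v).card = q
  induction q with
  | zero => rw [mul_zero, add_zero]
  | succ q ih =>
    rw [mul_add, mul_one, ← add_assoc, cf_period S hb]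
    exact ih

theorem cf_inj [Fintype V] (S : GMap G) {b : V → Flag G} (hb : IsBase b) (v : V) {i j : ℕ} (hi : i < (nb G v).card)
    (hj : j < (nb G v).card) (h : cf S b v i = cf S b v j) : i = j := by
  have h1 := (rot_orbit S (b v)).2.1 i j
  rw [hb v] at h1
  exact h1 hi hj h

theorem cf_cover [Fintype V] (S : GMap G) {b : V → Flag G} (hb : IsBase b) (v : V) (q : Flag G) (hq : q.1.fst = v) :
    ∃ i, i < (nb G v).card ∧ (q = cf S b v i ∨ q = side (cf S b v i)) := by
  have h1 := (rot_orbit S (b v)).2.2 q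
  rw [hb v] at h1
  exact h1 hq

theorem deg_pos [Fintype V] {b : V → Flag G} (hb : IsBase b) (v : V) : 0 < (nb G v).card := by
  rw [Finset.card_pos]
  refine ⟨(b v).1.snd, ?_⟩
  unfold nb
  rw [mem_filter]
  refine ⟨mem_univ _, ?_⟩
  have h := (b v).1.adj
  rwa [hb v] at h

/-- the darts at `v` are different -/
theorem ed_cf_inj [Fintype V] (S : GMap G) {b : V → Flag G} (hb : IsBase b) (v : V) {i j : ℕ}
    (hi : i < (nb G v).card) (hj : j < (nb G v).card) (h : (cf S b v i).1 = (cf S b v j).1) : i = j := by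
  apply cf_inj S hb v hi hj
  have h1 := cf_ne_side S b v i j
  generalize cf S b v i = p at h h1 ⊢
  generalize cf S b v j = q at h h1 ⊢
  obtain ⟨d, s⟩ := p
  obtain ⟨d', s'⟩ := q
  simp only at h
  subst h
  unfold side at h1
  cases s <;> cases s' <;> simp_all

end Pool.Agent.EAD
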