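import Pool.Agent.EAD.AOrb
import Pool.Agent.EAD.LRot
import Pool.Agent.EAD.LDef
import Pool.Agent.BEO.CodS

/-!
# EAD-ACod: the codes of the corners
-/

set_option autoImplicit false

open Finset
open scoped Classical

namespace Pool.Agent.EAD

open Pool.Agent.BEO
open Pool.Agent.Helper35.OG hiding F2 dg

variable {n : ℕ} {G : SimpleGraph (Fin n)}

private theorem ac_mem {S : GMap G} {l : Inp} (h : Codes S l) (v : Fin n) (x : Pt) :
    x ∈ drt l v ↔ ∃ p : Flag G, x = cod p ∧ p.1.fst = v ∧ p.2 = true := by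
  unfold drt
  rw [List.mem_filter, Bool.and_eq_true, decide_eq_true_iff, mem_fl h]
  constructor
  · rintro ⟨⟨p, rfl⟩, h1, h2⟩
    exact ⟨p, rfl, Fin.ext h1, h2⟩
  · rintro ⟨p, rfl, h1, h2⟩
    refine ⟨⟨p, rfl⟩, ?_, h2⟩
    show (p.1.fst : ℕ) = v
    rw [h1]

private theorem ac_iter {S : GMap G} {l : Inp} (h : Codes S l)
    (hr : ∀ p : Flag G, rtc l (cod p) = cod (rot S p)) (i : ℕ) (p : Flag G) :
    (rtc l)^[i] (cod p) = cod ((rot S)^[i] p) := by
  have _ := h
  induction i with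
  | zero => rfl
  | succ i ih => rw [Function.iterate_succ_apply', Function.iterate_succ_apply', ih, hr]

theorem rtc_cod {S : GMap G} {l : Inp} (h : Codes S l) (p : Flag G) : rtc l (cod p) = cod (rot S p) := by
  unfold rtc rot
  rw [look_cod h, sd_cod]

theorem mem_vtc {S : GMap G} {l : Inp} (h : Codes S l) (hG : G.Connected) (hn : 2 ≤ n) (x : ℕ) :
    x ∈ vtc l ↔ ∃ v : Fin n, x = (v : ℕ) := by
  have : Nontrivial (Fin n) := Fin.nontrivial_iff_two_le.mpr hn
  unfold vtc
  rw [mem_ddp, List.mem_map]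
  constructor
  · rintro ⟨y, hy, rfl⟩
    obtain ⟨p, rfl⟩ := (mem_fl h y).mp hy
    exact ⟨p.1.fst, rfl⟩
  · rintro ⟨v, rfl⟩
    obtain ⟨p, hp⟩ := exists_flag hG v
    refine ⟨cod p, (mem_fl h _).mpr ⟨p, rfl⟩, ?_⟩
    show (p.1.fst : ℕ) = v
    rw [hp]

theorem dgc_eq {S : GMap G} {l : Inp} (h : Codes S l) (v : Fin n) : dgc l v = (nb G v).card := by
  have hnd : (drt l v).Nodup := by
    unfold drt
    exact List.Nodup.filter _ (by unfold fl; exact nodup_ddp _)
  have hnd2 : ((drt l v).map fun x => x.2.1).Nodup := by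
    refine List.Nodup.map_on ?_ hnd
    intro x hx y hy hxy
    obtain ⟨p, rfl, hp1, hp2⟩ := (ac_mem h v x).1 hx
    obtain ⟨q, rfl, hq1, hq2⟩ := (ac_mem h v y).1 hy
    have h1 : (p.1.snd : ℕ) = (q.1.snd : ℕ) := hxy
    unfold cod
    rw [h1, hp1, hq1, hp2, hq2]
  have hset : ((drt l v).map fun x => x.2.1).toFinset = (nb G v).image fun u : Fin n => (u : ℕ) := by
    ext x
    rw [List.mem_toFinset, List.mem_map, Finset.mem_image]
    constructor
    · rintro ⟨y, hy, rfl⟩
      obtain ⟨p, rfl, hp1, hp2⟩ := (ac_mem h v y).1 hy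
      refine ⟨p.1.snd, ?_, rfl⟩
      unfold nb
      rw [mem_filter]
      refine ⟨mem_univ _, ?_⟩
      rw [← hp1]
      exact p.1.adj
    · rintro ⟨u, hu, rfl⟩
      unfold nb at hu
      rw [mem_filter] at hu
      exact ⟨cod ((⟨(v, u), hu.2⟩ : G.Dart), true), (ac_mem h v _).2 ⟨_, rfl, rfl, rfl⟩, rfl⟩
  have h1 : dgc l v = ((drt l v).map fun x => x.2.1).length := by
    rw [List.length_map]
    rfl
  rw [h1, ← List.toFinset_card_of_nodup hnd2, hset,
    Finset.card_image_of_injective _ Fin.val_injective]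

theorem exists_base {S : GMap G} {l : Inp} (h : Codes S l) (hG : G.Connected) (hn : 2 ≤ n) :
    ∃ b : Fin n → Flag G, IsBase b ∧ ∀ v : Fin n, bsc l v = cod (b v) := by
  have : Nontrivial (Fin n) := Fin.nontrivial_iff_two_le.mpr hn
  have h1 : ∀ v : Fin n, ∃ p : Flag G, p.1.fst = v ∧ bsc l v = cod p := by
    intro v
    obtain ⟨p, hp⟩ := exists_flag hG v
    have h2 : cod ((p.1, true) : Flag G) ∈ drt l v := (ac_mem h v _).2 ⟨_, rfl, hp, rfl⟩
    have h3 : bsc l v ∈ drt l v := by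
      unfold bsc
      cases hd : drt l v with
      | nil =>
        rw [hd] at h2
        exact absurd h2 List.not_mem_nil
      | cons a m => exact List.mem_cons_self
    obtain ⟨q, hq1, hq2, -⟩ := (ac_mem h v _).1 h3
    exact ⟨q, hq2, hq1⟩
  choose b hb using h1
  exact ⟨b, fun v => (hb v).1, fun v => (hb v).2⟩

/-- the corners at `v` -/
theorem rlc_eq {S : GMap G} {l : Inp} (h : Codes S l) {b : Fin n → Flag G} (hbc : ∀ v : Fin n, bsc l v = cod (b v))
    (v : Fin n) : rlc l v = (List.range (nb G v).card).map fun i => (i, cod (cf S b v i)) := by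
  have h1 : (drt l v).length = (nb G v).card := dgc_eq h v
  unfold rlc
  rw [orb_eq, h1]
  refine List.map_congr_left fun i _ => ?_
  rw [hbc, ac_iter h (rtc_cod h)]
  rfl

end Pool.Agent.EAD
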