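import Pool.Agent.EAD.ACod

/-!
# EAD-ANew: the new input codes the new map

PLAN. `nwi l c` consists of the pairs `(cod (outF v x), cod (side (outF v y)))` and their reversals, `x, y < d v`,
`pos v y = (pos v x + 1) % d v` (the condition in `nwv` is this one as `pos v y < d v`, `dgc_eq`; `ofc` of the element
`(x, cod (cf S b v x))` of `rlc l v` is `cod (outF ..)`, `sd_cod`). `hT` gives `T.nxt (outF v x) = side (outF v y)`, and by
`T.nxt_nxt` the reversed pair. Conversely every flag is `outF v x` or its side for some `x < d v` (`cf_cover`), and for every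
`x` there is `y` (and for every `y` there is `x`) as `pos v` is a permutation of the numbers below `d v`.
-/

set_option autoImplicit false

open Finset
open scoped Classical

namespace Pool.Agent.EAD

open Pool.Agent.BEO
open Pool.Agent.Helper35.OG hiding F2 dg

variable {n : ℕ} {G : SimpleGraph (Fin n)}

private theorem an_ofc {S : GMap G} {b : Fin n → Flag G} (c : List Cc) (v : Fin n) (x : ℕ) :
    ofc c v (x, cod (cf S b v x)) = cod (outF S b (fun (v : Fin n) (i : ℕ) => ivc c v i i) v x) := by
  unfold ofc outF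
  show (if ivc c v x x = true then sd (cod (cf S b v x)) else cod (cf S b v x)) = _
  by_cases h1 : ivc c v x x = true
  · rw [if_pos h1, if_pos h1, sd_cod]
  · rw [if_neg h1, if_neg h1]

private theorem an_cond {d px py : ℕ} (h1 : px < d) (h2 : py < d) :
    (decide (py = px + 1) || (decide (py = 0) && decide (px + 1 = d))) = true ↔ py = (px + 1) % d := by
  rw [Bool.or_eq_true, Bool.and_eq_true, decide_eq_true_iff, decide_eq_true_iff, decide_eq_true_iff]
  rcases Nat.lt_or_ge (px + 1) d with h3 | h3
  · rw [Nat.mod_eq_of_lt h3]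
    constructor
    · rintro (h | ⟨h, h'⟩)
      · exact h
      · omega
    · exact Or.inl
  · have h4 : px + 1 = d := by omega
    rw [h4, Nat.mod_self]
    constructor
    · rintro (h | ⟨h, h'⟩)
      · omega
      · exact h
    · exact fun h => Or.inr ⟨h, rfl⟩

private theorem an_mem {S : GMap G} {l : Inp} (h : Codes S l) (hG : G.Connected) (hn : 2 ≤ n) {b : Fin n → Flag G}
    (hbc : ∀ v : Fin n, bsc l v = cod (b v)) (c : List Cc)
    (hp : PS G (fun (v : Fin n) (i : ℕ) => psc l c v i)) (z : Pt × Pt) :
    z ∈ nwi l c ↔ ∃ (v : Fin n) (x y : ℕ), x < (nb G v).card ∧ y < (nb G v).card ∧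
      psc l c v y = (psc l c v x + 1) % (nb G v).card ∧
      (z = (cod (outF S b (fun (v : Fin n) (i : ℕ) => ivc c v i i) v x),
          cod (side (outF S b (fun (v : Fin n) (i : ℕ) => ivc c v i i) v y))) ∨
        z = (cod (side (outF S b (fun (v : Fin n) (i : ℕ) => ivc c v i i) v y)),
          cod (outF S b (fun (v : Fin n) (i : ℕ) => ivc c v i i) v x))) := by
  unfold nwi
  rw [List.mem_flatMap]
  constructor
  · rintro ⟨v', hv', hz⟩
    obtain ⟨v, rfl⟩ := (mem_vtc h hG hn v').1 hv'
    unfold nwv at hz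
    rw [rlc_eq h hbc, List.mem_flatMap] at hz
    obtain ⟨q, hq, hz⟩ := hz
    rw [List.mem_flatMap] at hz
    obtain ⟨q', hq', hz⟩ := hz
    obtain ⟨x, hx, rfl⟩ := List.mem_map.1 hq
    obtain ⟨y, hy, rfl⟩ := List.mem_map.1 hq'
    rw [List.mem_range] at hx hy
    have hx' : psc l c v x < (nb G v).card := hp.lt v x hx
    have hy' : psc l c v y < (nb G v).card := hp.lt v y hy
    rw [dgc_eq h v] at hz
    split_ifs at hz with hc
    · refine ⟨v, x, y, hx, hy, (an_cond hx' hy').1 hc, ?_⟩
      rw [an_ofc, an_ofc, sd_cod] at hz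
      rcases List.mem_cons.1 hz with h1 | h1
      · exact Or.inl h1
      · exact Or.inr (List.mem_singleton.1 h1)
    · exact absurd hz List.not_mem_nil
  · rintro ⟨v, x, y, hx, hy, hc, hz⟩
    refine ⟨v, (mem_vtc h hG hn _).2 ⟨v, rfl⟩, ?_⟩
    unfold nwv
    rw [rlc_eq h hbc, List.mem_flatMap]
    refine ⟨(x, cod (cf S b v x)), List.mem_map.2 ⟨x, List.mem_range.2 hx, rfl⟩, ?_⟩
    rw [List.mem_flatMap]
    refine ⟨(y, cod (cf S b v y)), List.mem_map.2 ⟨y, List.mem_range.2 hy, rfl⟩, ?_⟩
    have hx' : psc l c v x < (nb G v).card := hp.lt v x hx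
    have hy' : psc l c v y < (nb G v).card := hp.lt v y hy
    rw [dgc_eq h v, if_pos ((an_cond hx' hy').2 hc), an_ofc, an_ofc, sd_cod]
    rcases hz with h1 | h1
    · rw [h1]
      exact List.mem_cons_self
    · rw [h1]
      exact List.mem_cons_of_mem _ (List.mem_singleton.2 rfl)

private theorem an_surj {d : ℕ} (f : ℕ → ℕ) (h1 : ∀ i, i < d → f i < d)
    (h2 : ∀ i j, i < d → j < d → f i = f j → i = j) (k : ℕ) (hk : k < d) : ∃ i, i < d ∧ f i = k := by
  have h3 : Function.Injective (fun i : Fin d => (⟨f i, h1 i i.2⟩ : Fin d)) := by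
    intro i j hij
    exact Fin.ext (h2 i j i.2 j.2 (congrArg Fin.val hij))
  obtain ⟨i, hi⟩ := Finite.surjective_of_injective h3 ⟨k, hk⟩
  exact ⟨i, i.2, congrArg Fin.val hi⟩

theorem codes_nwi {S : GMap G} {l : Inp} (h : Codes S l) (hG : G.Connected) (hn : 2 ≤ n) {b : Fin n → Flag G}
    (hb : IsBase b) (hbc : ∀ v : Fin n, bsc l v = cod (b v)) (c : List Cc)
    (hp : PS G (fun (v : Fin n) (i : ℕ) => psc l c v i)) (T : GMap G)
    (hT : IsMk S b (fun (v : Fin n) (i : ℕ) => psc l c v i) (fun (v : Fin n) (i : ℕ) => ivc c v i i) T) :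
    Codes T (nwi l c) := by
  intro z
  rw [an_mem h hG hn hbc c hp]
  constructor
  · rintro ⟨v, x, y, hx, hy, hc, hz⟩
    have h1 := hT v x y hx hy hc
    rcases hz with hz | hz
    · exact ⟨_, by rw [hz, h1]⟩
    · refine ⟨side (outF S b (fun (v : Fin n) (i : ℕ) => ivc c v i i) v y), ?_⟩
      rw [hz, ← h1, T.nxt_nxt]
  · rintro ⟨p, rfl⟩
    obtain ⟨i, hi, hpi⟩ := cf_cover S hb p.1.fst p rfl
    have hd : 0 < (nb G p.1.fst).card := by omega
    have h0 : p = outF S b (fun (v : Fin n) (i : ℕ) => ivc c v i i) p.1.fst i ∨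
        p = side (outF S b (fun (v : Fin n) (i : ℕ) => ivc c v i i) p.1.fst i) := by
      generalize p.1.fst = v at hpi
      unfold outF
      by_cases h1 : ivc c v i i = true
      · rw [if_pos h1]
        rcases hpi with h2 | h2
        · exact Or.inr (by rw [h2, Helper35.OG.side_side])
        · exact Or.inl h2
      · rw [if_neg h1]
        exact hpi
    generalize p.1.fst = v at h0 hi hd
    rcases h0 with h0 | h0
    · obtain ⟨y, hy, hy'⟩ := an_surj (fun i => psc l c v i) (hp.lt v) (hp.inj v)
        ((psc l c v i + 1) % (nb G v).card) (Nat.mod_lt _ hd)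
      refine ⟨v, i, y, hi, hy, hy', Or.inl ?_⟩
      rw [h0, hT v i y hi hy hy']
    · obtain ⟨x, hx, hx'⟩ := an_surj (fun i => (psc l c v i + 1) % (nb G v).card) (fun _ _ => Nat.mod_lt _ hd)
        (by
          intro a a' ha ha' haa
          refine hp.inj v a a' ha ha' ?_
          have h1 : psc l c v a < (nb G v).card := hp.lt v a ha
          have h2 : psc l c v a' < (nb G v).card := hp.lt v a' ha'
          show psc l c v a = psc l c v a'
          replace haa : (psc l c v a + 1) % (nb G v).card = (psc l c v a' + 1) % (nb G v).card := haa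
          rcases Nat.lt_or_ge (psc l c v a + 1) (nb G v).card with h3 | h3
          · rw [Nat.mod_eq_of_lt h3] at haa
            rcases Nat.lt_or_ge (psc l c v a' + 1) (nb G v).card with h4 | h4
            · rw [Nat.mod_eq_of_lt h4] at haa
              omega
            · have h5 : psc l c v a' + 1 = (nb G v).card := by omega
              rw [h5, Nat.mod_self] at haa
              omega
          · have h5 : psc l c v a + 1 = (nb G v).card := by omega
            rw [h5, Nat.mod_self] at haa
            rcases Nat.lt_or_ge (psc l c v a' + 1) (nb G v).card with h4 | h4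
            · rw [Nat.mod_eq_of_lt h4] at haa
              omega
            · omega)
        (psc l c v i) (hp.lt v i hi)
      refine ⟨v, x, i, hx, hi, hx'.symm, Or.inr ?_⟩
      have h1 := hT v x i hx hi hx'.symm
      rw [h0, ← h1, T.nxt_nxt]

end Pool.Agent.EAD
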