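import Pool.Agent.EAD.AVld
import Pool.Agent.EAD.ANew
import Pool.Agent.EAD.ACls
import Pool.Agent.EAD.AGen
import Pool.Agent.BEO.OriS
import Pool.Agent.BEO.CntS

/-!
# EAD-ACor: the algorithm is correct

Assuming the correspondence between the maps and the realizable sets and the bound for the number of canonical walks.
-/

set_option autoImplicit false

open Finset
open scoped Classical

namespace Pool.Agent.EAD

open Pool.Agent.BEO
open Pool.Agent.Helper35.OG hiding F2 dg

variable {n : ℕ} {G : SimpleGraph (Fin n)}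

private theorem foldl_max_le (L : List ℕ) (a B : ℕ) (ha : a ≤ B) (h : ∀ x ∈ L, x ≤ B) : L.foldl max a ≤ B := by
  induction L generalizing a with
  | nil => exact ha
  | cons x L ih =>
    rw [List.foldl_cons]
    refine ih _ ?_ ?_
    · exact max_le ha (h x (List.mem_cons_self))
    · intro y hy
      exact h y (List.mem_cons_of_mem _ hy)

private theorem le_foldl_max_init (L : List ℕ) (a : ℕ) : a ≤ L.foldl max a := by
  induction L generalizing a with
  | nil => exact le_rfl
  | cons x L ih =>
    rw [List.foldl_cons]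
    exact (le_max_left a x).trans (ih _)

private theorem le_foldl_max (L : List ℕ) (a x : ℕ) (h : x ∈ L) : x ≤ L.foldl max a := by
  induction L generalizing a with
  | nil => simp at h
  | cons y L ih =>
    rw [List.foldl_cons]
    rcases List.mem_cons.1 h with rfl | h
    · exact (le_max_right a x).trans (le_foldl_max_init L _)
    · exact ih _ h

theorem algC_core {S : GMap G} {l : Inp} (h : Codes S l) (hG : G.Connected) (hn : 2 ≤ n) {b : Fin n → Flag G}
    (hb : IsBase b) (hbc : ∀ v : Fin n, bsc l v = cod (b v)) (k T : ℕ)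
    (Y : Sys k S.Face (Fin n) (cyc G)) (hd : ∀ v, Y.P.d v = (nb G v).card)
    (hf : ∀ v i, i < Y.P.d v → Y.P.fc v i = S.face (cf S b v i)) (hc : ∀ v i, Y.c v i = cc S b v i)
    (hopt : ∀ W, Canon Y W → ∃ ls : List (List (Ch Y.P)), ls.length ≤ T ∧ (∀ w ∈ ls, w ∈ W) ∧
      Y.D.Adm (oddE ls.flatten) ∧ Real Y.P (oddE ls.flatten) ∧
      ∀ lam, Y.D.Adm lam → Real Y.P lam → Y.D.rkN (oddE ls.flatten) ≤ Y.D.rkN lam)
    (hmk : ∀ (pos : Fin n → ℕ → ℕ) (sg : Fin n → ℕ → Bool), PS G pos → ∃ M : GMap G, IsMk S b pos sg M)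
    (hps : ∀ lam, Real Y.P lam → PS G (posN lam))
    (hfr : ∀ (lam : Finset (Ch Y.P)) (M : GMap G), PS G (posN lam) → IsMk S b (posN lam) (sgN lam) M →
      frm M = Y.D.N lam)
    (hall : ∀ M : GMap G, ∃ lam, Real Y.P lam ∧ frm M = Y.D.N lam) : algC k T l = orientableGenus G := by
  have hnt : Nontrivial (Fin n) := Fin.nontrivial_iff_two_le.2 hn
  obtain ⟨es, hes1, hes2⟩ := exists_tupleC h hG hn hb hbc k Y hd hf hc
  obtain ⟨ls, hls1, hls2, hadm, hreal, hmin⟩ := hopt _ hes2
  set c : List Cc := (ls.map (List.map ccd)).flatten with hcdef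
  have hc1 : c = ls.flatten.map ccd := by
    rw [hcdef, List.map_flatten]
  have hcm : c ∈ cdC k T l := by
    unfold cdC
    rw [List.mem_flatMap]
    refine ⟨es, hes1, ?_⟩
    rw [mem_cds]
    refine ⟨ls.map (List.map ccd), ?_, ?_, rfl⟩
    · rw [List.length_map]
      exact hls1
    · intro w hw'
      obtain ⟨w', hw1, rfl⟩ := List.mem_map.1 hw'
      exact hls2 w' hw1
  -- the values for a valid candidate
  have hval : ∀ c' : List Cc, vld l c' = true → ∃ M : GMap G,
      IsMk S b (fun (v : Fin n) (i : ℕ) => psc l c' v i) (fun (v : Fin n) (i : ℕ) => ivc c' v i i) M ∧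
      (isO (nwi l c') [] = true ↔ M.Orientable) ∧ M.eg = 2 - (n : ℤ) + (nE l : ℤ) - (nF (nwi l c') [] : ℤ) := by
    intro c' hv
    have hp := (vld_iff h hG hn hbc c').1 hv
    obtain ⟨M, hM⟩ := hmk _ (fun (v : Fin n) (i : ℕ) => ivc c' v i i) hp
    have hcod := codes_nwi h hG hn hb hbc c' hp M hM
    refine ⟨M, hM, ?_, ?_⟩
    · rw [isO_iff hcod hG hn [], twist_nil]
    · rw [nE_eq h, nF_eq hcod hG hn [], twist_nil]
      unfold GMap.eg
      rw [Nat.card_eq_fintype_card (α := Fin n), Fintype.card_fin]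
  have hle : ∀ c' : List Cc, vld l c' = true → isO (nwi l c') [] = true →
      nF (nwi l c') [] + n + 2 * orientableGenus G ≤ 2 + nE l := by
    intro c' hv hc'
    obtain ⟨M, -, hM1, hM2⟩ := hval c' hv
    obtain ⟨g, hg1, hg2⟩ := gen_le hG _ (hM1.1 hc')
    rw [hM2] at hg1
    omega
  have hpsc : (fun (v : Fin n) (i : ℕ) => psc l c v i) = posN (oddE ls.flatten) := by
    funext v i
    rw [hc1]
    exact psc_ccd h hbc hd _ v i
  have hsgc : (fun (v : Fin n) (i : ℕ) => ivc c v i i) = sgN (oddE ls.flatten) := by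
    funext v i
    rw [hc1]
    exact ivc_ccd _ v i i
  have hvld : vld l c = true := by
    rw [vld_iff h hG hn hbc c, hpsc]
    exact hps _ hreal
  obtain ⟨M, hM, hM1, hM2⟩ := hval c hvld
  rw [hpsc, hsgc] at hM
  have hfrm := hfr _ M (hps _ hreal) hM
  obtain ⟨ho, he⟩ := gen_eqC hG Y _ hadm hmin M hfrm hall
  have heq : nF (nwi l c) [] + n + 2 * orientableGenus G = 2 + nE l := by
    rw [he] at hM2
    omega
  have hbest : bsC k T l + n + 2 * orientableGenus G = 2 + nE l := by
    apply le_antisymm
    · have h1 : bsC k T l ≤ 2 + nE l - (n + 2 * orientableGenus G) := by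
        unfold bsC
        apply foldl_max_le
        · exact Nat.zero_le _
        · intro x hx
          obtain ⟨c', hc', rfl⟩ := List.mem_map.1 hx
          by_cases h4 : (vld l c' && isO (nwi l c') []) = true
          · rw [if_pos h4]
            rw [Bool.and_eq_true] at h4
            have := hle c' h4.1 h4.2
            omega
          · rw [if_neg h4]
            exact Nat.zero_le _
      omega
    · have h1 : nF (nwi l c) [] ≤ bsC k T l := by
        unfold bsC
        apply le_foldl_max
        rw [List.mem_map]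
        refine ⟨c, hcm, ?_⟩
        rw [if_pos]
        rw [Bool.and_eq_true]
        exact ⟨hvld, hM1.2 ho⟩
      omega
  unfold algC
  rw [nV_eq h hG hn]
  omega

end Pool.Agent.EAD
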