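import Pool.Agent.EAD.AFpC
import Pool.Agent.EAD.AFpN
import Pool.Agent.EAD.AFpX
import Pool.Agent.BEO.FpA

/-!
# EAD-AFpA: the algorithm runs in polynomial time
-/

set_option autoImplicit false

namespace Pool.Agent.EAD

open Pool.Agent.BEO
open Turing Function N487b59b3 N68a2faeb Pool.Agent.Helper22 Pool.Agent.Helper6.WB Pool.Agent.Helper47.TR Computability

section

variable {α β γ δ : Type} [N487b59b3 α] [N487b59b3 β] [N487b59b3 γ] [N487b59b3 δ]

private theorem fp_cdC (k T : ℕ) : FP fun l : Inp => cdC k T l := by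
  have h1 : FP fun p : Inp × List Ec => cds (wkX k (arC p.1 p.2)) T :=
    fp_cds T (fp_wkX k (fp_arC FP.fst FP.snd))
  have h2 : FP fun l : Inp => (fl l).map ek := FP.map (fp_ek FP.id) (fp_fl FP.id)
  exact fp_flat h1 (fp_tup k h2)

private theorem fp_bsC (k T : ℕ) : FP fun l : Inp => bsC k T l := by
  have hn : FP fun p : Inp × List Cc => nwi p.1 p.2 := fp_nwi FP.fst FP.snd
  have h1 : FP fun p : Inp × List Cc => if vld p.1 p.2 && isO (nwi p.1 p.2) [] then nF (nwi p.1 p.2) [] else 0 :=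
    FP.ite (FP.and (fp_vld FP.fst FP.snd) (fp_isO hn (FP.const []))) (fp_nF hn (FP.const [])) (FP.const 0)
  exact fp_max (fp_mapc h1 (fp_cdC k T))

private theorem fp_nE : FP fun l : Inp => nE l := by
  have h1 : FP fun p : Inp × Pt => decide (p.2.1 ≤ p.2.2.1) && p.2.2.2 :=
    FP.and (FP.natLe (by fun_prop) (by fun_prop)) (by fun_prop)
  exact FP.length (fp_filt h1 (fp_fl FP.id))

private theorem fp_nV : FP fun l : Inp => nV l :=
  FP.length (fp_ddp (FP.map FP.fst (fp_fl FP.id)))

theorem fp_algC (k T : ℕ) : IsPolyTime (algC k T) := by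
  rw [isPolyTime_iff]
  exact fp_half (fp_sub (FP.natAdd (FP.const 2) fp_nE) (FP.natAdd fp_nV (fp_bsC k T)))

end

end Pool.Agent.EAD
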