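import Pool.Agent.EAD.ACod

/-!
# EAD-AInv: positions and signs computed from the codes

`ccd` is the code of a chord.
-/

set_option autoImplicit false

open Finset
open scoped Classical

namespace Pool.Agent.EAD

open Pool.Agent.BEO
open Pool.Agent.Helper35.OG hiding F2 dg

variable {n : ℕ} {G : SimpleGraph (Fin n)}

/-- the code of a chord -/
def ccd {Φ : Type} {P : Cor Φ (Fin n)} (e : Ch P) : Cc := ((e.vx : ℕ), (e.lo, e.hi))

theorem ccd_inj {Φ : Type} {P : Cor Φ (Fin n)} {e e' : Ch P} (h : ccd e = ccd e') : e = e' := by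
  obtain ⟨⟨v, lo, hi⟩, hl⟩ := e
  obtain ⟨⟨v', lo', hi'⟩, hl'⟩ := e'
  simp only [ccd, Ch.vx, Ch.lo, Ch.hi, Prod.mk.injEq] at h
  obtain ⟨h1, h2, h3⟩ := h
  have h4 : v = v' := Fin.ext h1
  subst h4
  have h5 : lo = lo' := Fin.ext h2
  have h6 : hi = hi' := Fin.ext h3
  subst h5
  subst h6
  rfl

private theorem sum_count {E : Type} [Fintype E] (q : E → Bool) (w : List E) :
    ∑ e ∈ univ.filter (fun e => q e = true), w.count e = w.countP q := by
  induction w with
  | nil => simp
  | cons a w ih =>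
    rw [List.countP_cons, ← ih]
    have h1 : ∀ e, (a :: w).count e = w.count e + if a = e then 1 else 0 := by
      intro e
      rw [List.count_cons]
      simp
    simp only [h1]
    rw [sum_add_distrib]
    congr 1
    rw [sum_ite_eq]
    simp

private theorem odd_countP {E : Type} [Fintype E] (q : E → Bool) (w : List E) :
    Odd (w.countP q) ↔ Odd ((oddE w).filter fun e => q e = true).card := by
  rw [← sum_count, odd_sum_iff_odd_card_odd]
  unfold oddE
  rw [filter_filter, filter_filter]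
  have h : (univ.filter fun e : E => q e = true ∧ Odd (w.count e)) =
      univ.filter fun e : E => w.count e % 2 = 1 ∧ q e = true := by
    ext e
    rw [mem_filter, mem_filter, Nat.odd_iff]
    tauto
  rw [h]

private theorem ovr_eq {Φ Vt : Type} {P : Cor Φ Vt} (lam : Finset (Ch P)) (v : Vt) (l m : ℕ) (q : Ch P → Bool)
    (hq : ∀ e, q e = true ↔ (e.vx = v ∧ e.lo < l ∧ l ≤ e.hi ∧ e.lo < m ∧ m ≤ e.hi)) :
    (lam.filter fun e => q e = true).card = ovr lam v l m := by
  unfold ovr
  congr 1
  exact filter_congr fun e _ => hq e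

theorem ivc_ccd {Φ : Type} {P : Cor Φ (Fin n)} (w : List (Ch P)) (v : Fin n) (i j : ℕ) :
    ivc (w.map ccd) v i j = decide (Odd (ovr (oddE w) v i j)) := by
  have h1 : ivc (w.map ccd) v i j = decide (Odd (w.countP fun e =>
      decide ((ccd e).1 = (v : ℕ)) && (cvr (ccd e) i && cvr (ccd e) j))) := by
    unfold ivc odl
    rw [List.filter_map, List.length_map, ← List.countP_eq_length_filter]
    rw [decide_eq_decide, Nat.odd_iff]
    rfl
  rw [h1, decide_eq_decide, odd_countP]
  have h2 : ((oddE w).filter fun e => (decide ((ccd e).1 = (v : ℕ)) &&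
      (cvr (ccd e) i && cvr (ccd e) j)) = true).card = ovr (oddE w) v i j := by
    refine ovr_eq _ _ _ _ _ fun e => ?_
    unfold cvr
    rw [Bool.and_eq_true, Bool.and_eq_true, Bool.and_eq_true, Bool.and_eq_true, decide_eq_true_eq,
      decide_eq_true_eq, decide_eq_true_eq, decide_eq_true_eq, decide_eq_true_eq]
    have h3 : ((ccd e).1 = (v : ℕ)) ↔ e.vx = v := Fin.ext_iff.symm
    have h4 : (ccd e).2.1 = e.lo := rfl
    have h5 : (ccd e).2.2 = e.hi := rfl
    rw [h3, h4, h5]
    constructor
    · rintro ⟨k1, ⟨k2, k3⟩, k4, k5⟩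
      exact ⟨k1, by omega, k3, by omega, k5⟩
    · rintro ⟨k1, k2, k3, k4, k5⟩
      exact ⟨k1, ⟨by omega, k3⟩, by omega, k5⟩
  rw [h2]

private theorem ovr_symm {Φ Vt : Type} {P : Cor Φ Vt} (lam : Finset (Ch P)) (v : Vt) (l m : ℕ) :
    ovr lam v l m = ovr lam v m l := by
  unfold ovr
  congr 1
  refine filter_congr fun e _ => ?_
  tauto

theorem psc_ccd {S : GMap G} {l : Inp} (h : Codes S l) {b : Fin n → Flag G} (hbc : ∀ v : Fin n, bsc l v = cod (b v))
    {Φ : Type} {P : Cor Φ (Fin n)} (hd : ∀ v, P.d v = (nb G v).card) (w : List (Ch P)) (v : Fin n) (i : ℕ) :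
    psc l (w.map ccd) v i = posN (oddE w) v i := by
  unfold psc posN
  rw [rlc_eq h hbc v, List.filter_map, List.length_map, hd v]
  rw [← List.toFinset_card_of_nodup (List.Nodup.filter _ List.nodup_range)]
  congr 1
  ext m
  rw [List.mem_toFinset, List.mem_filter, List.mem_range, mem_filter, mem_range]
  refine and_congr_right fun _ => ?_
  simp only [Function.comp_apply, Bool.and_eq_true, Bool.not_eq_true', decide_eq_false_iff_not]
  refine and_congr_right fun _ => ?_
  rw [ivc_ccd, ovr_symm]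
  unfold bef
  by_cases h1 : m < i
  · have h2 : m + 1 ≤ i := h1
    by_cases h3 : Odd (ovr (oddE w) v i m) <;> simp [h1, h2, h3]
  · have h2 : ¬ m + 1 ≤ i := h1
    by_cases h3 : Odd (ovr (oddE w) v i m) <;> simp [h1, h2, h3]

end Pool.Agent.EAD
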