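import Pool.Agent.EAD.LRot
import Pool.Agent.BEO.CutEx

/-!
# EAD-LCol: a null set of corners is the set of changes of a colouring of the edges

The partial sums of `σ` are a function on the darts; its changes over the edges are orthogonal to the cycles, hence a cut.
-/

set_option autoImplicit false

open Finset
open scoped Classical

namespace Pool.Agent.EAD

open Pool.Agent.BEO
open Pool.Agent.Helper35.OG hiding F2 dg

variable {V : Type} {G : SimpleGraph V} [Fintype V]

/-- a sum over the darts is a sum over the numbered darts at the vertices -/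
theorem sum_darts (S : GMap G) {b : V → Flag G} (hb : IsBase b) (g : G.Dart → F2) :
    ∑ x : G.Dart, g x = ∑ v, ∑ t ∈ range (nb G v).card, g (cf S b v t).1 := by
  rw [← Finset.sum_fiberwise univ (fun d : G.Dart => d.fst) g]
  refine Finset.sum_congr rfl fun v _ => ?_
  symm
  refine Finset.sum_bij (fun t _ => (cf S b v t).1) ?_ ?_ ?_ ?_
  · intro t _
    rw [mem_filter]
    exact ⟨mem_univ _, cf_fst S hb v t⟩
  · intro t ht t' ht' h
    exact ed_cf_inj S hb v (mem_range.1 ht) (mem_range.1 ht') h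
  · intro x hx
    rw [mem_filter] at hx
    obtain ⟨i, hi, h⟩ := cf_cover S hb v (x, true) hx.2
    refine ⟨i, mem_range.2 hi, ?_⟩
    rcases h with h | h
    · rw [← h]
    · have h2 := congrArg Prod.fst h
      exact h2.symm
  · intro t _
    rfl

private theorem lcol_abel (σ y : ℕ → F2) (n : ℕ) :
    ∑ i ∈ range n, σ i * ∑ t ∈ Icc 1 i, y t =
      (∑ i ∈ range n, σ i) * ∑ t ∈ Icc 1 n, y t - ∑ t ∈ range (n + 1), (∑ i ∈ range t, σ i) * y t := by
  induction n with
  | zero => simp
  | succ n ih =>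
    rw [Finset.sum_range_succ, ih, Finset.sum_range_succ (fun t => (∑ i ∈ range t, σ i) * y t) (n + 1),
      Finset.sum_range_succ σ n, Finset.sum_Icc_succ_top (by omega)]
    ring

private theorem lcol_abel0 (σ y : ℕ → F2) (n : ℕ) (h : ∑ i ∈ range n, σ i = 0) :
    ∑ i ∈ range n, σ i * ∑ t ∈ Icc 1 i, y t = ∑ t ∈ range n, (∑ i ∈ range t, σ i) * y t := by
  rw [lcol_abel, h, Finset.sum_range_succ, h, zero_mul, zero_mul, add_zero, zero_sub, CharTwo.neg_eq]

private theorem lcol_index (S : GMap G) {b : V → Flag G} (hb : IsBase b) (x : G.Dart) :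
    ∃ t, t < (nb G x.fst).card ∧ (cf S b x.fst t).1 = x := by
  obtain ⟨i, hi, h⟩ := cf_cover S hb x.fst (x, true) rfl
  refine ⟨i, hi, ?_⟩
  rcases h with h | h
  · rw [← h]
  · exact (congrArg Prod.fst h).symm

private theorem lcol_fun (S : GMap G) {b : V → Flag G} (hb : IsBase b) (K : V → ℕ → F2) :
    ∃ g : G.Dart → F2, ∀ v t, t < (nb G v).card → g (cf S b v t).1 = K v t := by
  choose tx h1 h2 using lcol_index S hb
  refine ⟨fun x => K x.fst (tx x), fun v t ht => ?_⟩
  have hx : (cf S b v t).1.fst = v := cf_fst S hb v t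
  generalize hxx : (cf S b v t).1 = x at hx ⊢
  have h3 := h1 x
  have h4 := h2 x
  rw [hx] at h3 h4
  show K x.fst (tx x) = K v t
  rw [hx, ed_cf_inj S hb v h3 ht (h4.trans hxx.symm)]

theorem colour (S : GMap G) {b : V → Flag G} (hb : IsBase b) (σ : V → ℕ → F2)
    (h1 : ∀ v, ∑ i ∈ range (nb G v).card, σ v i = 0)
    (h2 : ∀ z : cyc G, ∑ v, ∑ i ∈ range (nb G v).card, σ v i * cc S b v i z = 0) :
    ∃ κ : G.edgeSet → F2, ∀ v i, i < (nb G v).card →
      κ (ed (cf S b v i)) + κ (ed (cf S b v (i + 1))) = σ v i := by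
  obtain ⟨g, hg⟩ := lcol_fun S hb (fun v t => ∑ i ∈ range t, σ v i)
  have horth : ∀ z ∈ cyc G, ∑ e : G.edgeSet, (g (rp e).1 + g (rp e).1.symm) * z e = 0 := by
    intro z hz
    have h3 := h2 ⟨z, hz⟩
    have h4 : ∀ v, ∑ i ∈ range (nb G v).card, σ v i * cc S b v i ⟨z, hz⟩ =
        ∑ t ∈ range (nb G v).card, g (cf S b v t).1 * z (ed ((cf S b v t).1, true)) := by
      intro v
      have h5 := lcol_abel0 (σ v) (fun t => z (ed (cf S b v t))) _ (h1 v)
      refine Eq.trans h5 (Finset.sum_congr rfl fun t ht => ?_)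
      rw [hg v t (mem_range.1 ht)]
      rfl
    rw [Finset.sum_congr rfl fun v _ => h4 v, ← sum_darts S hb (fun x => g x * z (ed (x, true))), sum_edges] at h3
    rw [← h3]
    refine Finset.sum_congr rfl fun e _ => ?_
    have h6 : ed ((rp e).1, true) = e := (ed_rp e)
    have h7 : ed ((rp e).1.symm, true) = e := by
      have h8 := ed_across ((rp e).1, false)
      have h9 : across ((rp e).1, false) = ((rp e).1.symm, true) := rfl
      rw [h9] at h8
      rw [h8]
      exact ed_rp e
    rw [h6, h7, add_mul]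
  obtain ⟨cv, hcv⟩ := cut_exists _ horth
  have hk : ∀ p : Flag G, g (rp (ed p)).1 + cv (rp (ed p)).1.fst = g p.1 + cv p.1.fst := by
    intro p
    have h3 := hcv p
    have h4 : (rp (ed p)).1.edge = p.1.edge := congrArg Subtype.val (ed_rp (ed p))
    rcases (SimpleGraph.dart_edge_eq_iff _ _).1 h4 with h5 | h5
    · rw [h5]
    · rw [h5, SimpleGraph.Dart.symm_symm] at h3
      rw [h5]
      have h6 : p.1.symm.fst = p.1.snd := rfl
      rw [h6]
      have h7 : g p.1.symm = cv p.1.fst + cv p.1.snd + g p.1 := by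
        rw [← h3, add_assoc, CharTwo.add_self_eq_zero, add_zero]
      rw [h7]
      have h8 : cv p.1.snd + cv p.1.snd = 0 := CharTwo.add_self_eq_zero _
      linear_combination h8
  refine ⟨fun e => g (rp e).1 + cv (rp e).1.fst, fun v i hi => ?_⟩
  show g (rp (ed (cf S b v i))).1 + cv (rp (ed (cf S b v i))).1.fst +
    (g (rp (ed (cf S b v (i + 1)))).1 + cv (rp (ed (cf S b v (i + 1)))).1.fst) = σ v i
  rw [hk, hk, cf_fst S hb, cf_fst S hb, hg v i hi]
  have h8 : cv v + cv v = 0 := CharTwo.add_self_eq_zero _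
  have h9 : (∑ j ∈ range i, σ v j) + ∑ j ∈ range i, σ v j = 0 := CharTwo.add_self_eq_zero _
  by_cases h : i + 1 < (nb G v).card
  · rw [hg v (i + 1) h]
    show (∑ j ∈ range i, σ v j) + cv v + ((∑ j ∈ range (i + 1), σ v j) + cv v) = σ v i
    rw [Finset.sum_range_succ]
    linear_combination h8 + h9
  · have h10 : i + 1 = (nb G v).card := by omega
    have h11 : cf S b v (i + 1) = cf S b v 0 := by
      rw [h10]
      have h12 := cf_period S hb v 0
      rwa [zero_add] at h12
    rw [h11, hg v 0 (by omega)]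
    have h12 := h1 v
    rw [← h10, Finset.sum_range_succ] at h12
    show (∑ j ∈ range i, σ v j) + cv v + ((∑ j ∈ range 0, σ v j) + cv v) = σ v i
    rw [Finset.range_zero, Finset.sum_empty]
    have h13 : σ v i + σ v i = 0 := CharTwo.add_self_eq_zero _
    linear_combination h8 + h12 - h13

end Pool.Agent.EAD
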