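import Pool.Agent.EAD.LRot
import Pool.Agent.EAD.LDef

/-!
# EAD-LRep: every map is given by positions and signs
-/

set_option autoImplicit false

open Finset
open scoped Classical

namespace Pool.Agent.EAD

open Pool.Agent.BEO
open Pool.Agent.Helper35.OG hiding F2 dg

variable {V : Type} {G : SimpleGraph V} [Fintype V]

theorem exists_rep (S : GMap G) (b : V → Flag G) (hb : IsBase b) (T : GMap G) :
    ∃ (pos : V → ℕ → ℕ) (sg : V → ℕ → Bool), PS G pos ∧ (∀ v, pos v 0 = 0) ∧ (∀ v, sg v 0 = false) ∧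
      IsMk S b pos sg T := by
  have h1 : ∀ (v : V) (x : ℕ), ∃ (j : ℕ) (s : Bool), j < (nb G v).card ∧
      ((s = false ∧ cf S b v x = cf T b v j) ∨ (s = true ∧ cf S b v x = side (cf T b v j))) := by
    intro v x
    obtain ⟨j, hj, h | h⟩ := cf_cover T hb v (cf S b v x) (cf_fst S hb v x)
    · exact ⟨j, false, hj, Or.inl ⟨rfl, h⟩⟩
    · exact ⟨j, true, hj, Or.inr ⟨rfl, h⟩⟩
  choose pos sg hlt hps using h1
  have hdart : ∀ v x, (cf S b v x).1 = (cf T b v (pos v x)).1 := by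
    intro v x
    rcases hps v x with ⟨_, h⟩ | ⟨_, h⟩
    · rw [h]
    · rw [h]
      rfl
  have hout : ∀ v x, outF S b sg v x = cf T b v (pos v x) := by
    intro v x
    unfold outF
    rcases hps v x with ⟨h2, h⟩ | ⟨h2, h⟩
    · rw [h2, if_neg Bool.false_ne_true, h]
    · rw [h2, if_pos rfl, h, side_side]
  refine ⟨pos, sg, ⟨fun v i _ => hlt v i, ?_⟩, ?_, ?_, ?_⟩
  · intro v i j hi hj h
    apply ed_cf_inj S hb v hi hj
    rw [hdart, hdart, h]
  · intro v
    rcases hps v 0 with ⟨_, h⟩ | ⟨_, h⟩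
    · have h3 : cf T b v 0 = cf T b v (pos v 0) := h
      exact (cf_inj T hb v (deg_pos hb v) (hlt v 0) h3).symm
    · have h3 : cf T b v 0 = side (cf T b v (pos v 0)) := h
      exact absurd h3 (cf_ne_side T b v 0 (pos v 0))
  · intro v
    rcases hps v 0 with ⟨h2, _⟩ | ⟨_, h⟩
    · exact h2
    · have h3 : cf T b v 0 = side (cf T b v (pos v 0)) := h
      exact absurd h3 (cf_ne_side T b v 0 (pos v 0))
  · intro v x y _ _ hxy
    rw [hout, hout, hxy, nxt_cf, cf_mod T hb]

end Pool.Agent.EAD
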