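import Pool.Agent.EAD.LSys
import Pool.Agent.EAD.LMk
import Pool.Agent.EAD.LFrm
import Pool.Agent.EAD.LRep
import Pool.Agent.EAD.LCmp
import Pool.Agent.EAD.LDif
import Pool.Agent.EAD.LSum

/-!
# EAD-LMain: maps and realizable sets of chords
-/

set_option autoImplicit false

open Finset
open scoped Classical

namespace Pool.Agent.EAD

open Pool.Agent.BEO
open Pool.Agent.Helper35.OG hiding F2 dg

variable {V : Type} {G : SimpleGraph V} [Fintype V] [Nontrivial V]

/-- the form of a set of chords -/
theorem N_sum (S : GMap G) (hG : G.Connected) (k : ℕ) (hk : S.eg = k) (hP : Poly S)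
    (hW : WideV S) (b : V → Flag G) (hb : IsBase b) (lam : Finset (Ch (corS S hP b hb))) (z z' : cyc G) :
    (mkSys S hG k hk hP hW b hb).D.N lam z z' = frm S z z' +
      ∑ v, ∑ l ∈ range (nb G v).card, ∑ m ∈ range (nb G v).card,
        (ovr lam v l m : F2) * z.1 (ed (cf S b v m)) * z'.1 (ed (cf S b v l)) := by
  rw [← sum_ovr, Dat.N_apply]
  rfl

theorem ps_of_real (S : GMap G) (hP : Poly S) (b : V → Flag G) (hb : IsBase b) (lam : Finset (Ch (corS S hP b hb)))
    (h : Real (corS S hP b hb) lam) : PS G (posN lam) :=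
  ⟨fun v i hi => posN_lt lam v i hi, fun v i j hi hj hij => (real_iff_inj lam).1 h v i j hi hj hij⟩

theorem real_of_ps (S : GMap G) (hP : Poly S) (b : V → Flag G) (hb : IsBase b) (lam : Finset (Ch (corS S hP b hb)))
    (h : PS G (posN lam)) : Real (corS S hP b hb) lam :=
  (real_iff_inj lam).2 h.inj

/-- a map with the positions and signs of a set of chords has the form of this set -/
theorem frm_of_ps (S : GMap G) (hG : G.Connected) (k : ℕ) (hk : S.eg = k) (hP : Poly S)
    (hW : WideV S) (b : V → Flag G) (hb : IsBase b) (lam : Finset (Ch (corS S hP b hb))) (h : PS G (posN lam))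
    (T : GMap G) (hT : IsMk S b (posN lam) (sgN lam) T) : frm T = (mkSys S hG k hk hP hW b hb).D.N lam := by
  apply LinearMap.ext
  intro z
  apply LinearMap.ext
  intro z'
  rw [N_sum, frm_isMk S b hb _ h _ T hT z z']
  congr 1
  refine Finset.sum_congr rfl fun v _ => Finset.sum_congr rfl fun l hl => Finset.sum_congr rfl fun m hm => ?_
  rw [cmp_posN lam v (h.inj v) l m (mem_range.1 hl) (mem_range.1 hm)]

theorem map_of_real (S : GMap G) (hG : G.Connected) (k : ℕ) (hk : S.eg = k) (hP : Poly S)
    (hW : WideV S) (b : V → Flag G) (hb : IsBase b) (lam : Finset (Ch (corS S hP b hb)))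
    (h : Real (corS S hP b hb) lam) :
    frm (mkT S b hb (posN lam) (ps_of_real S hP b hb lam h) (sgN lam)) = (mkSys S hG k hk hP hW b hb).D.N lam :=
  frm_of_ps S hG k hk hP hW b hb lam (ps_of_real S hP b hb lam h) _ (mkT_isMk S b hb _ _ _)

theorem real_of_map (S : GMap G) (hG : G.Connected) (k : ℕ) (hk : S.eg = k) (hP : Poly S)
    (hW : WideV S) (b : V → Flag G) (hb : IsBase b) (T : GMap G) :
    ∃ lam : Finset (Ch (corS S hP b hb)), Real (corS S hP b hb) lam ∧ PS G (posN lam) ∧
      IsMk S b (posN lam) (sgN lam) T ∧ frm T = (mkSys S hG k hk hP hW b hb).D.N lam := by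
  obtain ⟨pos, sg, hp, hp0, hs0, hT⟩ := exists_rep S b hb T
  obtain ⟨lam, hlam⟩ := exists_lam (corS S hP b hb)
    (fun v l m => if l < (nb G v).card ∧ m < (nb G v).card then cmp (pos v) (sg v) l m else 0)
    (fun v m => by
      split_ifs with h
      · unfold cmp
        by_cases h0 : 0 = m
        · rw [if_pos h0, hs0]
          rfl
        · rw [if_neg h0, if_neg (Nat.not_lt_zero _), hp0, if_neg (Nat.not_lt_zero _), add_zero]
      · rfl)
    (fun v l m => by
      by_cases h : l < (nb G v).card ∧ m < (nb G v).card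
      · rw [if_pos h, if_pos h.symm]
        unfold cmp
        by_cases h0 : l = m
        · rw [h0]
        · rw [if_neg h0, if_neg (Ne.symm h0)]
          have h1 : pos v l ≠ pos v m := fun h2 => h0 (hp.inj v l m h.1 h.2 h2)
          rcases Nat.lt_or_gt_of_ne h0 with h3 | h3 <;> rcases Nat.lt_or_gt_of_ne h1 with h4 | h4
          · rw [if_neg (by omega), if_neg (by omega), if_pos h3, if_pos h4]
            decide
          · rw [if_neg (by omega), if_pos h4, if_pos h3, if_neg (by omega)]
            decide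
          · rw [if_pos h3, if_neg (by omega), if_neg (by omega), if_pos h4]
            decide
          · rw [if_pos h3, if_pos h4, if_neg (by omega), if_neg (by omega)]
            decide
      · rw [if_neg h, if_neg (fun h1 => h h1.symm)])
  have h1 : ∀ v l, l < (nb G v).card → posN lam v l = pos v l ∧ sgN lam v l = sg v l := by
    intro v l hl
    refine posN_of_cmp lam v (pos v) (sg v) (hp.lt v) (hp.inj v) (fun l m hl hm => ?_) l hl
    rw [hlam v l m hl hm, if_pos ⟨hl, hm⟩]
  have h2 : PS G (posN lam) := by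
    refine ⟨fun v i hi => posN_lt lam v i hi, fun v i j hi hj hij => ?_⟩
    rw [(h1 v i hi).1, (h1 v j hj).1] at hij
    exact hp.inj v i j hi hj hij
  have h3 : IsMk S b (posN lam) (sgN lam) T := by
    intro v x y hx hy h
    rw [(h1 v x hx).1, (h1 v y hy).1] at h
    have h4 := hT v x y hx hy h
    unfold outF at h4 ⊢
    rw [(h1 v x hx).2, (h1 v y hy).2]
    exact h4
  exact ⟨lam, real_of_ps S hP b hb lam h2, h2, h3, frm_of_ps S hG k hk hP hW b hb lam h2 T h3⟩

end Pool.Agent.EAD
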