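import Pool.Agent.EAD.ACod

/-!
# EAD-AVld: the test of a candidate

Unfold the test and use `rlc_eq`.
-/

set_option autoImplicit false

open Finset
open scoped Classical

namespace Pool.Agent.EAD

open Pool.Agent.BEO
open Pool.Agent.Helper35.OG hiding F2 dg

variable {n : ℕ} {G : SimpleGraph (Fin n)}

theorem vld_iff {S : GMap G} {l : Inp} (h : Codes S l) (hG : G.Connected) (hn : 2 ≤ n) {b : Fin n → Flag G}
    (hbc : ∀ v : Fin n, bsc l v = cod (b v)) (c : List Cc) :
    vld l c = true ↔ PS G (fun (v : Fin n) (i : ℕ) => psc l c v i) := by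
  have hr : ∀ v : Fin n, rlc l v = (List.range (nb G v).card).map fun i => (i, cod (cf S b v i)) :=
    fun v => rlc_eq h hbc v
  have hmem : ∀ (v : Fin n) (q : ℕ × Pt), q ∈ rlc l v ↔
      q.1 < (nb G v).card ∧ q = (q.1, cod (cf S b v q.1)) := by
    intro v q
    rw [hr v, List.mem_map]
    constructor
    · rintro ⟨i, hi, rfl⟩
      exact ⟨List.mem_range.1 hi, rfl⟩
    · rintro ⟨h1, h2⟩
      exact ⟨q.1, List.mem_range.2 h1, h2.symm⟩
  have hlen : ∀ v : Fin n, (rlc l v).length = (nb G v).card := by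
    intro v
    rw [hr v, List.length_map, List.length_range]
  have hlt : ∀ (v : Fin n) (i : ℕ), i < (nb G v).card → psc l c v i < (nb G v).card := by
    intro v i hi
    rw [← hlen v]
    unfold psc
    rw [List.length_filter_lt_length_iff_exists]
    refine ⟨(i, cod (cf S b v i)), (hmem v _).2 ⟨hi, rfl⟩, ?_⟩
    simp
  have hv : vld l c = true ↔ ∀ v : Fin n, ∀ q ∈ rlc l v, ∀ q' ∈ rlc l v,
      psc l c v q'.1 = psc l c v q.1 → q'.1 = q.1 := by
    unfold vld
    rw [List.isEmpty_iff, List.flatMap_eq_nil_iff]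
    constructor
    · intro h1 v q hq q' hq' h2
      have h3 := h1 (v : ℕ) ((mem_vtc h hG hn _).2 ⟨v, rfl⟩)
      unfold bdv at h3
      rw [List.flatMap_eq_nil_iff] at h3
      have h4 := h3 q hq
      rw [List.filter_eq_nil_iff] at h4
      have h5 := h4 q' hq'
      by_contra h6
      apply h5
      simp [h6, h2]
    · intro h1 x hx
      obtain ⟨v, rfl⟩ := (mem_vtc h hG hn x).1 hx
      unfold bdv
      rw [List.flatMap_eq_nil_iff]
      intro q hq
      rw [List.filter_eq_nil_iff]
      intro q' hq' h2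
      simp only [Bool.and_eq_true, Bool.not_eq_true', decide_eq_false_iff_not, decide_eq_true_eq] at h2
      exact h2.1 (h1 v q hq q' hq' h2.2)
  rw [hv]
  constructor
  · intro h1
    refine ⟨hlt, fun v i j hi hj hij => ?_⟩
    exact h1 v (j, cod (cf S b v j)) ((hmem v _).2 ⟨hj, rfl⟩) (i, cod (cf S b v i)) ((hmem v _).2 ⟨hi, rfl⟩) hij
  · rintro h1 v q hq q' hq' h2
    exact h1.inj v q'.1 q.1 ((hmem v q').1 hq').1 ((hmem v q).1 hq).1 h2

end Pool.Agent.EAD
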