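import Pool.Agent.BEO.Par
import Pool.Agent.BEO.LinK
import Pool.Agent.EAD.CBase

/-!
# EAD-CDeg: `M` has few more edges than vertices

PLAN. `es_le`: suppose `(es M).card > (vs M).card + k`. Apply `exists_ker` with `P := {e // e ∈ es M}`,
`T := {v // v ∈ vs M}`, `b e v := [v ∈ e]`, `q e := a e`, `H := c.H`. For `g : P → F2` extend by zero to a coefficient
function on `Sym2 V` and let `χ` be its support, a subset of the edges of `M` (so of `L`, `c.le`); the boundary
condition gives `Even (dg χ v)` for all `v` (for `v ∉ vs M` no edge of `M` is at `v`, so `dg χ v = 0`), and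
`∑ p, g p • q p = ∑ e ∈ χ, a e` (`sum_coef`); `c.cls` gives the hypothesis `hq`. The nonzero `g` found has
`∑ e ∈ χ, a e = 0`, so `c.mn` gives `χ.card ≤ 0` (all edges of `χ` are in `M`), contradiction.
`deg_le` and `deg_four`: every vertex of `vs M` has even degree `≥ 2`, so `∑ v ∈ vs M, ((nb M v).card - 2) =
2 * (es M).card - 2 * (vs M).card ≤ 2 * k` (`sum_dg`, `dg_es`); outside `vs M` the degree is 0.
-/

set_option autoImplicit false

open Finset
open scoped Classical

namespace Pool.Agent.EAD

open Pool.Agent.BEO hiding Cfg Frame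

variable {k : ℕ} {V Q : Type} [Fintype V] [AddCommGroup Q] [Module F2 Q] (c : Cfg k V Q)

/-- extension by zero -/
private noncomputable def ext0 (M : SimpleGraph V) (g : {e // e ∈ es M} → F2) (e : Sym2 V) : F2 :=
  if h : e ∈ es M then g ⟨e, h⟩ else 0

private theorem sum_ext0 {A : Type} [AddCommGroup A] (M : SimpleGraph V) (g : {e // e ∈ es M} → F2)
    (F : Sym2 V → F2 → A) (hF : ∀ e, F e 0 = 0) :
    ∑ e, F e (ext0 M g e) = ∑ p : {e // e ∈ es M}, F p.1 (g p) := by
  rw [← Finset.sum_subset (Finset.subset_univ (es M)), ← Finset.sum_coe_sort (es M)]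
  · apply Finset.sum_congr rfl
    rintro ⟨e, he⟩ _
    simp only [ext0, he, dif_pos]
  · intro e _ he
    simp only [ext0, he, dif_neg, not_false_eq_true, hF]

private theorem mem_es' {M : SimpleGraph V} {e : Sym2 V} : e ∈ es M ↔ e ∈ M.edgeSet := by
  simp only [es, Finset.mem_filter, Finset.mem_univ, true_and]

private theorem mem_vs' {M : SimpleGraph V} {v : V} : v ∈ vs M ↔ ∃ u, M.Adj v u := by
  simp only [vs, Finset.mem_filter, Finset.mem_univ, true_and]

private theorem chi_sub {M : SimpleGraph V} {g : {e // e ∈ es M} → F2} {e : Sym2 V} (h : ext0 M g e = 1) :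
    e ∈ M.edgeSet := by
  by_contra hc
  have : ¬ e ∈ es M := fun h' => hc (mem_es'.1 h')
  simp only [ext0, this, dif_neg, not_false_eq_true] at h
  exact absurd h (by decide)

private theorem chi_even {M : SimpleGraph V} {g : {e // e ∈ es M} → F2}
    (h : ∀ t : {v // v ∈ vs M}, ∑ p : {e // e ∈ es M}, g p * (if t.1 ∈ p.1 then (1 : F2) else 0) = 0) (v : V) :
    Even (dg (univ.filter fun e => ext0 M g e = 1) v) := by
  rw [even_cast, dg_coef, sum_ext0 M g (fun e x => x * (if v ∈ e then 1 else 0)) (fun e => zero_mul _)]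
  by_cases hv : v ∈ vs M
  · exact h ⟨v, hv⟩
  · apply Finset.sum_eq_zero
    rintro ⟨e, he⟩ _
    rw [if_neg, mul_zero]
    intro hve
    apply hv
    rw [mem_vs']
    have he' := mem_es'.1 he
    obtain ⟨u, rfl⟩ := Sym2.mem_iff_exists.1 hve
    exact ⟨u, he'⟩

theorem es_le : (es c.M).card ≤ (vs c.M).card + k := by
  by_contra hcon
  push Not at hcon
  obtain ⟨g, hg, hg1, hg2⟩ := exists_ker (P := {e // e ∈ es c.M}) (T := {v // v ∈ vs c.M}) c.H c.finH k c.dimH
    (fun e t => if t.1 ∈ e.1 then (1 : F2) else 0) (fun e => c.a e.1)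
    (by rw [Fintype.card_coe, Fintype.card_coe]; exact hcon) (by
      intro g hg
      have h1 := c.cls (univ.filter fun e => ext0 c.M g e = 1)
        (fun e he => SimpleGraph.edgeSet_mono c.le (chi_sub (Finset.mem_filter.1 he).2)) (chi_even hg)
      rw [← sum_coef, sum_ext0 c.M g (fun e x => x • c.a e) (fun e => zero_smul _ _)] at h1
      exact h1)
  have h1 := c.mn (univ.filter fun e => ext0 c.M g e = 1)
    (fun e he => SimpleGraph.edgeSet_mono c.le (chi_sub (Finset.mem_filter.1 he).2)) (chi_even hg1)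
    (by rw [← sum_coef, sum_ext0 c.M g (fun e x => x • c.a e) (fun e => zero_smul _ _)]; exact hg2)
  apply hg
  funext p
  rcases f2_cases (g p) with h | h
  · exact h
  · exfalso
    have h2 : ((univ.filter fun e => ext0 c.M g e = 1).filter fun e => e ∉ c.M.edgeSet).card = 0 := by
      rw [Finset.card_eq_zero, Finset.filter_eq_empty_iff]
      intro e he
      rw [not_not]
      exact chi_sub (Finset.mem_filter.1 he).2
    rw [h2, Nat.le_zero, Finset.card_eq_zero, Finset.filter_eq_empty_iff] at h1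
    have h3 : p.1 ∈ univ.filter fun e => ext0 c.M g e = 1 := by
      rw [Finset.mem_filter]
      refine ⟨Finset.mem_univ _, ?_⟩
      simp only [ext0, p.2, dif_pos]
      exact h
    exact h1 h3 (mem_es'.1 p.2)

private theorem two_le_deg' {v : V} (hv : v ∈ vs c.M) : 2 ≤ (nb c.M v).card := by
  obtain ⟨u, hu⟩ := mem_vs'.1 hv
  have h1 : 0 < (nb c.M v).card := Finset.card_pos.2 ⟨u, by simp only [nb, Finset.mem_filter, Finset.mem_univ, hu, true_and]⟩
  obtain ⟨m, hm⟩ := c.evM v
  omega

private theorem deg_zero {v : V} (hv : v ∉ vs c.M) : (nb c.M v).card = 0 := by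
  rw [Finset.card_eq_zero, nb, Finset.filter_eq_empty_iff]
  intro u _ hu
  exact hv (mem_vs'.2 ⟨u, hu⟩)

private theorem sum_deg : ∑ v ∈ vs c.M, (nb c.M v).card = 2 * (es c.M).card := by
  have h1 := sum_dg (es c.M) (fun e he => SimpleGraph.not_isDiag_of_mem_edgeSet _ (mem_es'.1 he))
  rw [← h1, Finset.sum_subset (Finset.subset_univ (vs c.M)) (fun v _ hv => deg_zero c hv)]
  exact Finset.sum_congr rfl fun v _ => (dg_es c.M v).symm

theorem vs_le : (vs c.M).card ≤ (es c.M).card := by
  have h1 := sum_deg c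
  have h2 : ∑ v ∈ vs c.M, 2 ≤ ∑ v ∈ vs c.M, (nb c.M v).card := Finset.sum_le_sum fun v hv => two_le_deg' c hv
  rw [Finset.sum_const, smul_eq_mul] at h2
  omega

theorem deg_le (v : V) : (nb c.M v).card ≤ 2 * k + 2 := by
  by_cases hv : v ∈ vs c.M
  · have h1 := sum_deg c
    have h2 := es_le c
    rw [← Finset.add_sum_erase _ _ hv] at h1
    have h3 : ∑ u ∈ (vs c.M).erase v, 2 ≤ ∑ u ∈ (vs c.M).erase v, (nb c.M u).card :=
      Finset.sum_le_sum fun u hu => two_le_deg' c (Finset.mem_of_mem_erase hu)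
    rw [Finset.sum_const, smul_eq_mul, Finset.card_erase_of_mem hv] at h3
    have h4 : 0 < (vs c.M).card := Finset.card_pos.2 ⟨v, hv⟩
    omega
  · rw [deg_zero c hv]
    omega

theorem deg_four : (univ.filter fun v => 4 ≤ (nb c.M v).card).card ≤ k := by
  have hsub : (univ.filter fun v => 4 ≤ (nb c.M v).card) ⊆ vs c.M := by
    intro v hv
    by_contra hc
    have := (Finset.mem_filter.1 hv).2
    rw [deg_zero c hc] at this
    omega
  have h1 := sum_deg c
  have h2 := es_le c
  have h3 : ∑ v ∈ vs c.M, (2 + if 4 ≤ (nb c.M v).card then 2 else 0) ≤ ∑ v ∈ vs c.M, (nb c.M v).card := by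
    apply Finset.sum_le_sum
    intro v hv
    split_ifs with h
    · omega
    · exact two_le_deg' c hv
  rw [Finset.sum_add_distrib, Finset.sum_const, smul_eq_mul, ← Finset.sum_filter, Finset.sum_const, smul_eq_mul] at h3
  have h4 : (univ.filter fun v => 4 ≤ (nb c.M v).card) = (vs c.M).filter fun v => 4 ≤ (nb c.M v).card := by
    ext v
    simp only [Finset.mem_filter, Finset.mem_univ, true_and]
    constructor
    · intro h
      exact ⟨hsub (Finset.mem_filter.2 ⟨Finset.mem_univ _, h⟩), h⟩
    · exact fun h => h.2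
  rw [h4]
  omega

/-- every vertex of `M` has degree at least two -/
theorem two_le_deg {v : V} (hv : v ∈ vs c.M) : 2 ≤ (nb c.M v).card := by
  exact two_le_deg' c hv

end Pool.Agent.EAD
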