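import Pool.Agent.EAD.CJDefs
import Pool.Agent.EAD.CDeg

/-!
# EAD-CComb: the null-homologous combinations of jumps and edges of `M`

PLAN (compare `BEO/Comb.lean`, same calculations; there the jumps are walks of `L \ M`). Consider the linear map from
`P := {e // e ∈ es c.M} ⊕ Fin N → F2` to `({v // v ∈ vs c.M} → F2) × Q` given by boundary and class (with
`∑ i, g (inr i) • ((J i).w.edges.map c.a).sum`). On the kernel of the boundary the class lies in `c.H` (`c.clsR`, applied
to the support of the coefficient function `comb_co`), so the kernel `U'` of both has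
`finrank U' + (vs c.M).card + k ≥ (es c.M).card + N ≥ (vs c.M).card + N` (`vs_le`, `c.dimH`, `c.finH`). The projection
`g ↦ g ∘ inr` is injective on `U'`: if it is 0 the edges of `M` with coefficient 1 form an even set of class 0 inside
`M`, empty by `c.mn`. Let `U` be its image. For `g ∈ U` take a preimage `g'`, `Mp :=` the edges of `M` with `g' = 1`, and
`χ :=` the support of `comb_co` (even, null, in `R`): an edge of `Mp` is in `χ` or is an edge of a walk `(J i).w` with
`g i = 1`; by `c.mnR` `(χ ∩ M).card ≤ (χ \ M).card + 13 k`, and `χ \ M` consists of edges of these walks not in `M`.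
-/

set_option autoImplicit false

open Finset
open scoped Classical

namespace Pool.Agent.EAD

open Pool.Agent.BEO hiding Cfg Frame

variable {k : ℕ} {V Q : Type} [Fintype V] [AddCommGroup Q] [Module F2 Q] (c : Cfg k V Q)

private theorem comb_sum {A : Type} [AddCommMonoid A] (s : Finset (Sym2 V)) (g : {x // x ∈ s} → F2)
    (F : F2 → Sym2 V → A) (h0 : ∀ e, F 0 e = 0) :
    ∑ e, F (if h : e ∈ s then g ⟨e, h⟩ else 0) e = ∑ x : {x // x ∈ s}, F (g x) x.1 := by
  have h1 : ∑ e ∈ s, F (if h : e ∈ s then g ⟨e, h⟩ else 0) e =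
      ∑ e, F (if h : e ∈ s then g ⟨e, h⟩ else 0) e :=
    sum_subset (subset_univ s) fun e _ he => by rw [dif_neg he, h0]
  have h2 := sum_coe_sort s (fun e => F (if h : e ∈ s then g ⟨e, h⟩ else 0) e)
  rw [← h1, ← h2]
  refine sum_congr rfl fun x _ => ?_
  rw [dif_pos x.2]

/-- the coefficient of an edge -/
private noncomputable def comb_co {N : ℕ} (J : Fin N → Jmp c) (g : {e // e ∈ es c.M} ⊕ Fin N → F2)
    (e : Sym2 V) : F2 :=
  (if h : e ∈ es c.M then g (Sum.inl ⟨e, h⟩) else 0) +
    ∑ i, g (Sum.inr i) * (((J i).w.edges.count e : ℕ) : F2)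

private theorem comb_F1 {N : ℕ} (J : Fin N → Jmp c) (g : {e // e ∈ es c.M} ⊕ Fin N → F2) (v : V) :
    ∑ e, comb_co c J g e * (if v ∈ e then 1 else 0) =
      ∑ x : {e // e ∈ es c.M}, g (Sum.inl x) * (if v ∈ x.1 then 1 else 0) +
      ∑ i, g (Sum.inr i) * ((if v = (J i).p then 1 else 0) + (if v = (J i).q then 1 else 0)) := by
  have h1 := comb_sum (es c.M) (fun x => g (Sum.inl x)) (fun t e => t * (if v ∈ e then (1 : F2) else 0))
    (fun e => zero_mul _)
  rw [← h1]
  have h2 : ∑ i, g (Sum.inr i) * ((if v = (J i).p then (1 : F2) else 0) + (if v = (J i).q then 1 else 0)) =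
      ∑ e, (∑ i, g (Sum.inr i) * (((J i).w.edges.count e : ℕ) : F2)) * (if v ∈ e then 1 else 0) := by
    have h3 : ∀ e : Sym2 V, (∑ i, g (Sum.inr i) * (((J i).w.edges.count e : ℕ) : F2)) *
        (if v ∈ e then (1 : F2) else 0) =
        ∑ i, g (Sum.inr i) * ((((J i).w.edges.count e : ℕ) : F2) * (if v ∈ e then 1 else 0)) := by
      intro e
      rw [sum_mul]
      exact sum_congr rfl fun i _ => mul_assoc _ _ _
    rw [sum_congr rfl fun e _ => h3 e, sum_comm]
    refine sum_congr rfl fun i _ => ?_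
    rw [← mul_sum, walk_bd (J i).w v]
  rw [h2, ← sum_add_distrib]
  refine sum_congr rfl fun e _ => ?_
  unfold comb_co
  rw [add_mul]

private theorem comb_F2 {N : ℕ} (J : Fin N → Jmp c) (g : {e // e ∈ es c.M} ⊕ Fin N → F2) :
    ∑ e, comb_co c J g e • c.a e =
      ∑ x : {e // e ∈ es c.M}, g (Sum.inl x) • c.a x.1 +
      ∑ i, g (Sum.inr i) • ((J i).w.edges.map c.a).sum := by
  have h1 := comb_sum (es c.M) (fun x => g (Sum.inl x)) (fun t e => t • c.a e) (fun e => zero_smul _ _)
  rw [← h1]
  have h2 : ∑ i, g (Sum.inr i) • ((J i).w.edges.map c.a).sum =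
      ∑ e, (∑ i, g (Sum.inr i) * (((J i).w.edges.count e : ℕ) : F2)) • c.a e := by
    have h3 : ∀ e : Sym2 V, (∑ i, g (Sum.inr i) * (((J i).w.edges.count e : ℕ) : F2)) • c.a e =
        ∑ i, g (Sum.inr i) • ((((J i).w.edges.count e : ℕ) : F2) • c.a e) := by
      intro e
      rw [sum_smul]
      exact sum_congr rfl fun i _ => mul_smul _ _ _
    rw [sum_congr rfl fun e _ => h3 e, sum_comm]
    refine sum_congr rfl fun i _ => ?_
    rw [← smul_sum, sum_list]
  rw [h2, ← sum_add_distrib]
  refine sum_congr rfl fun e _ => ?_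
  unfold comb_co
  rw [add_smul]

/-- the dimension of the kernel of two maps -/
private theorem exists_kers {P T Q' : Type} [Fintype P] [Fintype T] [AddCommGroup Q'] [Module F2 Q']
    (H : Submodule F2 Q') (hfin : Module.Finite F2 H) (k' : ℕ) (hH : Module.finrank F2 H ≤ k')
    (b : P → T → F2) (q : P → Q')
    (hq : ∀ g : P → F2, (∀ t, ∑ p, g p * b p t = 0) → ∑ p, g p • q p ∈ H) :
    ∃ W : Submodule F2 (P → F2), Fintype.card P ≤ Module.finrank F2 W + Fintype.card T + k' ∧
      ∀ g ∈ W, (∀ t, ∑ p, g p * b p t = 0) ∧ ∑ p, g p • q p = 0 := by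
  obtain ⟨B, hB⟩ : ∃ B : (P → F2) →ₗ[F2] (T → F2), ∀ g t, B g t = ∑ p, g p * b p t :=
    ⟨{ toFun := fun g t => ∑ p, g p * b p t
       map_add' := by
        intro g g'
        funext t
        show ∑ p, (g p + g' p) * b p t = ∑ p, g p * b p t + ∑ p, g' p * b p t
        rw [← Finset.sum_add_distrib]
        exact Finset.sum_congr rfl fun p _ => add_mul _ _ _
       map_smul' := by
        intro c g
        funext t
        show ∑ p, (c * g p) * b p t = c * ∑ p, g p * b p t
        rw [Finset.mul_sum]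
        exact Finset.sum_congr rfl fun p _ => mul_assoc _ _ _ }, fun _ _ => rfl⟩
  obtain ⟨L, hL⟩ : ∃ L : (P → F2) →ₗ[F2] Q', ∀ g, L g = ∑ p, g p • q p :=
    ⟨{ toFun := fun g => ∑ p, g p • q p
       map_add' := by
        intro g g'
        show ∑ p, (g p + g' p) • q p = ∑ p, g p • q p + ∑ p, g' p • q p
        rw [← Finset.sum_add_distrib]
        exact Finset.sum_congr rfl fun p _ => add_smul _ _ _
       map_smul' := by
        intro c g
        show ∑ p, (c * g p) • q p = c • ∑ p, g p • q p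
        rw [Finset.smul_sum]
        exact Finset.sum_congr rfl fun p _ => mul_smul _ _ _ }, fun _ => rfl⟩
  have hK : ∀ g : LinearMap.ker B, ∀ t, ∑ p, (g : P → F2) p * b p t = 0 := by
    intro g t
    rw [← hB]
    exact congrFun (LinearMap.mem_ker.1 g.2) t
  obtain ⟨L', hL'⟩ : ∃ L' : LinearMap.ker B →ₗ[F2] H, ∀ g, (L' g : Q') = L g :=
    ⟨(L.domRestrict (LinearMap.ker B)).codRestrict H fun g => by
      rw [LinearMap.domRestrict_apply, hL]
      exact hq _ (hK g), fun _ => rfl⟩
  have h1 := LinearMap.finrank_range_add_finrank_ker B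
  have h2 : Module.finrank F2 (LinearMap.range B) ≤ Fintype.card T := by
    refine (Submodule.finrank_le _).trans ?_
    rw [Module.finrank_fintype_fun_eq_card]
  rw [Module.finrank_fintype_fun_eq_card] at h1
  have h3 := LinearMap.finrank_range_add_finrank_ker L'
  have h4 : Module.finrank F2 (LinearMap.range L') ≤ k' := (Submodule.finrank_le _).trans hH
  refine ⟨(LinearMap.ker L').map (LinearMap.ker B).subtype, ?_, ?_⟩
  · rw [Submodule.finrank_map_subtype_eq (LinearMap.ker B) (LinearMap.ker L')]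
    omega
  · intro g hg
    obtain ⟨g', hg', rfl⟩ := Submodule.mem_map.1 hg
    refine ⟨hK g', ?_⟩
    show ∑ p, (g' : P → F2) p • q p = 0
    rw [← hL, ← hL', LinearMap.mem_ker.1 hg']
    rfl

theorem comb {N : ℕ} (J : Fin N → Jmp c) : ∃ U : Submodule F2 (Fin N → F2), N ≤ Module.finrank F2 U + k ∧
    ∀ g ∈ U, ∃ Mp : Finset (Sym2 V), (∀ e ∈ Mp, e ∈ c.M.edgeSet) ∧
      (∀ v, ((dg Mp v : ℕ) : F2) = ∑ i ∈ univ.filter (fun i => g i = 1),
        ((if v = (J i).p then (1 : F2) else 0) + (if v = (J i).q then 1 else 0))) ∧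
      Mp.card ≤ ∑ i ∈ univ.filter (fun i => g i = 1), (J i).w.length + 13 * k := by
  obtain ⟨b, hb⟩ : ∃ b : {e // e ∈ es c.M} ⊕ Fin N → {v // v ∈ vs c.M} → F2,
      b = fun p v => Sum.elim (fun e => if v.1 ∈ e.1 then 1 else 0)
        (fun i => (if v.1 = (J i).p then 1 else 0) + (if v.1 = (J i).q then 1 else 0)) p := ⟨_, rfl⟩
  obtain ⟨q, hqd⟩ : ∃ q : {e // e ∈ es c.M} ⊕ Fin N → Q,
      q = fun p => Sum.elim (fun e => c.a e.1) (fun i => ((J i).w.edges.map c.a).sum) p := ⟨_, rfl⟩
  have hbd : ∀ g : {e // e ∈ es c.M} ⊕ Fin N → F2, (∀ t, ∑ p, g p * b p t = 0) →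
      ∀ v, ∑ e, comb_co c J g e * (if v ∈ e then (1 : F2) else 0) = 0 := by
    intro g hg v
    rw [comb_F1]
    by_cases hv : v ∈ vs c.M
    · have h1 := hg ⟨v, hv⟩
      rw [Fintype.sum_sum_type, hb] at h1
      exact h1
    · have h1 : ∀ x : {e // e ∈ es c.M}, g (Sum.inl x) * (if v ∈ x.1 then (1 : F2) else 0) = 0 := by
        rintro ⟨e, he⟩
        rw [if_neg, mul_zero]
        intro hve
        apply hv
        have he' : e ∈ c.M.edgeSet := (mem_filter.1 he).2
        obtain ⟨w, rfl⟩ := Sym2.mem_iff_exists.1 hve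
        exact mem_filter.2 ⟨mem_univ _, w, he'⟩
      have h2 : ∀ i, g (Sum.inr i) *
          ((if v = (J i).p then (1 : F2) else 0) + (if v = (J i).q then 1 else 0)) = 0 := by
        intro i
        have h3 : v ≠ (J i).p := fun h => hv (h ▸ (J i).hp)
        have h4 : v ≠ (J i).q := fun h => hv (h ▸ (J i).hq)
        rw [if_neg h3, if_neg h4, add_zero, mul_zero]
      rw [sum_eq_zero fun x _ => h1 x, sum_eq_zero fun i _ => h2 i, add_zero]
  have hcls : ∀ g : {e // e ∈ es c.M} ⊕ Fin N → F2,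
      ∑ p, g p • q p = ∑ e ∈ univ.filter (fun e => comb_co c J g e = 1), c.a e := by
    intro g
    rw [← sum_coef, comb_F2, Fintype.sum_sum_type, hqd]
    rfl
  have hcnt : ∀ (i : Fin N) (e : Sym2 V), e ∉ (J i).w.edges → (J i).w.edges.count e = 0 :=
    fun i e he => List.count_eq_zero_of_not_mem he
  have hwe : ∀ (i : Fin N) (e : Sym2 V), e ∈ (J i).w.edges → e ∈ c.R.edgeSet :=
    fun i e he => (J i).w.edges_subset_edgeSet he
  have hMR : ∀ e, e ∈ es c.M → e ∈ c.R.edgeSet := fun e he =>
    SimpleGraph.edgeSet_mono (c.le.trans c.leR) (mem_filter.1 he).2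
  have hR : ∀ (g : {e // e ∈ es c.M} ⊕ Fin N → F2), ∀ e ∈ univ.filter (fun e => comb_co c J g e = 1),
      e ∈ c.R.edgeSet := by
    intro g e he
    by_cases hM : e ∈ es c.M
    · exact hMR e hM
    · have h1 := (mem_filter.1 he).2
      unfold comb_co at h1
      rw [dif_neg hM, zero_add] at h1
      by_contra hcon
      have h2 : ∀ i, g (Sum.inr i) * (((J i).w.edges.count e : ℕ) : F2) = 0 := by
        intro i
        rw [hcnt i e fun hm => hcon (hwe i e hm), Nat.cast_zero, mul_zero]
      rw [sum_eq_zero fun i _ => h2 i] at h1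
      exact zero_ne_one h1
  have hev : ∀ g : {e // e ∈ es c.M} ⊕ Fin N → F2, (∀ t, ∑ p, g p * b p t = 0) →
      ∀ v, Even (dg (univ.filter fun e => comb_co c J g e = 1) v) := by
    intro g hg v
    rw [even_cast, dg_coef]
    exact hbd g hg v
  obtain ⟨W, hW, hWk⟩ := exists_kers c.H c.finH k c.dimH b q (by
    intro g hg
    rw [hcls g]
    exact c.clsR _ (hR g) (hev g hg))
  obtain ⟨pr, hpr⟩ : ∃ pr : ({e // e ∈ es c.M} ⊕ Fin N → F2) →ₗ[F2] (Fin N → F2),
      ∀ g i, pr g i = g (Sum.inr i) := ⟨LinearMap.funLeft F2 F2 Sum.inr, fun _ _ => rfl⟩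
  have hinj : Function.Injective (pr.domRestrict W) := by
    rw [← LinearMap.ker_eq_bot, LinearMap.ker_eq_bot']
    rintro ⟨g, hg⟩ h0
    obtain ⟨hg1, hg2⟩ := hWk g hg
    have h1 : ∀ i, g (Sum.inr i) = 0 := by
      intro i
      have h2 := congrFun h0 i
      rw [LinearMap.domRestrict_apply, hpr] at h2
      exact h2
    have h3 : ∀ e, comb_co c J g e = if h : e ∈ es c.M then g (Sum.inl ⟨e, h⟩) else 0 := by
      intro e
      unfold comb_co
      rw [sum_eq_zero fun i _ => ?_, add_zero]
      rw [h1 i, zero_mul]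
    have h4 : ∀ e ∈ univ.filter (fun e => comb_co c J g e = 1), e ∈ c.M.edgeSet := by
      intro e he
      have h5 := (mem_filter.1 he).2
      rw [h3] at h5
      by_contra hcon
      have h6 : e ∉ es c.M := fun h => hcon (mem_filter.1 h).2
      rw [dif_neg h6] at h5
      exact zero_ne_one h5
    rw [hcls g] at hg2
    have h5 := c.mn _ (fun e he => SimpleGraph.edgeSet_mono c.le (h4 e he)) (hev g hg1) hg2
    have h6 : ((univ.filter fun e => comb_co c J g e = 1).filter fun e => e ∉ c.M.edgeSet).card = 0 := by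
      rw [Finset.card_eq_zero, Finset.filter_eq_empty_iff]
      intro e he
      rw [not_not]
      exact h4 e he
    rw [h6, Nat.le_zero, Finset.card_eq_zero, Finset.filter_eq_empty_iff] at h5
    apply Subtype.ext
    funext p
    show g p = 0
    rcases p with ⟨e, he⟩ | i
    · rcases f2_cases (g (Sum.inl ⟨e, he⟩)) with h | h
      · exact h
      · exfalso
        have h7 : e ∈ univ.filter (fun e => comb_co c J g e = 1) := by
          rw [mem_filter, h3, dif_pos he]
          exact ⟨mem_univ _, h⟩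
        exact h5 h7 (h4 e h7)
    · exact h1 i
  refine ⟨LinearMap.range (pr.domRestrict W), ?_, ?_⟩
  · rw [LinearMap.finrank_range_of_inj hinj]
    have h1 := vs_le c
    rw [Fintype.card_sum, Fintype.card_coe, Fintype.card_coe, Fintype.card_fin] at hW
    omega
  intro g0 hg0
  obtain ⟨⟨g, hg⟩, hgg⟩ := LinearMap.mem_range.1 hg0
  obtain ⟨hg1, hg2⟩ := hWk g hg
  have hgi : ∀ i, g0 i = g (Sum.inr i) := by
    intro i
    rw [← hgg, LinearMap.domRestrict_apply, hpr]
  rw [hcls g] at hg2
  have hmn := c.mnR _ (hR g) (hev g hg1) hg2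
  obtain ⟨cm, hcm⟩ : ∃ cm : Sym2 V → F2, cm = fun e => if h : e ∈ es c.M then g (Sum.inl ⟨e, h⟩) else 0 :=
    ⟨_, rfl⟩
  obtain ⟨S, hS⟩ : ∃ S : Finset (Fin N), S = univ.filter fun i => g0 i = 1 := ⟨_, rfl⟩
  have hMp : ∀ e, cm e = 1 → e ∈ c.M.edgeSet := by
    intro e he
    by_contra hcon
    have h1 : e ∉ es c.M := fun h => hcon (mem_filter.1 h).2
    rw [hcm] at he
    simp only [dif_neg h1] at he
    exact zero_ne_one he
  have hsum : ∀ e, (∑ i, g (Sum.inr i) * (((J i).w.edges.count e : ℕ) : F2)) ≠ 0 →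
      e ∈ S.biUnion fun i => (J i).w.edges.toFinset := by
    intro e he
    by_contra hcon
    apply he
    refine sum_eq_zero fun i _ => ?_
    rcases f2_cases (g (Sum.inr i)) with h | h
    · rw [h, zero_mul]
    · rw [hcnt i e, Nat.cast_zero, mul_zero]
      intro hm
      apply hcon
      refine mem_biUnion.2 ⟨i, ?_, List.mem_toFinset.2 hm⟩
      rw [hS]
      refine mem_filter.2 ⟨mem_univ _, ?_⟩
      rw [hgi]
      exact h
  rw [← hS]
  refine ⟨univ.filter fun e => cm e = 1, ?_, ?_, ?_⟩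
  · intro e he
    exact hMp e (mem_filter.1 he).2
  · intro v
    rw [dg_coef]
    have h1 := hbd g hg1 v
    rw [comb_F1] at h1
    have h2 := comb_sum (es c.M) (fun x => g (Sum.inl x)) (fun t e => t * (if v ∈ e then (1 : F2) else 0))
      (fun e => zero_mul _)
    have h3 : ∑ e, cm e * (if v ∈ e then (1 : F2) else 0) =
        ∑ x : {e // e ∈ es c.M}, g (Sum.inl x) * (if v ∈ x.1 then (1 : F2) else 0) := by
      rw [hcm]
      exact h2
    have h4 : ∑ i ∈ S, ((if v = (J i).p then (1 : F2) else 0) + (if v = (J i).q then 1 else 0)) =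
        ∑ i, g (Sum.inr i) * ((if v = (J i).p then (1 : F2) else 0) + (if v = (J i).q then 1 else 0)) := by
      rw [hS, sum_filter]
      refine sum_congr rfl fun i _ => ?_
      rw [hgi i]
      rcases f2_cases (g (Sum.inr i)) with h | h
      · rw [if_neg (by rw [h]; exact zero_ne_one), h, zero_mul]
      · rw [if_pos h, h, one_mul]
    rw [h3, h4]
    have h5 := add_eq_zero_iff_eq_neg.1 h1
    rw [h5]
    exact (eq_neg_of_add_eq_zero_left (q_add_self _)).symm
  · obtain ⟨E, hE⟩ : ∃ E : Finset (Sym2 V), E = S.biUnion fun i => (J i).w.edges.toFinset := ⟨_, rfl⟩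
    rw [← hE] at hsum
    have h1 : (univ.filter fun e => cm e = 1) ⊆
        ((univ.filter fun e => comb_co c J g e = 1).filter fun e => e ∈ c.M.edgeSet) ∪
          E.filter fun e => e ∈ c.M.edgeSet := by
      intro e he
      have h2 := (mem_filter.1 he).2
      have h3 := hMp e h2
      by_cases h4 : (∑ i, g (Sum.inr i) * (((J i).w.edges.count e : ℕ) : F2)) = 0
      · refine mem_union_left _ (mem_filter.2 ⟨mem_filter.2 ⟨mem_univ _, ?_⟩, h3⟩)
        unfold comb_co
        rw [h4, add_zero]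
        rw [hcm] at h2
        exact h2
      · exact mem_union_right _ (mem_filter.2 ⟨hsum e h4, h3⟩)
    have h5 : ((univ.filter fun e => comb_co c J g e = 1).filter fun e => e ∉ c.M.edgeSet) ⊆
        E.filter fun e => e ∉ c.M.edgeSet := by
      intro e he
      obtain ⟨h6, h7⟩ := mem_filter.1 he
      have h8 := (mem_filter.1 h6).2
      have h9 : e ∉ es c.M := fun h => h7 (mem_filter.1 h).2
      unfold comb_co at h8
      rw [dif_neg h9, zero_add] at h8
      refine mem_filter.2 ⟨hsum e ?_, h7⟩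
      rw [h8]
      exact one_ne_zero
    have h11 : E.card ≤ ∑ i ∈ S, (J i).w.length := by
      rw [hE]
      refine card_biUnion_le.trans (sum_le_sum fun i _ => ?_)
      refine (List.toFinset_card_le _).trans ?_
      rw [SimpleGraph.Walk.length_edges]
    have h12 := card_le_card h1
    have h13 := card_union_le ((univ.filter fun e => comb_co c J g e = 1).filter fun e => e ∈ c.M.edgeSet)
      (E.filter fun e => e ∈ c.M.edgeSet)
    have h14 := card_le_card h5
    have h15 := card_filter_add_card_filter_not (s := E) (fun e => e ∈ c.M.edgeSet)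
    omega

end Pool.Agent.EAD
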