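import Pool.Agent.EAD.CNbr

/-!
# EAD-CFar: short walks of `R` between inner vertices
-/

set_option autoImplicit false

open Finset
open scoped Classical

namespace Pool.Agent.EAD

open Pool.Agent.BEO hiding Cfg Frame

variable {k C : ℕ} {V Q : Type} [Fintype V] [AddCommGroup Q] [Module F2 Q] {c : Cfg k V Q} (f : Frame C c)

theorem far_idx (j j' : Fin f.m) (l l' : ℕ) (h1 : 7 ≤ l) (h2 : l + 7 ≤ f.n j) (h3 : 1 ≤ l')
    (h4 : l' ≤ f.n j') (w : c.R.Walk (f.x j l) (f.x j' l')) (hw : w.length ≤ 6) :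
    j' = j ∧ l' ≤ l + w.length ∧ l ≤ l' + w.length :=
  near_idx f j j' l l' w.length (by omega) (by omega) h3 h4
    (f.farR j l j' l' (by omega) (by omega) h3 h4 w hw)

end Pool.Agent.EAD
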