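import Mathlib

/-!
# EAD-CodeD: a binary code of small weights has small support (Mathlib only)
-/

set_option autoImplicit false

open Finset
open scoped Classical

namespace Pool.Agent.EAD

private theorem cd_zero : ∀ a : ZMod 2, a ≠ 1 → a = 0 := by decide

private theorem cd_half {ι : Type} [Fintype ι] (C : Submodule (ZMod 2) (ι → ZMod 2)) (i : ι)
    (hi : ∃ x ∈ C, x i = 1) :
    ((univ : Finset (ι → ZMod 2)).filter fun x => x ∈ C).card =
      2 * (((univ : Finset (ι → ZMod 2)).filter fun x => x ∈ C).filter fun x => x i = 1).card := by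
  obtain ⟨y, hy, hyi⟩ := hi
  have hyy : ∀ x : ι → ZMod 2, x + y + y = x := by
    intro x
    funext j
    show x j + y j + y j = x j
    rw [add_assoc, CharTwo.add_self_eq_zero, add_zero]
  have h1 : (((univ : Finset (ι → ZMod 2)).filter fun x => x ∈ C).filter fun x => x i = 1).card =
      (((univ : Finset (ι → ZMod 2)).filter fun x => x ∈ C).filter fun x => ¬ x i = 1).card := by
    refine Finset.card_nbij' (fun x => x + y) (fun x => x + y) ?_ ?_ ?_ ?_
    · intro x hx
      rw [Finset.mem_coe, mem_filter, mem_filter] at hx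
      rw [Finset.mem_coe, mem_filter, mem_filter]
      refine ⟨⟨mem_univ _, C.add_mem hx.1.2 hy⟩, ?_⟩
      show ¬ x i + y i = 1
      rw [hx.2, hyi]
      decide
    · intro x hx
      rw [Finset.mem_coe, mem_filter, mem_filter] at hx
      rw [Finset.mem_coe, mem_filter, mem_filter]
      refine ⟨⟨mem_univ _, C.add_mem hx.1.2 hy⟩, ?_⟩
      show x i + y i = 1
      rw [cd_zero _ hx.2, hyi, zero_add]
    · intro x _
      exact hyy x
    · intro x _
      exact hyy x
  have h2 := Finset.card_filter_add_card_filter_not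
    (s := (univ : Finset (ι → ZMod 2)).filter fun x => x ∈ C) (fun x => x i = 1)
  omega

theorem code_supp {ι : Type} [Fintype ι] (C : Submodule (ZMod 2) (ι → ZMod 2)) (w : ℕ)
    (h : ∀ x ∈ C, (univ.filter fun i => x i = 1).card ≤ w) :
    (univ.filter fun i => ∃ x ∈ C, x i = 1).card ≤ 2 * w := by
  obtain ⟨S, hS⟩ : ∃ S : Finset (ι → ZMod 2),
    S = (univ : Finset (ι → ZMod 2)).filter fun x => x ∈ C := ⟨_, rfl⟩
  obtain ⟨T, hT⟩ : ∃ T : Finset ι, T = univ.filter fun i => ∃ x ∈ C, x i = 1 := ⟨_, rfl⟩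
  rw [← hT]
  have hpos : 0 < S.card := by
    rw [hS]
    exact card_pos.2 ⟨0, mem_filter.2 ⟨mem_univ _, C.zero_mem⟩⟩
  have h1 : T.card * S.card = 2 * ∑ i ∈ T, (S.filter fun x => x i = 1).card := by
    rw [Finset.mul_sum, ← smul_eq_mul, ← Finset.sum_const]
    refine Finset.sum_congr rfl fun i hi => ?_
    rw [hT, mem_filter] at hi
    rw [hS]
    exact cd_half C i hi.2
  have h2 : ∑ i ∈ T, (S.filter fun x => x i = 1).card =
      ∑ x ∈ S, (T.filter fun i => x i = 1).card := by
    simp only [Finset.card_filter]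
    exact Finset.sum_comm
  have h3 : ∑ x ∈ S, (T.filter fun i => x i = 1).card ≤ S.card * w := by
    rw [← smul_eq_mul]
    refine Finset.sum_le_card_nsmul _ _ _ fun x hx => ?_
    rw [hS, mem_filter] at hx
    exact (card_le_card (filter_subset_filter _ (subset_univ _))).trans (h x hx.2)
  have h4 : S.card * T.card ≤ S.card * (2 * w) := by
    calc S.card * T.card = T.card * S.card := mul_comm _ _
      _ ≤ 2 * (S.card * w) := by
          rw [h1, h2]
          exact Nat.mul_le_mul_left 2 h3
      _ = S.card * (2 * w) := by ring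
  exact Nat.le_of_mul_le_mul_left h4 hpos

theorem code_dim {ι : Type} [Fintype ι] (C : Submodule (ZMod 2) (ι → ZMod 2)) (w : ℕ)
    (h : ∀ x ∈ C, (univ.filter fun i => x i = 1).card ≤ w) : Module.finrank (ZMod 2) C ≤ 2 * w := by
  refine le_trans ?_ (code_supp C w h)
  obtain ⟨T, hT⟩ : ∃ T : Finset ι, T = univ.filter fun i => ∃ x ∈ C, x i = 1 := ⟨_, rfl⟩
  rw [← hT]
  have hinj : Function.Injective
      ((LinearMap.funLeft (ZMod 2) (ZMod 2) (Subtype.val : T → ι)).comp C.subtype) := by
    rw [← LinearMap.ker_eq_bot, LinearMap.ker_eq_bot']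
    intro x hx
    apply Subtype.ext
    funext i
    apply cd_zero
    intro hi
    have hiT : i ∈ T := by
      rw [hT, mem_filter]
      exact ⟨mem_univ _, x.1, x.2, hi⟩
    have h1 : x.1 i = 0 := congrFun hx ⟨i, hiT⟩
    rw [h1] at hi
    exact zero_ne_one hi
  have h2 := LinearMap.finrank_le_finrank_of_injective hinj
  rw [Module.finrank_fintype_fun_eq_card, Fintype.card_coe] at h2
  exact h2

end Pool.Agent.EAD
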