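import Pool.Agent.EAD.CNbr
import Pool.Agent.EAD.CBase

/-!
# EAD-CT1: type 1 (trace `{i, i + 1}`)

Evaluation at `y`.
-/

set_option autoImplicit false

open Finset
open scoped Classical

namespace Pool.Agent.EAD

open Pool.Agent.BEO hiding Cfg Frame

variable {k C : ℕ} {V Q : Type} [Fintype V] [AddCommGroup Q] [Module F2 Q] {c : Cfg k V Q} (f : Frame C c)

theorem ne_type1 (j : Fin f.m) (i i' : ℕ) (y y' : V) (h : f.Tr 1 j i y) (h' : f.Tr 1 j i' y') (hi : i + 40 ≤ i') :
    f.rv 1 j i y ≠ f.rv 1 j i' y' := by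
  intro heq
  obtain ⟨hy, h1, h2, h3⟩ := h
  obtain ⟨hy', h1', h2', h3'⟩ := h'
  have hrv : ∀ (a : ℕ) (z u : V), f.rv 1 j a z u = row c.L z u + ∑ l ∈ Icc 1 a, row c.L (f.x j l) u := by
    intro a z u
    unfold Frame.rv
    rw [if_neg (by decide), if_pos rfl, if_neg (by decide), add_zero, add_zero]
  have e1 := congrFun heq y
  rw [hrv, hrv] at e1
  have r1 : row c.L y y = 0 := if_neg (c.L.loopless.irrefl y)
  have a1 : c.L.Adj y (f.x j i) := (h3 j i (by omega) (by omega)).2 ⟨rfl, Or.inr (Or.inl ⟨rfl, Or.inl rfl⟩)⟩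
  have a4 : c.L.Adj y' (f.x j i') :=
    (h3' j i' (by omega) (by omega)).2 ⟨rfl, Or.inr (Or.inl ⟨rfl, Or.inl rfl⟩)⟩
  have r2 : row c.L y' y = 0 := by
    refine if_neg fun hadj => ?_
    have h4 := nbr_adj f y y' hy hy' j j i i' (by omega) (by omega) (by omega) (by omega) a1 hadj.symm a4
    omega
  have hrow : ∀ l, 1 ≤ l → l ≤ f.n j → row c.L (f.x j l) y =
      (if l = i then (1 : F2) else 0) + (if l = i + 1 then 1 else 0) := by
    intro l hl1 hl2
    have h5 : c.L.Adj (f.x j l) y ↔ (l = i ∨ l = i + 1) := by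
      rw [c.L.adj_comm, h3 j l hl1 hl2]
      constructor
      · rintro ⟨-, h6 | ⟨-, h6⟩ | h6 | h6⟩
        · exact absurd h6.1 (by decide)
        · exact h6
        · exact absurd h6.1 (by decide)
        · exact absurd h6.1 (by decide)
      · intro h6
        exact ⟨rfl, Or.inr (Or.inl ⟨rfl, h6⟩)⟩
    unfold row
    by_cases ha : l = i
    · rw [if_pos (h5.2 (Or.inl ha)), if_pos ha, if_neg (by omega), add_zero]
    · by_cases hb : l = i + 1
      · rw [if_pos (h5.2 (Or.inr hb)), if_neg ha, if_pos hb, zero_add]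
      · rw [if_neg (fun h6 => by
          rcases h5.1 h6 with h7 | h7
          · exact ha h7
          · exact hb h7), if_neg ha, if_neg hb, add_zero]
  have s1 : ∑ l ∈ Icc 1 i, row c.L (f.x j l) y = 1 := by
    rw [sum_congr rfl fun l hl => hrow l (mem_Icc.1 hl).1 (by have := (mem_Icc.1 hl).2; omega),
      sum_add_distrib, sum_ite_eq', sum_ite_eq', if_pos (mem_Icc.2 ⟨by omega, le_rfl⟩),
      if_neg (by rw [mem_Icc]; omega), add_zero]
  have s2 : ∑ l ∈ Icc 1 i', row c.L (f.x j l) y = 0 := by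
    rw [sum_congr rfl fun l hl => hrow l (mem_Icc.1 hl).1 (by have := (mem_Icc.1 hl).2; omega),
      sum_add_distrib, sum_ite_eq', sum_ite_eq', if_pos (mem_Icc.2 ⟨by omega, by omega⟩),
      if_pos (mem_Icc.2 ⟨by omega, by omega⟩)]
    decide
  rw [r1, r2, s1, s2] at e1
  exact absurd e1 (by decide)

end Pool.Agent.EAD
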