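import Pool.Agent.EAD.DKm
import Pool.Agent.BEO.CntG

/-!
# EAD-DExc: few exceptional positions in the middle of a triple

`count_windows` for the vectors of `trp_K0` and `trp_K3`; two positions with the same vector are near (`nbr_far`, `nbr_mid`, `nbr_two`).
-/

set_option autoImplicit false

open Finset
open scoped Classical

namespace Pool.Agent.EAD

open Pool.Agent.BEO hiding Cfg Frame

variable {k C : ℕ} {V Q : Type} [Fintype V] [AddCommGroup Q] [Module F2 Q] {c : Cfg k V Q} (f : Frame C c)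

variable {f} {j : Fin f.m} {τ : Fin 4} {i1 i2 i3 : ℕ} {y1 y2 y3 : V}

/-- `w` is a neighbour of a face outside `M` at the position `i`, or of `x j i` or `x j (i + 1)` -/
private def Nr (f : Frame C c) (j : Fin f.m) (i : ℕ) (w : V) : Prop :=
  (∃ y, y ∉ vs c.M ∧ c.L.Adj y (f.x j i) ∧ c.L.Adj y w) ∨ ∃ l, i ≤ l ∧ l ≤ i + 1 ∧ c.L.Adj w (f.x j l)

private theorem nr_far (f : Frame C c) (j : Fin f.m) {i i' : ℕ} {w : V} (h1 : 10 ≤ i) (h2 : i + 10 ≤ f.n j)
    (h1' : 10 ≤ i') (h2' : i' + 10 ≤ f.n j) (hw : Nr f j i w) (hw' : Nr f j i' w) (hi : i + 40 ≤ i') : False := by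
  rcases hw with ⟨y, hy, a1, a2⟩ | ⟨l, b1, b2, a1⟩
  · rcases hw' with ⟨y', hy', a1', a2'⟩ | ⟨l', b1', b2', a1'⟩
    · have h := nbr_far f y y' w hy hy' j j i i' (by omega) (by omega) (by omega) (by omega) a1 a2 a2'.symm a1'
      omega
    · have h := nbr_mid f y w hy j j i l' (by omega) (by omega) (by omega) (by omega) a1 a2 a1'
      omega
  · rcases hw' with ⟨y', hy', a1', a2'⟩ | ⟨l', b1', b2', a1'⟩
    · have h := nbr_mid f y' w hy' j j i' l (by omega) (by omega) (by omega) (by omega) a1' a2' a1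
      omega
    · have h := nbr_two f w j j l l' (by omega) (by omega) (by omega) (by omega) a1 a1'
      omega

private theorem ex_count (f : Frame C c) (j : Fin f.m) (S : Finset ℕ)
    (h : ∀ i ∈ S, (10 ≤ i ∧ i + 10 ≤ f.n j) ∧ ∃ v ∈ f.K, (∃ w, v w ≠ 0) ∧ ∀ w, v w ≠ 0 → Nr f j i w) :
    S.card ≤ 40 * Nat.card f.K := by
  have h' : ∀ i ∈ S, ∃ v : f.K, (∃ w, v.1 w ≠ 0) ∧ ∀ w, v.1 w ≠ 0 → Nr f j i w := by
    intro i hi
    obtain ⟨_, v, hv, h1, h2⟩ := h i hi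
    exact ⟨⟨v, hv⟩, h1, h2⟩
  choose! v hv1 hv2 using h'
  have hF : Finite f.K := inferInstance
  let _ : Fintype f.K := Fintype.ofFinite _
  have h3 := count_windows S v id 1 (by
    intro i hi i' hi' he hd
    obtain ⟨w, hw⟩ := hv1 i hi
    have hw' : (v i').1 w ≠ 0 := by
      rw [← he]
      exact hw
    exact nr_far f j (h i hi).1.1 (h i hi).1.2 (h i' hi').1.1 (h i' hi').1.2 (hv2 i hi w hw) (hv2 i' hi' w hw') hd) (by
    intro i
    rw [card_le_one]
    intro a ha b hb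
    exact (mem_filter.1 ha).2.trans (mem_filter.1 hb).2.symm)
  rw [Nat.card_eq_fintype_card]
  rw [mul_one, mul_comm] at h3
  exact h3

private theorem ex_pos (h : f.Trp j τ i1 i2 i3 y1 y2 y3) {i : ℕ} (h1 : i1 + 6 ≤ i) (h2 : i + 6 ≤ i3) :
    10 ≤ i ∧ i + 10 ≤ f.n j := by
  have h3 := h.ok i (by omega) (by omega)
  have h4 := h3.lo
  have h5 := h3.hi
  omega

theorem trp_exc (h : f.Trp j τ i1 i2 i3 y1 y2 y3) :
    ((range i3).filter fun i => i1 + 6 ≤ i ∧ i + 6 ≤ i3 ∧ (i1 + i) % 2 = 0 ∧ f.Exc j i).card ≤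
      80 * Nat.card f.K := by
  have hsub : ((range i3).filter fun i => i1 + 6 ≤ i ∧ i + 6 ≤ i3 ∧ (i1 + i) % 2 = 0 ∧ f.Exc j i) ⊆
      ((range i3).filter fun i => i1 + 6 ≤ i ∧ i + 6 ≤ i3 ∧ (i1 + i) % 2 = 0 ∧
        ∃ y, f.Tr 0 j i y ∧ ∃ u, ¬ (c.L.Adj y u ↔ u ∈ f.cmn j i)) ∪
      ((range i3).filter fun i => i1 + 6 ≤ i ∧ i + 6 ≤ i3 ∧ (i1 + i) % 2 = 0 ∧
        ∃ y, f.Tr 3 j i y ∧ ∃ u, ¬ (c.L.Adj y u ↔ ¬ (c.L.Adj (f.x j i) u ↔ u ∈ f.cmn j i))) := by
    intro i hi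
    obtain ⟨h1, h2, h3, h4, h5⟩ := mem_filter.1 hi
    rcases h5 with h5 | h5
    · exact mem_union_left _ (mem_filter.2 ⟨h1, h2, h3, h4, h5⟩)
    · exact mem_union_right _ (mem_filter.2 ⟨h1, h2, h3, h4, h5⟩)
  have hc0 := ex_count f j ((range i3).filter fun i => i1 + 6 ≤ i ∧ i + 6 ≤ i3 ∧ (i1 + i) % 2 = 0 ∧
      ∃ y, f.Tr 0 j i y ∧ ∃ u, ¬ (c.L.Adj y u ↔ u ∈ f.cmn j i)) (by
    intro i hi
    obtain ⟨_, h2, h3, h4, y, hy, u, hu⟩ := mem_filter.1 hi
    refine ⟨ex_pos h h2 h3, _, trp_K0 h i h2 h3 h4 y hy, ⟨u, ?_⟩, ?_⟩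
    · show row c.L y u + (if u ∈ f.cmn j i then 1 else 0) ≠ 0
      unfold row
      by_cases a : c.L.Adj y u <;> by_cases b : u ∈ f.cmn j i
      · exact absurd (iff_of_true a b) hu
      · rw [if_pos a, if_neg b]
        decide
      · rw [if_neg a, if_pos b]
        decide
      · exact absurd (iff_of_false a b) hu
    · intro w hw
      have hw' : row c.L y w + (if w ∈ f.cmn j i then 1 else 0) ≠ 0 := hw
      obtain ⟨p1, p2⟩ := ex_pos h h2 h3
      by_cases a : c.L.Adj y w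
      · exact Or.inl ⟨y, hy.1, (hy.2.2.2 j i (by omega) (by omega)).2 ⟨rfl, Or.inl ⟨rfl, rfl⟩⟩, a⟩
      · by_cases b : w ∈ f.cmn j i
        · exact Or.inr ⟨i + 1, by omega, le_rfl, (mem_filter.1 b).2.2⟩
        · exfalso
          unfold row at hw'
          rw [if_neg a, if_neg b] at hw'
          exact hw' rfl)
  have hc3 := ex_count f j ((range i3).filter fun i => i1 + 6 ≤ i ∧ i + 6 ≤ i3 ∧ (i1 + i) % 2 = 0 ∧
      ∃ y, f.Tr 3 j i y ∧ ∃ u, ¬ (c.L.Adj y u ↔ ¬ (c.L.Adj (f.x j i) u ↔ u ∈ f.cmn j i))) (by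
    intro i hi
    obtain ⟨_, h2, h3, h4, y, hy, u, hu⟩ := mem_filter.1 hi
    refine ⟨ex_pos h h2 h3, _, trp_K3 h i h2 h3 h4 y hy, ⟨u, ?_⟩, ?_⟩
    · show row c.L y u + row c.L (f.x j i) u + (if u ∈ f.cmn j i then 1 else 0) ≠ 0
      unfold row
      by_cases a : c.L.Adj y u <;> by_cases b : u ∈ f.cmn j i <;> by_cases d : c.L.Adj (f.x j i) u
      · rw [if_pos a, if_pos b, if_pos d]
        decide
      · exact absurd (iff_of_true a fun h => d (h.2 b)) hu
      · exact absurd (iff_of_true a fun h => b (h.1 d)) hu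
      · rw [if_pos a, if_neg b, if_neg d]
        decide
      · exact absurd (iff_of_false a fun h => h (iff_of_true d b)) hu
      · rw [if_neg a, if_pos b, if_neg d]
        decide
      · rw [if_neg a, if_neg b, if_pos d]
        decide
      · exact absurd (iff_of_false a fun h => h (iff_of_false d b)) hu
    · intro w hw
      have hw' : row c.L y w + row c.L (f.x j i) w + (if w ∈ f.cmn j i then 1 else 0) ≠ 0 := hw
      obtain ⟨p1, p2⟩ := ex_pos h h2 h3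
      by_cases a : c.L.Adj y w
      · exact Or.inl ⟨y, hy.1, (hy.2.2.2 j i (by omega) (by omega)).2
          ⟨rfl, Or.inr (Or.inr (Or.inr ⟨rfl, Or.inr (Or.inl rfl)⟩))⟩, a⟩
      · by_cases b : w ∈ f.cmn j i
        · exact Or.inr ⟨i + 1, by omega, le_rfl, (mem_filter.1 b).2.2⟩
        · by_cases d : c.L.Adj (f.x j i) w
          · exact Or.inr ⟨i, le_rfl, by omega, d.symm⟩
          · exfalso
            unfold row at hw'
            rw [if_neg a, if_neg b, if_neg d] at hw'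
            exact hw' rfl)
  have h1 := (card_le_card hsub).trans (card_union_le _ _)
  omega

end Pool.Agent.EAD
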