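import Pool.Agent.EAD.DFl
import Pool.Agent.EAD.DExc
import Pool.Agent.EAD.DPick
import Pool.Agent.EAD.DFlowC
import Pool.Agent.EAD.CKB

/-!
# EAD-DE03: few positions with a face of type 0 or 3

`D` is the set of the positions which are not `Ok1`, assumed of size at most `N1`. PLAN. Put `κ := 2 ^ (2 k + 2 C)`
(`card_K`), `L := 13 k + 10`, `g := 40 + (80 κ + 2) * (L + 2) + 20`, bound
`N2 := 2 * ((N1 + 1) * (2 * κ) * (2 * g + 1))` (for each `τ = 0, 3` at most half of it). For one `τ`: if there are more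
positions, `pick3` with `key i := (i % 2, rv τ j i y_i)` in `Fin 2 × f.K` (`rv_mem`) gives a triple `Trp` (`ok`: the
positions are in `range (f.n j + 1)` and not in `D`). `trp_exc` and `pick_int` (interval from `i1 + 8` to `i2`, `D :=`
the exceptional positions, parity of `i1`) give `s` and `t := s + L` (`L` may have to be even: take `L := 2 * (7 k + 5)`)
without exceptional positions; `trp_flow` and `flow_bound` give `L ≤ 13 k + 8`, contradiction.
-/

set_option autoImplicit false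

open Finset
open scoped Classical

namespace Pool.Agent.EAD

open Pool.Agent.BEO hiding Cfg Frame

private theorem one_E (k C N1 κ g : ℕ) (hκ : κ = 2 ^ (2 * k + 2 * C))
    (hg : g = 40 + (80 * κ + 2) * (2 * (7 * k + 5) + 2) + 20)
    {V Q : Type} [Fintype V] [AddCommGroup Q] [Module F2 Q] {c : Cfg k V Q} (f : Frame C c) (j : Fin f.m)
    (hN : ((range (f.n j + 1)).filter fun i => ¬ f.Ok1 j i).card ≤ N1) (τ : Fin 4) (hτ : τ = 0 ∨ τ = 3) :
    ((range (f.n j + 1)).filter fun i => f.Ok1 j i ∧ ∃ y, f.Tr τ j i y).card ≤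
      (N1 + 1) * (2 * κ) * (2 * g + 1) := by
  by_contra hlt
  rw [not_le] at hlt
  have hK : Nat.card f.K ≤ κ := by
    rw [hκ]
    exact card_K f
  have hF : Finite f.K := inferInstance
  let _ : Fintype f.K := Fintype.ofFinite _
  rw [Nat.card_eq_fintype_card] at hK
  have hy : ∀ i, ∃ v : f.K, ∀ _ : (∃ y, f.Tr τ j i y), ∃ y, f.Tr τ j i y ∧ v.1 = f.rv τ j i y := by
    intro i
    by_cases h : ∃ y, f.Tr τ j i y
    · obtain ⟨y, hy⟩ := h
      exact ⟨⟨_, rv_mem f τ j i y hy⟩, fun _ => ⟨y, hy, rfl⟩⟩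
    · exact ⟨0, fun h1 => absurd h1 h⟩
  choose v hv using hy
  have hcard : (((range (f.n j + 1)).filter fun i => ¬ f.Ok1 j i).card + 1) * Fintype.card (Fin 2 × f.K) * (2 * g + 1) <
      ((range (f.n j + 1)).filter fun i => f.Ok1 j i ∧ ∃ y, f.Tr τ j i y).card := by
    refine lt_of_le_of_lt (Nat.mul_le_mul_right _ (Nat.mul_le_mul (by omega) ?_)) hlt
    rw [Fintype.card_prod, Fintype.card_fin]
    omega
  obtain ⟨i1, h1, i2, h2, i3, h3, g12, g23, k12, k23, hD⟩ := pick3 _ ((range (f.n j + 1)).filter fun i => ¬ f.Ok1 j i)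
    (fun i => ((⟨i % 2, Nat.mod_lt _ (by norm_num)⟩ : Fin 2), v i)) g (by
      intro e he he'
      exact (mem_filter.1 he').2 (mem_filter.1 he).2.1) hcard
  rw [mem_filter, mem_range] at h1 h2 h3
  obtain ⟨y1, t1, e1⟩ := hv i1 h1.2.2
  obtain ⟨y2, t2, e2⟩ := hv i2 h2.2.2
  obtain ⟨y3, t3, e3⟩ := hv i3 h3.2.2
  have p12 : i1 % 2 = i2 % 2 := congrArg (fun z : Fin 2 × f.K => z.1.val) k12
  have p23 : i2 % 2 = i3 % 2 := congrArg (fun z : Fin 2 × f.K => z.1.val) k23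
  have q12 : (v i1).1 = (v i2).1 := congrArg (fun z : Fin 2 × f.K => z.2.1) k12
  have q23 : (v i2).1 = (v i3).1 := congrArg (fun z : Fin 2 × f.K => z.2.1) k23
  have hg40 : 40 ≤ g := by omega
  have hT : f.Trp j τ i1 i2 i3 y1 y2 y3 :=
    { hτ := hτ
      p12 := by omega
      p23 := by omega
      g12 := by omega
      g23 := by omega
      t1 := t1
      t2 := t2
      t3 := t3
      r12 := by rw [← e1, ← e2, q12]
      r23 := by rw [← e2, ← e3, q23]
      ok := by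
        intro l hl1 hl2
        by_contra hno
        exact hD l hl1 hl2 (mem_filter.2 ⟨mem_range.2 (by omega), hno⟩) }
  have hE := trp_exc hT
  rw [Nat.card_eq_fintype_card] at hE
  obtain ⟨s, s1, s2, s3, s4⟩ := pick_int ((range i3).filter fun i => i1 + 6 ≤ i ∧ i + 6 ≤ i3 ∧ (i1 + i) % 2 = 0 ∧ f.Exc j i)
    (i1 + 8) (i3 - 8) (2 * (7 * k + 5)) i1 (by
      have h4 : (((range i3).filter fun i => i1 + 6 ≤ i ∧ i + 6 ≤ i3 ∧ (i1 + i) % 2 = 0 ∧ f.Exc j i).card + 1) *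
          (2 * (7 * k + 5) + 2) ≤ (80 * κ + 2) * (2 * (7 * k + 5) + 2) :=
        Nat.mul_le_mul_right _ (by omega)
      omega)
  have hfl := flow_bound f (trp_flow hT s (s + 2 * (7 * k + 5)) (by omega) (by omega) (by omega) (by omega) (by omega) (by
    intro i hi1 hi2 hi3 hi4
    exact s4 i hi1 hi2 (mem_filter.2 ⟨mem_range.2 (by omega), by omega, by omega, hi3, hi4⟩)))
  omega

theorem card_E03 (k C N1 : ℕ) : ∃ N2 : ℕ, ∀ (V Q : Type) [Fintype V] [AddCommGroup Q] [Module F2 Q] (c : Cfg k V Q)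
    (f : Frame C c) (j : Fin f.m), ((range (f.n j + 1)).filter fun i => ¬ f.Ok1 j i).card ≤ N1 →
    ((range (f.n j + 1)).filter fun i => f.Ok1 j i ∧ ∃ y, f.Tr 0 j i y ∨ f.Tr 3 j i y).card ≤ N2 := by
  obtain ⟨κ, hκ⟩ : ∃ κ, κ = 2 ^ (2 * k + 2 * C) := ⟨_, rfl⟩
  obtain ⟨g, hg⟩ : ∃ g, g = 40 + (80 * κ + 2) * (2 * (7 * k + 5) + 2) + 20 := ⟨_, rfl⟩
  refine ⟨(N1 + 1) * (2 * κ) * (2 * g + 1) + (N1 + 1) * (2 * κ) * (2 * g + 1), ?_⟩
  intro V Q _ _ _ c f j hN
  have h0 := one_E k C N1 κ g hκ hg f j hN 0 (Or.inl rfl)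
  have h3 := one_E k C N1 κ g hκ hg f j hN 3 (Or.inr rfl)
  refine le_trans (le_trans (card_le_card ?_) (card_union_le _ _)) (Nat.add_le_add h0 h3)
  intro i hi
  obtain ⟨h1, h2, y, hy⟩ := mem_filter.1 hi
  rcases hy with hy | hy
  · exact mem_union_left _ (mem_filter.2 ⟨h1, h2, y, hy⟩)
  · exact mem_union_right _ (mem_filter.2 ⟨h1, h2, y, hy⟩)

end Pool.Agent.EAD
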