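import Pool.Agent.EAD.DDef
import Pool.Agent.EAD.CTyp

/-!
# EAD-DMem: the common neighbours of `x j (i - 1)` and `x j (i + 1)`

They are the faces with the same neighbours as `x j i` and the faces of type 3 at `i`.
-/

set_option autoImplicit false

open Finset
open scoped Classical

namespace Pool.Agent.EAD

open Pool.Agent.BEO hiding Cfg Frame

variable {k C : ℕ} {V Q : Type} [Fintype V] [AddCommGroup Q] [Module F2 Q] {c : Cfg k V Q} (f : Frame C c)

theorem cmn_mem (j : Fin f.m) (i : ℕ) (h1 : f.Ok1 j (i - 1)) (h : f.Ok1 j i) (h2 : f.Ok1 j (i + 1)) (u : V)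
    (hu : u ∈ f.cmn j i) : u ∈ f.tw j i ∨ f.Tr 3 j i u := by
  have lo1 := h1.lo
  have hi1 := h1.hi
  have lo := h.lo
  have hi := h.hi
  have hi2 := h2.hi
  obtain ⟨a1, a2⟩ := (Finset.mem_filter.1 hu).2
  by_cases hM : u ∈ vs c.M
  · left
    rcases f.cov u hM with hB | ⟨j', l', p1, p2, e⟩
    · exact absurd a1 (h1.nB u hB)
    · rw [e] at a1 a2
      obtain ⟨q1, q2⟩ := adj_inner f j' j l' (i - 1) p1 p2 (by omega) (by omega) a1
      obtain ⟨_, q4⟩ := adj_inner f j' j l' (i + 1) p1 p2 (by omega) (by omega) a2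
      have hl : l' = i := by omega
      rw [e, hl, ← q1]
      exact Finset.mem_filter.2 ⟨Finset.mem_univ _, fun w => Iff.rfl⟩
  · obtain ⟨τ, i', hT⟩ := exists_type f u hM j (i - 1) (by omega) (by omega) a1
    have b1 := ((hT.2.2.2 j (i - 1) (by omega) (by omega)).1 a1).2
    have b2 := ((hT.2.2.2 j (i + 1) (by omega) (by omega)).1 a2).2
    have key : i' = i ∧ (τ = 2 ∨ τ = 3) := by
      unfold Frame.Ty at b1 b2
      rcases b1 with ⟨e1, c1⟩ | ⟨e1, c1⟩ | ⟨e1, c1⟩ | ⟨e1, c1⟩ <;>
      rcases b2 with ⟨e2, c2⟩ | ⟨e2, c2⟩ | ⟨e2, c2⟩ | ⟨e2, c2⟩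
      · omega
      · exact absurd (e1.symm.trans e2) (by decide)
      · exact absurd (e1.symm.trans e2) (by decide)
      · exact absurd (e1.symm.trans e2) (by decide)
      · exact absurd (e1.symm.trans e2) (by decide)
      · omega
      · exact absurd (e1.symm.trans e2) (by decide)
      · exact absurd (e1.symm.trans e2) (by decide)
      · exact absurd (e1.symm.trans e2) (by decide)
      · exact absurd (e1.symm.trans e2) (by decide)
      · exact ⟨by omega, Or.inl e1⟩
      · exact absurd (e1.symm.trans e2) (by decide)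
      · exact absurd (e1.symm.trans e2) (by decide)
      · exact absurd (e1.symm.trans e2) (by decide)
      · exact absurd (e1.symm.trans e2) (by decide)
      · exact ⟨by omega, Or.inr e1⟩
    obtain ⟨e, ht | ht⟩ := key
    · left
      rw [e, ht] at hT
      exact h.t2 u hT
    · right
      rw [e, ht] at hT
      exact hT

theorem mem_cmn (j : Fin f.m) (i : ℕ) (h : f.Ok1 j i) (u : V) (hu : u ∈ f.tw j i ∨ f.Tr 3 j i u) :
    u ∈ f.cmn j i := by
  have lo := h.lo
  have hi := h.hi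
  refine Finset.mem_filter.2 ⟨Finset.mem_univ _, ?_⟩
  rcases hu with hu | hu
  · have hw := (Finset.mem_filter.1 hu).2
    refine ⟨(hw _).2 ?_, (hw _).2 (adj_next f j i (by omega) (by omega))⟩
    have h3 := adj_next f j (i - 1) (by omega) (by omega)
    have h4 : i - 1 + 1 = i := by omega
    rw [h4] at h3
    exact h3.symm
  · refine ⟨(hu.2.2.2 j (i - 1) (by omega) (by omega)).2 ⟨rfl, ?_⟩,
      (hu.2.2.2 j (i + 1) (by omega) (by omega)).2 ⟨rfl, ?_⟩⟩
    · unfold Frame.Ty
      refine Or.inr (Or.inr (Or.inr ⟨rfl, Or.inl (by omega)⟩))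
    · unfold Frame.Ty
      exact Or.inr (Or.inr (Or.inr ⟨rfl, Or.inr (Or.inr rfl)⟩))

end Pool.Agent.EAD
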