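import Pool.Agent.EAD.DDef
import Pool.Agent.EAD.CTyp

/-!
# EAD-DNb: the neighbours of an inner face, and the twins

By `exists_type` every neighbour outside `M` of an inner face has one of the four types.
-/

set_option autoImplicit false

open Finset
open scoped Classical

namespace Pool.Agent.EAD

open Pool.Agent.BEO hiding Cfg Frame

variable {k C : ℕ} {V Q : Type} [Fintype V] [AddCommGroup Q] [Module F2 Q] {c : Cfg k V Q} (f : Frame C c)

private theorem dnb_tw (j : Fin f.m) (i : ℕ) (u : V) :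
    u ∈ f.tw j i ↔ ∀ w, c.L.Adj u w ↔ c.L.Adj (f.x j i) w := by
  unfold Frame.tw
  rw [mem_filter]
  exact ⟨fun h => h.2, fun h => ⟨mem_univ _, h⟩⟩

theorem mem_tw_self (j : Fin f.m) (i : ℕ) : f.x j i ∈ f.tw j i := by
  rw [dnb_tw]
  intro w
  exact Iff.rfl

private theorem dnb_self (j : Fin f.m) (i : ℕ) : ¬ c.L.Adj (f.x j i) (f.x j i) :=
  fun h => h.ne rfl

theorem nb_x (j : Fin f.m) (i : ℕ) (h1 : f.Ok1 j (i - 1)) (h : f.Ok1 j i) (h2 : f.Ok1 j (i + 1)) (u : V) :
    c.L.Adj (f.x j i) u ↔ (u ∈ f.tw j (i - 1) ∨ u ∈ f.tw j (i + 1) ∨ f.Tr 0 j i u ∨ f.Tr 3 j (i - 1) u ∨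
      f.Tr 3 j i u ∨ f.Tr 3 j (i + 1) u) := by
  have hlo := h.lo
  have hhi := h.hi
  constructor
  · intro ha
    by_cases hu : u ∈ vs c.M
    · rcases f.cov u hu with hB | ⟨j', l', a1, a2, e⟩
      · exact absurd ha.symm (h.nB u hB)
      · rw [e] at ha
        obtain ⟨e1, e2⟩ := adj_inner f j j' i l' (by omega) (by omega) a1 a2 ha
        subst e1
        rcases e2 with e2 | e2
        · right; left
          rw [e, e2]
          exact mem_tw_self f j' (i + 1)
        · left
          have : l' = i - 1 := by omega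
          rw [e, this]
          exact mem_tw_self f j' (i - 1)
    · obtain ⟨τ, i', hT⟩ := exists_type f u hu j i (by omega) (by omega) ha.symm
      have hty := ((hT.2.2.2 j i (by omega) (by omega)).1 ha.symm).2
      unfold Frame.Ty at hty
      rcases hty with ⟨hτ, e⟩ | ⟨hτ, e | e⟩ | ⟨hτ, e | e⟩ | ⟨hτ, e | e | e⟩
      · subst hτ; subst e
        exact Or.inr (Or.inr (Or.inl hT))
      · subst hτ; subst e
        exact absurd hT (h.t1 u)
      · subst hτ
        have e' : i' = i - 1 := by omega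
        rw [e'] at hT
        exact absurd hT (h1.t1 u)
      · subst hτ
        rw [← e] at hT
        exact Or.inr (Or.inl (h2.t2 u hT))
      · subst hτ
        have e' : i' = i - 1 := by omega
        rw [e'] at hT
        exact Or.inl (h1.t2 u hT)
      · subst hτ
        rw [← e] at hT
        exact Or.inr (Or.inr (Or.inr (Or.inr (Or.inr hT))))
      · subst hτ; subst e
        exact Or.inr (Or.inr (Or.inr (Or.inr (Or.inl hT))))
      · subst hτ
        have e' : i' = i - 1 := by omega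
        rw [e'] at hT
        exact Or.inr (Or.inr (Or.inr (Or.inl hT)))
  · intro hu
    have hn1 := adj_next f j (i - 1) (by omega) (by omega)
    have e1 : i - 1 + 1 = i := by omega
    rw [e1] at hn1
    have hn2 := adj_next f j i (by omega) (by omega)
    rcases hu with hu | hu | hu | hu | hu | hu
    · rw [dnb_tw] at hu
      exact ((hu _).2 hn1).symm
    · rw [dnb_tw] at hu
      exact ((hu _).2 hn2.symm).symm
    · exact ((hu.2.2.2 j i (by omega) (by omega)).2 ⟨rfl, Or.inl ⟨rfl, rfl⟩⟩).symm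
    · exact ((hu.2.2.2 j i (by omega) (by omega)).2
        ⟨rfl, Or.inr (Or.inr (Or.inr ⟨rfl, Or.inr (Or.inr e1.symm)⟩))⟩).symm
    · exact ((hu.2.2.2 j i (by omega) (by omega)).2
        ⟨rfl, Or.inr (Or.inr (Or.inr ⟨rfl, Or.inr (Or.inl rfl)⟩))⟩).symm
    · exact ((hu.2.2.2 j i (by omega) (by omega)).2
        ⟨rfl, Or.inr (Or.inr (Or.inr ⟨rfl, Or.inl rfl⟩))⟩).symm

theorem tw_sub (j : Fin f.m) (i : ℕ) (h1 : f.Ok1 j (i - 1)) (h : f.Ok1 j i) (h2 : f.Ok1 j (i + 1)) (u : V)
    (hu : u ∈ f.tw j i) : u = f.x j i ∨ f.Tr 2 j i u := by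
  have hlo := h.lo
  have hhi := h.hi
  rw [dnb_tw] at hu
  have hn1 := adj_next f j (i - 1) (by omega) (by omega)
  have e1 : i - 1 + 1 = i := by omega
  rw [e1] at hn1
  have hn2 := adj_next f j i (by omega) (by omega)
  have a1 : c.L.Adj u (f.x j (i - 1)) := (hu _).2 hn1.symm
  have a2 : c.L.Adj u (f.x j (i + 1)) := (hu _).2 hn2
  have a0 : ¬ c.L.Adj u (f.x j i) := fun h' => dnb_self f j i ((hu _).1 h')
  by_cases hm : u ∈ vs c.M
  · rcases f.cov u hm with hB | ⟨j', l', b1, b2, e⟩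
    · exact absurd a2 (h2.nB u hB)
    · rw [e] at a1 a2
      obtain ⟨c1, c2⟩ := adj_inner f j j' (i - 1) l' (by omega) (by omega) b1 b2 a1.symm
      obtain ⟨_, c3⟩ := adj_inner f j j' (i + 1) l' (by omega) (by omega) b1 b2 a2.symm
      left
      have : l' = i := by omega
      rw [e, c1, this]
  · obtain ⟨τ, i', hT⟩ := exists_type f u hm j (i + 1) (by omega) (by omega) a2
    have t1 := ((hT.2.2.2 j (i - 1) (by omega) (by omega)).1 a1).2
    have t2 := ((hT.2.2.2 j (i + 1) (by omega) (by omega)).1 a2).2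
    have t0 : ¬ Frame.Ty τ i' i := fun h' =>
      a0 ((hT.2.2.2 j i (by omega) (by omega)).2 ⟨rfl, h'⟩)
    right
    unfold Frame.Ty at t1 t2 t0
    rcases t2 with ⟨hτ, e⟩ | ⟨hτ, e⟩ | ⟨hτ, e⟩ | ⟨hτ, e⟩
    · exfalso
      subst hτ
      rcases t1 with ⟨_, e'⟩ | ⟨q, _⟩ | ⟨q, _⟩ | ⟨q, _⟩
      · omega
      · exact absurd q (by decide)
      · exact absurd q (by decide)
      · exact absurd q (by decide)
    · exfalso
      subst hτ
      rcases t1 with ⟨q, _⟩ | ⟨_, e'⟩ | ⟨q, _⟩ | ⟨q, _⟩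
      · exact absurd q (by decide)
      · omega
      · exact absurd q (by decide)
      · exact absurd q (by decide)
    · subst hτ
      rcases t1 with ⟨q, _⟩ | ⟨q, _⟩ | ⟨_, e'⟩ | ⟨q, _⟩
      · exact absurd q (by decide)
      · exact absurd q (by decide)
      · have : i' = i := by omega
        rw [this] at hT
        exact hT
      · exact absurd q (by decide)
    · exfalso
      subst hτ
      rcases t1 with ⟨q, _⟩ | ⟨q, _⟩ | ⟨q, _⟩ | ⟨_, e'⟩
      · exact absurd q (by decide)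
      · exact absurd q (by decide)
      · exact absurd q (by decide)
      · exact t0 (Or.inr (Or.inr (Or.inr ⟨rfl, Or.inr (Or.inl (by omega))⟩)))

theorem tw_disj (j : Fin f.m) (i : ℕ) (h : f.Ok1 j i) : Disjoint (f.tw j (i - 1)) (f.tw j (i + 1)) := by
  have hlo := h.lo
  have hhi := h.hi
  rw [Finset.disjoint_left]
  intro u hu hu'
  rw [dnb_tw] at hu hu'
  have hn := adj_next f j (i - 2) (by omega) (by omega)
  have e : i - 2 + 1 = i - 1 := by omega
  rw [e] at hn
  have h1 : c.L.Adj (f.x j (i + 1)) (f.x j (i - 2)) := (hu' _).1 ((hu _).2 hn.symm)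
  have h2 := (adj_inner f j j (i + 1) (i - 2) (by omega) (by omega) (by omega) (by omega) h1).2
  omega

/-- a face of `tw j i` is not adjacent to a face of `tw j i` -/
theorem tw_indep (j : Fin f.m) (i : ℕ) (u w : V) (hu : u ∈ f.tw j i) (hw : w ∈ f.tw j i) : ¬ c.L.Adj u w := by
  rw [dnb_tw] at hu hw
  intro h
  exact dnb_self f j i ((hw _).1 ((hu _).1 h).symm)

end Pool.Agent.EAD
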