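import Pool.Agent.EAD.DFlowA
import Pool.Agent.EAD.DRank

/-!
# EAD-DFlowB: deleting the edges at all sets `U i` of a flow

`P1` is the union of the sets `U i`. PLAN. `L' := outG c.L P1 ≤ c.L`. Even: for `v ∈ P1` no edges. For `v ∉ P1` and an `i`:
the neighbours of `v` in `U i` are all of `U i` (if `v ∈ X i`) or none (`nbA`, `nbT`, symmetry: a neighbour `u ∈ U i` of `v`
is in `A i` or `T i`, so `v ∈ X i` as `v ∉ U i`), an even number (`ev`). The sets `U i` for different `i` are disjoint and
without edges between them: `f.x j i ∈ U i`; if `u ∈ U i'` is in `X i` or in `T i ∪ A i`, `i' ≠ i`: by `nbx` (and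
`hi`, `lo`) all elements of `U i'` are adjacent to `f.x j (i' - 1)` or `f.x j (i' + 1)` (whenever these positions are
strictly between `s` and `t`; always the case since `s < i' < t` and the parities), and a face adjacent to `f.x j i` or
in `U i` is adjacent to `f.x j i` resp. `f.x j (i + 1)`, `f.x j (i - 1)`: `nbr_two` gives a contradiction (an element of
`U i` is adjacent to both `f.x j (i - 1)` and `f.x j (i + 1)`). Class: `∑ e ∈ es c.L, a e = ∑ e ∈ es L', a e + ∑ i,
∑ (edges at U i) a e`, the last sums are 0 (`flow_cls`), and `∑ e ∈ es c.L, a e = ∑ e ∈ es c.M, a e` is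
`c.clLM`. Apply `c.lb`.
-/

set_option autoImplicit false

open Finset
open scoped Classical

namespace Pool.Agent.EAD

open Pool.Agent.BEO hiding Cfg Frame

variable {k C : ℕ} {V Q : Type} [Fintype V] [AddCommGroup Q] [Module F2 Q] {c : Cfg k V Q} (f : Frame C c)

private theorem adj_both {j : Fin f.m} {s t : ℕ} {U A T X : ℕ → Finset V} (h : f.Flow j s t U A T X) (i : ℕ)
    (h1 : s < i) (h2 : i < t) (h3 : (s + i) % 2 = 0) (u : V) (hu : u ∈ U i) :
    c.L.Adj u (f.x j (i - 1)) ∧ c.L.Adj u (f.x j (i + 1)) := by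
  have hp := h.par
  constructor
  · have h4 := (h.nbx (i - 1) (by omega) (by omega) (by omega) u).2
      (Or.inr (by rw [show i - 1 + 1 = i by omega]; exact hu))
    exact h4.symm
  · have h4 := (h.nbx (i + 1) (by omega) (by omega) (by omega) u).2
      (Or.inl (by rw [show i + 1 - 1 = i by omega]; exact hu))
    exact h4.symm

private theorem dj_lt {j : Fin f.m} {s t : ℕ} {U A T X : ℕ → Finset V} (h : f.Flow j s t U A T X) (i i' : ℕ)
    (h1 : s < i) (h3 : (s + i) % 2 = 0) (h2' : i' < t) (h3' : (s + i') % 2 = 0)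
    (hlt : i < i') (u : V) (hu : u ∈ U i) (hu' : u ∈ U i') : False := by
  have hp := h.par
  have hlo := h.lo
  have hhi := h.hi
  have a1 := (adj_both f h i h1 (by omega) h3 u hu).1
  have a2 := (adj_both f h i' (by omega) h2' h3' u hu').2
  obtain ⟨_, h4, _⟩ := nbr_two f u j j (i - 1) (i' + 1) (by omega) (by omega) (by omega) (by omega) a1 a2
  omega

private theorem dj_ne {j : Fin f.m} {s t : ℕ} {U A T X : ℕ → Finset V} (h : f.Flow j s t U A T X) (i i' : ℕ)
    (h1 : s < i) (h2 : i < t) (h3 : (s + i) % 2 = 0) (h1' : s < i') (h2' : i' < t) (h3' : (s + i') % 2 = 0)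
    (hne : i ≠ i') (u : V) (hu : u ∈ U i) (hu' : u ∈ U i') : False := by
  rcases lt_or_gt_of_ne hne with hlt | hlt
  · exact dj_lt f h i i' h1 h3 h2' h3' hlt u hu hu'
  · exact dj_lt f h i' i h1' h3' h2 h3 hlt u hu' hu

private theorem in_X {j : Fin f.m} {s t : ℕ} {U A T X : ℕ → Finset V} (h : f.Flow j s t U A T X) (i : ℕ)
    (h1 : s < i) (h2 : i < t) (h3 : (s + i) % 2 = 0) (v : V) (hv : v ∉ U i) (u : V) (hu : u ∈ U i)
    (ha : c.L.Adj u v) : v ∈ X i := by
  have hs := (h.split i h1 h2 h3).1
  have hvA : v ∉ A i := fun hh => hv (by rw [hs]; exact Finset.mem_union_left _ hh)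
  have hvT : v ∉ T i := fun hh => hv (by rw [hs]; exact Finset.mem_union_right _ hh)
  rw [hs, Finset.mem_union] at hu
  rcases hu with hu | hu
  · rcases (h.nbA i h1 h2 h3 u hu v).1 ha with hx | hx
    · exact hx
    · exact absurd hx hvT
  · rcases (h.nbT i h1 h2 h3 u hu v).1 ha with hx | hx
    · exact hx
    · exact absurd hx hvA

private theorem X_adj {j : Fin f.m} {s t : ℕ} {U A T X : ℕ → Finset V} (h : f.Flow j s t U A T X) (i : ℕ)
    (h1 : s < i) (h2 : i < t) (h3 : (s + i) % 2 = 0) (v : V) (hv : v ∈ X i) (u : V) (hu : u ∈ U i) :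
    c.L.Adj u v := by
  have hs := (h.split i h1 h2 h3).1
  rw [hs, Finset.mem_union] at hu
  rcases hu with hu | hu
  · exact (h.nbA i h1 h2 h3 u hu v).2 (Or.inl hv)
  · exact (h.nbT i h1 h2 h3 u hu v).2 (Or.inl hv)

private theorem no_edge {j : Fin f.m} {s t : ℕ} {U A T X : ℕ → Finset V} (h : f.Flow j s t U A T X) (i i' : ℕ)
    (h1 : s < i) (h2 : i < t) (h3 : (s + i) % 2 = 0) (h1' : s < i') (h2' : i' < t) (h3' : (s + i') % 2 = 0)
    (hne : i ≠ i') (u u' : V) (hu : u ∈ U i) (hu' : u' ∈ U i') (ha : c.L.Adj u u') : False := by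
  have hp := h.par
  have hlo := h.lo
  have hhi := h.hi
  have hnot : u' ∉ U i := fun hh => dj_ne f h i i' h1 h2 h3 h1' h2' h3' hne u' hh hu'
  have hX := in_X f h i h1 h2 h3 u' hnot u hu ha
  have h4 : c.L.Adj (f.x j i) u' := (h.nbA i h1 h2 h3 (f.x j i) (h.mem i h1 h2 h3) u').2 (Or.inl hX)
  have h5 := adj_both f h i' h1' h2' h3' u' hu'
  obtain ⟨_, h6, h7⟩ := nbr_two f u' j j i (i' - 1) (by omega) (by omega) (by omega) (by omega) h4.symm h5.1
  obtain ⟨_, h8, h9⟩ := nbr_two f u' j j i (i' + 1) (by omega) (by omega) (by omega) (by omega) h4.symm h5.2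
  omega

theorem flow_lb {j : Fin f.m} {s t : ℕ} {U A T X : ℕ → Finset V} (h : f.Flow j s t U A T X)
    (P1 : Finset V)
    (hP : ∀ u, u ∈ P1 ↔ ∃ i, s < i ∧ i < t ∧ (s + i) % 2 = 0 ∧ u ∈ U i) :
    (es c.M).card ≤ Module.finrank F2 (rowSp (outG c.L P1)) + 12 * k := by
  classical
  set I : Finset ℕ := (Finset.range t).filter (fun i => s < i ∧ (s + i) % 2 = 0) with hI
  have hmI : ∀ i, i ∈ I ↔ (s < i ∧ i < t ∧ (s + i) % 2 = 0) := by
    intro i
    rw [hI, Finset.mem_filter, Finset.mem_range]
    tauto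
  refine c.lb (outG c.L P1) (fun u w hh => hh.1) ?_ ?_
  · intro v
    by_cases hv : v ∈ P1
    · have h0 : nb (outG c.L P1) v = ∅ := by
        apply Finset.eq_empty_of_forall_notMem
        intro u hu
        rw [nb, Finset.mem_filter] at hu
        exact hu.2.2.1 hv
      rw [h0, Finset.card_empty]
      exact Even.zero
    · have hsplit : nb c.L v = nb (outG c.L P1) v ∪ I.biUnion (fun i => (nb c.L v).filter (fun u => u ∈ U i)) := by
        ext u
        rw [Finset.mem_union, Finset.mem_biUnion]
        constructor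
        · intro hu
          by_cases hu1 : u ∈ P1
          · right
            obtain ⟨i, h1, h2, h3, h4⟩ := (hP u).1 hu1
            exact ⟨i, (hmI i).2 ⟨h1, h2, h3⟩, Finset.mem_filter.2 ⟨hu, h4⟩⟩
          · left
            rw [nb, Finset.mem_filter] at hu ⊢
            exact ⟨hu.1, hu.2, hv, hu1⟩
        · rintro (hu | ⟨i, _, hu⟩)
          · rw [nb, Finset.mem_filter] at hu ⊢
            exact ⟨hu.1, hu.2.1⟩
          · exact (Finset.mem_filter.1 hu).1
      have hdis : Disjoint (nb (outG c.L P1) v) (I.biUnion (fun i => (nb c.L v).filter (fun u => u ∈ U i))) := by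
        rw [Finset.disjoint_left]
        intro u hu hu'
        rw [Finset.mem_biUnion] at hu'
        obtain ⟨i, hi, hui⟩ := hu'
        rw [nb, Finset.mem_filter] at hu
        obtain ⟨h1, h2, h3⟩ := (hmI i).1 hi
        exact hu.2.2.2 ((hP u).2 ⟨i, h1, h2, h3, (Finset.mem_filter.1 hui).2⟩)
      have hcard := Finset.card_union_of_disjoint hdis
      rw [← hsplit] at hcard
      have hb : (I.biUnion (fun i => (nb c.L v).filter (fun u => u ∈ U i))).card =
          ∑ i ∈ I, ((nb c.L v).filter (fun u => u ∈ U i)).card := by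
        apply Finset.card_biUnion
        intro i hi i' hi' hne
        obtain ⟨h1, h2, h3⟩ := (hmI i).1 hi
        obtain ⟨h1', h2', h3'⟩ := (hmI i').1 hi'
        show Disjoint _ _
        rw [Finset.disjoint_left]
        intro u hu hu'
        exact dj_ne f h i i' h1 h2 h3 h1' h2' h3' hne u (Finset.mem_filter.1 hu).2 (Finset.mem_filter.1 hu').2
      have heven : Even (∑ i ∈ I, ((nb c.L v).filter (fun u => u ∈ U i)).card) := by
        refine Finset.even_sum _ ?_
        intro i hi
        obtain ⟨h1, h2, h3⟩ := (hmI i).1 hi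
        have hvU : v ∉ U i := fun hh => hv ((hP v).2 ⟨i, h1, h2, h3, hh⟩)
        by_cases hx : v ∈ X i
        · have he : (nb c.L v).filter (fun u => u ∈ U i) = U i := by
            ext u
            rw [Finset.mem_filter, nb, Finset.mem_filter]
            constructor
            · exact fun hh => hh.2
            · intro hu
              exact ⟨⟨Finset.mem_univ _, (X_adj f h i h1 h2 h3 v hx u hu).symm⟩, hu⟩
          rw [he]
          exact h.ev i h1 h2 h3
        · have he : (nb c.L v).filter (fun u => u ∈ U i) = ∅ := by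
            apply Finset.eq_empty_of_forall_notMem
            intro u hu
            rw [Finset.mem_filter, nb, Finset.mem_filter] at hu
            exact hx (in_X f h i h1 h2 h3 v hvU u hu.2 hu.1.2.symm)
          rw [he, Finset.card_empty]
          exact Even.zero
      have hL := c.evL v
      rw [hcard, hb] at hL
      exact (Nat.even_add.1 hL).2 heven
  · have hsplit : es c.L = es (outG c.L P1) ∪
        I.biUnion (fun i => (es c.L).filter (fun e => ∃ u ∈ U i, u ∈ e)) := by
      ext e
      rw [Finset.mem_union, Finset.mem_biUnion]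
      constructor
      · intro he
        by_cases hx : ∃ u ∈ P1, u ∈ e
        · right
          obtain ⟨u, hu, hue⟩ := hx
          obtain ⟨i, h1, h2, h3, h4⟩ := (hP u).1 hu
          exact ⟨i, (hmI i).2 ⟨h1, h2, h3⟩, Finset.mem_filter.2 ⟨he, u, h4, hue⟩⟩
        · left
          rw [es, Finset.mem_filter] at he ⊢
          refine ⟨he.1, ?_⟩
          have he2 := he.2
          revert hx he2
          refine Sym2.ind (fun a b => ?_) e
          intro hx he2
          rw [SimpleGraph.mem_edgeSet] at he2 ⊢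
          exact ⟨he2, fun hh => hx ⟨a, hh, Sym2.mem_mk_left a b⟩, fun hh => hx ⟨b, hh, Sym2.mem_mk_right a b⟩⟩
      · rintro (he | ⟨i, _, he⟩)
        · rw [es, Finset.mem_filter] at he ⊢
          refine ⟨he.1, ?_⟩
          have he2 := he.2
          revert he2
          refine Sym2.ind (fun a b => ?_) e
          intro he2
          rw [SimpleGraph.mem_edgeSet] at he2 ⊢
          exact he2.1
        · exact (Finset.mem_filter.1 he).1
    have hdis : Disjoint (es (outG c.L P1)) (I.biUnion (fun i => (es c.L).filter (fun e => ∃ u ∈ U i, u ∈ e))) := by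
      rw [Finset.disjoint_left]
      intro e he he'
      rw [Finset.mem_biUnion] at he'
      obtain ⟨i, hi, hei⟩ := he'
      obtain ⟨h1, h2, h3⟩ := (hmI i).1 hi
      obtain ⟨_, u, hu, hue⟩ := Finset.mem_filter.1 hei
      have huP : u ∈ P1 := (hP u).2 ⟨i, h1, h2, h3, hu⟩
      rw [es, Finset.mem_filter] at he
      have he2 := he.2
      revert hue he2
      refine Sym2.ind (fun a b => ?_) e
      intro hue he2
      rw [SimpleGraph.mem_edgeSet] at he2
      rcases Sym2.mem_iff.1 hue with e1 | e1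
      · exact he2.2.1 (e1 ▸ huP)
      · exact he2.2.2 (e1 ▸ huP)
    have hsum := Finset.sum_union (f := c.a) hdis
    rw [← hsplit] at hsum
    have hb : ∑ e ∈ I.biUnion (fun i => (es c.L).filter (fun e => ∃ u ∈ U i, u ∈ e)), c.a e =
        ∑ i ∈ I, ∑ e ∈ (es c.L).filter (fun e => ∃ u ∈ U i, u ∈ e), c.a e := by
      apply Finset.sum_biUnion
      intro i hi i' hi' hne
      obtain ⟨h1, h2, h3⟩ := (hmI i).1 hi
      obtain ⟨h1', h2', h3'⟩ := (hmI i').1 hi'
      show Disjoint _ _
      rw [Finset.disjoint_left]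
      intro e he he'
      obtain ⟨hL, u, hu, hue⟩ := Finset.mem_filter.1 he
      obtain ⟨_, u', hu', hue'⟩ := Finset.mem_filter.1 he'
      have huu : u ≠ u' := by
        rintro rfl
        exact dj_ne f h i i' h1 h2 h3 h1' h2' h3' hne u hu hu'
      rw [es, Finset.mem_filter] at hL
      have he2 := hL.2
      have hee : e = s(u, u') := (Sym2.mem_and_mem_iff huu).1 ⟨hue, hue'⟩
      rw [hee, SimpleGraph.mem_edgeSet] at he2
      exact no_edge f h i i' h1 h2 h3 h1' h2' h3' hne u u' hu hu' he2
    have hz : ∑ i ∈ I, ∑ e ∈ (es c.L).filter (fun e => ∃ u ∈ U i, u ∈ e), c.a e = 0 := by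
      refine Finset.sum_eq_zero fun i hi => ?_
      obtain ⟨h1, h2, h3⟩ := (hmI i).1 hi
      exact flow_cls f h i h1 h2 h3
    rw [hb, hz, add_zero] at hsum
    rw [← hsum]
    exact c.clLM

end Pool.Agent.EAD
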