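import Pool.Agent.EAD.DRows

/-!
# EAD-DPriv: few positions which are not private
-/

set_option autoImplicit false

open Finset
open scoped Classical

namespace Pool.Agent.EAD

open Pool.Agent.BEO hiding Cfg Frame

/-- the position `i` is private -/
def Frame.Priv {k C : ℕ} {V Q : Type} [Fintype V] [AddCommGroup Q] [Module F2 Q] {c : Cfg k V Q} (f : Frame C c)
    (j : Fin f.m) (i : ℕ) : Prop :=
  ∀ y ∈ f.tw j i, ∀ u ∈ f.tw j (i + 1), ∀ w ∈ vs c.L, (w = y ∨ c.R.Adj w y) → (w = u ∨ c.R.Adj w u) →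
    w ∈ f.tw j i ∨ w ∈ f.tw j (i + 1)

private theorem wk1 {V : Type} {R : SimpleGraph V} {w y : V} (h : w = y ∨ R.Adj w y) :
    ∃ p : R.Walk y w, p.length ≤ 1 := by
  rcases h with rfl | h
  · exact ⟨.nil, by simp⟩
  · exact ⟨.cons h.symm .nil, by simp⟩

private theorem good_ok {k C : ℕ} {V Q : Type} [Fintype V] [AddCommGroup Q] [Module F2 Q] {c : Cfg k V Q}
    {f : Frame C c} {j : Fin f.m} {i : ℕ} (h : f.Good j i) : 25 ≤ i ∧ i + 25 ≤ f.n j := by
  have h1 := h i (by omega) (by omega)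
  exact ⟨h1.ok.lo, h1.ok.hi⟩

private theorem tw_adj {k C : ℕ} {V Q : Type} [Fintype V] [AddCommGroup Q] [Module F2 Q] {c : Cfg k V Q}
    {f : Frame C c} {j : Fin f.m} {i : ℕ} (h1 : 2 ≤ i) (h2 : i + 1 ≤ f.n j) {y : V} (hy : y ∈ f.tw j i) :
    c.R.Adj y (f.x j (i - 1)) ∧ c.R.Adj y (f.x j (i + 1)) := by
  have h3 := (mem_filter.1 hy).2
  refine ⟨c.leR ((h3 _).2 ?_), c.leR ((h3 _).2 ?_)⟩
  · have h4 := adj_next f j (i - 1) (by omega) (by omega)
    rw [Nat.sub_add_cancel (by omega)] at h4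
    exact h4.symm
  · exact adj_next f j i (by omega) h2

theorem card_priv (k C : ℕ) : ∃ N : ℕ, ∀ (V Q : Type) [Fintype V] [AddCommGroup Q] [Module F2 Q] (c : Cfg k V Q)
    (f : Frame C c) (j : Fin f.m),
    ((range (f.n j + 1)).filter fun i => f.Good j i ∧ f.Good j (i + 1) ∧ ¬ f.Priv j i).card ≤ N := by
  obtain ⟨N0, hN0⟩ := card_rows k C
  refine ⟨(N0 + 1) * (40 * 1), ?_⟩
  intro V Q _ _ _ c f j
  have hA := hN0 V Q c f
  obtain ⟨A, hAdef⟩ : ∃ A, A = ((vs c.L).filter fun w => ∀ j i, f.Good j i → w ∉ f.tw j i).image (row c.L) := ⟨_, rfl⟩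
  rw [← hAdef] at hA
  obtain ⟨S, hS⟩ : ∃ S, S = (range (f.n j + 1)).filter fun i => f.Good j i ∧ f.Good j (i + 1) ∧ ¬ f.Priv j i := ⟨_, rfl⟩
  rw [← hS]
  have hne : Nonempty V := ⟨f.x j 0⟩
  have hex : ∀ i ∈ S, ∃ w : V, (∃ y ∈ f.tw j i, w = y ∨ c.R.Adj w y) ∧ (∃ b, c.L.Adj w b) ∧ row c.L w ∈ A := by
    intro i hi
    rw [hS, mem_filter] at hi
    obtain ⟨-, hg, hg1, hp⟩ := hi
    obtain ⟨hi1, hi2⟩ := good_ok hg
    obtain ⟨hi3, hi4⟩ := good_ok hg1
    unfold Frame.Priv at hp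
    push Not at hp
    obtain ⟨y, hy, u, hu, w, hw, hwy, hwu, hn1, hn2⟩ := hp
    refine ⟨w, ⟨y, hy, hwy⟩, (mem_filter.1 hw).2, ?_⟩
    rw [hAdef]
    refine mem_image_of_mem _ (mem_filter.2 ⟨hw, ?_⟩)
    intro j' l hl hwl
    obtain ⟨hl1, hl2⟩ := good_ok hl
    obtain ⟨a1, a2⟩ := tw_adj (by omega) (by omega) hwl
    obtain ⟨b1, b2⟩ := tw_adj (by omega) (by omega) hy
    obtain ⟨c1, c2⟩ := tw_adj (by omega) (by omega) hu
    obtain ⟨p1, hp1⟩ := wk1 hwy
    obtain ⟨p2, hp2⟩ := wk1 hwu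
    have f1 := far_idx f j j' (i - 1) (l + 1) (by omega) (by omega) (by omega) (by omega)
      (SimpleGraph.Walk.cons b1.symm (p1.append (SimpleGraph.Walk.cons a2 SimpleGraph.Walk.nil))) (by
        simp only [SimpleGraph.Walk.length_cons, SimpleGraph.Walk.length_append, SimpleGraph.Walk.length_nil]
        omega)
    have f2 := far_idx f j j' (i + 1 + 1) (l - 1) (by omega) (by omega) (by omega) (by omega)
      (SimpleGraph.Walk.cons c2.symm (p2.append (SimpleGraph.Walk.cons a1 SimpleGraph.Walk.nil))) (by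
        simp only [SimpleGraph.Walk.length_cons, SimpleGraph.Walk.length_append, SimpleGraph.Walk.length_nil]
        omega)
    simp only [SimpleGraph.Walk.length_cons, SimpleGraph.Walk.length_append, SimpleGraph.Walk.length_nil] at f1 f2
    obtain ⟨e1, e2, e3⟩ := f1
    obtain ⟨-, e4, e5⟩ := f2
    subst e1
    have hl3 : l = i ∨ l = i + 1 := by omega
    rcases hl3 with h | h
    · rw [h] at hwl
      exact hn1 hwl
    · rw [h] at hwl
      exact hn2 hwl
  choose! w hw using hex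
  have hcw := count_windows (A := Option {r // r ∈ A}) S
    (fun i => if h : row c.L (w i) ∈ A then some ⟨_, h⟩ else none) (fun i => i) 1 ?_ ?_
  · refine hcw.trans ?_
    rw [Fintype.card_option, Fintype.card_coe]
    exact Nat.mul_le_mul_right _ (by omega)
  · intro i hi i' hi' hkey hlt
    obtain ⟨⟨y, hy, hwy⟩, ⟨b, hb⟩, hr⟩ := hw i hi
    obtain ⟨⟨y', hy', hwy'⟩, -, hr'⟩ := hw i' hi'
    simp only [dif_pos hr, dif_pos hr'] at hkey
    have hrow : row c.L (w i) = row c.L (w i') := by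
      have h1 := Option.some.inj hkey
      exact congrArg Subtype.val h1
    have hb' : c.L.Adj (w i') b := by
      have h1 := congrFun hrow b
      unfold row at h1
      rw [if_pos hb] at h1
      by_contra h2
      rw [if_neg h2] at h1
      exact one_ne_zero h1
    rw [hS, mem_filter] at hi hi'
    obtain ⟨hi1, hi2⟩ := good_ok hi.2.1
    obtain ⟨hi3, hi4⟩ := good_ok hi'.2.1
    obtain ⟨a1, -⟩ := tw_adj (by omega) (by omega) hy
    obtain ⟨a1', -⟩ := tw_adj (by omega) (by omega) hy'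
    obtain ⟨p1, hp1⟩ := wk1 hwy
    obtain ⟨p2, hp2⟩ := wk1 hwy'
    have f1 := far_idx f j j (i - 1) (i' - 1) (by omega) (by omega) (by omega) (by omega)
      (SimpleGraph.Walk.cons a1.symm (p1.append (SimpleGraph.Walk.cons (c.leR hb)
        (SimpleGraph.Walk.cons (c.leR hb'.symm) (p2.reverse.append (SimpleGraph.Walk.cons a1' SimpleGraph.Walk.nil)))))) (by
        simp only [SimpleGraph.Walk.length_cons, SimpleGraph.Walk.length_append, SimpleGraph.Walk.length_nil,
          SimpleGraph.Walk.length_reverse]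
        omega)
    simp only [SimpleGraph.Walk.length_cons, SimpleGraph.Walk.length_append, SimpleGraph.Walk.length_nil,
      SimpleGraph.Walk.length_reverse] at f1
    omega
  · intro i
    refine card_le_one.2 ?_
    intro a ha b hb
    rw [mem_filter] at ha hb
    rw [ha.2, hb.2]

end Pool.Agent.EAD
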