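import Pool.Agent.EAD.DTwo

/-!
# EAD-DRho: the row at the middle of a triple

PLAN. Let `O` be the positions of parity different from `i1`. `rel` for `(i1, i2)` and `(i2, i3)`:
(a) `rho_1 u + rho_2 u` = number of `l ∈ O`, `i1 < l < i2`, with `u ~ x j l`; (b) `rho_2 u + rho_3 u` = number of
`l ∈ O`, `i2 < l < i3`. If `u ∈ cmn j i2`: by `trp_two` at `l = i2 - 1` `u` is not adjacent to `x j (i2 - 3)`, by
`nbr_two` to no other position below `i2` of `O`; so the number in (a) is 1, and `rho_1 u = 0` (`trp_rho`): `rho_2 u = 1`.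
If `u ∉ cmn j i2`, suppose `rho_2 u = 1`: then `u ~ y2` or (`τ = 3` and) `u ~ x j i2`. `rho_1 u = 0`: otherwise `u ~ y1` or
`u ~ x j i1`, and a walk of length at most 4 in `L` between `x j i1` and `x j i2` (`nbr_far`, `nbr_mid`, `nbr_two`)
contradicts `i1 + 40 ≤ i2`. The same for `rho_3`. So by (a) there is `l < i2`, by (b) `l' > i2` in `O` adjacent to `u`,
`nbr_two`: `l = i2 - 1`, `l' = i2 + 1`, so `u ∈ cmn j i2`, contradiction.
-/

set_option autoImplicit false

open Finset
open scoped Classical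

namespace Pool.Agent.EAD

open Pool.Agent.BEO hiding Cfg Frame

variable {k C : ℕ} {V Q : Type} [Fintype V] [AddCommGroup Q] [Module F2 Q] {c : Cfg k V Q} (f : Frame C c)

variable {f} {j : Fin f.m} {τ : Fin 4} {i1 i2 i3 : ℕ} {y1 y2 y3 : V}

private theorem dr_ne {i : ℕ} {y u : V} (h : f.rho τ j i y u ≠ 0) :
    c.L.Adj y u ∨ c.L.Adj (f.x j i) u := by
  by_contra hcon
  push Not at hcon
  apply h
  unfold Frame.rho row
  rw [if_neg hcon.1, if_neg hcon.2, ite_self, add_zero]

private theorem dr_row {x u : V} (h : row c.L x u ≠ 0) : c.L.Adj x u := by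
  by_contra hcon
  apply h
  unfold row
  rw [if_neg hcon]

private theorem dr_far {a b : ℕ} {ya yb u : V} (hya : ya ∉ vs c.M) (hyb : yb ∉ vs c.M)
    (ha : c.L.Adj ya (f.x j a)) (hb : c.L.Adj yb (f.x j b)) (h1 : 5 ≤ a) (hab : a + 40 ≤ b)
    (h2 : b + 5 ≤ f.n j) (ra : f.rho τ j a ya u ≠ 0) (rb : f.rho τ j b yb u ≠ 0) : False := by
  rcases dr_ne ra with h3 | h3 <;> rcases dr_ne rb with h4 | h4
  · have := nbr_far f ya yb u hya hyb j j a b h1 (by omega) (by omega) (by omega) ha h3 h4.symm hb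
    omega
  · have := nbr_mid f ya u hya j j a b h1 (by omega) (by omega) (by omega) ha h3 h4.symm
    omega
  · have := nbr_mid f yb u hyb j j b a (by omega) (by omega) (by omega) (by omega) hb h4 h3.symm
    omega
  · have := nbr_two f u j j a b h1 (by omega) (by omega) (by omega) h3.symm h4.symm
    omega

private theorem dr_adj {i : ℕ} {y : V} (hτ : τ = 0 ∨ τ = 3) (h : f.Tr τ j i y) :
    c.L.Adj y (f.x j i) := by
  refine (h.2.2.2 j i (by have := h.2.1; omega) (by have := h.2.2.1; omega)).2 ⟨rfl, ?_⟩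
  rcases hτ with rfl | rfl
  · exact Or.inl ⟨rfl, rfl⟩
  · exact Or.inr (Or.inr (Or.inr ⟨rfl, Or.inr (Or.inl rfl)⟩))

theorem trp_rho2 (h : f.Trp j τ i1 i2 i3 y1 y2 y3) (u : V) :
    f.rho τ j i2 y2 u = if u ∈ f.cmn j i2 then 1 else 0 := by
  have p12 := h.p12
  have p23 := h.p23
  have g12 := h.g12
  have g23 := h.g23
  have hlo := (h.ok i1 le_rfl (by omega)).lo
  have hhi := (h.ok i3 (by omega) le_rfl).hi
  have hmem : u ∈ f.cmn j i2 ↔ c.L.Adj u (f.x j (i2 - 1)) ∧ c.L.Adj u (f.x j (i2 + 1)) := by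
    unfold Frame.cmn
    rw [mem_filter]
    exact ⟨fun h => h.2, fun h => ⟨mem_univ _, h⟩⟩
  have ea := rel f τ h.hτ j i1 i2 y1 y2 (by omega) p12 h.r12 u
  have eb := rel f τ h.hτ j i2 i3 y2 y3 (by omega) p23 h.r23 u
  by_cases hu : u ∈ f.cmn j i2
  · rw [if_pos hu]
    obtain ⟨a1, a2⟩ := hmem.1 hu
    have h0 := (trp_rho h (i2 - 1) (by omega) (by omega) u a1).1
    have hs : ∑ l ∈ (Ioo i1 i2).filter (fun l => (i1 + l) % 2 = 1), row c.L (f.x j l) u = 1 := by
      rw [Finset.sum_eq_single (i2 - 1)]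
      · unfold row
        rw [if_pos a1.symm]
      · intro l hl hne
        by_contra hcon
        have h3 := dr_row hcon
        have h4 := mem_filter.1 hl
        have h5 := mem_Ioo.1 h4.1
        have h6 := (nbr_two f u j j (i2 + 1) l (by omega) (by omega) (by omega) (by omega) a2
          h3.symm).2.2
        have h7 := h4.2
        omega
      · intro hcon
        exfalso
        apply hcon
        rw [mem_filter, mem_Ioo]
        omega
    rw [h0, hs, zero_add] at ea
    exact ea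
  · rw [if_neg hu]
    by_contra hne
    apply hu
    rw [hmem]
    have b1 := dr_adj h.hτ h.t1
    have b2 := dr_adj h.hτ h.t2
    have b3 := dr_adj h.hτ h.t3
    have h1 : f.rho τ j i1 y1 u = 0 := by
      by_contra hc
      exact dr_far h.t1.1 h.t2.1 b1 b2 (by omega) g12 (by omega) hc hne
    have h3 : f.rho τ j i3 y3 u = 0 := by
      by_contra hc
      exact dr_far h.t2.1 h.t3.1 b2 b3 (by omega) g23 (by omega) hne hc
    rw [h1, zero_add] at ea
    rw [h3, add_zero] at eb
    obtain ⟨l, hl, hl'⟩ := Finset.exists_ne_zero_of_sum_ne_zero (ea ▸ hne)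
    obtain ⟨m, hm, hm'⟩ := Finset.exists_ne_zero_of_sum_ne_zero (eb ▸ hne)
    have c1 := dr_row hl'
    have c2 := dr_row hm'
    have d1 := mem_filter.1 hl
    have d2 := mem_filter.1 hm
    have d3 := mem_Ioo.1 d1.1
    have d4 := mem_Ioo.1 d2.1
    have d5 := (nbr_two f u j j l m (by omega) (by omega) (by omega) (by omega) c1.symm c2.symm).2.1
    have e1 : l = i2 - 1 := by omega
    have e2 : m = i2 + 1 := by omega
    subst e1
    subst e2
    exact ⟨c1.symm, c2.symm⟩

end Pool.Agent.EAD
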