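import Pool.Agent.EAD.DOdd
import Pool.Agent.EAD.DGood
import Pool.Agent.EAD.CKB

/-!
# EAD-DRows: few different rows outside the good positions

A face outside all good twin classes is exceptional, or has the row of a position which is not good, or its
neighbours on the segments are positions which are not good; rows of the last kind with the same neighbours
differ by an element of `K`.
-/

set_option autoImplicit false

open Finset
open scoped Classical

namespace Pool.Agent.EAD

open Pool.Agent.BEO hiding Cfg Frame

section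

variable {k C : ℕ} {V Q : Type} [Fintype V] [AddCommGroup Q] [Module F2 Q] {c : Cfg k V Q} (f : Frame C c)

/-- the positions which are not good -/
private noncomputable def badP : Finset (Fin f.m × ℕ) :=
  univ.biUnion fun j => ((range (f.n j + 1)).filter fun i => ¬ f.Good j i).image fun i => (j, i)

private theorem mem_badP {j : Fin f.m} {i : ℕ} (h : i ≤ f.n j) (hg : ¬ f.Good j i) :
    (j, i) ∈ badP f := by
  unfold badP
  rw [mem_biUnion]
  refine ⟨j, mem_univ _, mem_image.2 ⟨i, ?_, rfl⟩⟩
  rw [mem_filter, mem_range]
  exact ⟨by omega, hg⟩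

private theorem card_badP {N : ℕ}
    (hN : ∀ j : Fin f.m, ((range (f.n j + 1)).filter fun i => ¬ f.Good j i).card ≤ N) :
    (badP f).card ≤ C * N := by
  unfold badP
  have h1 := card_biUnion_le_card_mul (univ : Finset (Fin f.m))
    (fun j => ((range (f.n j + 1)).filter fun i => ¬ f.Good j i).image fun i => (j, i)) N
    (fun j _ => card_image_le.trans (hN j))
  rw [card_univ, Fintype.card_fin] at h1
  exact h1.trans (Nat.mul_le_mul_right N f.hm)

/-- the faces whose neighbours on the segments are not good -/
private noncomputable def W3 : Finset V :=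
  univ.filter fun w => ∀ (j : Fin f.m) (l : ℕ), 1 ≤ l → l ≤ f.n j → c.L.Adj w (f.x j l) → ¬ f.Good j l

private theorem f2_eq {a b : F2} (h : a ≠ 0 ↔ b ≠ 0) : a = b := by
  revert a b
  decide

private theorem card_W3 : ((W3 f).image (row c.L)).card ≤ Nat.card f.K * 2 ^ (badP f).card := by
  have hfin : Finite f.K := Subtype.finite
  have h1 := card_le_mul_card_image_of_maps_to
    (s := (W3 f).image (row c.L)) (t := (badP f).powerset)
    (f := fun r : V → F2 => (badP f).filter fun p => r (f.x p.1 p.2) ≠ 0)
    (fun r _ => mem_powerset.2 (filter_subset _ _)) (Nat.card f.K) (by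
      intro T _
      rcases (((W3 f).image (row c.L)).filter fun r : V → F2 =>
        (badP f).filter (fun p => r (f.x p.1 p.2) ≠ 0) = T).eq_empty_or_nonempty with he | ⟨r0, hr0⟩
      · rw [he, card_empty]
        exact Nat.zero_le _
      · have hK : ((f.K : Set (V → F2)).toFinset).card = Nat.card f.K := by
          rw [Set.toFinset_card, ← Nat.card_eq_fintype_card]
          rfl
        rw [← hK]
        refine card_le_card_of_injOn (fun r => r - r0) ?_ ?_
        · intro r hr
          rw [mem_coe, mem_filter, mem_image] at hr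
          rw [mem_filter, mem_image] at hr0
          obtain ⟨⟨w, hw, hwr⟩, hrT⟩ := hr
          obtain ⟨⟨w0, hw0, hwr0⟩, hr0T⟩ := hr0
          rw [mem_coe, Set.mem_toFinset]
          refine ⟨Submodule.sub_mem _ (Submodule.subset_span ⟨w, hwr⟩)
            (Submodule.subset_span ⟨w0, hwr0⟩), ?_⟩
          intro j l hl1 hl2
          show r (f.x j l) - r0 (f.x j l) = 0
          rw [sub_eq_zero]
          by_cases hg : f.Good j l
          · have e1 : ¬ c.L.Adj w (f.x j l) := fun h =>
              (mem_filter.1 hw).2 j l (by omega) hl2 h hg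
            have e2 : ¬ c.L.Adj w0 (f.x j l) := fun h =>
              (mem_filter.1 hw0).2 j l (by omega) hl2 h hg
            rw [← hwr, ← hwr0, row, row, if_neg e1, if_neg e2]
          · have hp := mem_badP f hl2 hg
            apply f2_eq
            have h2 : (j, l) ∈ (badP f).filter (fun p => r (f.x p.1 p.2) ≠ 0) ↔
                (j, l) ∈ (badP f).filter (fun p => r0 (f.x p.1 p.2) ≠ 0) := by
              rw [hrT, hr0T]
            rw [mem_filter, mem_filter] at h2
            exact ⟨fun h => (h2.1 ⟨hp, h⟩).2, fun h => (h2.2 ⟨hp, h⟩).2⟩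
        · intro r _ r' _ h
          exact sub_left_injective h)
  rw [card_powerset] at h1
  exact h1

private theorem row_tw {j : Fin f.m} {i : ℕ} {w : V} (h : w ∈ f.tw j i) :
    row c.L w = row c.L (f.x j i) := by
  funext u
  unfold row
  exact if_congr ((mem_filter.1 h).2 u) rfl rfl

private theorem rows_sub :
    ((vs c.L).filter fun w => ∀ j i, f.Good j i → w ∉ f.tw j i).image (row c.L) ⊆
      (f.B.image (row c.L) ∪ (badP f).image fun p => row c.L (f.x p.1 p.2)) ∪
        (W3 f).image (row c.L) := by
  intro r hr
  obtain ⟨w, hw, rfl⟩ := mem_image.1 hr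
  have hw2 := (mem_filter.1 hw).2
  by_cases hM : w ∈ vs c.M
  · refine mem_union_left _ ?_
    rcases f.cov w hM with hB | ⟨j, l, h1, h2, rfl⟩
    · exact mem_union_left _ (mem_image_of_mem _ hB)
    · have hg : ¬ f.Good j l := fun h => hw2 j l h (mem_tw_self f j l)
      exact mem_union_right _ (mem_image.2 ⟨(j, l), mem_badP f h2 hg, rfl⟩)
  · by_cases h3 : w ∈ W3 f
    · exact mem_union_right _ (mem_image_of_mem _ h3)
    · refine mem_union_left _ (mem_union_right _ ?_)
      have h4 : ¬ ∀ (j : Fin f.m) (l : ℕ), 1 ≤ l → l ≤ f.n j → c.L.Adj w (f.x j l) →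
          ¬ f.Good j l := fun h => h3 (mem_filter.2 ⟨mem_univ _, h⟩)
      push Not at h4
      obtain ⟨j, l, h5, h6, h7, h8⟩ := h4
      have hok := (h8 l (by omega) (by omega)).ok
      have hlo := hok.lo
      have hhi := hok.hi
      rcases (nb_good f j l h8 l (by omega) (by omega) w).1 h7.symm with h9 | h9
      · have hg : ¬ f.Good j (l - 1) := fun h => hw2 j (l - 1) h h9
        exact mem_image.2 ⟨(j, l - 1), mem_badP f (by omega) hg, (row_tw f h9).symm⟩
      · have hg : ¬ f.Good j (l + 1) := fun h => hw2 j (l + 1) h h9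
        exact mem_image.2 ⟨(j, l + 1), mem_badP f (by omega) hg, (row_tw f h9).symm⟩

end

theorem card_rows (k C : ℕ) : ∃ N : ℕ, ∀ (V Q : Type) [Fintype V] [AddCommGroup Q] [Module F2 Q] (c : Cfg k V Q)
    (f : Frame C c), (((vs c.L).filter fun w => ∀ j i, f.Good j i → w ∉ f.tw j i).image (row c.L)).card ≤ N := by
  obtain ⟨N, hN⟩ := card_good k C
  refine ⟨C + C * N + 2 ^ (2 * k + 2 * C) * 2 ^ (C * N), ?_⟩
  intro V Q _ _ _ c f
  have h1 := card_badP f (hN V Q c f)
  have h2 := card_le_card (rows_sub f)
  have h3 := card_union_le (f.B.image (row c.L) ∪ (badP f).image fun p => row c.L (f.x p.1 p.2))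
    ((W3 f).image (row c.L))
  have h4 := card_union_le (f.B.image (row c.L)) ((badP f).image fun p => row c.L (f.x p.1 p.2))
  have h5 : (f.B.image (row c.L)).card ≤ C := card_image_le.trans f.hB
  have h6 : ((badP f).image fun p => row c.L (f.x p.1 p.2)).card ≤ C * N := card_image_le.trans h1
  have h7 : ((W3 f).image (row c.L)).card ≤ 2 ^ (2 * k + 2 * C) * 2 ^ (C * N) :=
    (card_W3 f).trans (Nat.mul_le_mul (card_K f) (Nat.pow_le_pow_right (by norm_num) h1))
  omega

end Pool.Agent.EAD
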