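import Pool.Agent.BEO.Dat

/-!
# EAD: chords at the vertices of a polyhedral embedding

`Φ` faces, `Vt` vertices, `fc v i` the face of the `i`-th corner at the vertex `v` (`i < d v`, in cyclic order). A chord
joins two corners of a vertex.
-/

set_option autoImplicit false

open Finset
open scoped Classical

namespace Pool.Agent.EAD

open Pool.Agent.BEO

/-- The corners of the faces at the vertices. -/
structure Cor (Φ Vt : Type) where
  /-- degree -/
  d : Vt → ℕ
  /-- face of a corner -/
  fc : Vt → ℕ → Φ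
  inj : ∀ v i j, i < d v → j < d v → fc v i = fc v j → i = j

variable {Φ Vt : Type}

/-- A chord: a vertex and two of its corners. -/
def Ch (P : Cor Φ Vt) : Type := {x : (v : Vt) × (Fin (P.d v) × Fin (P.d v)) // x.2.1 < x.2.2}

noncomputable instance (P : Cor Φ Vt) [Fintype Vt] : Fintype (Ch P) := by
  unfold Ch
  infer_instance

/-- the vertex of a chord -/
def Ch.vx {P : Cor Φ Vt} (e : Ch P) : Vt := e.1.1

/-- the first corner of a chord -/
def Ch.lo {P : Cor Φ Vt} (e : Ch P) : ℕ := e.1.2.1

/-- the second corner of a chord -/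
def Ch.hi {P : Cor Φ Vt} (e : Ch P) : ℕ := e.1.2.2

/-- the face `F` has a corner at `v` -/
def On (P : Cor Φ Vt) (v : Vt) (F : Φ) : Prop := ∃ i, i < P.d v ∧ P.fc v i = F

/-- neighbouring corners -/
def Nxt (P : Cor Φ Vt) (v : Vt) (i j : ℕ) : Prop :=
  i + 1 = j ∨ j + 1 = i ∨ (i = 0 ∧ j + 1 = P.d v) ∨ (j = 0 ∧ i + 1 = P.d v)

/-- two corners which are not neighbours -/
def Ch.Long {P : Cor Φ Vt} (e : Ch P) : Prop := ¬ Nxt P e.vx e.lo e.hi

/-- number of chords of `lam` at `v` from the corners `a, ..., b - 1` to the corners `c, ..., f - 1` -/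
noncomputable def cnt {P : Cor Φ Vt} (lam : Finset (Ch P)) (v : Vt) (a b c f : ℕ) : ℕ :=
  (lam.filter fun e => e.vx = v ∧ a ≤ e.lo ∧ e.lo < b ∧ c ≤ e.hi ∧ e.hi < f).card

/-- The four arc condition: `lam` comes from a map. -/
def Real (P : Cor Φ Vt) (lam : Finset (Ch P)) : Prop :=
  ∀ v l m n, 0 < l → l < m → m < n → n < P.d v → ¬ (Odd (cnt lam v 0 l m n) ∧ Odd (cnt lam v l m n (P.d v)))

/-- The corners of a polyhedral embedding. -/
structure Pol (P : Cor Φ Vt) : Prop where
  /-- two faces with two common vertices are neighbours at each of them -/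
  two : ∀ v v' F G, v ≠ v' → F ≠ G → On P v F → On P v G → On P v' F → On P v' G →
    ∀ i j, i < P.d v → j < P.d v → P.fc v i = F → P.fc v j = G → Nxt P v i j
  /-- two faces have at most two common vertices -/
  three : ∀ v v' v'' F G, v ≠ v' → v ≠ v'' → v' ≠ v'' → F ≠ G → On P v F → On P v G → On P v' F → On P v' G →
    On P v'' F → On P v'' G → False
  /-- two neighbouring faces have two common vertices -/
  nbr : ∀ v i j, i < P.d v → j < P.d v → i ≠ j → Nxt P v i j →
    ∃ v', v' ≠ v ∧ On P v' (P.fc v i) ∧ On P v' (P.fc v j)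
  /-- two vertices have at most two common faces -/
  faces : ∀ v v' F G K, v ≠ v' → F ≠ G → F ≠ K → G ≠ K → On P v F → On P v G → On P v K → On P v' F →
    On P v' G → On P v' K → False
  /-- no three by three faces with nine different common vertices -/
  k33 : ∀ (f g : Fin 3 → Φ) (w : Fin 3 → Fin 3 → Vt), (∀ i j, f i = f j → i = j) → (∀ i j, g i = g j → i = j) →
    (∀ i j, f i ≠ g j) → (∀ i j i' j', w i j = w i' j' → i = i' ∧ j = j') →
    (∀ i j, On P (w i j) (f i) ∧ On P (w i j) (g j)) → False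

/-- A polyhedral wide embedding: corners and linear data. -/
structure Sys (k : ℕ) (Φ Vt Z : Type) [Fintype Φ] [Fintype Vt] [AddCommGroup Z] [Module F2 Z] where
  /-- the corners -/
  P : Cor Φ Vt
  pol : Pol P
  /-- the linear data -/
  D : Dat k Φ (Ch P) Z
  hs : ∀ e, D.s e = P.fc e.vx e.lo
  ht : ∀ e, D.t e = P.fc e.vx e.hi
  /-- the coordinate of a corner -/
  c : Vt → ℕ → (Z →ₗ[F2] F2)
  hc : ∀ e, D.a e = c e.vx e.lo + c e.vx e.hi

end Pool.Agent.EAD
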