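import Pool.Agent.EAD.WCyc

/-!
# EAD-WRun: erasing two equal letters of a run
-/

set_option autoImplicit false

open Finset
open scoped Classical

namespace Pool.Agent.EAD

variable {A : Type} [Fintype A]

private theorem pr_er {κ : ℕ → Option A} {i j : ℕ} {u : A} (hij : i < j) (ki : κ i = some u) (kj : κ j = some u)
    (c : ℕ) : pr (fun l => if l = i ∨ l = j then none else κ l) c =
      pr κ c + (if i < c ∧ c ≤ j then Pi.single u 1 else 0) := by
  obtain ⟨κ', hκ'⟩ : ∃ κ' : ℕ → Option A, κ' = fun l => if l = i ∨ l = j then none else κ l := ⟨_, rfl⟩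
  rw [← hκ']
  have e0 : ∀ l, (l = i ∨ l = j) → κ' l = none := by
    intro l hl
    rw [hκ']
    exact if_pos hl
  have e1 : ∀ l, ¬ (l = i ∨ l = j) → κ' l = κ l := by
    intro l hl
    rw [hκ']
    exact if_neg hl
  have step0 : ∀ (κ : ℕ → Option A) (c : ℕ), κ c = none → pr κ (c + 1) = pr κ c := by
    intro κ c h
    refine pr_none κ (Nat.le_succ c) fun l h1 h2 => ?_
    have : l = c := by omega
    rw [this, h]
  induction c with
  | zero =>
    rw [pr_zero, pr_zero, if_neg (by omega), add_zero]
  | succ c ih =>
    by_cases h1 : c = i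
    · rw [step0 κ' c (e0 c (Or.inl h1)), ih, pr_some κ (by rw [h1]; exact ki), if_neg (by omega),
        if_pos ⟨by omega, by omega⟩]
      funext x
      exact (by decide : ∀ p q : ZMod 2, p + 0 = p + q + q) _ _
    · by_cases h2 : c = j
      · rw [step0 κ' c (e0 c (Or.inr h2)), ih, pr_some κ (by rw [h2]; exact kj), if_pos ⟨by omega, by omega⟩,
          if_neg (by omega)]
        funext x
        exact (by decide : ∀ p q : ZMod 2, p + q = p + q + 0) _ _
      · have h3 := e1 c (by omega)
        have h4 : (i < c + 1 ∧ c + 1 ≤ j) ↔ (i < c ∧ c ≤ j) := by omega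
        rcases hk : κ c with _ | a
        · rw [step0 κ' c (by rw [h3, hk]), step0 κ c hk, ih]
          simp only [h4]
        · rw [pr_some κ' (by rw [h3, hk]), pr_some κ hk, ih]
          simp only [h4]
          funext x
          exact (by decide : ∀ p q r : ZMod 2, p + q + r = p + r + q) _ _ _

theorem erase_run {B : A → A → Prop} {d : ℕ} {κ : ℕ → Option A} (h : Four B d κ) {i j : ℕ} {u : A} (hij : i < j)
    (hj : j < d) (ki : κ i = some u) (kj : κ j = some u) (g : ∀ l, i < l → l < j → κ l = none ∨ κ l = some u) :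
    Four B d (fun l => if l = i ∨ l = j then none else κ l) := by
  obtain ⟨st, hst⟩ : ∃ st : ℕ → ℕ, st = fun c => if i < c ∧ c ≤ j then Nat.findGreatest (fun l => κ l = some u) (c - 1)
      else c := ⟨_, rfl⟩
  have s1 : ∀ c, i < c ∧ c ≤ j → st c = Nat.findGreatest (fun l => κ l = some u) (c - 1) := by
    intro c hc
    rw [hst]
    exact if_pos hc
  have s2 : ∀ c, ¬ (i < c ∧ c ≤ j) → st c = c := by
    intro c hc
    rw [hst]
    exact if_neg hc
  have s3 : ∀ c, i < c ∧ c ≤ j → i ≤ st c ∧ st c ≤ c - 1 := by
    intro c hc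
    rw [s1 c hc]
    exact ⟨Nat.le_findGreatest (by omega) ki, Nat.findGreatest_le _⟩
  have s4 : ∀ c, st c ≤ c := by
    intro c
    by_cases hc : i < c ∧ c ≤ j
    · have := (s3 c hc).2
      omega
    · rw [s2 c hc]
  have mono : ∀ c c', c ≤ c' → st c ≤ st c' := by
    intro c c' hcc
    by_cases hc : i < c ∧ c ≤ j
    · by_cases hc' : i < c' ∧ c' ≤ j
      · rw [s1 c hc, s1 c' hc']
        exact Nat.findGreatest_mono_right _ (by omega)
      · rw [s2 c' hc']
        have := s4 c
        omega
    · rw [s2 c hc]
      by_cases hc' : i < c' ∧ c' ≤ j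
      · have := (s3 c' hc').1
        omega
      · rw [s2 c' hc']
        exact hcc
  have key : ∀ c, pr (fun l => if l = i ∨ l = j then none else κ l) c = pr κ (st c) := by
    intro c
    rw [pr_er hij ki kj]
    by_cases hc : i < c ∧ c ≤ j
    · rw [if_pos hc]
      have h1 := s3 c hc
      have h2 : κ (st c) = some u := by
        rw [s1 c hc]
        exact Nat.findGreatest_spec (P := fun l => κ l = some u) (m := i) (by omega) ki
      have h3 : pr κ c = pr κ (st c + 1) := by
        refine pr_none κ (by omega) fun l h4 h5 => ?_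
        have h6 : κ l ≠ some u := by
          have h7 : Nat.findGreatest (fun l => κ l = some u) (c - 1) < l := by
            rw [← s1 c hc]
            omega
          exact Nat.findGreatest_is_greatest h7 (by omega)
        rcases g l (by omega) (by omega) with h7 | h7
        · exact h7
        · exact absurd h7 h6
      rw [h3, pr_some κ h2]
      funext x
      exact (by decide : ∀ p q : ZMod 2, p + q + q = p) _ _
    · rw [if_neg hc, s2 c hc, add_zero]
  rw [four_iff] at h ⊢
  intro l m n h1 h2 h3
  rw [key l, key m, key n, key d]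
  have h4 := h (st l) (st m) (st n) (mono l m h1) (mono m n h2) ((s4 n).trans h3)
  rw [s2 d (by omega)]
  exact h4

end Pool.Agent.EAD
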