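import Pool.Agent.EAD.KWrd
import Pool.Agent.EAD.WFin
import Pool.Agent.EAD.XE2

/-!
# EAD-KErs: erasing two twins at a vertex

The letters are the rows of the exceptional faces; two letters are related if faces with these rows are adjacent. By
`hE.priv` the word of the corners at `v` describes the chords at `v` (`realAt_iff`), and `vertex_erase` applies.
-/

set_option autoImplicit false

open Finset
open scoped Classical

namespace Pool.Agent.EAD

open Pool.Agent.BEO hiding Cfg Frame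

private theorem ke_row {Φ : Type} {G : SimpleGraph Φ} {p q : Φ} (h : row G p = row G q) (w : Φ) :
    G.Adj p w ↔ G.Adj q w := by
  have h1 := congrFun h w
  unfold row at h1
  by_cases h2 : G.Adj p w <;> by_cases h3 : G.Adj q w
  · exact ⟨fun _ => h3, fun _ => h2⟩
  · rw [if_pos h2, if_neg h3] at h1
    exact absurd h1 one_ne_zero
  · rw [if_neg h2, if_pos h3] at h1
    exact absurd h1.symm one_ne_zero
  · exact ⟨fun h => absurd h h2, fun h => absurd h h3⟩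

/-- letters -/
private def KA {Φ : Type} (G : SimpleGraph Φ) (E2 : Finset Φ) : Type := {r : Φ → F2 // ∃ p ∈ E2, row G p = r}

/-- the relation on the letters -/
private def KB {Φ : Type} (G : SimpleGraph Φ) (E2 : Finset Φ) (a b : KA G E2) : Prop :=
  ∃ p ∈ E2, ∃ q ∈ E2, row G p = a.1 ∧ row G q = b.1 ∧ G.Adj p q

private theorem kb_iff {Φ : Type} (G : SimpleGraph Φ) (E2 : Finset Φ) {p q : Φ} (hp : p ∈ E2) (hq : q ∈ E2)
    (a b : KA G E2) (ha : a.1 = row G p) (hb : b.1 = row G q) : KB G E2 a b ↔ G.Adj p q := by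
  constructor
  · rintro ⟨p', _, q', _, h1, h2, h3⟩
    have h4 : G.Adj p q' := (ke_row (h1.trans ha) q').1 h3
    exact ((ke_row (h2.trans hb) p).1 h4.symm).symm
  · intro h
    exact ⟨p, hp, q, hq, ha.symm, hb.symm, h⟩

private theorem kb_symm {Φ : Type} (G : SimpleGraph Φ) (E2 : Finset Φ) (a b : KA G E2) (h : KB G E2 a b) :
    KB G E2 b a := by
  obtain ⟨p, hp, q, hq, h1, h2, h3⟩ := h
  exact ⟨q, hq, p, hp, h2, h1, h3.symm⟩

private theorem kb_irr {Φ : Type} (G : SimpleGraph Φ) (E2 : Finset Φ) (a : KA G E2) : ¬ KB G E2 a a := by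
  rintro ⟨p, hp, q, hq, h1, h2, h3⟩
  exact G.loopless.irrefl q ((ke_row (h1.trans h2.symm) q).1 h3)

/-- the word -/
private noncomputable def KW {Φ : Type} (G : SimpleGraph Φ) (E2 : Finset Φ) (d : ℕ) (fc : ℕ → Φ) (i : ℕ) :
    Option (KA G E2) :=
  if h : i < d ∧ fc i ∈ E2 then some ⟨row G (fc i), fc i, h.2, rfl⟩ else none

private theorem kw_some {Φ : Type} {G : SimpleGraph Φ} {E2 : Finset Φ} {d : ℕ} {fc : ℕ → Φ} {i : ℕ}
    {a : KA G E2} (h : KW G E2 d fc i = some a) : fc i ∈ E2 ∧ a.1 = row G (fc i) := by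
  unfold KW at h
  split_ifs at h with h1
  exact ⟨h1.2, (congrArg (fun x : KA G E2 => x.1) (Option.some.inj h)).symm⟩

private theorem kw_pos {Φ : Type} {G : SimpleGraph Φ} {E2 : Finset Φ} {d : ℕ} {fc : ℕ → Φ} {i : ℕ}
    (h1 : i < d) (h2 : fc i ∈ E2) : ∃ a : KA G E2, KW G E2 d fc i = some a ∧ a.1 = row G (fc i) := by
  unfold KW
  rw [dif_pos ⟨h1, h2⟩]
  exact ⟨_, rfl, rfl⟩

private theorem kw_rl {Φ : Type} {G : SimpleGraph Φ} {E2 : Finset Φ} {d : ℕ} {fc : ℕ → Φ}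
    (hE : ∀ i j, i < d → j < d → G.Adj (fc i) (fc j) → fc i ∈ E2) (i j : ℕ) (hi : i < d) (hj : j < d) :
    G.Adj (fc i) (fc j) ↔ rl (KB G E2) (KW G E2 d fc) i j := by
  constructor
  · intro h
    obtain ⟨a, ha, ha'⟩ := kw_pos (G := G) hi (hE i j hi hj h)
    obtain ⟨b, hb, hb'⟩ := kw_pos (G := G) hj (hE j i hj hi h.symm)
    exact ⟨a, b, ha, hb, (kb_iff G E2 (hE i j hi hj h) (hE j i hj hi h.symm) a b ha' hb').2 h⟩
  · rintro ⟨a, b, ha, hb, hab⟩
    obtain ⟨h1, h2⟩ := kw_some ha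
    obtain ⟨h3, h4⟩ := kw_some hb
    exact (kb_iff G E2 h1 h3 a b h2 h4).1 hab

private theorem delF_adj {k : ℕ} {Φ Vt Z : Type} [Fintype Φ] [Fintype Vt] [AddCommGroup Z] [Module F2 Z]
    (S : Sys k Φ Vt Z) (lam : Finset (Ch S.P)) (T : Finset Φ) (p q : Φ) :
    (S.D.gr (delF S lam T)).Adj p q ↔ (S.D.gr lam).Adj p q ∧ p ∉ T ∧ q ∉ T := by
  constructor
  · rintro ⟨h1, e, he, h2⟩
    unfold delF at he
    rw [mem_filter] at he
    refine ⟨⟨h1, e, he.1, h2⟩, ?_⟩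
    rcases h2 with ⟨rfl, rfl⟩ | ⟨rfl, rfl⟩
    · exact he.2
    · exact ⟨he.2.2, he.2.1⟩
  · rintro ⟨⟨h1, e, he, h2⟩, h3, h4⟩
    refine ⟨h1, e, ?_, h2⟩
    unfold delF
    rw [mem_filter]
    refine ⟨he, ?_⟩
    rcases h2 with ⟨rfl, rfl⟩ | ⟨rfl, rfl⟩
    · exact ⟨h3, h4⟩
    · exact ⟨h4, h3⟩

theorem real_erase (N : ℕ) : ∃ N' : ℕ, ∀ (k : ℕ) (Φ Vt Z : Type) [Fintype Φ] [Fintype Vt] [AddCommGroup Z]
    [Module F2 Z] [Module.Finite F2 Z] (S : Sys k Φ Vt Z) (lam mu : Finset (Ch S.P)) (_ : Ext S lam mu)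
    (E2 : Finset Φ) (_ : E2S S lam mu N E2) (v : Vt) (Y0 : Finset Φ), (∀ y ∈ Y0, y ∈ Yf S lam mu ∧ On S.P v y) →
    N' < Y0.card → ∃ y ∈ Y0, ∃ y' ∈ Y0, y ≠ y' ∧ row (S.D.gr lam) y = row (S.D.gr lam) y' ∧
      RealAt S.P (delF S lam {y, y'}) v := by
  obtain ⟨N', hN'⟩ := vertex_erase N
  refine ⟨N', ?_⟩
  intro k Φ Vt Z _ _ _ _ _ S lam mu h E2 hE v Y0 hY hcard
  obtain ⟨y0, hy0⟩ : Y0.Nonempty := card_pos.1 (by omega)
  obtain ⟨hy1, hy2⟩ := hY y0 hy0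
  have hpriv : ∀ i j, i < S.P.d v → j < S.P.d v →
      (S.D.gr lam).Adj (S.P.fc v i) (S.P.fc v j) → S.P.fc v i ∈ E2 := fun i j hi hj hij =>
    hE.priv v y0 hy1 hy2 _ _ ⟨i, hi, rfl⟩ ⟨j, hj, rfl⟩ hij
  let eA : ↥(E2.image (row (S.D.gr lam))) ≃ KA (S.D.gr lam) E2 :=
    ⟨fun x => ⟨x.1, mem_image.1 x.2⟩, fun x => ⟨x.1, mem_image.2 x.2⟩, fun _ => rfl, fun _ => rfl⟩
  let iA : Fintype (KA (S.D.gr lam) E2) := Fintype.ofEquiv _ eA
  have hA : Fintype.card (KA (S.D.gr lam) E2) ≤ N := by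
    rw [Fintype.card_congr eA.symm, Fintype.card_coe]
    exact hE.card
  have hreal : RealAt S.P lam v := (real_iff S.P lam).1 h.real v
  have hfour := (realAt_iff S lam v (KB (S.D.gr lam) E2) (KW (S.D.gr lam) E2 (S.P.d v) (S.P.fc v))
    (kw_rl hpriv)).1 hreal
  have hmem : ∀ i, i ∈ (range (S.P.d v)).filter (fun i => S.P.fc v i ∈ Y0) ↔
      i < S.P.d v ∧ S.P.fc v i ∈ Y0 := fun i => by rw [mem_filter, mem_range]
  have hE2 : ∀ i, S.P.fc v i ∈ Y0 → S.P.fc v i ∈ E2 := fun i hi => hE.sub (hY _ hi).1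
  have hSp : N' < ((range (S.P.d v)).filter (fun i => S.P.fc v i ∈ Y0)).card := by
    refine lt_of_lt_of_le hcard ?_
    refine le_trans (card_le_card ?_) (card_image_le (f := S.P.fc v))
    intro y hy
    obtain ⟨i, hi, hiy⟩ := (hY y hy).2
    exact mem_image.2 ⟨i, (hmem i).2 ⟨hi, by rw [hiy]; exact hy⟩, hiy⟩
  obtain ⟨i, hi, j, hj, hij, hκ, h4⟩ := hN' (KA (S.D.gr lam) E2) hA (KB (S.D.gr lam) E2)
    (kb_symm _ _) (kb_irr _ _) (S.P.d v) _ hfour
    ((range (S.P.d v)).filter (fun i => S.P.fc v i ∈ Y0)) (fun i hi => by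
      obtain ⟨h1, h2⟩ := (hmem i).1 hi
      obtain ⟨a, ha, -⟩ := kw_pos (G := S.D.gr lam) h1 (hE2 i h2)
      exact ⟨h1, by rw [ha]; exact Option.some_ne_none a⟩) hSp
  obtain ⟨hi1, hi2⟩ := (hmem i).1 hi
  obtain ⟨hj1, hj2⟩ := (hmem j).1 hj
  have hinj : ∀ a b, a < S.P.d v → b < S.P.d v → (S.P.fc v a = S.P.fc v b ↔ a = b) :=
    fun a b ha hb => ⟨S.P.inj v a b ha hb, fun hab => by rw [hab]⟩
  refine ⟨S.P.fc v i, hi2, S.P.fc v j, hj2, fun hh => hij ((hinj i j hi1 hj1).1 hh), ?_, ?_⟩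
  · obtain ⟨a, ha, ha'⟩ := kw_pos (G := S.D.gr lam) hi1 (hE2 i hi2)
    obtain ⟨b, hb, hb'⟩ := kw_pos (G := S.D.gr lam) hj1 (hE2 j hj2)
    rw [ha, hb, Option.some.injEq] at hκ
    rw [← ha', ← hb', hκ]
  · refine (realAt_iff S _ v (KB (S.D.gr lam) E2) _ ?_).2 h4
    intro a b ha hb
    rw [delF_adj, kw_rl hpriv a b ha hb, mem_insert, mem_singleton, mem_insert, mem_singleton,
      hinj a i ha hi1, hinj a j ha hj1, hinj b i hb hi1, hinj b j hb hj1]
    constructor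
    · rintro ⟨⟨x, y, h5, h6, h7⟩, h8, h9⟩
      refine ⟨x, y, ?_, ?_, h7⟩
      · show (if a = i ∨ a = j then none else _) = _
        rw [if_neg h8]
        exact h5
      · show (if b = i ∨ b = j then none else _) = _
        rw [if_neg h9]
        exact h6
    · rintro ⟨x, y, h5, h6, h7⟩
      have h5' : (if a = i ∨ a = j then none else
        KW (S.D.gr lam) E2 (S.P.d v) (S.P.fc v) a) = some x := h5
      have h6' : (if b = i ∨ b = j then none else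
        KW (S.D.gr lam) E2 (S.P.d v) (S.P.fc v) b) = some y := h6
      have h8 : ¬ (a = i ∨ a = j) := by
        intro hh
        rw [if_pos hh] at h5'
        exact Option.some_ne_none x h5'.symm
      have h9 : ¬ (b = i ∨ b = j) := by
        intro hh
        rw [if_pos hh] at h6'
        exact Option.some_ne_none y h6'.symm
      rw [if_neg h8] at h5'
      rw [if_neg h9] at h6'
      exact ⟨⟨x, y, h5', h6', h7⟩, h8, h9⟩

end Pool.Agent.EAD
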