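import Pool.Agent.EAD.KRow
import Pool.Agent.EAD.Defs

/-!
# EAD-KMat: Lemma K: a bound for matchings of faces

Three applications of `block` to the vertices common to `f i` and `g j`.
-/

set_option autoImplicit false

open Finset
open scoped Classical

namespace Pool.Agent.EAD

open Pool.Agent.BEO

variable {Φ Vt : Type}

/-- one application of `block` to the faces `f i` and `g j` -/
private theorem km_block (r : ℕ) : ∃ N : ℕ, ∀ (Φ Vt : Type) (P : Cor Φ Vt), Pol P → ∀ (m : ℕ) (f g : Fin m → Φ),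
    (∀ i j, f i = f j → i = j) → (∀ i j, g i = g j → i = j) → (∀ i j, f i ≠ g j) →
    (∀ i j, ∃ x, On P x (f i) ∧ On P x (g j)) → ∀ I J : Finset (Fin m), N ≤ I.card → N ≤ J.card →
    ∃ x, ∃ I' ⊆ I, ∃ J' ⊆ J, r ≤ I'.card ∧ r ≤ J'.card ∧ (∀ i ∈ I', On P x (f i)) ∧ ∀ j ∈ J', On P x (g j) := by
  obtain ⟨N, hN⟩ := block r
  refine ⟨N, ?_⟩
  intro Φ Vt P hP m f g hf hg hfg hx I J hI hJ
  choose w hw using hx
  rcases hN (Fin m) (Fin m) Vt (fun i x => On P x (f i)) (fun j x => On P x (g j)) w I J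
    (fun i _ j _ => hw i j)
    (fun i _ i' _ hii x y z hxy hxz hyz h1 h2 h3 h4 h5 h6 =>
      hP.three x y z (f i) (f i') hxy hxz hyz (fun h => hii (hf _ _ h)) h1 h4 h2 h5 h3 h6)
    (fun x y hxy j1 _ j2 _ j3 _ h12 h13 h23 h1 h2 h3 h4 h5 h6 =>
      hP.faces x y (g j1) (g j2) (g j3) hxy (fun h => h12 (hg _ _ h)) (fun h => h13 (hg _ _ h))
        (fun h => h23 (hg _ _ h)) h1 h2 h3 h4 h5 h6) hI hJ with h | h
  · obtain ⟨a, b, _, _, ha, hb, hab⟩ := h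
    exact (hP.k33 (fun i => f (a i)) (fun i => g (b i)) (fun i j => w (a i) (b j))
      (fun i j h => ha i j (hf _ _ h)) (fun i j h => hb i j (hg _ _ h)) (fun i j => hfg _ _) hab
      (fun i j => hw _ _)).elim
  · exact h

private theorem km_eq {P : Cor Φ Vt} (hP : Pol P) {m : ℕ} (f : Fin m → Φ) (hf : ∀ i j, f i = f j → i = j)
    (x y : Vt) (I : Finset (Fin m)) (hI : 3 ≤ I.card) (h1 : ∀ i ∈ I, On P x (f i)) (h2 : ∀ i ∈ I, On P y (f i)) :
    x = y := by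
  by_contra hxy
  obtain ⟨a, ha, b, hb, c, hc, hab, hac, hbc⟩ := Finset.two_lt_card.1 hI
  exact hP.faces x y (f a) (f b) (f c) hxy (fun h => hab (hf _ _ h)) (fun h => hac (hf _ _ h))
    (fun h => hbc (hf _ _ h)) (h1 a ha) (h1 b hb) (h1 c hc) (h2 a ha) (h2 b hb) (h2 c hc)

theorem matching_bound : ∃ m0 : ℕ, ∀ (Φ Vt : Type) (P : Cor Φ Vt), Pol P → ∀ (m : ℕ) (f g : Fin m → Φ) (v : Fin m → Vt),
    (∀ i j, f i = f j → i = j) → (∀ i j, g i = g j → i = j) → (∀ i j, f i ≠ g j) → (∀ i j, v i = v j → i = j) →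
    (∀ i, On P (v i) (f i) ∧ On P (v i) (g i)) → (∀ i x, On P x (f i) → On P x (g i) → x = v i) →
    (∀ i j, ∃ x, On P x (f i) ∧ On P x (g j)) → m ≤ m0 := by
  obtain ⟨N3, h3⟩ := km_block 3
  obtain ⟨N2, h2⟩ := km_block (max 3 N3)
  obtain ⟨N1, h1⟩ := km_block N2
  refine ⟨N1, ?_⟩
  intro Φ Vt P hP m f g v hf hg hfg hv hon huniq hx
  by_contra hcon
  push Not at hcon
  have hcard : N1 ≤ (Finset.univ : Finset (Fin m)).card := by
    rw [Finset.card_univ, Fintype.card_fin]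
    exact hcon.le
  obtain ⟨x, I1, _, J1, _, hI1, hJ1, hx1, hx2⟩ := h1 Φ Vt P hP m f g hf hg hfg hx univ univ hcard hcard
  obtain ⟨y, J2, _, I2, hI2s, _, hI2, _, hy2⟩ := h2 Φ Vt P hP m f g hf hg hfg hx J1 I1 hJ1 hI1
  have hI2' : N3 ≤ I2.card := le_trans (le_max_right _ _) hI2
  have hI2'' : 3 ≤ I2.card := le_trans (le_max_left _ _) hI2
  obtain ⟨z, I3, hI3s, J3, hJ3s, hI3, hJ3, hz1, hz2⟩ := h3 Φ Vt P hP m f g hf hg hfg hx I2 I2 hI2' hI2'
  have hxz : x = z := km_eq hP f hf x z I3 hI3 (fun i hi => hx1 i (hI2s (hI3s hi))) hz1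
  have hyz : y = z := km_eq hP g hg y z J3 hJ3 (fun j hj => hy2 j (hJ3s hj)) hz2
  obtain ⟨a, ha, b, hb, c, _, hab, _, _⟩ := Finset.two_lt_card.1 hI2''
  have key : ∀ i ∈ I2, x = v i := by
    intro i hi
    apply huniq i x (hx1 i (hI2s hi))
    rw [hxz, ← hyz]
    exact hy2 i hi
  exact hab (hv a b ((key a ha).symm.trans (key b hb)))

end Pool.Agent.EAD
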