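import Mathlib

/-!
# EAD: the four arc condition for words (definitions)
-/

set_option autoImplicit false

open Finset
open scoped Classical

namespace Pool.Agent.EAD

/-- the letters at `i` and `j` are related -/
def rl {A : Type} (B : A → A → Prop) (κ : ℕ → Option A) (i j : ℕ) : Prop :=
  ∃ a b, κ i = some a ∧ κ j = some b ∧ B a b

/-- number of related pairs between two intervals -/
noncomputable def cw {A : Type} (B : A → A → Prop) (κ : ℕ → Option A) (a b c f : ℕ) : ℕ :=
  ((Ico a b ×ˢ Ico c f).filter fun p => rl B κ p.1 p.2).card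

/-- the four arc condition -/
def Four {A : Type} (B : A → A → Prop) (d : ℕ) (κ : ℕ → Option A) : Prop :=
  ∀ l m n, 0 < l → l < m → m < n → n < d → ¬ (Odd (cw B κ 0 l m n) ∧ Odd (cw B κ l m n d))

end Pool.Agent.EAD
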