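import Pool.Agent.EAD.LRect

/-!
# EAD-LK33: no three by three faces with nine different common vertices

With the colourings `κ1, κ2, κ3, κ4` of the rectangles `{0, 1} x {0, 1}`, `{0, 2} x {1, 2}`, `{1, 2} x {1, 2}`, `{0, 1} x {0, 2}` the
sum of all four is constant, hence zero; the product `κ1 * κ2` summed over the flags of the face `f 0` gives `κ1 + κ2 = 1` at
the vertex `w 0 1`, where `κ3` and `κ4` vanish.
-/

set_option autoImplicit false

open Finset
open scoped Classical

namespace Pool.Agent.EAD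

open Pool.Agent.BEO
open Pool.Agent.Helper35.OG hiding F2 dg

variable {V : Type} {G : SimpleGraph V} [Fintype V]

omit [Fintype V] in
private theorem lk_sum (S : GMap G) (f g : Fin 3 → S.Face) (w : Fin 3 → Fin 3 → V)
    (hw : ∀ i j i' j', w i j = w i' j' → i = i' ∧ j = j') (R : Finset (Fin 3 × Fin 3)) (q : Flag G) :
    (if HitR S f g w R q then (1 : F2) else 0) =
      ∑ x ∈ R, if q.1.fst = w x.1 x.2 ∧ (S.face q = f x.1 ∨ S.face q = g x.2) then (1 : F2) else 0 := by
  by_cases h : HitR S f g w R q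
  · rw [if_pos h]
    obtain ⟨x, hx, h1, h2⟩ := h
    rw [Finset.sum_eq_single x, if_pos ⟨h1, h2⟩]
    · intro y _ hne
      rw [if_neg]
      rintro ⟨h3, _⟩
      apply hne
      obtain ⟨h4, h5⟩ := hw _ _ _ _ (h3.symm.trans h1)
      exact Prod.ext h4 h5
    · intro h3
      exact absurd hx h3
  · rw [if_neg h, Finset.sum_eq_zero]
    intro x hx
    rw [if_neg]
    intro h1
    exact h ⟨x, hx, h1.1, h1.2⟩

private theorem lk_even (h : Fin 3 × Fin 3 → F2) :
    (∑ x ∈ rect 0 1 0 1, h x) + (∑ x ∈ rect 0 2 1 2, h x) + (∑ x ∈ rect 1 2 1 2, h x) + (∑ x ∈ rect 0 1 0 2, h x) = 0 := by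
  have h2 : ∀ x : F2, x + x = 0 := by decide
  have e1 : ∑ x ∈ rect 0 1 0 1, h x = h (0, 0) + (h (1, 0) + (h (1, 1) + h (0, 1))) := by
    unfold rect
    rw [Finset.sum_insert (by decide), Finset.sum_insert (by decide), Finset.sum_insert (by decide),
      Finset.sum_singleton]
  have e2 : ∑ x ∈ rect 0 2 1 2, h x = h (0, 1) + (h (2, 1) + (h (2, 2) + h (0, 2))) := by
    unfold rect
    rw [Finset.sum_insert (by decide), Finset.sum_insert (by decide), Finset.sum_insert (by decide),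
      Finset.sum_singleton]
  have e3 : ∑ x ∈ rect 1 2 1 2, h x = h (1, 1) + (h (2, 1) + (h (2, 2) + h (1, 2))) := by
    unfold rect
    rw [Finset.sum_insert (by decide), Finset.sum_insert (by decide), Finset.sum_insert (by decide),
      Finset.sum_singleton]
  have e4 : ∑ x ∈ rect 0 1 0 2, h x = h (0, 0) + (h (1, 0) + (h (1, 2) + h (0, 2))) := by
    unfold rect
    rw [Finset.sum_insert (by decide), Finset.sum_insert (by decide), Finset.sum_insert (by decide),
      Finset.sum_singleton]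
  rw [e1, e2, e3, e4]
  linear_combination h2 (h (0, 0)) + h2 (h (1, 0)) + h2 (h (1, 1)) + h2 (h (0, 1)) + h2 (h (2, 1)) + h2 (h (2, 2)) +
    h2 (h (0, 2)) + h2 (h (1, 2))

private theorem lk_x1 : ∀ x : Fin 3, ((0 : Fin 3), x) ∈ rect 0 1 0 1 → ¬ x = 0 → x = 1 := by decide

private theorem lk_x2 : ∀ x : Fin 3, ((0 : Fin 3), x) ∈ rect 0 2 1 2 → ¬ x = 2 → x = 1 := by decide

theorem pol_k33 (hG : G.Connected) (S : GMap G) (hP : Poly S) {b : V → Flag G} (hb : IsBase b) (hW : WideV S)
    (f g : Fin 3 → S.Face) (w : Fin 3 → Fin 3 → V) (hf : ∀ i j, f i = f j → i = j) (hg : ∀ i j, g i = g j → i = j)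
    (hfg : ∀ i j, f i ≠ g j) (hw : ∀ i j i' j', w i j = w i' j' → i = i' ∧ j = j')
    (hon : ∀ i j, On (corS S hP b hb) (w i j) (f i) ∧ On (corS S hP b hb) (w i j) (g j)) : False := by
  have h2 : ∀ x : F2, x + x = 0 := by decide
  have hz : ∀ x y : F2, x + y = 0 → y = x := by decide
  have ho : ∀ x y : F2, x + y = 1 → y = x + 1 := by decide
  obtain ⟨κ1, a1, b1⟩ := rect_colour S hP hb hW f g w hf hg hfg hw hon 0 1 0 1 (by decide) (by decide)
  obtain ⟨κ2, a2, b2⟩ := rect_colour S hP hb hW f g w hf hg hfg hw hon 0 2 1 2 (by decide) (by decide)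
  obtain ⟨κ3, a3, b3⟩ := rect_colour S hP hb hW f g w hf hg hfg hw hon 1 2 1 2 (by decide) (by decide)
  obtain ⟨κ4, a4, b4⟩ := rect_colour S hP hb hW f g w hf hg hfg hw hon 0 1 0 2 (by decide) (by decide)
  -- the sum of the four is zero
  have hc : ∀ p q : Flag G, κ1 (ed p) + κ2 (ed p) + κ3 (ed p) + κ4 (ed p) =
      κ1 (ed q) + κ2 (ed q) + κ3 (ed q) + κ4 (ed q) := by
    refine all_const S hG (fun q => κ1 (ed q) + κ2 (ed q) + κ3 (ed q) + κ4 (ed q)) ?_ ?_ ?_
    · intro q
      have e := lk_even (fun x => if q.1.fst = w x.1 x.2 ∧ (S.face q = f x.1 ∨ S.face q = g x.2) then (1 : F2) else 0)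
      rw [← lk_sum S f g w hw, ← lk_sum S f g w hw, ← lk_sum S f g w hw, ← lk_sum S f g w hw, ← a1, ← a2, ← a3,
        ← a4] at e
      apply hz
      show κ1 (ed q) + κ2 (ed q) + κ3 (ed q) + κ4 (ed q) +
        (κ1 (ed (S.nxt q)) + κ2 (ed (S.nxt q)) + κ3 (ed (S.nxt q)) + κ4 (ed (S.nxt q))) = 0
      rw [← e]
      ring
    · intro q
      rfl
    · intro q
      show κ1 (ed (across q)) + κ2 (ed (across q)) + κ3 (ed (across q)) + κ4 (ed (across q)) = _
      rw [ed_across]
  obtain ⟨i0, hi0, hq0⟩ := (hon 0 1).1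
  have hv0 : (cf S b (w 0 1) i0).1.fst = w 0 1 := cf_fst S hb _ _
  have hq0' : S.face (cf S b (w 0 1) i0) = f 0 := hq0
  generalize cf S b (w 0 1) i0 = q0 at hv0 hq0'
  have hsum : κ1 (ed q0) + κ2 (ed q0) = 0 := by
    have h := hc q0 (cf S b (w 2 0) 0)
    have hv2 : (cf S b (w 2 0) 0).1.fst = w 2 0 := cf_fst S hb _ _
    rw [b1 (2, 0) (by decide) _ hv2, b2 (2, 0) (by decide) _ hv2, b3 (2, 0) (by decide) _ hv2,
      b4 (2, 0) (by decide) _ hv2, b3 (0, 1) (by decide) _ hv0, b4 (0, 1) (by decide) _ hv0] at h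
    simpa using h
  have hA : ∑ q : Flag G, (if S.face q = f 0 then κ1 (ed q) * κ2 (ed q) else 0) = 0 := by
    refine sum_inv across across_across across_ne _ ?_
    intro q
    rw [face_across, ed_across]
  have hB : ∑ q : Flag G, (if S.face q = f 0 ∧ q.1.fst ≠ w 0 1 then κ1 (ed q) * κ2 (ed q) else 0) = 0 := by
    refine sum_inv S.nxt S.nxt_nxt S.nxt_ne _ ?_
    intro q
    rw [face_nxt, S.nxt_fst]
    by_cases h : S.face q = f 0 ∧ q.1.fst ≠ w 0 1
    · rw [if_pos h, if_pos h]
      by_cases h5 : HitR S f g w (rect 0 1 0 1) q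
      · obtain ⟨⟨x1, x2⟩, hx, h6, h7⟩ := h5
        have hx1 : x1 = 0 := by
          rcases h7 with h7 | h7
          · exact (hf _ _ (h.1.symm.trans h7)).symm
          · exact absurd (h.1.symm.trans h7) (hfg _ _)
        subst hx1
        have hx2 : x2 = 0 := by
          by_contra h8
          have h9 : x2 = 1 := lk_x1 x2 hx h8
          exact h.2 (by rw [h6, h9])
        subst hx2
        have h8 : q.1.fst = w 0 0 := h6
        rw [b2 (0, 0) (by decide) q h8, b2 (0, 0) (by decide) (S.nxt q) ((S.nxt_fst q).trans h8), mul_zero, mul_zero]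
      · by_cases h6 : HitR S f g w (rect 0 2 1 2) q
        · obtain ⟨⟨x1, x2⟩, hx, h6, h7⟩ := h6
          have hx1 : x1 = 0 := by
            rcases h7 with h7 | h7
            · exact (hf _ _ (h.1.symm.trans h7)).symm
            · exact absurd (h.1.symm.trans h7) (hfg _ _)
          subst hx1
          have hx2 : x2 = 2 := by
            by_contra h8
            have h9 : x2 = 1 := lk_x2 x2 hx h8
            exact h.2 (by rw [h6, h9])
          subst hx2
          have h8 : q.1.fst = w 0 2 := h6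
          rw [b1 (0, 2) (by decide) q h8, b1 (0, 2) (by decide) (S.nxt q) ((S.nxt_fst q).trans h8), zero_mul, zero_mul]
        · have e1 := a1 q
          have e2 := a2 q
          rw [if_neg h5] at e1
          rw [if_neg h6] at e2
          rw [hz _ _ e1, hz _ _ e2]
    · rw [if_neg h, if_neg h]
  have hC : ∑ q : Flag G, (if S.face q = f 0 ∧ q.1.fst = w 0 1 then κ1 (ed q) * κ2 (ed q) else 0) = 0 := by
    have e : ∑ q : Flag G, (if S.face q = f 0 then κ1 (ed q) * κ2 (ed q) else 0) =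
        (∑ q : Flag G, (if S.face q = f 0 ∧ q.1.fst ≠ w 0 1 then κ1 (ed q) * κ2 (ed q) else 0)) +
          ∑ q : Flag G, (if S.face q = f 0 ∧ q.1.fst = w 0 1 then κ1 (ed q) * κ2 (ed q) else 0) := by
      rw [← Finset.sum_add_distrib]
      refine Finset.sum_congr rfl fun q _ => ?_
      by_cases h5 : S.face q = f 0 <;> by_cases h6 : q.1.fst = w 0 1 <;> simp [h5, h6]
    rw [hA, hB, zero_add] at e
    exact e.symm
  have hD : ∑ q : Flag G, (if S.face q = f 0 ∧ q.1.fst = w 0 1 then κ1 (ed q) * κ2 (ed q) else 0) =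
      ∑ q ∈ ({q0, S.nxt q0} : Finset (Flag G)), κ1 (ed q) * κ2 (ed q) := by
    rw [← Finset.sum_filter]
    refine Finset.sum_congr ?_ fun _ _ => rfl
    ext q
    rw [mem_filter, mem_insert, mem_singleton]
    constructor
    · rintro ⟨_, h1, h3⟩
      exact hP.one q0 q (hv0.trans h3.symm) (hq0'.trans h1.symm)
    · rintro (h | h)
      · rw [h]
        exact ⟨mem_univ _, hq0', hv0⟩
      · rw [h, face_nxt, S.nxt_fst]
        exact ⟨mem_univ _, hq0', hv0⟩
  rw [hD, Finset.sum_pair (S.nxt_ne q0).symm] at hC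
  have e1 := a1 q0
  have e2 := a2 q0
  rw [if_pos ⟨(0, 1), by decide, hv0, Or.inl hq0'⟩] at e1 e2
  rw [ho _ _ e1, ho _ _ e2] at hC
  generalize κ1 (ed q0) = x at hC hsum
  generalize κ2 (ed q0) = y at hC hsum
  revert hC hsum
  revert x y
  decide

end Pool.Agent.EAD
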