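import Pool.Agent.EAD.LCor
import Pool.Agent.BEO.WideDW

/-!
# EAD-LWid: closed walks of chords
-/

set_option autoImplicit false

open Finset
open scoped Classical

namespace Pool.Agent.EAD

open Pool.Agent.BEO
open Pool.Agent.Helper35.OG hiding F2 dg

variable {V : Type} {G : SimpleGraph V} [Fintype V]

private theorem wd_per (f : ℕ → F2) (d : ℕ) (hf : ∀ t, f (t + d) = f t) (h0 : ∑ t ∈ Icc 1 d, f t = 0) (n : ℕ) :
    ∑ t ∈ Icc 1 (n + d), f t = ∑ t ∈ Icc 1 n, f t := by
  induction n with
  | zero =>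
    rw [Nat.zero_add, h0]
    rfl
  | succ n ih =>
    have e1 : n + 1 + d = (n + d) + 1 := by omega
    rw [e1, sum_Icc_succ_top (by omega), sum_Icc_succ_top (by omega), ih]
    have e2 : n + d + 1 = (n + 1) + d := by omega
    rw [e2, hf]

private theorem wd_shift (f : ℕ → F2) (i m : ℕ) :
    ∑ t ∈ Icc 1 (i + m), f t = ∑ t ∈ Icc 1 i, f t + ∑ t ∈ Icc 1 m, f (t + i) := by
  induction m with
  | zero => simp
  | succ m ih =>
    have e1 : i + (m + 1) = (i + m) + 1 := by omega
    rw [e1, sum_Icc_succ_top (by omega), sum_Icc_succ_top (by omega), ih, add_assoc]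
    have e2 : i + m + 1 = m + 1 + i := by omega
    rw [e2]

private theorem wd_two (x : F2) : x + x = 0 := by
  revert x
  decide

private theorem wd_turn (f : ℕ → F2) (d : ℕ) (hf : ∀ t, f (t + d) = f t) (h0 : ∑ t ∈ Icc 1 d, f t = 0) {i j : ℕ}
    (hi : i < d) (hj : j < d) :
    ∑ t ∈ Icc 1 ((j + d - i) % d), f (t + i) = ∑ t ∈ Icc 1 i, f t + ∑ t ∈ Icc 1 j, f t := by
  have h1 : ∑ t ∈ Icc 1 (i + (j + d - i) % d), f t = ∑ t ∈ Icc 1 j, f t := by
    rcases le_or_gt i j with h | h
    · have e1 : (j + d - i) % d = j - i := by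
        have e2 : j + d - i = (j - i) + d := by omega
        rw [e2, Nat.add_mod_right, Nat.mod_eq_of_lt (by omega)]
      have e3 : i + (j + d - i) % d = j := by omega
      rw [e3]
    · have e1 : (j + d - i) % d = j + d - i := Nat.mod_eq_of_lt (by omega)
      have e3 : i + (j + d - i) % d = j + d := by omega
      rw [e3]
      exact wd_per f d hf h0 j
  rw [wd_shift] at h1
  rw [← h1, ← add_assoc, wd_two, zero_add]

private theorem wd_cyc (S : GMap G) {b : V → Flag G} (hb : IsBase b) (v : V) (z : cyc G) :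
    ∑ t ∈ Icc 1 (nb G v).card, z.1 (ed (cf S b v t)) = 0 := by
  have h1 : ∑ t ∈ range (nb G v).card, z.1 (ed (cf S b v t)) = 0 := by
    rw [← z.2 v]
    refine sum_bij (fun t _ => (cf S b v t).1) ?_ ?_ ?_ ?_
    · intro t _
      exact mem_filter.2 ⟨mem_univ _, cf_fst S hb v t⟩
    · intro t ht t' ht' h
      exact ed_cf_inj S hb v (mem_range.1 ht) (mem_range.1 ht') h
    · intro δ hδ
      obtain ⟨t, ht, h⟩ := cf_cover S hb v (δ, true) (mem_filter.1 hδ).2
      refine ⟨t, mem_range.2 ht, ?_⟩
      rcases h with h | h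
      · rw [← h]
      · have h2 := congrArg Prod.fst h
        exact h2.symm
    · intro t _
      rfl
  obtain ⟨d, hd⟩ : ∃ d, d = (nb G v).card := ⟨_, rfl⟩
  rw [← hd] at h1 ⊢
  have hper : cf S b v d = cf S b v 0 := by
    have h2 := cf_period S hb v 0
    rw [Nat.zero_add, ← hd] at h2
    exact h2
  have h3 : ∀ n, ∑ t ∈ Icc 1 n, z.1 (ed (cf S b v t)) + z.1 (ed (cf S b v 0)) =
      ∑ t ∈ range (n + 1), z.1 (ed (cf S b v t)) := by
    intro n
    induction n with
    | zero => simp
    | succ n ih =>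
      rw [sum_range_succ, ← ih, sum_Icc_succ_top (by omega)]
      ring
  have h4 := h3 d
  rw [sum_range_succ, h1, zero_add, hper] at h4
  exact add_right_cancel (h4.trans (zero_add _).symm)

omit [Fintype V] in
private theorem wd_rot (S : GMap G) (b : V → Flag G) (v : V) (i t : ℕ) : (rot S)^[t] (cf S b v i) = cf S b v (t + i) := by
  unfold cf
  rw [Function.iterate_add_apply]

private theorem wd_end (S : GMap G) {b : V → Flag G} (hb : IsBase b) (v : V) {i j : ℕ} (hi : i < (nb G v).card)
    (hj : j < (nb G v).card) : (rot S)^[(j + (nb G v).card - i) % (nb G v).card] (cf S b v i) = cf S b v j := by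
  rw [wd_rot]
  rcases le_or_gt i j with h | h
  · have e1 : (j + (nb G v).card - i) % (nb G v).card = j - i := by
      have e2 : j + (nb G v).card - i = (j - i) + (nb G v).card := by omega
      rw [e2, Nat.add_mod_right, Nat.mod_eq_of_lt (by omega)]
    rw [e1, Nat.sub_add_cancel h]
  · have e1 : (j + (nb G v).card - i) % (nb G v).card = j + (nb G v).card - i := Nat.mod_eq_of_lt (by omega)
    rw [e1, Nat.sub_add_cancel (by omega), cf_period S hb]

private theorem wd_crs (S : GMap G) {b : V → Flag G} (hb : IsBase b) (v : V) {i j : ℕ} (hi : i < (nb G v).card)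
    (hj : j < (nb G v).card) (z : cyc G) :
    crs S z.1 (cf S b v i) ((j + (nb G v).card - i) % (nb G v).card) = cc S b v i z + cc S b v j z := by
  have h1 := wd_turn (fun t => z.1 (ed (cf S b v t))) (nb G v).card (fun t => by
    show z.1 (ed (cf S b v (t + (nb G v).card))) = z.1 (ed (cf S b v t))
    rw [cf_period S hb]) (wd_cyc S hb v z) hi hj
  refine Eq.trans ?_ h1
  unfold crs
  refine sum_congr rfl fun t _ => ?_
  rw [wd_rot]

/-- a walk of chords as a list of flags and numbers -/
private theorem wd_chw (S : GMap G) (hP : Poly S) {b : V → Flag G} (hb : IsBase b) {F H : S.Face}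
    {l : List (Ch (corS S hP b hb))}
    (h : DW (fun e : Ch (corS S hP b hb) => S.face (cf S b e.vx e.lo))
      (fun e : Ch (corS S hP b hb) => S.face (cf S b e.vx e.hi)) F H l) :
    ∃ q : List (Flag G × ℕ), q.length = l.length ∧
      (∀ z : cyc G, q.map (fun x => crs S z.1 x.1 x.2) = l.map fun e => cc S b e.vx e.lo z + cc S b e.vx e.hi z) ∧
      (∀ (h0 : 0 < q.length), S.face (q[0]'h0).1 = F) ∧
      (∀ i (hi : i + 1 < q.length), S.face ((rot S)^[(q[i]'(Nat.lt_of_succ_lt hi)).2] (q[i]'(Nat.lt_of_succ_lt hi)).1) =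
        S.face (q[i + 1]'hi).1) ∧
      (∀ (h0 : 0 < q.length), S.face ((rot S)^[(q[q.length - 1]'(Nat.sub_lt h0 Nat.one_pos)).2]
        (q[q.length - 1]'(Nat.sub_lt h0 Nat.one_pos)).1) = H) ∧ (q = [] → F = H) := by
  induction h with
  | nil F =>
    refine ⟨[], rfl, fun _ => rfl, ?_, ?_, ?_, fun _ => rfl⟩
    · intro h0
      exact absurd h0 (Nat.lt_irrefl _)
    · intro i hi
      exact absurd hi (Nat.not_lt_zero _)
    · intro h0
      exact absurd h0 (Nat.lt_irrefl _)
  | cons F K H e l he _ ih =>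
    obtain ⟨q, hq0, hq1, hq2, hq3, hq4, hq5⟩ := ih
    have hlo : e.lo < (nb G e.vx).card := e.1.2.1.2
    have hhi : e.hi < (nb G e.vx).card := e.1.2.2.2
    have hp : ∃ p : Flag G × ℕ, (∀ z : cyc G, crs S z.1 p.1 p.2 = cc S b e.vx e.lo z + cc S b e.vx e.hi z) ∧
        S.face p.1 = F ∧ S.face ((rot S)^[p.2] p.1) = K := by
      rcases he with ⟨h1, h2⟩ | ⟨h1, h2⟩
      · refine ⟨(cf S b e.vx e.lo, (e.hi + (nb G e.vx).card - e.lo) % (nb G e.vx).card), ?_, h1, ?_⟩
        · intro z
          exact wd_crs S hb e.vx hlo hhi z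
        · show S.face ((rot S)^[(e.hi + (nb G e.vx).card - e.lo) % (nb G e.vx).card] (cf S b e.vx e.lo)) = K
          rw [wd_end S hb e.vx hlo hhi]
          exact h2
      · refine ⟨(cf S b e.vx e.hi, (e.lo + (nb G e.vx).card - e.hi) % (nb G e.vx).card), ?_, h2, ?_⟩
        · intro z
          exact (wd_crs S hb e.vx hhi hlo z).trans (add_comm _ _)
        · show S.face ((rot S)^[(e.lo + (nb G e.vx).card - e.hi) % (nb G e.vx).card] (cf S b e.vx e.hi)) = K
          rw [wd_end S hb e.vx hhi hlo]
          exact h1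
    obtain ⟨p, hp1, hp2, hp3⟩ := hp
    refine ⟨p :: q, ?_, ?_, ?_, ?_, ?_, ?_⟩
    · rw [List.length_cons, List.length_cons, hq0]
    · intro z
      rw [List.map_cons, List.map_cons, hq1 z, hp1 z]
    · intro _
      exact hp2
    · intro i hi
      rcases i with _ | i
      · show S.face ((rot S)^[p.2] p.1) = S.face (q[0]'(by simpa using hi)).1
        rw [hp3, hq2]
      · show S.face ((rot S)^[(q[i]'_).2] (q[i]'_).1) = S.face (q[i + 1]'_).1
        exact hq3 i (by simpa using hi)
    · intro _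
      rcases Nat.eq_zero_or_pos q.length with h0 | h0
      · have h1 : q = [] := List.length_eq_zero_iff.1 h0
        subst h1
        show S.face ((rot S)^[p.2] p.1) = H
        rw [hp3]
        exact hq5 rfl
      · have h2 : (p :: q)[(p :: q).length - 1]'(by simp) = q[q.length - 1]'(Nat.sub_lt h0 Nat.one_pos) := by
          simp only [List.length_cons, Nat.add_sub_cancel]
          rw [List.getElem_cons, dif_neg (by omega)]
        rw [h2]
        exact hq4 h0
    · intro h
      exact absurd h (List.cons_ne_nil _ _)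

theorem wide_ch (S : GMap G) (hP : Poly S) {b : V → Flag G} (hb : IsBase b) (hW : WideV S) (F : S.Face)
    (l : List (Ch (corS S hP b hb)))
    (h : DW (fun e : Ch (corS S hP b hb) => S.face (cf S b e.vx e.lo))
      (fun e : Ch (corS S hP b hb) => S.face (cf S b e.vx e.hi)) F F l) (hl : l.length ≤ 6) :
    (l.map fun e => cc S b e.vx e.lo + cc S b e.vx e.hi).sum = 0 := by
  obtain ⟨q, hq0, hq1, hq2, hq3, hq4, -⟩ := wd_chw S hP hb h
  apply LinearMap.ext
  intro z
  have h1 := hW q (by rw [hq0]; exact hl) (by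
    intro i hi
    by_cases h2 : i + 1 < q.length
    · have h3 : (i + 1) % q.length = i + 1 := Nat.mod_eq_of_lt h2
      simp only [h3]
      exact hq3 i h2
    · have h3 : i = q.length - 1 := by omega
      have h4 : (i + 1) % q.length = 0 := by
        rw [h3, Nat.sub_add_cancel (by omega), Nat.mod_self]
      simp only [h4]
      subst h3
      rw [hq4 (by omega), hq2 (by omega)]) z.1 z.2
  rw [hq1 z] at h1
  rw [LinearMap.zero_apply, ← h1]
  clear h1 hq0 hq1 hq2 hq3 hq4 h hl
  induction l with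
  | nil => rfl
  | cons e l ih =>
    simp only [List.map_cons, List.sum_cons, LinearMap.add_apply]
    rw [ih]

end Pool.Agent.EAD
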