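import Pool.Agent.EAD.LCor
import Pool.Agent.EAD.LCol
import Pool.Agent.EAD.LWid

/-! EAD-LRect: the colouring of a rectangle of faces. -/

set_option autoImplicit false

open Finset
open scoped Classical

namespace Pool.Agent.EAD

open Pool.Agent.BEO
open Pool.Agent.Helper35.OG hiding F2 dg

variable {V : Type} {G : SimpleGraph V} [Fintype V]

/-- the flag `q` is at a corner of one of the faces at a vertex of the rectangle `R` -/
def HitR (S : GMap G) (f g : Fin 3 → S.Face) (w : Fin 3 → Fin 3 → V) (R : Finset (Fin 3 × Fin 3)) (q : Flag G) : Prop :=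
  ∃ x ∈ R, q.1.fst = w x.1 x.2 ∧ (S.face q = f x.1 ∨ S.face q = g x.2)

/-- a rectangle -/
def rect (i i' j j' : Fin 3) : Finset (Fin 3 × Fin 3) := {(i, j), (i', j), (i', j'), (i, j')}

private theorem lr_step (S : GMap G) (hP : Poly S) {b : V → Flag G} (hb : IsBase b) (v : V) {m n : ℕ}
    (hm : m < (nb G v).card) (hn : n < (nb G v).card) (hmn : m ≠ n) :
    ∃ e : Ch (corS S hP b hb),
      ((S.face (cf S b e.vx e.lo) = S.face (cf S b v m) ∧ S.face (cf S b e.vx e.hi) = S.face (cf S b v n)) ∨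
        (S.face (cf S b e.vx e.lo) = S.face (cf S b v n) ∧ S.face (cf S b e.vx e.hi) = S.face (cf S b v m))) ∧
      cc S b e.vx e.lo + cc S b e.vx e.hi = cc S b v m + cc S b v n := by
  rcases lt_or_gt_of_ne hmn with h | h
  · exact ⟨⟨⟨v, (⟨m, hm⟩, ⟨n, hn⟩)⟩, h⟩, Or.inl ⟨rfl, rfl⟩, rfl⟩
  · exact ⟨⟨⟨v, (⟨n, hn⟩, ⟨m, hm⟩)⟩, h⟩, Or.inr ⟨rfl, rfl⟩, add_comm _ _⟩

private theorem lr_two (d m n : ℕ) (hm : m < d) (hn : n < d) (hmn : m ≠ n) (φ : ℕ → F2) :
    ∑ i ∈ range d, (if i = m ∨ i = n then (1 : F2) else 0) * φ i = φ m + φ n := by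
  have h1 : ∀ i ∈ range d, (if i = m ∨ i = n then (1 : F2) else 0) * φ i =
      (if i = m then φ i else 0) + (if i = n then φ i else 0) := by
    intro i _
    by_cases h : i = m
    · rw [if_pos (Or.inl h), if_pos h, if_neg (by omega), one_mul, add_zero]
    · by_cases h' : i = n
      · rw [if_pos (Or.inr h'), if_neg h, if_pos h', one_mul, zero_add]
      · rw [if_neg (by omega), if_neg h, if_neg h', zero_mul, add_zero]
  rw [Finset.sum_congr rfl h1, Finset.sum_add_distrib, Finset.sum_ite_eq', Finset.sum_ite_eq',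
    if_pos (mem_range.2 hm), if_pos (mem_range.2 hn)]

private theorem lr_mem {i i' j j' : Fin 3} {x : Fin 3 × Fin 3} :
    x ∈ rect i i' j j' ↔ (x.1 = i ∨ x.1 = i') ∧ (x.2 = j ∨ x.2 = j') := by
  obtain ⟨x1, x2⟩ := x
  unfold rect
  simp only [mem_insert, mem_singleton, Prod.mk.injEq]
  tauto

private theorem lr_sum {M : Type*} [AddCommMonoid M] {i i' j j' : Fin 3} (hi : i ≠ i') (hj : j ≠ j')
    (a : Fin 3 × Fin 3 → M) :
    ∑ x ∈ rect i i' j j', a x = a (i, j) + (a (i', j) + (a (i', j') + a (i, j'))) := by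
  unfold rect
  rw [Finset.sum_insert, Finset.sum_insert, Finset.sum_insert, Finset.sum_singleton]
  · simp only [mem_singleton, Prod.mk.injEq]
    tauto
  · simp only [mem_insert, mem_singleton, Prod.mk.injEq]
    tauto
  · simp only [mem_insert, mem_singleton, Prod.mk.injEq]
    tauto

private theorem lr_third : ∀ i i' : Fin 3, i ≠ i' → ∃ k, k ≠ i ∧ k ≠ i' ∧ ∀ a, a = i ∨ a = i' ∨ a = k := by
  decide

private theorem lr_add_self (x : F2) : x + x = 0 := by
  rcases f2_cases x with h | h <;> rw [h] <;> decide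

/-- a function of the edges without changes at a vertex -/
private theorem lr_vertex (S : GMap G) (κ : G.edgeSet → F2) (v : V)
    (h : ∀ q : Flag G, q.1.fst = v → κ (ed q) + κ (ed (S.nxt q)) = 0) {p q : Flag G} (hp : p.1.fst = v)
    (hq : q.1.fst = v) : κ (ed p) = κ (ed q) := by
  have h1 := vertex_const S (fun q : Flag G => if q.1.fst = v then κ (ed q) else 0) (fun p => by
    rw [S.nxt_fst]
    by_cases hv : p.1.fst = v
    · rw [if_pos hv, if_pos hv]
      have h2 := h p hv
      have h3 := lr_add_self (κ (ed p))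
      exact (add_left_cancel (h3.trans h2.symm)).symm
    · rw [if_neg hv, if_neg hv]) (fun p => rfl) (hp.trans hq.symm)
  beta_reduce at h1
  rwa [if_pos hp, if_pos hq] at h1

/-- a function of the edges without changes on a face -/
private theorem lr_face (S : GMap G) (κ : G.edgeSet → F2) (F : S.Face)
    (h : ∀ q : Flag G, S.face q = F → κ (ed q) + κ (ed (S.nxt q)) = 0) {p q : Flag G} (hp : S.face p = F)
    (hq : S.face q = F) : κ (ed p) = κ (ed q) := by
  have h0 : Relation.EqvGen (fun p q : Flag G => q = S.nxt p ∨ q = across p) p q :=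
    Quot.eqvGen_exact (hp.trans hq.symm)
  have h1 := eqvGen_eq (fun q : Flag G => if S.face q = F then κ (ed q) else 0) (fun x y hxy => by
    rcases hxy with hxy | hxy
    · rw [hxy, face_nxt]
      by_cases hv : S.face x = F
      · rw [if_pos hv, if_pos hv]
        have h2 := h x hv
        have h3 := lr_add_self (κ (ed x))
        exact add_left_cancel (h3.trans h2.symm)
      · rw [if_neg hv, if_neg hv]
    · rw [hxy, face_across, ed_across]) h0
  beta_reduce at h1
  rwa [if_pos hp, if_pos hq] at h1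

theorem rect_colour (S : GMap G) (hP : Poly S) {b : V → Flag G} (hb : IsBase b) (hW : WideV S)
    (f g : Fin 3 → S.Face) (w : Fin 3 → Fin 3 → V) (hf : ∀ i j, f i = f j → i = j) (hg : ∀ i j, g i = g j → i = j)
    (hfg : ∀ i j, f i ≠ g j) (hw : ∀ i j i' j', w i j = w i' j' → i = i' ∧ j = j')
    (hon : ∀ i j, On (corS S hP b hb) (w i j) (f i) ∧ On (corS S hP b hb) (w i j) (g j))
    (i i' j j' : Fin 3) (hi : i ≠ i') (hj : j ≠ j') :
    ∃ κ : G.edgeSet → F2,
      (∀ q : Flag G, κ (ed q) + κ (ed (S.nxt q)) = if HitR S f g w (rect i i' j j') q then 1 else 0) ∧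
      ∀ x : Fin 3 × Fin 3, x ∉ rect i i' j j' → ∀ q : Flag G, q.1.fst = w x.1 x.2 → κ (ed q) = 0 := by
  have hX : ∀ i j, ∃ m, m < (nb G (w i j)).card ∧ S.face (cf S b (w i j) m) = f i := fun i j => (hon i j).1
  have hY : ∀ i j, ∃ m, m < (nb G (w i j)).card ∧ S.face (cf S b (w i j) m) = g j := fun i j => (hon i j).2
  choose X hXd hXf using hX
  choose Y hYd hYg using hY
  have hXY : ∀ i j, X i j ≠ Y i j := by
    intro i j h
    apply hfg i j
    rw [← hXf i j, ← hYg i j, h]
  -- the closed walk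
  have hwalk : ∑ x ∈ rect i i' j j', (cc S b (w x.1 x.2) (X x.1 x.2) + cc S b (w x.1 x.2) (Y x.1 x.2)) = 0 := by
    obtain ⟨e1, h1, a1⟩ := lr_step S hP hb (w i j) (hXd i j) (hYd i j) (hXY i j)
    obtain ⟨e2, h2, a2⟩ := lr_step S hP hb (w i' j) (hXd i' j) (hYd i' j) (hXY i' j)
    obtain ⟨e3, h3, a3⟩ := lr_step S hP hb (w i' j') (hXd i' j') (hYd i' j') (hXY i' j')
    obtain ⟨e4, h4, a4⟩ := lr_step S hP hb (w i j') (hXd i j') (hYd i j') (hXY i j')
    rw [hXf, hYg] at h1 h2 h3 h4
    have hDW : DW (fun e : Ch (corS S hP b hb) => S.face (cf S b e.vx e.lo))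
        (fun e : Ch (corS S hP b hb) => S.face (cf S b e.vx e.hi)) (f i) (f i) [e1, e2, e3, e4] := by
      refine DW.cons _ (g j) _ _ _ h1 ?_
      refine DW.cons _ (f i') _ _ _ h2.symm ?_
      refine DW.cons _ (g j') _ _ _ h3 ?_
      refine DW.cons _ (f i) _ _ _ h4.symm ?_
      exact DW.nil _
    have hs := wide_ch S hP hb hW (f i) [e1, e2, e3, e4] hDW (by simp)
    rw [lr_sum hi hj]
    rw [List.map_cons, List.map_cons, List.map_cons, List.map_cons, List.map_nil, List.sum_cons, List.sum_cons,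
      List.sum_cons, List.sum_cons, List.sum_nil, a1, a2, a3, a4, add_zero] at hs
    exact hs
  -- the colouring
  have hσ1 : ∀ v, ∑ m ∈ range (nb G v).card, ∑ x ∈ rect i i' j j',
      (if v = w x.1 x.2 ∧ (m = X x.1 x.2 ∨ m = Y x.1 x.2) then (1 : F2) else 0) = 0 := by
    intro v
    rw [Finset.sum_comm]
    refine Finset.sum_eq_zero fun x _ => ?_
    by_cases hv : v = w x.1 x.2
    · have h1 := lr_two (nb G (w x.1 x.2)).card _ _ (hXd x.1 x.2) (hYd x.1 x.2) (hXY x.1 x.2) (fun _ => 1)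
      rw [lr_add_self] at h1
      refine Eq.trans ?_ h1
      rw [hv]
      refine Finset.sum_congr rfl fun m _ => ?_
      rw [mul_one]
      simp only [true_and]
    · refine Finset.sum_eq_zero fun m _ => if_neg fun h => hv h.1
  have hσ2 : ∀ z : cyc G, ∑ v, ∑ m ∈ range (nb G v).card, (∑ x ∈ rect i i' j j',
      (if v = w x.1 x.2 ∧ (m = X x.1 x.2 ∨ m = Y x.1 x.2) then (1 : F2) else 0)) * cc S b v m z = 0 := by
    intro z
    have h1 : ∀ v, ∑ m ∈ range (nb G v).card, (∑ x ∈ rect i i' j j',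
        (if v = w x.1 x.2 ∧ (m = X x.1 x.2 ∨ m = Y x.1 x.2) then (1 : F2) else 0)) * cc S b v m z =
        ∑ x ∈ rect i i' j j', if v = w x.1 x.2 then
          (cc S b (w x.1 x.2) (X x.1 x.2) z + cc S b (w x.1 x.2) (Y x.1 x.2) z) else 0 := by
      intro v
      simp only [Finset.sum_mul]
      rw [Finset.sum_comm]
      refine Finset.sum_congr rfl fun x _ => ?_
      by_cases hv : v = w x.1 x.2
      · rw [if_pos hv, ← lr_two (nb G (w x.1 x.2)).card _ _ (hXd x.1 x.2) (hYd x.1 x.2) (hXY x.1 x.2)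
          (fun m => cc S b (w x.1 x.2) m z), hv]
        refine Finset.sum_congr rfl fun m _ => ?_
        simp only [true_and]
      · rw [if_neg hv]
        refine Finset.sum_eq_zero fun m _ => ?_
        rw [if_neg fun h => hv h.1, zero_mul]
    rw [Finset.sum_congr rfl fun v _ => h1 v, Finset.sum_comm]
    have h2 := congrArg (fun φ : cyc G →ₗ[F2] F2 => φ z) hwalk
    beta_reduce at h2
    rw [LinearMap.sum_apply, LinearMap.zero_apply] at h2
    refine Eq.trans ?_ h2
    refine Finset.sum_congr rfl fun x _ => ?_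
    rw [Finset.sum_ite_eq', if_pos (mem_univ _)]
    rfl
  obtain ⟨κ, hκ⟩ := colour S hb (fun v m => ∑ x ∈ rect i i' j j',
      (if v = w x.1 x.2 ∧ (m = X x.1 x.2 ∨ m = Y x.1 x.2) then (1 : F2) else 0)) hσ1 hσ2
  beta_reduce at hκ
  -- the value of the sum at a corner
  have hval : ∀ (q : Flag G) (v : V) (m : ℕ), q.1.fst = v → m < (nb G v).card → S.face q = S.face (cf S b v m) →
      (∑ x ∈ rect i i' j j', (if v = w x.1 x.2 ∧ (m = X x.1 x.2 ∨ m = Y x.1 x.2) then (1 : F2) else 0)) =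
        if HitR S f g w (rect i i' j j') q then 1 else 0 := by
    intro q v m hqv hm hq
    have hiff : ∀ x : Fin 3 × Fin 3, (v = w x.1 x.2 ∧ (m = X x.1 x.2 ∨ m = Y x.1 x.2)) ↔
        (q.1.fst = w x.1 x.2 ∧ (S.face q = f x.1 ∨ S.face q = g x.2)) := by
      intro x
      rw [hqv]
      constructor
      · rintro ⟨hv, hmx | hmx⟩
        · refine ⟨hv, Or.inl ?_⟩
          rw [hq, hv, hmx, hXf]
        · refine ⟨hv, Or.inr ?_⟩
          rw [hq, hv, hmx, hYg]
      · rintro ⟨hv, hf' | hg'⟩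
        · refine ⟨hv, Or.inl ?_⟩
          subst hv
          apply cf_face_inj S hP hb (w x.1 x.2) hm (hXd _ _)
          rw [← hq, hf', hXf]
        · refine ⟨hv, Or.inr ?_⟩
          subst hv
          apply cf_face_inj S hP hb (w x.1 x.2) hm (hYd _ _)
          rw [← hq, hg', hYg]
    by_cases hH : HitR S f g w (rect i i' j j') q
    · rw [if_pos hH]
      obtain ⟨x, hx, hx'⟩ := hH
      rw [Finset.sum_eq_single x, if_pos ((hiff x).2 hx')]
      · intro x' _ hne
        rw [if_neg]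
        intro hc
        apply hne
        have h1 := hw x'.1 x'.2 x.1 x.2 (by rw [← hc.1, ← hx'.1, hqv])
        exact Prod.ext h1.1 h1.2
      · intro hn
        exact absurd hx hn
    · rw [if_neg hH]
      refine Finset.sum_eq_zero fun x hx => ?_
      rw [if_neg]
      intro hc
      exact hH ⟨x, hx, (hiff x).1 hc⟩
  have hmain : ∀ q : Flag G, κ (ed q) + κ (ed (S.nxt q)) =
      if HitR S f g w (rect i i' j j') q then 1 else 0 := by
    intro q
    obtain ⟨m, hm, hq | hq⟩ := cf_cover S hb q.1.fst q rfl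
    · rw [← hval q q.1.fst m rfl hm (by rw [← hq]), ← hκ q.1.fst m hm]
      conv_lhs => rw [hq]
      rw [nxt_cf, ed_side]
    · obtain ⟨m', hm', hmm⟩ : ∃ m', m' < (nb G q.1.fst).card ∧ cf S b q.1.fst m = cf S b q.1.fst (m' + 1) := by
        rcases Nat.eq_zero_or_pos m with h0 | h0
        · refine ⟨(nb G q.1.fst).card - 1, by omega, ?_⟩
          rw [h0, show (nb G q.1.fst).card - 1 + 1 = 0 + (nb G q.1.fst).card by omega, cf_period S hb]
        · exact ⟨m - 1, by omega, by rw [Nat.sub_add_cancel h0]⟩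
      rw [hmm] at hq
      have hn : S.nxt q = cf S b q.1.fst m' := by
        conv_lhs => rw [hq]
        exact nxt_side_cf S b q.1.fst m'
      have he : ed q = ed (cf S b q.1.fst (m' + 1)) := by
        conv_lhs => rw [hq]
        rfl
      rw [← hval q q.1.fst m' rfl hm' (by rw [← hn, face_nxt]), ← hκ q.1.fst m' hm', hn, he, add_comm]
  -- the constant
  obtain ⟨k1, hk1, hk1', hk1a⟩ := lr_third i i' hi
  obtain ⟨k2, hk2, hk2', hk2a⟩ := lr_third j j' hj
  have hnR1 : ∀ a, (k1, a) ∉ rect i i' j j' := by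
    intro a h
    rw [lr_mem] at h
    rcases h.1 with h | h
    · exact hk1 h
    · exact hk1' h
  have hnR2 : ∀ a, (a, k2) ∉ rect i i' j j' := by
    intro a h
    rw [lr_mem] at h
    rcases h.2 with h | h
    · exact hk2 h
    · exact hk2' h
  have hvert : ∀ x : Fin 3 × Fin 3, x ∉ rect i i' j j' → ∀ q : Flag G, q.1.fst = w x.1 x.2 →
      κ (ed q) + κ (ed (S.nxt q)) = 0 := by
    intro x hx q hq
    rw [hmain, if_neg]
    rintro ⟨x', hx', hq', -⟩
    have h1 := hw x.1 x.2 x'.1 x'.2 (by rw [← hq, ← hq'])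
    exact hx (Prod.ext h1.1 h1.2 ▸ hx')
  have hF1 : ∀ q : Flag G, S.face q = f k1 → κ (ed q) + κ (ed (S.nxt q)) = 0 := by
    intro q hq
    rw [hmain, if_neg]
    rintro ⟨x', hx', -, h1 | h1⟩
    · rw [lr_mem] at hx'
      have h2 := hf _ _ (hq.symm.trans h1)
      rcases hx'.1 with h | h
      · exact hk1 (h2.trans h)
      · exact hk1' (h2.trans h)
    · exact hfg _ _ (hq.symm.trans h1)
  have hF2 : ∀ q : Flag G, S.face q = g k2 → κ (ed q) + κ (ed (S.nxt q)) = 0 := by
    intro q hq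
    rw [hmain, if_neg]
    rintro ⟨x', hx', -, h1 | h1⟩
    · exact hfg _ _ (h1.symm.trans hq)
    · rw [lr_mem] at hx'
      have h2 := hg _ _ (hq.symm.trans h1)
      rcases hx'.2 with h | h
      · exact hk2 (h2.trans h)
      · exact hk2' (h2.trans h)
  set c0 : F2 := κ (ed (cf S b (w k1 k2) (X k1 k2))) with hc0
  have hall : ∀ x : Fin 3 × Fin 3, x ∉ rect i i' j j' → ∀ q : Flag G, q.1.fst = w x.1 x.2 → κ (ed q) = c0 := by
    rintro ⟨x1, x2⟩ hx q hq
    have hcase : x1 = k1 ∨ x2 = k2 := by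
      by_contra hcon
      rw [not_or] at hcon
      apply hx
      rw [lr_mem]
      constructor
      · rcases hk1a x1 with h | h | h
        · exact Or.inl h
        · exact Or.inr h
        · exact absurd h hcon.1
      · rcases hk2a x2 with h | h | h
        · exact Or.inl h
        · exact Or.inr h
        · exact absurd h hcon.2
    rcases hcase with h | h
    · subst h
      rw [lr_vertex S κ (w x1 x2) (hvert (x1, x2) hx) hq (cf_fst S hb _ (X x1 x2))]
      exact lr_face S κ (f x1) hF1 (hXf x1 x2) (hXf x1 k2)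
    · subst h
      rw [lr_vertex S κ (w x1 x2) (hvert (x1, x2) hx) hq (cf_fst S hb _ (Y x1 x2)),
        lr_face S κ (g x2) hF2 (hYg x1 x2) (hYg k1 x2),
        lr_vertex S κ (w k1 x2) (hvert (k1, x2) (hnR1 x2)) (cf_fst S hb _ (Y k1 x2))
          (cf_fst S hb _ (X k1 x2))]
  refine ⟨fun e => κ e + c0, ?_, ?_⟩
  · intro q
    beta_reduce
    rw [← hmain q]
    have h1 := lr_add_self c0
    calc κ (ed q) + c0 + (κ (ed (S.nxt q)) + c0) = κ (ed q) + κ (ed (S.nxt q)) + (c0 + c0) := by ring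
      _ = κ (ed q) + κ (ed (S.nxt q)) := by rw [h1, add_zero]
  · intro x hx q hq
    beta_reduce
    rw [hall x hx q hq, lr_add_self]

end Pool.Agent.EAD
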