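import Pool.Agent.Helper35.OG.Abs

/-!
# EAD-NAbs: small subsets of the same class

PLAN. Copy the proof of `Pool.Agent.Helper35.OG.abs` (`Pool/Agent/Helper35/OG/Abs.lean`); the set `mu` found there is a
subset of `lam1` (`hm0`) and `lam1 ⊆ lam` (`step1`; it is called `hl0` there).
-/

set_option autoImplicit false

open Finset
open scoped Classical

namespace Pool.Agent.EAD

open Pool.Agent.Helper35.OG

variable {V E : Type} [Fintype V] [DecidableEq V] [Fintype E] [DecidableEq E]
variable (a b : E → V) {H : Type} [AddCommGroup H] [Module (ZMod 2) H] (c : (E → ZMod 2) →ₗ[ZMod 2] H)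

theorem abs_sub {k : ℕ} (hk : Module.finrank (ZMod 2) ((LinearMap.ker (bd a b)).map c) ≤ k) (lam : Finset E)
    (hlam : bd a b (ind lam) = 0) :
    ∃ mu ⊆ lam, bd a b (ind mu) = 0 ∧ c (ind mu) = c (ind lam) ∧ ∃ ℓ : List (V × V),
      (∀ p ∈ ℓ, adj a b lam p.1 p.2 = 1) ∧ ℓ.Pairwise (fun p q => adj a b lam p.1 q.2 = 0) ∧
      mu.card ≤ ℓ.length + 12 * k := by
  classical
  obtain ⟨lam1, hl0, R1, hl1, hl2, hl3, hR1, hloop, hpar⟩ := step1 a b c hk lam hlam
  -- the smallest set of the same class
  obtain ⟨mu, ⟨hm0, hm1, hm2⟩, hmin⟩ := Set.exists_min_image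
    {ν : Finset E | ν ⊆ lam1 ∧ bd a b (ind ν) = 0 ∧ c (ind ν) = c (ind lam1)} Finset.card (Set.toFinite _)
    ⟨lam1, Finset.Subset.refl _, hl1, rfl⟩
  set U := vts a b mu with hU
  have hUa : ∀ e ∈ mu, a e ∈ U ∧ b e ∈ U := by
    intro e he
    exact ⟨(mem_vts a b).2 (dg_pos_of a b he (Or.inl rfl)), (mem_vts a b).2 (dg_pos_of a b he (Or.inr rfl))⟩
  -- no even subset of class zero
  have hno : ∀ ν ⊆ mu, bd a b (ind ν) = 0 → c (ind ν) = 0 → ν = ∅ := by
    intro ν hν h1 h2
    by_contra hne
    have hne' : ν.Nonempty := Finset.nonempty_iff_ne_empty.2 hne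
    have hsd := ind_sdiff hν
    have := hmin (mu \ ν) ⟨Finset.sdiff_subset.trans hm0, by rw [hsd, map_add, hm1, h1, add_zero],
      by rw [hsd, map_add, h2, hm2, add_zero]⟩
    have hlt : (mu \ ν).card < mu.card := Finset.card_lt_card (Finset.sdiff_ssubset hν hne')
    omega
  -- separated families of chords
  let Good : Finset E → Prop := fun F => (∀ e ∈ F, e ∈ lam1 ∧ e ∉ mu ∧ a e ∈ U ∧ b e ∈ U ∧ a e ∉ R1 ∧ b e ∉ R1) ∧
    (∀ v, dg a b F v ≤ 1) ∧ ∀ e ∈ mu, ¬ (a e ∈ vts a b F ∧ b e ∈ vts a b F)
  have hgood : ∀ F, Good F → F.card + mu.card ≤ U.card + k := by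
    rintro F ⟨hF1, hF2, hF3⟩
    by_contra hcon
    push Not at hcon
    have hdis : Disjoint mu F := by
      rw [Finset.disjoint_left]
      intro e h1 h2
      exact (hF1 e h2).2.1 h1
    obtain ⟨ν, hν1, hν2, hν3, hν4⟩ := exists_even a b c hk (mu ∪ F) U
      (by
        intro e he
        rcases Finset.mem_union.1 he with h | h
        · exact hUa e h
        · exact ⟨(hF1 e h).2.2.1, (hF1 e h).2.2.2.1⟩)
      (by rw [Finset.card_union_of_disjoint hdis]; omega)
    set I := ν ∩ F with hI
    set J := ν ∩ mu with hJ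
    have hdIJ : Disjoint J I := by
      rw [Finset.disjoint_left]
      intro e h1 h2
      exact Finset.disjoint_left.1 hdis (Finset.mem_inter.1 h1).2 (Finset.mem_inter.1 h2).2
    have hνIJ : ν = J ∪ I := by
      ext e
      rw [Finset.mem_union, hI, hJ, Finset.mem_inter, Finset.mem_inter]
      constructor
      · intro h
        rcases Finset.mem_union.1 (hν1 h) with h' | h'
        · exact Or.inl ⟨h, h'⟩
        · exact Or.inr ⟨h, h'⟩
      · rintro (h | h)
        · exact h.1
        · exact h.1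
    -- the minimality
    have hsym : symmDiff mu ν = (mu \ J) ∪ I := by
      ext e
      rw [Finset.mem_symmDiff, Finset.mem_union, Finset.mem_sdiff, hI, hJ, Finset.mem_inter, Finset.mem_inter]
      constructor
      · rintro (⟨h1, h2⟩ | ⟨h1, h2⟩)
        · exact Or.inl ⟨h1, fun h => h2 h.1⟩
        · rcases Finset.mem_union.1 (hν1 h1) with h' | h'
          · exact absurd h' h2
          · exact Or.inr ⟨h1, h'⟩
      · rintro (⟨h1, h2⟩ | ⟨h1, h2⟩)
        · exact Or.inl ⟨h1, fun h => h2 ⟨h, h1⟩⟩
        · exact Or.inr ⟨h1, fun h => Finset.disjoint_left.1 hdis h h2⟩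
    have hcard1 : (symmDiff mu ν).card = mu.card - J.card + I.card := by
      rw [hsym, Finset.card_union_of_disjoint, Finset.card_sdiff_of_subset Finset.inter_subset_right]
      rw [Finset.disjoint_left]
      intro e h1 h2
      exact Finset.disjoint_left.1 hdis (Finset.mem_sdiff.1 h1).1 (Finset.mem_inter.1 h2).2
    have hmin1 := hmin (symmDiff mu ν) ⟨by
        rw [hsym]
        intro e he
        rcases Finset.mem_union.1 he with h | h
        · exact hm0 (Finset.mem_sdiff.1 h).1
        · exact (hF1 e (Finset.mem_inter.1 h).2).1,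
      by rw [ind_symmDiff, map_add, hm1, hν3, add_zero],
      by rw [ind_symmDiff, map_add, hm2, hν4, add_zero]⟩
    have hJm : J.card ≤ mu.card := Finset.card_le_card Finset.inter_subset_right
    -- degrees
    have hdI : ∀ v ∈ vts a b I, dg a b I v = 1 := by
      intro v hv
      rw [mem_vts] at hv
      have h1 : dg a b I v ≤ dg a b F v := dg_mono a b Finset.inter_subset_right v
      have h2 := hF2 v
      omega
    have hsI := sum_dg_vts a b I
    rw [Finset.sum_congr rfl hdI, Finset.sum_const, smul_eq_mul, mul_one] at hsI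
    have hdJ : ∀ v ∈ vts a b I, 1 ≤ dg a b J v := by
      intro v hv
      have h1 := dg_even a b hν3 v
      rw [hνIJ, dg_union a b hdIJ v, hdI v hv] at h1
      rcases h1 with ⟨r, hr⟩
      omega
    have hsJ : (vts a b I).card ≤ ∑ v ∈ vts a b I, dg a b J v := by
      calc (vts a b I).card = ∑ v ∈ vts a b I, 1 := by rw [Finset.sum_const, smul_eq_mul, mul_one]
        _ ≤ _ := Finset.sum_le_sum hdJ
    have hsJ' : ∑ v ∈ vts a b I, dg a b J v ≤ J.card := by
      apply sum_dg_le
      rintro e he ⟨h1, h2⟩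
      apply hF3 e (Finset.mem_inter.1 he).2
      constructor
      · rw [mem_vts] at h1 ⊢
        exact lt_of_lt_of_le h1 (dg_mono a b Finset.inter_subset_right _)
      · rw [mem_vts] at h2 ⊢
        exact lt_of_lt_of_le h2 (dg_mono a b Finset.inter_subset_right _)
    have hI0 : I.card = 0 := by omega
    have hJ0 : J.card = 0 := by omega
    rw [Finset.card_eq_zero] at hI0 hJ0
    rw [hνIJ, hI0, hJ0] at hν2
    simp at hν2
  -- the largest separated family
  obtain ⟨F, hF, hmaxF⟩ := Set.exists_max_image {F : Finset E | Good F} Finset.card (Set.toFinite _)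
    ⟨∅, by
      refine ⟨?_, ?_, ?_⟩
      · intro e he; exact absurd he (Finset.notMem_empty e)
      · intro v; simp [dg]
      · intro e _ h
        have := h.1
        rw [mem_vts] at this
        simp [dg] at this⟩
  obtain ⟨hF1, hF2, hF3⟩ := id hF
  set T := vts a b F with hT
  have hTU : T ⊆ U := by
    intro v hv
    rw [hT, mem_vts] at hv
    obtain ⟨e, he, h⟩ := dg_pos a b hv
    rcases h with h | h
    · rw [← h]; exact (hF1 e he).2.2.1
    · rw [← h]; exact (hF1 e he).2.2.2.1
  have hTcard : T.card = 2 * F.card := by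
    have h1 : ∀ v ∈ T, dg a b F v = 1 := by
      intro v hv
      rw [hT, mem_vts] at hv
      have := hF2 v
      omega
    have h2 := sum_dg_vts a b F
    rw [Finset.sum_congr rfl h1, Finset.sum_const, smul_eq_mul, mul_one] at h2
    exact h2
  let NT : Finset V := ((mu.filter fun e => b e ∈ T).image a) ∪ ((mu.filter fun e => a e ∈ T).image b)
  have hNTmem : ∀ e ∈ mu, (b e ∈ T → a e ∈ NT) ∧ (a e ∈ T → b e ∈ NT) := by
    intro e he
    constructor
    · intro h
      exact Finset.mem_union_left _ (Finset.mem_image_of_mem _ (Finset.mem_filter.2 ⟨he, h⟩))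
    · intro h
      exact Finset.mem_union_right _ (Finset.mem_image_of_mem _ (Finset.mem_filter.2 ⟨he, h⟩))
  have hNTU : NT ⊆ U := by
    intro v hv
    rcases Finset.mem_union.1 hv with h | h
    · obtain ⟨e, he, h'⟩ := Finset.mem_image.1 h
      rw [← h']; exact (hUa e (Finset.mem_filter.1 he).1).1
    · obtain ⟨e, he, h'⟩ := Finset.mem_image.1 h
      rw [← h']; exact (hUa e (Finset.mem_filter.1 he).1).2
  have hNTcard : NT.card ≤ ∑ v ∈ T, dg a b mu v := by
    rw [sum_dg_on, add_comm]
    exact (Finset.card_union_le _ _).trans (Nat.add_le_add Finset.card_image_le Finset.card_image_le)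
  -- every chord has an end in `T ∪ NT`
  have hchord : ∀ e ∈ lam1, e ∉ mu → a e ∈ U → b e ∈ U → a e ∉ R1 → b e ∉ R1 →
      (a e ∈ T ∨ a e ∈ NT) ∨ (b e ∈ T ∨ b e ∈ NT) := by
    intro e he1 he2 he3 he4 he5 he6
    by_contra hcon
    push Not at hcon
    obtain ⟨⟨hc1, hc2⟩, hc3, hc4⟩ := hcon
    have hab : a e ≠ b e := fun h => he5 (hloop e he1 h)
    have heF : e ∉ F := by
      intro h
      exact hc1 ((mem_vts a b).2 (dg_pos_of a b h (Or.inl rfl)))
    have hdgi : ∀ v, dg a b (insert e F) v = dg a b {e} v + dg a b F v := by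
      intro v
      have : insert e F = {e} ∪ F := rfl
      rw [this]
      exact dg_union a b (Finset.disjoint_singleton_left.2 heF) v
    have hdge : ∀ v, dg a b {e} v = (if a e = v then 1 else 0) + (if b e = v then 1 else 0) := by
      intro v
      unfold dg
      rw [Finset.filter_singleton, Finset.filter_singleton]
      by_cases h1 : a e = v <;> by_cases h2 : b e = v <;> simp [h1, h2]
    have hvts : ∀ v, v ∈ vts a b (insert e F) → v = a e ∨ v = b e ∨ v ∈ T := by
      intro v hv
      rw [mem_vts, hdgi, hdge] at hv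
      by_cases h1 : a e = v
      · exact Or.inl h1.symm
      · by_cases h2 : b e = v
        · exact Or.inr (Or.inl h2.symm)
        · rw [if_neg h1, if_neg h2] at hv
          exact Or.inr (Or.inr ((mem_vts a b).2 (by omega)))
    have hbig : Good (insert e F) := by
      refine ⟨?_, ?_, ?_⟩
      · intro e' he'
        rcases Finset.mem_insert.1 he' with h | h
        · rw [h]; exact ⟨he1, he2, he3, he4, he5, he6⟩
        · exact hF1 e' h
      · intro v
        rw [hdgi, hdge]
        by_cases h1 : a e = v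
        · have h2 : ¬ b e = v := fun h => hab (h1.trans h.symm)
          have h3 : dg a b F v = 0 := by
            have : ¬ 0 < dg a b F v := fun h => hc1 (by rw [h1]; exact (mem_vts a b).2 h)
            omega
          rw [if_pos h1, if_neg h2, h3]
        · rw [if_neg h1]
          by_cases h2 : b e = v
          · have h3 : dg a b F v = 0 := by
              have : ¬ 0 < dg a b F v := fun h => hc3 (by rw [h2]; exact (mem_vts a b).2 h)
              omega
            rw [if_pos h2, h3]
          · rw [if_neg h2]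
            have := hF2 v
            omega
      · intro e' he' ⟨hh1, hh2⟩
        have he'1 := hm0 he'
        have hne : e ≠ e' := fun h => he2 (h ▸ he')
        have hN := hNTmem e' he'
        rcases hvts _ hh1 with h1 | h1 | h1
        · rcases hvts _ hh2 with h2 | h2 | h2
          · exact he5 (h1 ▸ hloop e' he'1 (h1.trans h2.symm))
          · rcases hpar e he1 e' he'1 hne (Or.inl ⟨h1.symm, h2.symm⟩) with h | h
            · exact he5 h
            · exact he6 h
          · exact hc2 (h1 ▸ hN.1 h2)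
        · rcases hvts _ hh2 with h2 | h2 | h2
          · rcases hpar e he1 e' he'1 hne (Or.inr ⟨h2.symm, h1.symm⟩) with h | h
            · exact he5 h
            · exact he6 h
          · exact he6 (h1 ▸ hloop e' he'1 (h1.trans h2.symm))
          · exact hc4 (h1 ▸ hN.1 h2)
        · rcases hvts _ hh2 with h2 | h2 | h2
          · exact hc2 (h2 ▸ hN.2 h1)
          · exact hc4 (h2 ▸ hN.2 h1)
          · exact hF3 e' he' ⟨h1, h2⟩
    have := hmaxF _ hbig
    rw [Finset.card_insert_of_notMem heF] at this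
    omega
  -- the induction
  set U' := U.filter (fun v => v ∉ R1 ∧ v ∉ T ∧ v ∉ NT) with hU'
  have hU'mem : ∀ v ∈ U', v ∈ U ∧ v ∉ R1 ∧ v ∉ T ∧ v ∉ NT := fun v hv => Finset.mem_filter.1 hv
  have hadj : ∀ u v, adj a b lam u v =
      ∑ e ∈ lam1, ((if a e = u ∧ b e = v then 1 else 0) + (if a e = v ∧ b e = u then 1 else 0)) := by
    intro u v
    rw [← hl3]
    show ∑ e, ind lam1 e * _ = _
    unfold ind
    simp only [ite_mul, one_mul, zero_mul]
    rw [Finset.sum_ite_mem, Finset.univ_inter]
  have hα0 : ∀ u, adj a b lam u u = 0 := by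
    intro u
    rw [hadj]
    apply Finset.sum_eq_zero
    intro e _
    exact f2_add_self _
  have hcomm : ∀ u v, adj a b lam u v = adj a b lam v u := by
    intro u v
    rw [hadj, hadj]
    apply Finset.sum_congr rfl
    intro e _
    rw [add_comm]
  have hα1 : ∀ e ∈ lam1, a e ∉ R1 → b e ∉ R1 → adj a b lam (a e) (b e) = 1 := by
    intro e he h1 h2
    have hab : a e ≠ b e := fun h => h1 (hloop e he h)
    rw [hadj, Finset.sum_eq_single e]
    · rw [if_pos ⟨rfl, rfl⟩, if_neg (fun h => hab h.1), add_zero]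
    · intro e' he' hne
      rw [if_neg, if_neg, add_zero]
      · rintro ⟨h3, h4⟩
        rcases hpar e he e' he' (Ne.symm hne) (Or.inr ⟨h4.symm, h3.symm⟩) with h | h
        · exact h1 h
        · exact h2 h
      · rintro ⟨h3, h4⟩
        rcases hpar e he e' he' (Ne.symm hne) (Or.inl ⟨h3.symm, h4.symm⟩) with h | h
        · exact h1 h
        · exact h2 h
    · intro h; exact absurd he h
  have hα2 : ∀ u v, adj a b lam u v = 1 → ∃ e ∈ lam1, (a e = u ∧ b e = v) ∨ (a e = v ∧ b e = u) := by
    intro u v h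
    by_contra hcon
    push Not at hcon
    rw [hadj, Finset.sum_eq_zero] at h
    · exact zero_ne_one h
    · intro e he
      obtain ⟨h1, h2⟩ := hcon e he
      rw [if_neg (fun h => h1 h.1 h.2), if_neg (fun h => h2 h.1 h.2), add_zero]
  obtain ⟨ℓ, hℓ1, hℓ2, hℓ3⟩ := step4 a b (adj a b lam) hα0 mu U'
    (by
      intro e he
      rw [Pool.Agent.Helper35.OG.mem_sub] at he
      have h1 := hU'mem _ he.2.1
      have h2 := hU'mem _ he.2.2
      have := hα1 e (hm0 he.1) h1.2.1 h2.2.1
      exact ⟨this, (hcomm _ _).trans this⟩)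
    (by
      intro u hu v hv h
      have h1 := hU'mem _ hu
      have h2 := hU'mem _ hv
      obtain ⟨e, he, hh⟩ := hα2 u v h
      refine ⟨e, ?_, hh⟩
      by_contra hne
      rcases hh with ⟨h3, h4⟩ | ⟨h3, h4⟩
      · have := hchord e he hne (h3 ▸ h1.1) (h4 ▸ h2.1) (h3 ▸ h1.2.1) (h4 ▸ h2.2.1)
        rw [h3, h4] at this
        rcases this with (h | h) | (h | h)
        · exact h1.2.2.1 h
        · exact h1.2.2.2 h
        · exact h2.2.2.1 h
        · exact h2.2.2.2 h
      · have := hchord e he hne (h3 ▸ h2.1) (h4 ▸ h1.1) (h3 ▸ h2.2.1) (h4 ▸ h1.2.1)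
        rw [h3, h4] at this
        rcases this with (h | h) | (h | h)
        · exact h2.2.2.1 h
        · exact h2.2.2.2 h
        · exact h1.2.2.1 h
        · exact h1.2.2.2 h)
    (by
      intro v hv
      exact two_le_dg a b hm1 (hU'mem v hv).1)
    U' (Finset.Subset.refl _)
  refine ⟨mu, hm0.trans hl0, hm1, hm2.trans hl2, ℓ, fun p hp => (hℓ1 p hp).2.2, hℓ2, ?_⟩
  -- the dimension
  have hfin : Module.finrank F2 (evenSub a b (sub a b mu U')) ≤ k := by
    by_contra hcon
    push Not at hcon
    obtain ⟨x, hx0, hx⟩ := dim_kernel a b c hk (evenSub a b (sub a b mu U')).subtype (fun x => x.2.1) hcon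
    have h1 : supp x.1 ⊆ mu := by
      intro e he
      by_contra h
      exact (mem_supp.1 he) (x.2.2 e (fun h' => h ((Pool.Agent.Helper35.OG.mem_sub a b).1 h').1))
    have h2 := hno _ h1 (by rw [ind_supp]; exact x.2.1) (by rw [ind_supp]; exact hx)
    apply hx0
    apply Subtype.ext
    rw [← ind_supp x.1, h2]
    funext e
    simp [ind]
  -- the lost edges
  have hlost : mu.card ≤ (sub a b mu U').card + ∑ v ∈ (R1 ∩ U) ∪ NT, dg a b mu v := by
    have h : mu ⊆ sub a b mu U' ∪ ((R1 ∩ U) ∪ NT).biUnion (fun v => mu.filter fun e => a e = v ∨ b e = v) := by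
      intro e he
      rw [Finset.mem_union, Pool.Agent.Helper35.OG.mem_sub, Finset.mem_biUnion]
      by_cases h1 : a e ∈ U'
      · by_cases h2 : b e ∈ U'
        · exact Or.inl ⟨he, h1, h2⟩
        · right
          have h3 : b e ∈ R1 ∨ b e ∈ T ∨ b e ∈ NT := by
            by_contra hcon
            push Not at hcon
            exact h2 (Finset.mem_filter.2 ⟨(hUa e he).2, hcon⟩)
          rcases h3 with h3 | h3 | h3
          · exact ⟨b e, Finset.mem_union_left _ (Finset.mem_inter.2 ⟨h3, (hUa e he).2⟩),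
              Finset.mem_filter.2 ⟨he, Or.inr rfl⟩⟩
          · exact ⟨a e, Finset.mem_union_right _ ((hNTmem e he).1 h3), Finset.mem_filter.2 ⟨he, Or.inl rfl⟩⟩
          · exact ⟨b e, Finset.mem_union_right _ h3, Finset.mem_filter.2 ⟨he, Or.inr rfl⟩⟩
      · right
        have h3 : a e ∈ R1 ∨ a e ∈ T ∨ a e ∈ NT := by
          by_contra hcon
          push Not at hcon
          exact h1 (Finset.mem_filter.2 ⟨(hUa e he).1, hcon⟩)
        rcases h3 with h3 | h3 | h3
        · exact ⟨a e, Finset.mem_union_left _ (Finset.mem_inter.2 ⟨h3, (hUa e he).1⟩),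
            Finset.mem_filter.2 ⟨he, Or.inl rfl⟩⟩
        · exact ⟨b e, Finset.mem_union_right _ ((hNTmem e he).2 h3), Finset.mem_filter.2 ⟨he, Or.inr rfl⟩⟩
        · exact ⟨a e, Finset.mem_union_right _ h3, Finset.mem_filter.2 ⟨he, Or.inl rfl⟩⟩
    calc mu.card ≤ _ := Finset.card_le_card h
      _ ≤ _ := Finset.card_union_le _ _
      _ ≤ _ := Nat.add_le_add_left (Finset.card_biUnion_le.trans
          (Finset.sum_le_sum (fun v _ => card_inc_le a b mu v))) _
  -- the excess
  let ex : V → ℕ := fun v => dg a b mu v - 2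
  have hex : ∀ S ⊆ U, ∑ v ∈ S, dg a b mu v = 2 * S.card + ∑ v ∈ S, ex v := by
    intro S hS
    rw [mul_comm, ← smul_eq_mul, ← Finset.sum_const, ← Finset.sum_add_distrib]
    apply Finset.sum_congr rfl
    intro v hv
    have := two_le_dg a b hm1 (hS hv)
    show dg a b mu v = 2 + (dg a b mu v - 2)
    omega
  have hexle : ∀ S ⊆ U, ∑ v ∈ S, ex v ≤ ∑ v ∈ U, ex v := fun S hS => Finset.sum_le_sum_of_subset hS
  have e1 := hex U (Finset.Subset.refl _)
  have e2 := hex (R1 ∩ U) Finset.inter_subset_right
  have e3 := hex NT hNTU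
  have e4 := hex T hTU
  have e5 := hexle NT hNTU
  have e6 := hexle T hTU
  have e7 : ∑ v ∈ U', ex v + ∑ v ∈ R1 ∩ U, ex v ≤ ∑ v ∈ U, ex v := by
    rw [← Finset.sum_union]
    · apply hexle
      apply Finset.union_subset (Finset.filter_subset _ _) Finset.inter_subset_right
    · rw [Finset.disjoint_left]
      intro v h1 h2
      exact (hU'mem v h1).2.1 (Finset.mem_inter.1 h2).1
  have e8 : ∑ v ∈ (R1 ∩ U) ∪ NT, dg a b mu v ≤ ∑ v ∈ R1 ∩ U, dg a b mu v + ∑ v ∈ NT, dg a b mu v := by
    rw [← Finset.sum_union_inter]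
    exact Nat.le_add_right _ _
  have e9 : (R1 ∩ U).card ≤ k := (Finset.card_le_card Finset.inter_subset_left).trans hR1
  have e10 := sum_dg_vts a b mu
  have e11 := hgood F hF
  change (sub a b mu U').card ≤ ℓ.length + 2 * Module.finrank F2 (evenSub a b (sub a b mu U')) +
        ∑ v ∈ U', ex v at hℓ3
  rw [← hU] at e10
  omega

end Pool.Agent.EAD
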