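import Pool.Agent.EAD.NAbs
import Pool.Agent.EAD.NPar

/-!
# EAD-NLb: the lower bound by the rows

PLAN. `abs_sub` with `a := S.D.s`, `b := S.D.t`, `lam := nu`, `c x := ∑ e, x e • S.D.a e` (values in `Z →ₗ F2`):
`hk`: a vector in the kernel of `bd` is mapped into `S.D.H` (`D.inc`), whose dimension is `k` (`finrank_H`,
`Submodule.finrank_mono`). `bd (ind nu) = 0`: `ev_of_adm`. The set `mu'` of `abs_sub` has the class of `nu`
(`c (ind mu') = ∑ e ∈ mu', D.a e`), so it is admissible (`adm_iff`) and `mu.card ≤ mu'.card` by `h.smallM`. As `nu ⊆ lam`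
has no parallel chords (`noPar h`) and no loops (`s_ne_t` of `XCfgA.lean`), `adj (D.s) (D.t) nu F G = row (D.gr nu) F G`
for all `F, G`. The rows of the first members `p.1` of the pairs of `ℓ` are linearly independent (`row p.1 p.2 = 1`,
`row p.1 q.2 = 0` for `p` before `q`: in a vanishing linear combination evaluate at `q.2` for the last `q` with nonzero
coefficient), so `ℓ.length ≤ finrank (rowSp (D.gr nu))` (e.g. `LinearIndependent` of `fun i => row _ (ℓ.get i).1` in the
span, or induction on the list).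
-/

set_option autoImplicit false

open Finset
open scoped Classical

namespace Pool.Agent.EAD

open Pool.Agent.BEO hiding Cfg Frame

variable {k : ℕ} {Φ Vt Z : Type} [Fintype Φ] [Fintype Vt] [AddCommGroup Z] [Module F2 Z] [Module.Finite F2 Z]

private theorem nlb_list (L : SimpleGraph Φ) (ℓ : List (Φ × Φ)) (h1 : ∀ p ∈ ℓ, row L p.1 p.2 = 1)
    (h2 : ℓ.Pairwise fun p q => row L p.1 q.2 = 0) : ℓ.length ≤ Module.finrank F2 (rowSp L) := by
  have hmem : ∀ v, row L v ∈ rowSp L := fun v => Submodule.subset_span ⟨v, rfl⟩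
  have hp := List.pairwise_iff_get.1 h2
  have hli : LinearIndependent F2 (fun i : Fin ℓ.length => (⟨row L (ℓ.get i).1, hmem _⟩ : rowSp L)) := by
    rw [Fintype.linearIndependent_iff]
    intro g hg
    by_contra hcon
    push Not at hcon
    obtain ⟨j0, hj0⟩ := hcon
    have hne : (univ.filter fun j => g j ≠ 0).Nonempty := ⟨j0, mem_filter.2 ⟨mem_univ _, hj0⟩⟩
    obtain ⟨j, hj, hmax⟩ : ∃ j ∈ univ.filter (fun j => g j ≠ 0),
        ∀ i ∈ univ.filter (fun j => g j ≠ 0), i ≤ j :=
      ⟨_, Finset.max'_mem _ hne, fun i hi => Finset.le_max' _ i hi⟩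
    have h3 : (∑ i, g i • (⟨row L (ℓ.get i).1, hmem _⟩ : rowSp L)).1 (ℓ.get j).2 = 0 := by
      rw [hg]
      rfl
    rw [AddSubmonoidClass.coe_finset_sum, Finset.sum_apply, Finset.sum_eq_single j] at h3
    · have h4 : g j * row L (ℓ.get j).1 (ℓ.get j).2 = 0 := h3
      rw [h1 _ (List.get_mem ℓ j), mul_one] at h4
      exact (mem_filter.1 hj).2 h4
    · intro i _ hij
      show g i * row L (ℓ.get i).1 (ℓ.get j).2 = 0
      rcases lt_or_gt_of_ne hij with h4 | h4
      · rw [hp i j h4, mul_zero]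
      · have h5 : g i = 0 := by
          by_contra h6
          have h7 := hmax i (mem_filter.2 ⟨mem_univ _, h6⟩)
          exact absurd h7 (not_le.2 h4)
        rw [h5, zero_mul]
    · intro h4
      exact absurd (mem_univ _) h4
  have h3 := hli.fintype_card_le_finrank
  rwa [Fintype.card_fin] at h3

private theorem nlb_ind {E A : Type} [Fintype E] [AddCommMonoid A] (nu : Finset E) (f : E → A) :
    ∑ e, (if e ∈ nu then f e else 0) = ∑ e ∈ nu, f e := by
  rw [Finset.sum_ite_mem, Finset.univ_inter]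

private theorem nlb_adj (S : Sys k Φ Vt Z) (nu : Finset (Ch S.P)) (hp : NoPar S nu) (F G : Φ) :
    Helper35.OG.adj S.D.s S.D.t nu F G = row (S.D.gr nu) F G := by
  have h0 : Helper35.OG.adj S.D.s S.D.t nu F G =
      ∑ e ∈ nu, ((if S.D.s e = F ∧ S.D.t e = G then (1 : F2) else 0) +
        (if S.D.s e = G ∧ S.D.t e = F then 1 else 0)) := by
    rw [← nlb_ind]
    show ∑ e, Helper35.OG.ind nu e * ((if S.D.s e = F ∧ S.D.t e = G then 1 else 0) +
      (if S.D.s e = G ∧ S.D.t e = F then 1 else 0)) = _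
    refine sum_congr rfl fun e _ => ?_
    unfold Helper35.OG.ind
    split_ifs <;> simp
  rw [h0]
  unfold row
  by_cases hA : (S.D.gr nu).Adj F G
  · rw [if_pos hA]
    obtain ⟨hFG, e, he, h1⟩ := hA
    rw [Finset.sum_eq_single_of_mem e he]
    · rcases h1 with h1 | h1
      · rw [if_pos h1, if_neg (fun h2 => hFG (h1.1.symm.trans h2.1)), add_zero]
      · rw [if_pos h1, if_neg (fun h2 => hFG (h2.1.symm.trans h1.1)), zero_add]
    · intro e' he' hne
      have h3 : ¬ ((S.D.s e' = F ∧ S.D.t e' = G) ∨ (S.D.s e' = G ∧ S.D.t e' = F)) := by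
        intro h4
        apply hne
        refine hp e' he' e he ?_
        have h5 : s(S.D.s e', S.D.t e') = s(F, G) := Sym2.eq_iff.2 h4
        have h6 : s(S.D.s e, S.D.t e) = s(F, G) := Sym2.eq_iff.2 h1
        rw [h5, h6]
      push Not at h3
      rw [if_neg (fun h4 => h3.1 h4.1 h4.2), if_neg (fun h4 => h3.2 h4.1 h4.2), add_zero]
  · rw [if_neg hA]
    refine Finset.sum_eq_zero fun e he => ?_
    by_cases hFG : F = G
    · have h1 := s_ne_t S e
      rw [if_neg (fun h2 => h1 (h2.1.trans (hFG.trans h2.2.symm))),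
        if_neg (fun h2 => h1 (h2.1.trans (hFG.symm.trans h2.2.symm))), add_zero]
    · rw [if_neg (fun h2 => hA ⟨hFG, e, he, Or.inl h2⟩), if_neg (fun h2 => hA ⟨hFG, e, he, Or.inr h2⟩),
        add_zero]

private theorem nlb_c (S : Sys k Φ Vt Z) (nu : Finset (Ch S.P)) :
    Fintype.linearCombination F2 S.D.a (Helper35.OG.ind nu) = ∑ e ∈ nu, S.D.a e := by
  rw [Fintype.linearCombination_apply, ← nlb_ind nu]
  refine sum_congr rfl fun e _ => ?_
  unfold Helper35.OG.ind
  by_cases he : e ∈ nu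
  · rw [if_pos he, if_pos he, one_smul]
  · rw [if_neg he, if_neg he, zero_smul]

theorem lb_row {S : Sys k Φ Vt Z} {lam mu : Finset (Ch S.P)} (h : Ext S lam mu) (nu : Finset (Ch S.P)) (hs : nu ⊆ lam)
    (hn : S.D.Adm nu) : mu.card ≤ Module.finrank F2 (rowSp (S.D.gr nu)) + 12 * k := by
  have hpl : NoPar S lam := noPar h
  have hpn : NoPar S nu := fun e he e' he' hee => hpl e (hs he) e' (hs he') hee
  have hk : Module.finrank F2 ((LinearMap.ker (Helper35.OG.bd S.D.s S.D.t)).map
      (Fintype.linearCombination F2 S.D.a)) ≤ k := by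
    refine le_trans (Submodule.finrank_mono ?_) S.D.finrank_H.le
    rintro _ ⟨x, hx, rfl⟩ F
    have h1 : (Helper35.OG.bd S.D.s S.D.t x) F = 0 := congrFun (LinearMap.mem_ker.1 hx) F
    rw [Fintype.linearCombination_apply, LinearMap.sum_apply, ← h1]
    show _ = ∑ e, x e * ((if S.D.s e = F then 1 else 0) + (if S.D.t e = F then 1 else 0))
    refine sum_congr rfl fun e _ => ?_
    rw [LinearMap.smul_apply, smul_eq_mul, S.D.inc]
  have hb : Helper35.OG.bd S.D.s S.D.t (Helper35.OG.ind nu) = 0 := by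
    funext F
    have h1 := S.D.ev_of_adm nu hn F
    rw [Pi.zero_apply, ← h1, ← nlb_ind]
    show ∑ e, Helper35.OG.ind nu e * ((if S.D.s e = F then 1 else 0) + (if S.D.t e = F then 1 else 0)) = _
    refine sum_congr rfl fun e _ => ?_
    unfold Helper35.OG.ind
    by_cases he : e ∈ nu
    · rw [if_pos he, if_pos he, one_mul]
    · rw [if_neg he, if_neg he, zero_mul]
  obtain ⟨mu', hm1, -, hm3, ℓ, hl1, hl2, hl3⟩ :=
    abs_sub S.D.s S.D.t (Fintype.linearCombination F2 S.D.a) hk nu hb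
  rw [nlb_c, nlb_c] at hm3
  have hadm : S.D.Adm mu' := (S.D.adm_iff mu' nu hm3).2 hn
  have h4 := h.smallM mu' (hm1.trans hs) hadm
  have h5 := nlb_list (S.D.gr nu) ℓ (fun p hp => by rw [← nlb_adj S nu hpn]; exact hl1 p hp)
    (hl2.imp fun {p q} hpq => by rw [← nlb_adj S nu hpn]; exact hpq)
  omega

end Pool.Agent.EAD
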