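import Mathlib

/-!
# EAD-NPair: pairing consecutive elements (Mathlib only)

Induction on the number of pairs: split off the two smallest elements.
-/

set_option autoImplicit false

open Finset
open scoped Classical

namespace Pool.Agent.EAD

private theorem pairs_aux (n : ℕ) : ∀ O : Finset ℕ, O.card = 2 * n →
    ∃ Q : Finset (ℕ × ℕ), Q.card = n ∧
    (∀ p ∈ Q, p.1 ∈ O ∧ p.2 ∈ O ∧ p.1 < p.2 ∧ ∀ i ∈ O, ¬ (p.1 < i ∧ i < p.2)) ∧
    ∀ (M : Type) [AddCommMonoid M] (g : ℕ → M), ∑ p ∈ Q, (g p.1 + g p.2) = ∑ i ∈ O, g i := by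
  induction n with
  | zero =>
    intro O hO
    have h1 : O = ∅ := Finset.card_eq_zero.1 (by omega)
    refine ⟨∅, rfl, fun p hp => absurd hp (Finset.notMem_empty p), fun M _ g => ?_⟩
    rw [h1, Finset.sum_empty, Finset.sum_empty]
  | succ n ih =>
    intro O hO
    have h0 : O.Nonempty := Finset.card_pos.1 (by omega)
    obtain ⟨a, ha, ha'⟩ : ∃ a ∈ O, ∀ i ∈ O, a ≤ i :=
      ⟨O.min' h0, O.min'_mem h0, fun i hi => O.min'_le i hi⟩
    have hc1 : (O.erase a).card = 2 * n + 1 := by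
      rw [Finset.card_erase_of_mem ha]
      omega
    have h1 : (O.erase a).Nonempty := Finset.card_pos.1 (by omega)
    obtain ⟨b, hb, hb'⟩ : ∃ b ∈ O.erase a, ∀ i ∈ O.erase a, b ≤ i :=
      ⟨(O.erase a).min' h1, (O.erase a).min'_mem h1, fun i hi => (O.erase a).min'_le i hi⟩
    have hc2 : ((O.erase a).erase b).card = 2 * n := by
      rw [Finset.card_erase_of_mem hb]
      omega
    obtain ⟨Q, hQ1, hQ2, hQ3⟩ := ih _ hc2
    have hab : a < b := lt_of_le_of_ne (ha' b (Finset.mem_erase.1 hb).2)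
      (Finset.mem_erase.1 hb).1.symm
    have hbO : b ∈ O := (Finset.mem_erase.1 hb).2
    have hn : (a, b) ∉ Q := fun h =>
      (Finset.mem_erase.1 (Finset.mem_erase.1 (hQ2 _ h).1).2).1 rfl
    refine ⟨insert (a, b) Q, by rw [Finset.card_insert_of_notMem hn, hQ1], ?_, ?_⟩
    · intro p hp
      rcases Finset.mem_insert.1 hp with rfl | hp
      · refine ⟨ha, hbO, hab, fun i hi hc => ?_⟩
        have := hb' i (Finset.mem_erase.2 ⟨hc.1.ne', hi⟩)
        exact absurd hc.2 (not_lt.2 this)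
      · obtain ⟨h2, h3, h4, h5⟩ := hQ2 p hp
        have h6 := hb' _ (Finset.mem_erase.1 h2).2
        refine ⟨(Finset.mem_erase.1 (Finset.mem_erase.1 h2).2).2,
          (Finset.mem_erase.1 (Finset.mem_erase.1 h3).2).2, h4, fun i hi hc => ?_⟩
        by_cases hib : i = b
        · omega
        by_cases hia : i = a
        · omega
        exact h5 i (Finset.mem_erase.2 ⟨hib, Finset.mem_erase.2 ⟨hia, hi⟩⟩) hc
    · intro M _ g
      rw [Finset.sum_insert hn, hQ3, add_assoc, Finset.add_sum_erase _ _ hb,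
        Finset.add_sum_erase _ _ ha]

theorem pairsO (O : Finset ℕ) (h : Even O.card) : ∃ Q : Finset (ℕ × ℕ), 2 * Q.card = O.card ∧
    (∀ p ∈ Q, p.1 ∈ O ∧ p.2 ∈ O ∧ p.1 < p.2 ∧ ∀ i ∈ O, ¬ (p.1 < i ∧ i < p.2)) ∧
    ∀ (M : Type) [AddCommMonoid M] (g : ℕ → M), ∑ p ∈ Q, (g p.1 + g p.2) = ∑ i ∈ O, g i := by
  obtain ⟨n, hn⟩ := h
  obtain ⟨Q, h1, h2, h3⟩ := pairs_aux n O (by omega)
  exact ⟨Q, by omega, h2, h3⟩

end Pool.Agent.EAD
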