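import Pool.Agent.EAD.NExt
import Pool.Agent.EAD.NLb

/-!
# EAD-NRk: the rank of the rows and the size of `mu`
-/

set_option autoImplicit false

open Finset
open scoped Classical

namespace Pool.Agent.EAD

open Pool.Agent.BEO hiding Cfg Frame

variable {k : ℕ} {Φ Vt Z : Type} [Fintype Φ] [Fintype Vt] [AddCommGroup Z] [Module F2 Z] [Module.Finite F2 Z]

omit [Module.Finite F2 Z] in
private theorem nr_prod (S : Sys k Φ Vt Z) (e : Ch S.P) (F G : Φ) (hFG : F ≠ G) :
    S.D.a e (S.D.z F) * S.D.a e (S.D.z G) = if s(S.D.s e, S.D.t e) = s(F, G) then 1 else 0 := by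
  have hst := s_ne_t S e
  rw [S.D.inc, S.D.inc]
  by_cases h1 : S.D.s e = F
  · have h2 : S.D.t e ≠ F := fun h => hst (h1.trans h.symm)
    have h3 : S.D.s e ≠ G := fun h => hFG (h1.symm.trans h)
    rw [if_pos h1, if_neg h2, if_neg h3, add_zero, one_mul, zero_add]
    by_cases h4 : S.D.t e = G
    · rw [if_pos h4, if_pos (by rw [h1, h4])]
    · rw [if_neg h4, if_neg]
      intro h5
      rcases Sym2.eq_iff.1 h5 with ⟨_, h6⟩ | ⟨h6, _⟩
      · exact h4 h6
      · exact h3 h6
  · by_cases h2 : S.D.t e = F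
    · have h3 : S.D.t e ≠ G := fun h => hFG (h2.symm.trans h)
      rw [if_neg h1, if_pos h2, if_neg h3, zero_add, one_mul, add_zero]
      by_cases h4 : S.D.s e = G
      · rw [if_pos h4, if_pos (by rw [h2, h4]; exact Sym2.eq_swap)]
      · rw [if_neg h4, if_neg]
        intro h5
        rcases Sym2.eq_iff.1 h5 with ⟨h6, _⟩ | ⟨h6, _⟩
        · exact h1 h6
        · exact h4 h6
    · rw [if_neg h1, if_neg h2, add_zero, zero_mul, if_neg]
      intro h5
      rcases Sym2.eq_iff.1 h5 with ⟨h6, _⟩ | ⟨_, h6⟩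
      · exact h1 h6
      · exact h2 h6

omit [Module.Finite F2 Z] in
private theorem nr_row {S : Sys k Φ Vt Z} {lam mu : Finset (Ch S.P)} (h : Ext S lam mu) (F G : Φ) :
    row (S.D.gr lam) F G = S.D.N lam (S.D.z F) (S.D.z G) := by
  rw [S.D.N_apply, S.D.J_z, zero_add]
  unfold row
  by_cases hFG : F = G
  · subst hFG
    rw [if_neg (fun hh => (S.D.gr lam).loopless.irrefl _ hh)]
    have h1 := (S.D.ev_iff lam).1 (S.D.ev_of_adm lam h.adm) F
    have h2 : ∀ y : F2, y * y = y := by decide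
    rw [sum_congr rfl fun e _ => h2 (S.D.a e (S.D.z F)), h1]
  · rw [sum_congr rfl fun e _ => nr_prod S e F G hFG]
    by_cases hA : (S.D.gr lam).Adj F G
    · rw [if_pos hA]
      obtain ⟨e, he, hee⟩ := (gr_mem S lam s(F, G)).1 hA
      rw [sum_eq_single_of_mem e he, if_pos hee]
      intro e' he' hne
      rw [if_neg]
      intro h3
      exact hne (noPar h e' he' e he (h3.trans hee.symm))
    · rw [if_neg hA]
      symm
      refine sum_eq_zero fun e he => ?_
      rw [if_neg]
      intro h3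
      exact hA ((gr_mem S lam s(F, G)).2 ⟨e, he, h3⟩)

theorem row_le {S : Sys k Φ Vt Z} {lam mu : Finset (Ch S.P)} (h : Ext S lam mu) :
    Module.finrank F2 (rowSp (S.D.gr lam)) ≤ S.D.rkN lam := by
  have h1 : rowSp (S.D.gr lam) =
      Submodule.span F2 (Set.range fun (F G : Φ) => S.D.N lam (S.D.z F) (S.D.z G)) := by
    unfold rowSp
    congr 2
    funext F G
    exact nr_row h F G
  rw [h1]
  exact S.D.gram_le lam

theorem rk_row {S : Sys k Φ Vt Z} {lam mu : Finset (Ch S.P)} (h : Ext S lam mu) :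
    Module.finrank F2 (rowSp (S.D.gr lam)) ≤ k + mu.card :=
  (row_le h).trans (opt_le S h mu h.admM)

theorem near_min {S : Sys k Φ Vt Z} {lam mu : Finset (Ch S.P)} (h : Ext S lam mu) (nu : Finset (Ch S.P))
    (hn : S.D.Adm nu) : mu.card ≤ nu.card + 13 * k := by
  have h1 := lb_row h lam (subset_refl _) h.adm
  have h2 := row_le h
  have h3 := opt_le S h nu hn
  omega

end Pool.Agent.EAD
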