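import Pool.Agent.EAD.WCyc

/-!
# EAD-WTwo: no two equal changes

The conditions of `four_cyc` for the cuts at a letter `w` and at the two changes, combined with `chk`.
-/

set_option autoImplicit false

open Finset
open scoped Classical

namespace Pool.Agent.EAD

theorem chk : ∀ (a b α β γ A' B' δ : ZMod 2), (a = 0 ∨ γ + α = 0) → (a = 0 ∨ γ + (α + a + A') = 0) →
    (b = 0 ∨ γ + β = 0) → (b = 0 ∨ γ + (β + b + B') = 0) → (a + b = 0 ∨ γ + β + (α + a + A') + δ = 0) →
    (a + b = 0 ∨ γ + α + (β + b + B') + δ = 0) → (a = 0 ∧ b = 0) ∨ (a = A' ∧ b = B') := by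
  decide

variable {A : Type} [Fintype A]

theorem no_two {B : A → A → Prop} (hB : ∀ a b, B a b → B b a) {d : ℕ} {κ : ℕ → Option A} (h : Four B d κ)
    {i1 j1 i2 j2 : ℕ} {u u' : A} (h12 : i1 < j1) (h23 : j1 < i2) (h34 : i2 < j2) (hd : j2 < d)
    (k1 : κ i1 = some u) (k2 : κ j1 = some u') (k3 : κ i2 = some u) (k4 : κ j2 = some u')
    (g1 : ∀ i, i1 < i → i < j1 → κ i = none) (g2 : ∀ i, i2 < i → i < j2 → κ i = none) (hP : pr κ i1 = pr κ i2)
    (occ : ∀ i, i < d → ∀ w, κ i = some w → ∃ t, t < d ∧ κ t = some w ∧ (t < i1 ∨ j2 < t))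
    (n1 : ∃ i, i < d ∧ ∃ w, κ i = some w ∧ B w u) (n2 : ∃ i, i < d ∧ ∃ w, κ i = some w ∧ B w u')
    (n3 : ∃ i, i < d ∧ ∃ w, κ i = some w ∧ ¬ (B w u ↔ B w u')) : False := by
  have hx : ∀ x : A → ZMod 2, x + x = 0 := fun x => by
    funext a
    exact CharTwo.add_self_eq_zero (x a)
  obtain ⟨s1, hs1⟩ : ∃ s1, s1 = pr κ i1 := ⟨_, rfl⟩
  obtain ⟨eu, heu⟩ : ∃ e, e = (Pi.single u 1 : A → ZMod 2) := ⟨_, rfl⟩
  obtain ⟨z, hz⟩ : ∃ z, z = (Pi.single u 1 + Pi.single u' 1 : A → ZMod 2) := ⟨_, rfl⟩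
  obtain ⟨τ, hτ⟩ : ∃ τ, τ = pr κ d := ⟨_, rfl⟩
  have p0 : pr κ i1 = s1 + 0 := by rw [add_zero, hs1]
  have q0 : pr κ i2 = s1 + 0 := by rw [add_zero, hs1, hP]
  have p1 : pr κ (i1 + 1) = s1 + eu := by rw [pr_some κ k1, hs1, heu]
  have q1 : pr κ (i2 + 1) = s1 + eu := by rw [pr_some κ k3, hs1, heu, hP]
  have p2 : pr κ (j1 + 1) = s1 + z := by
    rw [pr_some κ k2, pr_none κ (c := i1 + 1) (c' := j1) (by omega) (fun i a1 a2 => g1 i (by omega) a2), pr_some κ k1,
      hz, hs1, add_assoc]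
  have q2 : pr κ (j2 + 1) = s1 + z := by
    rw [pr_some κ k4, pr_none κ (c := i2 + 1) (c' := j2) (by omega) (fun i a1 a2 => g2 i (by omega) a2), pr_some κ k3,
      hz, hs1, hP, add_assoc]
  have H : ∀ w i, i < d → κ i = some w → ∃ s : A → ZMod 2, ∀ (x2 x3 : ℕ) (y2 y3 : A → ZMod 2), i1 ≤ x2 → x2 ≤ i2 →
      i2 ≤ x3 → x3 ≤ j2 + 1 → pr κ x2 = s1 + y2 → pr κ x3 = s1 + y3 →
      bt B (Pi.single w 1) (y2 + y3) = 0 ∨ bt B (s + y2) (s + τ + Pi.single w 1 + y3) = 0 := by
    intro w i hi hiw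
    obtain ⟨t, ht, hw, ht'⟩ := occ i hi w hiw
    have e0 : pr κ (t + 1) = pr κ t + Pi.single w 1 := pr_some κ hw
    rcases ht' with c1 | c1
    · refine ⟨s1 + pr κ (t + 1), ?_⟩
      intro x2 x3 y2 y3 a1 a2 a3 a4 a5 a6
      have h5 := four_cyc hB h (a := t) (b := t + 1) (c := x2) (e := x3) (by omega) (by omega) (by omega) (by omega)
      have e1 : pr κ (t + 1) + pr κ t = Pi.single w 1 := by
        rw [e0]
        linear_combination hx (pr κ t)
      have e2 : pr κ x3 + pr κ x2 = y2 + y3 := by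
        rw [a5, a6]
        linear_combination hx s1
      have e3 : pr κ x2 + pr κ (t + 1) = s1 + pr κ (t + 1) + y2 := by
        rw [a5]
        ring
      have e4 : pr κ d + pr κ x3 + pr κ t = s1 + pr κ (t + 1) + τ + Pi.single w 1 + y3 := by
        rw [a6, e0, hτ]
        linear_combination -(hx (Pi.single w 1))
      rw [e1, e2, e3, e4] at h5
      exact h5
    · refine ⟨τ + pr κ (t + 1) + s1, ?_⟩
      intro x2 x3 y2 y3 a1 a2 a3 a4 a5 a6
      have h5 := four_cyc hB h (a := x2) (b := x3) (c := t) (e := t + 1) (by omega) (by omega) (by omega) (by omega)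
      have e1 : pr κ (t + 1) + pr κ t = Pi.single w 1 := by
        rw [e0]
        linear_combination hx (pr κ t)
      have e2 : pr κ x3 + pr κ x2 = y2 + y3 := by
        rw [a5, a6]
        linear_combination hx s1
      have e3 : pr κ t + pr κ x3 = τ + pr κ (t + 1) + s1 + τ + Pi.single w 1 + y3 := by
        rw [a6, e0]
        linear_combination -(hx (Pi.single w 1)) - hx τ
      have e4 : pr κ d + pr κ (t + 1) + pr κ x2 = τ + pr κ (t + 1) + s1 + y2 := by
        rw [a5, hτ]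
        ring
      rw [e1, e2, e3, e4, bt_symm B hB (y2 + y3), bt_symm B hB (τ + pr κ (t + 1) + s1 + τ + Pi.single w 1 + y3)] at h5
      exact h5
  have key : ∀ w i, i < d → κ i = some w →
      (bt B (Pi.single w 1) eu = 0 ∧ bt B (Pi.single w 1) z = 0) ∨
        (bt B (Pi.single w 1) eu = bt B τ eu ∧ bt B (Pi.single w 1) z = bt B τ z) := by
    intro w i hi hiw
    obtain ⟨s, hs⟩ := H w i hi hiw
    obtain ⟨ew, hew⟩ : ∃ e, e = (Pi.single w 1 : A → ZMod 2) := ⟨_, rfl⟩
    rw [← hew] at hs ⊢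
    have hE : ∀ v : A → ZMod 2, bt B v (s + τ + ew) = bt B s v + bt B ew v + bt B τ v := by
      intro v
      rw [bt_add_right, bt_add_right, bt_symm B hB v s, bt_symm B hB v τ, bt_symm B hB v ew]
      ring
    have r1 := hs i1 (i2 + 1) 0 eu le_rfl (by omega) (by omega) (by omega) p0 q1
    have r2 := hs (i1 + 1) i2 eu 0 (by omega) (by omega) le_rfl (by omega) p1 q0
    have r3 := hs i1 (j2 + 1) 0 z le_rfl (by omega) (by omega) (by omega) p0 q2
    have r4 := hs (j1 + 1) i2 z 0 (by omega) (by omega) le_rfl (by omega) p2 q0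
    have r5 := hs (i1 + 1) (j2 + 1) eu z (by omega) (by omega) (by omega) (by omega) p1 q2
    have r6 := hs (j1 + 1) (i2 + 1) z eu (by omega) (by omega) (by omega) (by omega) p2 q1
    rw [zero_add, add_zero, bt_add_right B s (s + τ + ew) eu] at r1
    rw [add_zero, add_zero, bt_add_left B s eu, hE eu] at r2
    rw [zero_add, add_zero, bt_add_right B s (s + τ + ew) z] at r3
    rw [add_zero, add_zero, bt_add_left B s z, hE z] at r4
    rw [bt_add_right B ew, bt_add_right B (s + eu) (s + τ + ew) z, bt_add_left B s eu, bt_add_left B s eu, hE eu] at r5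
    rw [bt_add_right B ew, bt_add_right B (s + z) (s + τ + ew) eu, bt_add_left B s z, bt_add_left B s z, hE z,
      bt_symm B hB z eu] at r6
    refine chk (bt B ew eu) (bt B ew z) (bt B s eu) (bt B s z) (bt B s (s + τ + ew)) (bt B τ eu) (bt B τ z)
      (bt B eu z) r1 r2 r3 r4 ?_ ?_
    · refine r5.imp id fun h => ?_
      rw [← h]
      ring
    · refine r6.imp (fun h => ?_) fun h => ?_
      · rw [← h]
        ring
      · rw [← h]
        ring
  have va : ∀ w, bt B (Pi.single w 1) eu = if B w u then 1 else 0 := fun w => by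
    rw [heu, bt_single]
  have vb : ∀ w, bt B (Pi.single w 1) z = (if B w u then 1 else 0) + if B w u' then 1 else 0 := fun w => by
    rw [hz, bt_add_right, bt_single, bt_single]
  have hA' : bt B τ eu = 1 := by
    obtain ⟨i, hi, w, hw, hwu⟩ := n1
    have h1 := key w i hi hw
    rw [va, if_pos hwu] at h1
    rcases h1 with h1 | h1
    · exact absurd h1.1 (by decide)
    · exact h1.1.symm
  have hB' : bt B τ z = 1 := by
    obtain ⟨i, hi, w, hw, hwu⟩ := n3
    have h1 := key w i hi hw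
    have h2 : bt B (Pi.single w 1) z = 1 := by
      rw [vb]
      by_cases c1 : B w u <;> by_cases c2 : B w u'
      · exact absurd (iff_of_true c1 c2) hwu
      · rw [if_pos c1, if_neg c2, add_zero]
      · rw [if_neg c1, if_pos c2, zero_add]
      · exact absurd (iff_of_false c1 c2) hwu
    rw [h2] at h1
    rcases h1 with h1 | h1
    · exact absurd h1.2 (by decide)
    · exact h1.2.symm
  obtain ⟨i, hi, w, hw, hwu⟩ := n2
  have h1 := key w i hi hw
  rw [hA', hB', va, vb, if_pos hwu] at h1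
  by_cases c1 : B w u
  · rw [if_pos c1] at h1
    revert h1
    decide
  · rw [if_neg c1] at h1
    revert h1
    decide

end Pool.Agent.EAD
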