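import Mathlib

/-!
# EAD-YCnt: a conflict-free choice (Mathlib only)

PLAN. `m I v := r v + ∑ i ∉ I, p i v + ∑ i ∈ I, q i v`. (1) For `v ∈ X1` and `I = univ`: `∑ i, q i v ≤ F0 + 1`, so at most
`F0 + 1` indices `i` with `0 < q i v`; in all at most `x1 * (F0 + 1)`. (2) Indices `i` for which there is `v` with
`0 < q i v` and `2 ≤ m univ v`: at most `∑ v with 2 ≤ m univ v, m univ v ≤ 2 * ∑ v, (m univ v - 1) ≤ 2 * F0` (every such
`i` has `0 < q i v`, and `∑ i, q i v ≤ m univ v`). (3) `Ar := {(i, j) : i ≠ j, ∃ v, 0 < q i v ∧ 0 < p j v}`. For every `I`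
the number of `(i, j) ∈ Ar` with `i ∈ I`, `j ∉ I` is at most `∑ v with 2 ≤ m I v, (m I v) ^ 2 ≤
4 * ∑ v, (m I v - 1) ^ 2 ≤ 4 * (∑ v, (m I v - 1)) ^ 2 ≤ 4 * F0 ^ 2`. Every `(i, j) ∈ Ar` is counted for a quarter of all
`I` (the subsets containing `i` and not `j`; toggle `i` and `j`), so `Ar.card * 2 ^ t ≤ 4 * 2 ^ t * 4 * F0 ^ 2`:
`Ar.card ≤ 16 * F0 ^ 2`. An index `i` outside these three sets does it: if `0 < q i v` then `v ∉ X1`, `m univ v ≤ 1`
gives `q i v = 1`, `r v = 0`, and `p j v = 0` for `j ≠ i`.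
-/

set_option autoImplicit false

open Finset
open scoped Classical

namespace Pool.Agent.EAD

/-- the number of subsets which contain `i` and not `j` -/
private theorem yc_quarter {t : ℕ} {i j : Fin t} (h : i ≠ j) :
    2 ^ t ≤ 4 * ((univ : Finset (Finset (Fin t))).filter fun I => i ∈ I ∧ j ∉ I).card := by
  have h2 : ((univ \ {i, j} : Finset (Fin t))).card = t - 2 := by
    rw [card_sdiff_of_subset (subset_univ _), card_univ, Fintype.card_fin, card_pair h]
  have ht : 2 ≤ t := by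
    have h3 := card_le_univ ({i, j} : Finset (Fin t))
    rw [card_pair h, Fintype.card_fin] at h3
    exact h3
  have h3 : (univ \ {i, j} : Finset (Fin t)).powerset.card ≤
      ((univ : Finset (Finset (Fin t))).filter fun I => i ∈ I ∧ j ∉ I).card := by
    refine card_le_card_of_injOn (fun I => insert i I) ?_ ?_
    · intro I hI
      have hI' := mem_powerset.1 (mem_coe.1 hI)
      refine mem_coe.2 (mem_filter.2 ⟨mem_univ _, mem_insert_self i I, ?_⟩)
      intro hj
      rcases mem_insert.1 hj with h4 | h4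
      · exact h h4.symm
      · have h5 := (mem_sdiff.1 (hI' h4)).2
        exact h5 (mem_insert_of_mem (mem_singleton_self j))
    · intro I hI I' hI' he
      have h4 : i ∉ I := fun h5 => (mem_sdiff.1 (mem_powerset.1 (mem_coe.1 hI) h5)).2 (mem_insert_self i _)
      have h4' : i ∉ I' := fun h5 => (mem_sdiff.1 (mem_powerset.1 (mem_coe.1 hI') h5)).2 (mem_insert_self i _)
      have he' : insert i I = insert i I' := he
      rw [← erase_insert h4, ← erase_insert h4', he']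
  rw [card_powerset, h2] at h3
  have h4 : 2 ^ t = 4 * 2 ^ (t - 2) := by
    obtain ⟨s, rfl⟩ : ∃ s, t = s + 2 := ⟨t - 2, by omega⟩
    rw [Nat.add_sub_cancel, pow_add]
    ring
  rw [h4]
  omega

theorem conflict_free {V : Type} [Fintype V] (F0 x1 t : ℕ) (r : V → ℕ) (p q : Fin t → V → ℕ) (X1 : Finset V)
    (hX : X1.card ≤ x1) (hF : ∀ I : Finset (Fin t), ∑ v, ((r v + ∑ i ∈ univ \ I, p i v + ∑ i ∈ I, q i v) - 1) ≤ F0)
    (ht : x1 * (F0 + 1) + 2 * F0 + 16 * F0 ^ 2 < t) :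
    ∃ i, ∀ v, 0 < q i v → v ∉ X1 ∧ q i v = 1 ∧ r v = 0 ∧ ∀ j, j ≠ i → p j v = 0 := by
  obtain ⟨m, hm⟩ : ∃ m : Finset (Fin t) → V → ℕ, m = fun I v => r v + ∑ i ∈ univ \ I, p i v + ∑ i ∈ I, q i v :=
    ⟨_, rfl⟩
  have hmI : ∀ I v, m I v = r v + ∑ i ∈ univ \ I, p i v + ∑ i ∈ I, q i v := fun I v => by rw [hm]
  have hF' : ∀ I : Finset (Fin t), ∑ v, (m I v - 1) ≤ F0 := by
    intro I
    have h1 := hF I
    simp only [hmI]
    exact h1
  have hFv : ∀ I v, m I v - 1 ≤ F0 := fun I v =>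
    (single_le_sum (f := fun v => m I v - 1) (fun _ _ => Nat.zero_le _) (mem_univ v)).trans (hF' I)
  have hmu : ∀ v, m univ v = r v + ∑ i, q i v := by
    intro v
    rw [hmI, sdiff_self]
    simp
  -- the first set
  obtain ⟨B1, hB1⟩ : ∃ B1, B1 = X1.biUnion fun v => univ.filter fun i : Fin t => 0 < q i v := ⟨_, rfl⟩
  have hqc : ∀ v, (univ.filter fun i : Fin t => 0 < q i v).card ≤ m univ v := by
    intro v
    rw [hmu, card_filter]
    have : ∑ i : Fin t, (if 0 < q i v then 1 else 0) ≤ ∑ i : Fin t, q i v := by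
      refine sum_le_sum fun i _ => ?_
      split_ifs with h <;> omega
    omega
  have hB1c : B1.card ≤ x1 * (F0 + 1) := by
    rw [hB1]
    refine (card_biUnion_le_card_mul X1 _ (F0 + 1) fun v _ => ?_).trans (Nat.mul_le_mul_right _ hX)
    have h1 := hqc v
    have h2 := hFv univ v
    omega
  -- the second set
  obtain ⟨B2, hB2⟩ : ∃ B2, B2 = (univ.filter fun v => 2 ≤ m univ v).biUnion fun v =>
    univ.filter fun i : Fin t => 0 < q i v := ⟨_, rfl⟩
  have hB2c : B2.card ≤ 2 * F0 := by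
    rw [hB2]
    refine card_biUnion_le.trans ?_
    calc ∑ v ∈ univ.filter (fun v => 2 ≤ m univ v), (univ.filter fun i : Fin t => 0 < q i v).card ≤
        ∑ v ∈ univ.filter (fun v => 2 ≤ m univ v), 2 * (m univ v - 1) := by
          refine sum_le_sum fun v hv => ?_
          have h1 := hqc v
          have h2 := (mem_filter.1 hv).2
          omega
      _ ≤ ∑ v, 2 * (m univ v - 1) := sum_le_sum_of_subset (filter_subset _ _)
      _ = 2 * ∑ v, (m univ v - 1) := by rw [mul_sum]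
      _ ≤ 2 * F0 := Nat.mul_le_mul_left 2 (hF' univ)
  -- the third set
  obtain ⟨Ar, hAr⟩ : ∃ Ar : Finset (Fin t × Fin t), Ar = univ.filter fun a => a.1 ≠ a.2 ∧
    ∃ v, 0 < q a.1 v ∧ 0 < p a.2 v := ⟨_, rfl⟩
  have hI : ∀ I : Finset (Fin t), (Ar.filter fun a => a.1 ∈ I ∧ a.2 ∉ I).card ≤ 4 * F0 ^ 2 := by
    intro I
    have hsub : (Ar.filter fun a => a.1 ∈ I ∧ a.2 ∉ I) ⊆ (univ.filter fun v => 2 ≤ m I v).biUnion fun v =>
        (I.filter fun i => 0 < q i v) ×ˢ ((univ \ I).filter fun i => 0 < p i v) := by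
      intro a ha
      rw [mem_filter, hAr, mem_filter] at ha
      obtain ⟨⟨-, hne, v, hv1, hv2⟩, ha1, ha2⟩ := ha
      have ha2' : a.2 ∈ univ \ I := mem_sdiff.2 ⟨mem_univ _, ha2⟩
      refine mem_biUnion.2 ⟨v, mem_filter.2 ⟨mem_univ _, ?_⟩, mem_product.2 ⟨mem_filter.2 ⟨ha1, hv1⟩,
        mem_filter.2 ⟨ha2', hv2⟩⟩⟩
      rw [hmI]
      have h1 := single_le_sum (f := fun i => q i v) (fun _ _ => Nat.zero_le _) ha1
      have h2 := single_le_sum (f := fun i => p i v) (fun _ _ => Nat.zero_le _) ha2'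
      omega
    refine (card_le_card hsub).trans (card_biUnion_le.trans ?_)
    have hstep : ∀ v ∈ univ.filter (fun v => 2 ≤ m I v),
        ((I.filter fun i => 0 < q i v) ×ˢ ((univ \ I).filter fun i => 0 < p i v)).card ≤ 4 * F0 * (m I v - 1) := by
      intro v hv
      have hv2 := (mem_filter.1 hv).2
      rw [card_product]
      have h1 : (I.filter fun i => 0 < q i v).card ≤ m I v := by
        rw [hmI, card_filter]
        have : ∑ i ∈ I, (if 0 < q i v then 1 else 0) ≤ ∑ i ∈ I, q i v := by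
          refine sum_le_sum fun i _ => ?_
          split_ifs with h <;> omega
        omega
      have h2 : ((univ \ I).filter fun i => 0 < p i v).card ≤ m I v := by
        rw [hmI, card_filter]
        have : ∑ i ∈ univ \ I, (if 0 < p i v then 1 else 0) ≤ ∑ i ∈ univ \ I, p i v := by
          refine sum_le_sum fun i _ => ?_
          split_ifs with h <;> omega
        omega
      have h3 := hFv I v
      obtain ⟨c, hc⟩ : ∃ c, m I v = c + 1 := ⟨m I v - 1, by omega⟩
      have hc1 : 1 ≤ c := by omega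
      rw [hc] at h1 h2 h3 ⊢
      rw [Nat.add_sub_cancel] at h3 ⊢
      calc _ ≤ (c + 1) * (c + 1) := Nat.mul_le_mul h1 h2
        _ ≤ (2 * c) * (2 * c) := Nat.mul_le_mul (by omega) (by omega)
        _ = 4 * c * c := by ring
        _ ≤ 4 * F0 * c := Nat.mul_le_mul_right _ (Nat.mul_le_mul_left 4 h3)
    calc _ ≤ ∑ v ∈ univ.filter (fun v => 2 ≤ m I v), 4 * F0 * (m I v - 1) := sum_le_sum hstep
      _ ≤ ∑ v, 4 * F0 * (m I v - 1) := sum_le_sum_of_subset (filter_subset _ _)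
      _ = 4 * F0 * ∑ v, (m I v - 1) := by rw [mul_sum]
      _ ≤ 4 * F0 * F0 := Nat.mul_le_mul_left _ (hF' I)
      _ = 4 * F0 ^ 2 := by ring
  have hArc : Ar.card ≤ 16 * F0 ^ 2 := by
    have h1 : Ar.card * 2 ^ t ≤ 4 * (2 ^ t * (4 * F0 ^ 2)) := by
      calc Ar.card * 2 ^ t = ∑ _a ∈ Ar, 2 ^ t := by rw [sum_const, smul_eq_mul]
        _ ≤ ∑ a ∈ Ar, 4 * ((univ : Finset (Finset (Fin t))).filter fun I => a.1 ∈ I ∧ a.2 ∉ I).card := by
          refine sum_le_sum fun a ha => ?_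
          rw [hAr] at ha
          exact yc_quarter (mem_filter.1 ha).2.1
        _ = 4 * ∑ a ∈ Ar, ∑ I : Finset (Fin t), (if a.1 ∈ I ∧ a.2 ∉ I then 1 else 0) := by
          rw [mul_sum]
          refine sum_congr rfl fun a _ => ?_
          rw [card_filter]
        _ = 4 * ∑ I : Finset (Fin t), (Ar.filter fun a => a.1 ∈ I ∧ a.2 ∉ I).card := by
          rw [sum_comm]
          congr 1
          refine sum_congr rfl fun I _ => ?_
          rw [card_filter]
        _ ≤ 4 * ∑ _I : Finset (Fin t), 4 * F0 ^ 2 := Nat.mul_le_mul_left 4 (sum_le_sum fun I _ => hI I)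
        _ = 4 * (2 ^ t * (4 * F0 ^ 2)) := by
          rw [sum_const, smul_eq_mul, card_univ, Fintype.card_finset, Fintype.card_fin]
    have h2 : 0 < 2 ^ t := by positivity
    have h3 : Ar.card * 2 ^ t ≤ (16 * F0 ^ 2) * 2 ^ t := h1.trans (le_of_eq (by ring))
    exact Nat.le_of_mul_le_mul_right h3 h2
  have hB3c : (Ar.image Prod.fst).card ≤ 16 * F0 ^ 2 := card_image_le.trans hArc
  -- an index outside
  obtain ⟨i, hi⟩ : ∃ i, i ∉ B1 ∪ B2 ∪ Ar.image Prod.fst := by
    by_contra hcon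
    push Not at hcon
    have h1 : (univ : Finset (Fin t)) ⊆ B1 ∪ B2 ∪ Ar.image Prod.fst := fun i _ => hcon i
    have h2 := card_le_card h1
    rw [card_univ, Fintype.card_fin] at h2
    have h3 := card_union_le (B1 ∪ B2) (Ar.image Prod.fst)
    have h4 := card_union_le B1 B2
    omega
  rw [mem_union, mem_union, not_or, not_or] at hi
  obtain ⟨⟨hi1, hi2⟩, hi3⟩ := hi
  refine ⟨i, fun v hv => ?_⟩
  have h1 : v ∉ X1 := by
    intro h
    apply hi1
    rw [hB1]
    exact mem_biUnion.2 ⟨v, h, mem_filter.2 ⟨mem_univ _, hv⟩⟩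
  have h2 : ¬ 2 ≤ m univ v := by
    intro h
    apply hi2
    rw [hB2]
    exact mem_biUnion.2 ⟨v, mem_filter.2 ⟨mem_univ _, h⟩, mem_filter.2 ⟨mem_univ _, hv⟩⟩
  have h3 := single_le_sum (f := fun i => q i v) (fun _ _ => Nat.zero_le _) (mem_univ i)
  rw [hmu] at h2
  refine ⟨h1, by omega, by omega, fun j hj => ?_⟩
  by_contra h
  apply hi3
  refine mem_image.2 ⟨(i, j), ?_, rfl⟩
  rw [hAr]
  exact mem_filter.2 ⟨mem_univ _, fun h5 => hj h5.symm, v, hv, Nat.pos_of_ne_zero h⟩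

end Pool.Agent.EAD
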